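import Mathlib
import Pool.Agent.EllSch.Defs
import Pool.Agent.MM7.Defs

/-!
# EE7: common definitions (MP_870c49_nt, transcendental regulator on `E × E`, `E = ℂ / O`)

`O = ℤ[om]`, `om = (1 + √-7) / 2`, `xx n = n.1 + n.2 om` (both from MM7/Defs).
The Weierstrass functions of `O` are `P = ℘` and `P1 = ℘'` (series of `EllSch`, periods `1, om`).
-/

open MeasureTheory

namespace EE7

noncomputable section

/-- `om = (1 + √-7) / 2` -/
abbrev om : ℂ := MM7.om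

/-- the lattice element `n.1 + n.2 om` -/
abbrev xx (n : ℤ × ℤ) : ℂ := MM7.xx n

/-- complex conjugation as a plain function -/
abbrev cj (z : ℂ) : ℂ := (starRingEnd ℂ) z

/-- the complex conjugate of `om` -/
def ob : ℂ := 1 - om

/-- the point `p = ob / 2` of order two -/
def hp : ℂ := ob / 2

/-- the constant `2 π / √7` -/
def cc : ℝ := 2 * Real.pi / √7

/-- Weierstrass `℘` of `O` -/
def P (u : ℂ) : ℂ := Pool.Agent.EllSch.wp 1 om u

/-- its derivative -/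
def P1 (u : ℂ) : ℂ := Pool.Agent.EllSch.wq 1 om u

/-- `u` is not in `O` -/
def Ofl (u : ℂ) : Prop := Pool.Agent.EllSch.Off 1 om u

def e0 : ℂ := P (1 / 2)
def e1 : ℂ := P (ob / 2)
def e2 : ℂ := P (om / 2)

/-- the constant `C² = (e0 - e1) (e0 - e2)` -/
def CC : ℂ := (e0 - e1) * (e0 - e2)

open Classical in
/-- the doubly periodic (non holomorphic) zeta function; it is `0` on the lattice -/
def Z (u : ℂ) : ℂ :=
  if Ofl u then
    Pool.Agent.EllSch.wz 1 om u - (Pool.Agent.EllSch.eta1 1 om - cc) * u - cc * cj u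
  else 0

/-- periodicity with respect to `O` -/
def Per {A : Type*} (F : ℂ → A) : Prop := ∀ (u : ℂ) (n : ℤ × ℤ), F (u + xx n) = F u

/-- the characters of `ℂ / O` -/
def ch (n : ℤ × ℤ) (u : ℂ) : ℂ := Complex.exp (cc * (xx n * u - cj (xx n * u)))

/-- logarithmic derivative of `f(u) = C / (℘ u - e0)` -/
def ph (u : ℂ) : ℂ := 2 * Z u - 2 * Z (u + 1 / 2)

/-- `X(u,v) = f(u) f(v)` -/
def X (u v : ℂ) : ℂ := (P (u + 1 / 2) - e0) / (P v - e0)

/-- logarithmic derivative of `1 - X` in `u` -/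
def ps (u v : ℂ) : ℂ := Z (u + 1 / 2 + v) + Z (u + 1 / 2 - v) - 2 * Z (u + 1 / 2)

/-! ### the torus -/

/-- the torus `ℂ / O` in the real coordinates `u = s + t om` -/
abbrev E : Type := UnitAddCircle × UnitAddCircle

/-- the representative in `[0, 1)` -/
def rep (t : UnitAddCircle) : ℝ := (AddCircle.equivIco 1 0 t : ℝ)

/-- the representative of a point of the torus in the fundamental cell -/
def cu (x : E) : ℂ := (rep x.1 : ℂ) + (rep x.2 : ℂ) * om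

/-- the projection `ℂ → E` -/
def pr (u : ℂ) : E :=
  (((u.re - u.im / √7 : ℝ) : UnitAddCircle), ((2 * u.im / √7 : ℝ) : UnitAddCircle))

/-- Fourier coefficient -/
def fc (F : ℂ → ℂ) (n : ℤ × ℤ) : ℂ := ∫ x : E, F (cu x) * ch (-n) (cu x)

/-- the real linear map `h ↦ A h + B h̄` -/
def wl (A B : ℂ) : ℂ →L[ℝ] ℂ :=
  A • (ContinuousLinearMap.id ℝ ℂ) + B • (Complex.conjCLE : ℂ →L[ℝ] ℂ)

/-! ### the Bloch-Wigner dilogarithm -/

/-- the Bloch-Wigner dilogarithm `Im Li₂(z) + arg (1 - z) log |z|`, in the form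
`arg (1 - z) log |z| - ∫₀¹ arg (1 - t z) dt / t`, which is right for all complex `z` -/
def BW (z : ℂ) : ℝ :=
  Complex.arg (1 - z) * Real.log ‖z‖ - ∫ t in (0:ℝ)..1, Complex.arg (1 - t * z) / t

/-- `∂ BW` -/
def D1 (z : ℂ) : ℂ :=
  (1 / (2 * Complex.I)) * (-(Real.log ‖z‖ : ℂ) / (1 - z) - (Real.log ‖1 - z‖ : ℂ) / z)

/-- `∂ ∂ BW` -/
def D2 (z : ℂ) : ℂ :=
  (1 / (2 * Complex.I)) * (-(Real.log ‖z‖ : ℂ) / (1 - z) ^ 2 + (Real.log ‖1 - z‖ : ℂ) / z ^ 2)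

/-- `∂̄ ∂ BW` -/
def D11 (z : ℂ) : ℂ :=
  (1 / (4 * Complex.I)) * (1 / (z * (1 - cj z)) - 1 / (cj z * (1 - z)))

/-! ### the integrals -/

/-- the double Fourier coefficients of `BW (X u v)` -/
def Dh (n m : ℤ × ℤ) : ℂ :=
  ∫ q : E × E, (BW (X (cu q.1) (cu q.2)) : ℂ) * ch (-n) (cu q.1) * ch (-m) (cu q.2)

/-- the jacobian `(y_u z_v - y_v z_u) / (y z)` -/
def JJ (u v : ℂ) : ℂ :=
  ph (u + hp) * (ph (u + v) + ph (u - v)) + ph (v + hp) * (ph (u + v) - ph (u - v))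

/-- the regulator integral (one of the three terms) -/
def MJ : ℂ := ∫ q : E × E, (BW (X (cu q.1) (cu q.2)) : ℂ) * JJ (cu q.1) (cu q.2)

/-! ### weights and lattice sums -/

/-- indicator of `n.2` even -/
def ev (n : ℤ × ℤ) : ℂ := if Even n.2 then 1 else 0

/-- indicator of `n.2` odd -/
def od (n : ℤ × ℤ) : ℂ := if Even n.2 then 0 else 1

/-- `(-1) ^ n.1` -/
def sg (n : ℤ × ℤ) : ℂ := if Even n.1 then 1 else -1

/-- `(-1) ^ n.2` -/
def ep (n : ℤ × ℤ) : ℂ := if Even n.2 then 1 else -1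

/-- `Σ' x⁻² x̄⁻⁴` over `O` -/
def EE : ℂ := ∑' n : ℤ × ℤ, 1 / (xx n ^ 2 * cj (xx n) ^ 4)

/-- the kernel `1 / (s s̄² l l̄ (l̄ - s̄))` -/
def KK (s l : ℂ) : ℂ := 1 / (s * cj s ^ 2 * l * cj l * (cj l - cj s))

/-- `Σ KK (g x) (b y)` over `x, y ∈ O` (terms with a vanishing denominator are `0`) -/
def SS (g b : ℂ) : ℂ := ∑' q : (ℤ × ℤ) × (ℤ × ℤ), KK (g * xx q.1) (b * xx q.2)

/-- the lattice sum that comes out of the integral -/
def TT : ℂ := ∑' q : (ℤ × ℤ) × (ℤ × ℤ), od q.1 * ev q.2 *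
  (((xx q.2 ^ 2 * cj (xx q.1) ^ 2).im : ℝ) : ℂ) /
    (xx q.1 * cj (xx q.1) * (xx q.2 * cj (xx q.2)) *
      ((xx q.1 ^ 2 - xx q.2 ^ 2) * (cj (xx q.1) ^ 2 - cj (xx q.2) ^ 2))) *
  (sg (q.1 - q.2) / (cj (xx q.1) * (cj (xx q.1) - cj (xx q.2))) - sg q.1 / cj (xx q.1) ^ 2)

/-- closed form of the double Fourier coefficients (first index with `n.2` odd) -/
def DF (n m : ℤ × ℤ) : ℂ := ev m * (4 / (cc : ℂ) ^ 2) *
  (((xx m ^ 2 * cj (xx n) ^ 2).im : ℝ) : ℂ) /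
    (xx n * cj (xx n) * (xx m * cj (xx m)) *
      ((xx n ^ 2 - xx m ^ 2) * (cj (xx n) ^ 2 - cj (xx m) ^ 2)))

/-- the lattice sum `TT` after symmetrisation, `q = (s, m)` -/
def TS : ℂ := ∑' q : (ℤ × ℤ) × (ℤ × ℤ), od q.1 * ev q.2 * sg q.1 *
  (((xx q.2 * cj (xx q.1)).im : ℝ) : ℂ) /
    ((xx q.1 + xx q.2) * cj (xx q.1 + xx q.2) * (xx q.2 * cj (xx q.2)) * (xx q.1 * cj (xx q.1))) *
  (2 * cj (xx q.1 + xx q.2) / (cj (xx q.1) ^ 2 * cj (xx q.1 + 2 * xx q.2)))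

/-- `U = U₁ - U₂ / 2` -/
def UU : ℂ := ∑' q : (ℤ × ℤ) × (ℤ × ℤ), sg q.1 * od q.1 *
  (od q.2 * KK (xx q.1) (xx q.2) - 2 * KK (xx q.1) (2 * xx q.2))

/-- the linear form `a x + b y` at `q = (x, y)` -/
def LF (a b : ℤ × ℤ) (q : (ℤ × ℤ) × (ℤ × ℤ)) : ℂ := xx a * xx q.1 + xx b * xx q.2

/-! ### double Fourier coefficients and approximate identities -/

/-- Fourier coefficients on `E × E` -/
def fcc (F : E × E → ℂ) (k : (ℤ × ℤ) × (ℤ × ℤ)) : ℂ :=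
  ∫ q : E × E, F q * (ch (-k.1) (cu q.1) * ch (-k.2) (cu q.2))

/-- approximate identities -/
structure AI {G : Type*} [AddGroup G] [TopologicalSpace G] [MeasureSpace G]
    (K : ℕ → G → ℝ) : Prop where
  nonneg : ∀ N x, 0 ≤ K N x
  cont : ∀ N, Continuous (K N)
  int_one : ∀ N, ∫ x, K N x = 1
  conc : ∀ U ∈ nhds (0 : G), Filter.Tendsto (fun N => ∫ x in Uᶜ, K N x) Filter.atTop (nhds 0)

/-- the points `u` at which `X u v` is defined and different from `0`, `1`, `∞` -/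
def Good (v u : ℂ) : Prop := Ofl u ∧ Ofl (u + 1 / 2) ∧ Ofl (u + 1 / 2 + v) ∧ Ofl (u + 1 / 2 - v)

/-! ### the surface and the regulator -/

/-- the three coordinate functions of the map `E × E → W` -/
def xf (u v : ℂ) : ℂ := -(P (u + 1 / 2) - e0) / (P v - e0)
def yf (u v : ℂ) : ℂ := -(P (v + hp) - e0) / (P (u + hp) - e0)
def zf (u v : ℂ) : ℂ := -(P (u - v) - e0) / (P (u + v) - e0)

/-- generic points: none of `u`, `v`, `u + v`, `u - v` is a half period -/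
def Gen (u v : ℂ) : Prop :=
  Ofl (2 * u) ∧ Ofl (2 * v) ∧ Ofl (2 * (u + v)) ∧ Ofl (2 * (u - v))

/-- the coefficient of `du ∧ dv` in `dlog f ∧ dlog g` -/
def wedge (f g : ℂ → ℂ → ℂ) (u v : ℂ) : ℂ :=
  (deriv (fun w => f w v) u * deriv (fun w => g u w) v
    - deriv (fun w => f u w) v * deriv (fun w => g w v) u) / (f u v * g u v)

/-- the coefficient of `du ∧ dv` in the regulator form of
`ξ = {-x}₂ ⊗ y ∧ z + {-y}₂ ⊗ z ∧ x + {-z}₂ ⊗ x ∧ y` -/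
def Reg (u v : ℂ) : ℂ :=
  (BW (-xf u v) : ℂ) * wedge yf zf u v + (BW (-yf u v) : ℂ) * wedge zf xf u v
    + (BW (-zf u v) : ℂ) * wedge xf yf u v

end

end EE7
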