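import Mathlib
import Pool.Agent.EE7.Defs

/-!
# EE7/AIm: approximate identities

PROOF. `K N` is integrable since its integral is `1 ≠ 0`. `ai_tendsto`: let `‖F‖ ≤ C`, `‖L‖ ≤ C`,
`ε > 0`, `U ∈ 𝓝 0` with `‖F x - L‖ ≤ ε` for `x ∈ U`, `x ≠ 0` (measure zero). Then
`‖∫ K F - L‖ = ‖∫ K (F - L)‖ ≤ ε ∫ K + 2 C ∫_{Uᶜ} K`. `ai_prod`: Fubini; a neighbourhood of
`(0,0)` contains `U ×ˢ V`, and `(U ×ˢ V)ᶜ ⊆ Uᶜ ×ˢ univ ∪ univ ×ˢ Vᶜ` (take `U, V` open, or measurable).
-/

open MeasureTheory Set Filter Topology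

namespace EE7

theorem ai_int {G : Type*} [AddGroup G] [TopologicalSpace G] [MeasureSpace G]
    {K : ℕ → G → ℝ} (hK : AI K) (N : ℕ) : Integrable (K N) := by
  by_contra h
  have h1 := hK.int_one N
  rw [integral_undef h] at h1
  norm_num at h1

theorem ai_tendsto {G : Type*} [AddGroup G] [TopologicalSpace G] [MeasureSpace G] [BorelSpace G]
    {K : ℕ → G → ℝ} (hK : AI K) {F : G → ℂ} (hF : Measurable F) (hb : ∃ C, ∀ x, ‖F x‖ ≤ C)
    {L : ℂ} (hL : Tendsto F (𝓝[≠] 0) (𝓝 L)) (h0 : (volume : Measure G) {0} = 0) :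
    Tendsto (fun N => ∫ x, (K N x : ℂ) * F x) atTop (𝓝 L) := by
  obtain ⟨C, hC⟩ := hb
  have hC0 : 0 ≤ C := le_trans (norm_nonneg _) (hC 0)
  set D : ℝ := C + ‖L‖ with hD
  have hD0 : 0 ≤ D := by positivity
  rw [Metric.tendsto_atTop]
  intro ε hε
  have h1 : ∀ᶠ x in 𝓝[≠] (0 : G), dist (F x) L < ε / 2 :=
    hL (Metric.ball_mem_nhds L (half_pos hε))
  rw [eventually_nhdsWithin_iff, eventually_nhds_iff] at h1
  obtain ⟨U, hU, hUo, hU0⟩ := h1
  have h2 := hK.conc U (hUo.mem_nhds hU0)
  rw [Metric.tendsto_atTop] at h2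
  obtain ⟨N0, hN0⟩ := h2 (ε / (2 * (D + 1))) (by positivity)
  refine ⟨N0, fun N hN => ?_⟩
  have hKi : Integrable (K N) := ai_int hK N
  have hKc : Integrable (fun x => (K N x : ℂ)) := hKi.ofReal
  have hKF : Integrable (fun x => (K N x : ℂ) * F x) :=
    hKc.mul_bdd hF.aestronglyMeasurable (Eventually.of_forall hC)
  have hKL : Integrable (fun x => (K N x : ℂ) * L) := hKc.mul_const L
  have hL1 : ∫ x, (K N x : ℂ) * L = L := by
    rw [integral_mul_const, show (∫ a, ((K N a : ℝ) : ℂ)) = ((∫ a, K N a : ℝ) : ℂ) from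
      integral_ofReal, hK.int_one]
    simp
  have h3 : (∫ x, (K N x : ℂ) * F x) - L = ∫ x, (K N x : ℂ) * (F x - L) := by
    rw [← hL1, ← integral_sub hKF (by simpa [hL1] using hKL), hL1]
    congr 1
    funext x
    ring
  rw [dist_eq_norm, h3]
  have hind : Integrable (Uᶜ.indicator (K N)) := hKi.indicator hUo.measurableSet.compl
  have h4 : ‖∫ x, (K N x : ℂ) * (F x - L)‖ ≤ ∫ x, (ε / 2 * K N x + D * Uᶜ.indicator (K N) x) := by
    refine norm_integral_le_of_norm_le ((hKi.const_mul _).add (hind.const_mul _)) ?_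
    have hne : ∀ᵐ x : G, x ≠ 0 := by
      rw [ae_iff]
      simpa using h0
    filter_upwards [hne] with x hx
    rw [norm_mul, Complex.norm_real, Real.norm_of_nonneg (hK.nonneg N x)]
    by_cases hxU : x ∈ U
    · have h5 : ‖F x - L‖ < ε / 2 := by
        rw [← dist_eq_norm]
        exact hU x hxU hx
      have h6 : Uᶜ.indicator (K N) x = 0 := by
        simp [hxU]
      rw [h6, mul_zero, add_zero, mul_comm]
      exact mul_le_mul_of_nonneg_right h5.le (hK.nonneg N x)
    · have h5 : ‖F x - L‖ ≤ D := (norm_sub_le _ _).trans (by rw [hD]; gcongr; exact hC x)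
      have h6 : Uᶜ.indicator (K N) x = K N x := by
        simp [hxU]
      rw [h6]
      have h7 := mul_le_mul_of_nonneg_left h5 (hK.nonneg N x)
      have h8 : 0 ≤ ε / 2 * K N x := mul_nonneg (by positivity) (hK.nonneg N x)
      nlinarith
  refine lt_of_le_of_lt h4 ?_
  rw [integral_add (hKi.const_mul _) (hind.const_mul _), integral_const_mul, integral_const_mul,
    hK.int_one, mul_one, integral_indicator hUo.measurableSet.compl]
  have h9 := hN0 N hN
  rw [Real.dist_eq, sub_zero] at h9
  have h10 := lt_of_le_of_lt (le_abs_self _) h9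
  have h11 : D * ∫ x in Uᶜ, K N x ≤ D * (ε / (2 * (D + 1))) :=
    mul_le_mul_of_nonneg_left h10.le hD0
  have h12 : D * (ε / (2 * (D + 1))) < ε / 2 := by
    rw [mul_div_assoc', div_lt_div_iff₀ (by positivity) (by norm_num)]
    nlinarith
  linarith

theorem ai_prod {G H : Type*} [AddGroup G] [TopologicalSpace G] [MeasureSpace G] [BorelSpace G]
    [SecondCountableTopology G] [SFinite (volume : Measure G)]
    [AddGroup H] [TopologicalSpace H] [MeasureSpace H] [BorelSpace H]
    [SecondCountableTopology H] [SFinite (volume : Measure H)]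
    {K : ℕ → G → ℝ} {J : ℕ → H → ℝ} (hK : AI K) (hJ : AI J) :
    AI (fun N (x : G × H) => K N x.1 * J N x.2) := by
  have hint : ∀ N, Integrable (fun x : G × H => K N x.1 * J N x.2) := fun N =>
    (ai_int hK N).mul_prod (ai_int hJ N)
  refine ⟨fun N x => mul_nonneg (hK.nonneg N _) (hJ.nonneg N _), fun N => ?_, fun N => ?_, ?_⟩
  · exact ((hK.cont N).comp continuous_fst).mul ((hJ.cont N).comp continuous_snd)
  · rw [Measure.volume_eq_prod, integral_prod_mul, hK.int_one, hJ.int_one, mul_one]
  · intro W hW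
    rw [show (0 : G × H) = ((0 : G), (0 : H)) from rfl, mem_nhds_prod_iff'] at hW
    obtain ⟨U, V, hU, hU0, hV, hV0, hUV⟩ := hW
    have hA := hK.conc U (hU.mem_nhds hU0)
    have hB := hJ.conc V (hV.mem_nhds hV0)
    have hAB := hA.add hB
    rw [add_zero] at hAB
    refine squeeze_zero (fun N => ?_) (fun N => ?_) hAB
    · exact integral_nonneg fun x => mul_nonneg (hK.nonneg N _) (hJ.nonneg N _)
    · have hm : MeasurableSet ((U ×ˢ V)ᶜ : Set (G × H)) :=
        (hU.measurableSet.prod hV.measurableSet).compl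
      have h1 : ∫ x in Wᶜ, K N x.1 * J N x.2 ≤ ∫ x in ((U ×ˢ V)ᶜ : Set (G × H)), K N x.1 * J N x.2 := by
        refine setIntegral_mono_set (hint N).integrableOn ?_ ?_
        · exact Eventually.of_forall fun x => mul_nonneg (hK.nonneg N _) (hJ.nonneg N _)
        · exact (compl_subset_compl.2 hUV).eventuallyLE
      refine h1.trans ?_
      have hi1 : Integrable (Uᶜ.indicator (K N)) := (ai_int hK N).indicator hU.measurableSet.compl
      have hi2 : Integrable (Vᶜ.indicator (J N)) := (ai_int hJ N).indicator hV.measurableSet.compl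
      have hp1 : Integrable (fun x : G × H => Uᶜ.indicator (K N) x.1 * J N x.2) :=
        hi1.mul_prod (ai_int hJ N)
      have hp2 : Integrable (fun x : G × H => K N x.1 * Vᶜ.indicator (J N) x.2) :=
        (ai_int hK N).mul_prod hi2
      rw [← integral_indicator hm]
      have h2 : ∫ x, ((U ×ˢ V)ᶜ : Set (G × H)).indicator (fun x => K N x.1 * J N x.2) x ≤
          ∫ x : G × H, (Uᶜ.indicator (K N) x.1 * J N x.2 + K N x.1 * Vᶜ.indicator (J N) x.2) := by
        refine integral_mono ((hint N).indicator hm) (hp1.add hp2) ?_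
        intro x
        have hk := hK.nonneg N x.1
        have hj := hJ.nonneg N x.2
        have hkj := mul_nonneg hk hj
        show ((U ×ˢ V)ᶜ : Set (G × H)).indicator (fun x => K N x.1 * J N x.2) x ≤
          Uᶜ.indicator (K N) x.1 * J N x.2 + K N x.1 * Vᶜ.indicator (J N) x.2
        by_cases hxU : x.1 ∈ U
        · by_cases hxV : x.2 ∈ V
          · have : x ∉ ((U ×ˢ V)ᶜ : Set (G × H)) := by
              simp [mem_prod, hxU, hxV]
            rw [indicator_of_notMem this]
            simp [hxU, hxV]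
          · have : x ∈ ((U ×ˢ V)ᶜ : Set (G × H)) := by
              simp [mem_prod, hxV]
            rw [indicator_of_mem this]
            simp [hxU, hxV]
        · have : x ∈ ((U ×ˢ V)ᶜ : Set (G × H)) := by
            simp [mem_prod, hxU]
          rw [indicator_of_mem this]
          by_cases hxV : x.2 ∈ V
          · simp [hxU, hxV]
          · simp [hxU, hxV, hkj]
      refine h2.trans (le_of_eq ?_)
      rw [integral_add hp1 hp2, Measure.volume_eq_prod, integral_prod_mul, integral_prod_mul,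
        hK.int_one, hJ.int_one, mul_one, one_mul, integral_indicator hU.measurableSet.compl,
        integral_indicator hV.measurableSet.compl]

end EE7
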