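import Mathlib
import Pool.Agent.EE7.Defs
import Pool.Agent.EllSch.Lattice

/-!
# EE7/Bas: elementary facts on `om`, `xx`, `cc`
-/

open Pool.Agent.EllSch (Ind lat)

namespace EE7

lemma om_re : om.re = 1 / 2 := by
  simp [om, MM7.om, MM7.rt]

lemma om_im : om.im = √7 / 2 := by
  simp [om, MM7.om, MM7.rt]

lemma sqrt7_sq : (√7 : ℝ) ^ 2 = 7 := Real.sq_sqrt (by norm_num)

lemma sqrt7_pos : (0:ℝ) < √7 := Real.sqrt_pos.2 (by norm_num)

lemma rt_sq : MM7.rt ^ 2 = -7 := by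
  have h : ((√7 : ℝ) : ℂ) ^ 2 = 7 := by
    rw [← Complex.ofReal_pow, sqrt7_sq]
    norm_num
  rw [MM7.rt, mul_pow, Complex.I_sq, h]
  ring

lemma om_sq : om ^ 2 = om - 2 := by
  have h := rt_sq
  simp only [om, MM7.om]
  linear_combination h / 4

lemma cj_om : cj om = ob := by
  apply Complex.ext
  · rw [ob, cj, Complex.conj_re, Complex.sub_re, om_re]
    norm_num
  · rw [ob, cj, Complex.conj_im, Complex.sub_im, om_im]
    simp

lemma cj_ob : cj ob = om := by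
  rw [← cj_om]
  exact Complex.conj_conj om

lemma om_mul_ob : om * ob = 2 := by
  rw [ob]
  linear_combination -om_sq

lemma om_add_ob : om + ob = 1 := by
  rw [ob]
  ring

lemma ob_sq : ob ^ 2 = ob - 2 := by
  rw [ob]
  linear_combination om_sq

lemma om_sub_ob : om - ob = MM7.rt := by
  rw [ob, om, MM7.om]
  ring

lemma om_ne_zero : om ≠ 0 := fun h => by
  have := om_mul_ob
  rw [h] at this
  norm_num at this

lemma ob_ne_zero : ob ≠ 0 := fun h => by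
  have := om_mul_ob
  rw [h] at this
  norm_num at this

lemma ind : Ind 1 om := by
  unfold Ind
  rw [Complex.one_re, Complex.one_im, om_im]
  have := sqrt7_pos
  simp only [one_mul, zero_mul, sub_zero]
  positivity

lemma xx_def (n : ℤ × ℤ) : xx n = (n.1 : ℂ) + (n.2 : ℂ) * om := rfl

lemma lat_eq (n : ℤ × ℤ) : lat 1 om n = xx n := by
  rw [lat, xx_def, mul_one]

lemma ofl_iff (u : ℂ) : Ofl u ↔ ∀ n, u ≠ xx n := by
  unfold Ofl Pool.Agent.EllSch.Off
  simp only [lat_eq]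

lemma not_ofl_iff (u : ℂ) : ¬ Ofl u ↔ ∃ n, u = xx n := by
  rw [ofl_iff]
  push Not
  rfl

lemma xx_zero : xx 0 = 0 := by
  simp [xx_def]

lemma xx_add (n m : ℤ × ℤ) : xx (n + m) = xx n + xx m := by
  simp only [xx_def, Prod.fst_add, Prod.snd_add]
  push_cast
  ring

lemma xx_neg (n : ℤ × ℤ) : xx (-n) = -xx n := by
  simp only [xx_def, Prod.fst_neg, Prod.snd_neg]
  push_cast
  ring

lemma xx_sub (n m : ℤ × ℤ) : xx (n - m) = xx n - xx m := by
  rw [sub_eq_add_neg, xx_add, xx_neg, sub_eq_add_neg]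

lemma xx_inj : Function.Injective xx := by
  intro n m h
  have h2 := congrArg Complex.im h
  have h1 := congrArg Complex.re h
  simp only [xx_def, Complex.add_re, Complex.add_im, Complex.mul_re, Complex.mul_im,
    Complex.intCast_re, Complex.intCast_im, om_re, om_im] at h1 h2
  have h7 := sqrt7_pos
  have e2 : (n.2 : ℝ) = m.2 := by
    have : ((n.2 : ℝ) - m.2) * (√7 / 2) = 0 := by linarith
    rcases mul_eq_zero.1 this with h | h
    · linarith
    · linarith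
  have e1 : (n.1 : ℝ) = m.1 := by
    rw [e2] at h1
    linarith
  exact Prod.ext (by exact_mod_cast e1) (by exact_mod_cast e2)

lemma xx_eq_zero {n : ℤ × ℤ} : xx n = 0 ↔ n = 0 := by
  constructor
  · intro h
    exact xx_inj (by rw [h, xx_zero])
  · rintro rfl
    exact xx_zero

lemma cj_add (a b : ℂ) : cj (a + b) = cj a + cj b := map_add _ a b
lemma cj_sub (a b : ℂ) : cj (a - b) = cj a - cj b := map_sub _ a b
lemma cj_mul (a b : ℂ) : cj (a * b) = cj a * cj b := map_mul _ a b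
lemma cj_neg (a : ℂ) : cj (-a) = -cj a := map_neg _ a
lemma cj_cj (a : ℂ) : cj (cj a) = a := Complex.conj_conj a
lemma cj_div (a b : ℂ) : cj (a / b) = cj a / cj b := map_div₀ _ a b
lemma cj_pow (a : ℂ) (k : ℕ) : cj (a ^ k) = cj a ^ k := map_pow _ a k
lemma cj_zero : cj 0 = 0 := map_zero _
lemma cj_one : cj 1 = 1 := map_one _
lemma cj_two : cj 2 = 2 := map_ofNat _ 2
lemma cj_eq_zero {a : ℂ} : cj a = 0 ↔ a = 0 := by simp [cj]
lemma cj_int (k : ℤ) : cj (k : ℂ) = k := map_intCast (starRingEnd ℂ) k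
lemma cj_real (r : ℝ) : cj (r : ℂ) = r := Complex.conj_ofReal r
lemma norm_cj (a : ℂ) : ‖cj a‖ = ‖a‖ := RCLike.norm_conj a

lemma cj_xx (n : ℤ × ℤ) : cj (xx n) = xx (n.1 + n.2, -n.2) := by
  rw [xx_def, xx_def, cj_add, cj_mul, cj_int, cj_int, cj_om, ob]
  push_cast
  ring

lemma om_mul_xx (n : ℤ × ℤ) : om * xx n = xx (-2 * n.2, n.1 + n.2) := by
  rw [xx_def, xx_def]
  push_cast
  linear_combination (n.2 : ℂ) * om_sq

lemma ob_mul_xx (n : ℤ × ℤ) : ob * xx n = xx (n.1 + 2 * n.2, -n.1) := by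
  rw [xx_def, xx_def, ob]
  push_cast
  linear_combination -(n.2 : ℂ) * om_sq

lemma two_mul_xx (n : ℤ × ℤ) : 2 * xx n = xx (2 * n.1, 2 * n.2) := by
  rw [xx_def, xx_def]
  push_cast
  ring

/-- the norm form -/
lemma xx_mul_cj (n : ℤ × ℤ) :
    xx n * cj (xx n) = ((n.1 ^ 2 + n.1 * n.2 + 2 * n.2 ^ 2 : ℤ) : ℂ) := by
  rw [xx_def, cj_add, cj_mul, cj_int, cj_int, cj_om]
  push_cast
  linear_combination (n.1 : ℂ) * n.2 * om_add_ob + (n.2 : ℂ) ^ 2 * om_mul_ob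

lemma norm_sq_xx (n : ℤ × ℤ) : ‖xx n‖ ^ 2 = (n.1 : ℝ) ^ 2 + n.1 * n.2 + 2 * (n.2 : ℝ) ^ 2 := by
  have h := xx_mul_cj n
  rw [cj, Complex.mul_conj, Complex.normSq_eq_norm_sq] at h
  exact_mod_cast h

lemma one_le_norm_xx {n : ℤ × ℤ} (hn : n ≠ 0) : 1 ≤ ‖xx n‖ := by
  have h := norm_sq_xx n
  have h1 : (1 : ℤ) ≤ n.1 ^ 2 + n.1 * n.2 + 2 * n.2 ^ 2 := by
    by_contra hc
    have h0 : n.1 ^ 2 + n.1 * n.2 + 2 * n.2 ^ 2 ≤ 0 := by omega
    have h2 : n.2 = 0 := by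
      by_contra h2
      have : 0 < n.2 ^ 2 := by positivity
      nlinarith [sq_nonneg (2 * n.1 + n.2)]
    have h3 : n.1 = 0 := by
      rw [h2] at h0
      have : n.1 ^ 2 ≤ 0 := by simpa using h0
      exact pow_eq_zero_iff (two_ne_zero) |>.1 (le_antisymm this (sq_nonneg _))
    exact hn (Prod.ext h3 h2)
  have h4 : (1 : ℝ) ≤ ‖xx n‖ ^ 2 := by
    rw [h]
    exact_mod_cast h1
  nlinarith [norm_nonneg (xx n)]

lemma cc_pos : 0 < cc := by
  unfold cc
  have := sqrt7_pos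
  positivity

lemma cc_sq : cc ^ 2 = 4 * Real.pi ^ 2 / 7 := by
  unfold cc
  rw [div_pow, sqrt7_sq]
  ring

/-- `cc (om - ob) = 2 π i` -/
lemma cc_mul : (cc : ℂ) * (om - ob) = 2 * Real.pi * Complex.I := by
  rw [om_sub_ob, MM7.rt, cc]
  have h7 : ((√7 : ℝ) : ℂ) ≠ 0 := by
    exact_mod_cast sqrt7_pos.ne'
  push_cast
  field_simp

end EE7
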