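import Mathlib
import Pool.Agent.EE7.Bas

/-!
# EE7/BWa: the Bloch-Wigner dilogarithm, first part

`BW z = arg (1 - z) log ‖z‖ - ∫₀¹ arg (1 - t z)/t dt`.
PROOF. *Real `z`*: if `z < 1` all `arg`s are `0`; `z = 1`: `arg 0 = 0`, `log 1 = 0`; if `z > 1`:
`arg (1 - z) = π`, `arg (1 - t z) = π` for `t > 1/z` and `0` for `t < 1/z`, so
`BW z = π log z - ∫_{1/z}^1 π/t dt = 0`.
*Measurable*: `arg` is measurable, the parametric integral is measurable
(`StronglyMeasurable.integral_prod_right` or similar), `log ‖z‖` is measurable.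
*Derivative* on `U = {z : 1 - z ∈ slitPlane}`, `z ≠ 0`: `I(z) = ∫₀¹ arg (1 - t z)/t dt = Im F(z)`,
`F(z) = ∫₀¹ log (1 - t z)/t dt`. `U` is open and star-shaped at `0`; `F` is holomorphic on `U` with
`F'(z) = ∫₀¹ -1/(1 - t z) dt = log (1 - z)/z` (differentiation under the integral,
`hasDerivAt_integral_of_dominated_loc_of_deriv_le`: near `z` all `1 - t w` stay in a compact subset
of the slit plane; the last equality is `d/dt log (1 - t z) = -z/(1 - t z)`).
So for `h ∈ ℂ`: `dI(h) = Im (log (1-z) h/z)`, `d arg(1 - z)(h) = Im (-h/(1-z))` and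
`d log ‖z‖ (h) = Re (h/z)`, hence
`dBW(h) = -log‖z‖ Im (h/(1-z)) + arg(1-z) Re (h/z) - log‖1-z‖ Im (h/z) - arg(1-z) Re (h/z)
= Im (W h)` with `W = -log‖z‖/(1-z) - log‖1-z‖/z`, and `wl (D1 z) (cj (D1 z)) h = 2 Re (D1 z h) =
Im (W h)` because `D1 z = W/(2i)`.
-/

open MeasureTheory Set
open scoped Interval

namespace EE7

theorem BW_real {z : ℂ} (h : z.im = 0) : BW z = 0 := by
  obtain ⟨x, rfl⟩ : ∃ x : ℝ, z = (x : ℂ) := ⟨z.re, by apply Complex.ext <;> simp [h]⟩
  have e : ∀ t : ℝ, (1 : ℂ) - (t : ℂ) * (x : ℂ) = ((1 - t * x : ℝ) : ℂ) := fun t => by push_cast; rfl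
  have e1 : (1 : ℂ) - (x : ℂ) = ((1 - x : ℝ) : ℂ) := by push_cast; rfl
  unfold BW
  simp only [e, e1]
  rcases le_or_gt x 1 with hx | hx
  · rw [Complex.arg_ofReal_of_nonneg (by linarith), zero_mul, zero_sub, neg_eq_zero]
    rw [intervalIntegral.integral_congr (g := fun _ => (0 : ℝ)), intervalIntegral.integral_zero]
    intro t ht
    rw [uIcc_of_le zero_le_one] at ht
    simp only
    have : 0 ≤ 1 - t * x := by nlinarith [ht.1, ht.2]
    rw [Complex.arg_ofReal_of_nonneg this, zero_div]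
  · have hx0 : 0 < x := by linarith
    have hi0 : 0 < 1 / x := by positivity
    have hi1 : 1 / x < 1 := by rw [div_lt_one hx0]; exact hx
    rw [Complex.arg_ofReal_of_neg (by linarith)]
    have c1 : EqOn (fun t : ℝ => Complex.arg ((1 - t * x : ℝ) : ℂ) / t) (fun _ => (0 : ℝ))
        (Ioc 0 (1 / x)) := by
      intro t ht
      have : t * x ≤ 1 := by
        have := ht.2
        rw [le_div_iff₀ hx0] at this
        exact this
      simp only
      rw [Complex.arg_ofReal_of_nonneg (by linarith), zero_div]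
    have c2 : EqOn (fun t : ℝ => Complex.arg ((1 - t * x : ℝ) : ℂ) / t) (fun t => Real.pi * t⁻¹)
        (Ioc (1 / x) 1) := by
      intro t ht
      have : 1 < t * x := by
        have := ht.1
        rw [div_lt_iff₀ hx0] at this
        exact this
      simp only
      rw [Complex.arg_ofReal_of_neg (by linarith)]
      rfl
    have k2 : IntervalIntegrable (fun t : ℝ => Real.pi * t⁻¹) volume (1 / x) 1 := by
      apply ContinuousOn.intervalIntegrable
      rw [uIcc_of_le hi1.le]
      refine continuousOn_const.mul (continuousOn_id.inv₀ ?_)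
      intro t ht
      have := ht.1
      simp only [id]
      linarith
    have i1 : IntervalIntegrable (fun t : ℝ => Complex.arg ((1 - t * x : ℝ) : ℂ) / t) volume
        0 (1 / x) := by
      rw [intervalIntegrable_iff_integrableOn_Ioc_of_le hi0.le]
      exact (integrableOn_zero).congr_fun c1.symm measurableSet_Ioc
    have i2 : IntervalIntegrable (fun t : ℝ => Complex.arg ((1 - t * x : ℝ) : ℂ) / t) volume
        (1 / x) 1 := by
      rw [intervalIntegrable_iff_integrableOn_Ioc_of_le hi1.le] at k2 ⊢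
      exact k2.congr_fun c2.symm measurableSet_Ioc
    have s1 : ∫ t in (0:ℝ)..(1 / x), Complex.arg ((1 - t * x : ℝ) : ℂ) / t = 0 := by
      rw [intervalIntegral.integral_of_le hi0.le, setIntegral_congr_fun measurableSet_Ioc c1]
      simp
    have s2 : ∫ t in (1 / x)..1, Complex.arg ((1 - t * x : ℝ) : ℂ) / t = Real.pi * Real.log x := by
      rw [intervalIntegral.integral_of_le hi1.le, setIntegral_congr_fun measurableSet_Ioc c2,
        ← intervalIntegral.integral_of_le hi1.le, intervalIntegral.integral_const_mul,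
        integral_inv_of_pos hi0 one_pos]
      congr 2
      field_simp
    rw [← intervalIntegral.integral_add_adjacent_intervals i1 i2, s1, s2, Complex.norm_real,
      Real.norm_of_nonneg hx0.le]
    ring

private theorem BWa_meas_uncurry :
    Measurable fun q : ℂ × ℝ => Complex.arg (1 - (q.2 : ℂ) * q.1) / q.2 := by
  refine Measurable.div (Complex.measurable_arg.comp ?_) measurable_snd
  exact measurable_const.sub ((Complex.measurable_ofReal.comp measurable_snd).mul measurable_fst)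

theorem BW_meas : Measurable BW := by
  unfold BW
  refine Measurable.sub (Measurable.mul ?_ ?_) ?_
  · exact Complex.measurable_arg.comp (measurable_const.sub measurable_id)
  · exact Real.measurable_log.comp measurable_norm
  · simp only [intervalIntegral.integral_of_le (zero_le_one' ℝ)]
    exact (StronglyMeasurable.integral_prod_right
      (f := fun (z : ℂ) (t : ℝ) => Complex.arg (1 - (t : ℂ) * z) / t)
      (ν := volume.restrict (Ioc (0 : ℝ) 1)) BWa_meas_uncurry.stronglyMeasurable).measurable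

private theorem BWa_arg {w : ℂ} (h : ‖w‖ ≤ 1 / 2) : |Complex.arg (1 - w)| ≤ 3 / 2 * ‖w‖ := by
  have h1 := Complex.norm_log_one_add_half_le_self (z := -w) (by rwa [norm_neg])
  rw [norm_neg, ← sub_eq_add_neg] at h1
  refine le_trans ?_ h1
  rw [← Complex.log_im]
  exact Complex.abs_im_le_norm _

private theorem BWa_norm_mul {z : ℂ} {t : ℝ} (ht : 0 < t) : ‖(t : ℂ) * z‖ = t * ‖z‖ := by
  rw [norm_mul, Complex.norm_real, Real.norm_of_nonneg ht.le]

/-- elementary bound near `0` -/
theorem BW_small {z : ℂ} (h : ‖z‖ ≤ 1 / 2) : |BW z| ≤ 2 * ‖z‖ * |Real.log ‖z‖| + 2 * ‖z‖ := by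
  have hn := norm_nonneg z
  have h1 : |∫ t in (0:ℝ)..1, Complex.arg (1 - t * z) / t| ≤ 3 / 2 * ‖z‖ := by
    have h2 : ∀ t ∈ Ι (0 : ℝ) 1, ‖Complex.arg (1 - t * z) / t‖ ≤ 3 / 2 * ‖z‖ := by
      intro t ht
      rw [uIoc_of_le zero_le_one] at ht
      have ht0 : 0 < t := ht.1
      have h3 := BWa_arg (w := t * z) (by
        rw [BWa_norm_mul ht0]
        nlinarith [ht.2])
      rw [BWa_norm_mul ht0] at h3
      rw [Real.norm_eq_abs, abs_div, abs_of_pos ht0, div_le_iff₀ ht0]
      linarith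
    have h4 := intervalIntegral.norm_integral_le_of_norm_le_const h2
    simpa using h4
  have h5 := BWa_arg h
  unfold BW
  have h6 := abs_sub (Complex.arg (1 - z) * Real.log ‖z‖)
    (∫ t in (0:ℝ)..1, Complex.arg (1 - t * z) / t)
  rw [abs_mul] at h6
  have h7 : |Complex.arg (1 - z)| * |Real.log ‖z‖| ≤ 2 * ‖z‖ * |Real.log ‖z‖| := by
    apply mul_le_mul_of_nonneg_right _ (abs_nonneg _)
    linarith
  linarith

/-- bound in the unit disc (from `|arg (1 - w)| ≤ 2 |w|` for `|w| ≤ 1/2` and `|arg| ≤ π`) -/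
theorem BW_bdd_disc : ∃ C : ℝ, ∀ z : ℂ, ‖z‖ ≤ 1 → |BW z| ≤ C := by
  refine ⟨Real.pi * Real.log 2 + 2 + 2 * Real.pi, fun z hz => ?_⟩
  have hn := norm_nonneg z
  have hpi := Real.pi_gt_three
  have hl2 : 0 < Real.log 2 := Real.log_pos one_lt_two
  have h1 : |∫ t in (0:ℝ)..1, Complex.arg (1 - t * z) / t| ≤ 2 * Real.pi := by
    have h2 : ∀ t ∈ Ι (0 : ℝ) 1, ‖Complex.arg (1 - t * z) / t‖ ≤ 2 * Real.pi := by
      intro t ht
      rw [uIoc_of_le zero_le_one] at ht
      have ht0 : 0 < t := ht.1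
      rw [Real.norm_eq_abs, abs_div, abs_of_pos ht0, div_le_iff₀ ht0]
      rcases le_or_gt t (1 / 2) with h3 | h3
      · have h4 := BWa_arg (w := t * z) (by
          rw [BWa_norm_mul ht0]
          nlinarith)
        rw [BWa_norm_mul ht0] at h4
        nlinarith
      · have h4 := Complex.abs_arg_le_pi (1 - t * z)
        nlinarith
    have h4 := intervalIntegral.norm_integral_le_of_norm_le_const h2
    simpa using h4
  have h5 : |Complex.arg (1 - z) * Real.log ‖z‖| ≤ Real.pi * Real.log 2 + 2 := by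
    rw [abs_mul]
    rcases le_or_gt ‖z‖ (1 / 2) with h3 | h3
    · have h4 := BWa_arg h3
      have h6 : ‖z‖ * |Real.log ‖z‖| ≤ 1 := by
        rcases eq_or_lt_of_le hn with h7 | h7
        · rw [← h7]; simp
        · have h8 := Real.abs_log_mul_self_lt ‖z‖ h7 hz
          rw [abs_mul, abs_of_pos h7] at h8
          linarith
      have h9 : |Complex.arg (1 - z)| * |Real.log ‖z‖| ≤ 3 / 2 * ‖z‖ * |Real.log ‖z‖| :=
        mul_le_mul_of_nonneg_right h4 (abs_nonneg _)
      have : 0 ≤ Real.pi * Real.log 2 := by positivity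
      linarith
    · have h4 := Complex.abs_arg_le_pi (1 - z)
      have h6 : |Real.log ‖z‖| ≤ Real.log 2 := by
        have h7 : Real.log ‖z‖ ≤ 0 := Real.log_nonpos hn hz
        rw [abs_of_nonpos h7]
        have h8 : Real.log (1 / 2) ≤ Real.log ‖z‖ := Real.log_le_log (by norm_num) h3.le
        rw [one_div, Real.log_inv] at h8
        linarith
      have h9 := mul_le_mul h4 h6 (abs_nonneg _) Real.pi_pos.le
      linarith
  unfold BW
  have h6 := abs_sub (Complex.arg (1 - z) * Real.log ‖z‖)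
    (∫ t in (0:ℝ)..1, Complex.arg (1 - t * z) / t)
  linarith

/-! ### derivative -/

private noncomputable def BWaF (z : ℂ) : ℂ := ∫ t in (0:ℝ)..1, Complex.log (1 - t * z) / t

private theorem BWa_slit {z : ℂ} (h : 1 - z ∈ Complex.slitPlane) {t : ℝ} (h0 : 0 ≤ t)
    (h1 : t ≤ 1) : 1 - (t : ℂ) * z ∈ Complex.slitPlane := by
  have h2 := Complex.starConvex_one_slitPlane h (sub_nonneg.2 h1) h0 (by ring)
  have e : (1 - t) • (1 : ℂ) + t • (1 - z) = 1 - (t : ℂ) * z := by
    simp only [Complex.real_smul]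
    push_cast
    ring
  rwa [e] at h2

private theorem BWa_deriv_t {z : ℂ} {t : ℝ} (h : 1 - (t : ℂ) * z ∈ Complex.slitPlane) :
    HasDerivAt (fun s : ℝ => Complex.log (1 - (s : ℂ) * z)) (-z / (1 - t * z)) t := by
  have h1 : HasDerivAt (fun s : ℝ => 1 - (s : ℂ) * z) (-z) t := by
    have h2 := ((Complex.ofRealCLM.hasDerivAt (x := t)).mul_const z).const_sub 1
    simpa using h2
  exact h1.clog_real h

private theorem BWa_ball {z : ℂ} (h : 1 - z ∈ Complex.slitPlane) :
    ∃ r > 0, ∃ c > 0, ∀ w ∈ Metric.closedBall z r, 1 - w ∈ Complex.slitPlane ∧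
      ∀ t ∈ Icc (0 : ℝ) 1, c ≤ ‖1 - (t : ℂ) * w‖ := by
  have hU : IsOpen {w : ℂ | 1 - w ∈ Complex.slitPlane} :=
    Complex.isOpen_slitPlane.preimage (by fun_prop)
  obtain ⟨r, hr, hb⟩ := Metric.nhds_basis_closedBall.mem_iff.1 (hU.mem_nhds h)
  have hK : IsCompact (Icc (0 : ℝ) 1 ×ˢ Metric.closedBall z r) :=
    isCompact_Icc.prod (isCompact_closedBall z r)
  have hne : (Icc (0 : ℝ) 1 ×ˢ Metric.closedBall z r).Nonempty :=
    ⟨(0, z), ⟨by simp, Metric.mem_closedBall_self hr.le⟩⟩
  have hcont : ContinuousOn (fun q : ℝ × ℂ => ‖1 - (q.1 : ℂ) * q.2‖)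
      (Icc (0 : ℝ) 1 ×ˢ Metric.closedBall z r) := by
    apply Continuous.continuousOn
    fun_prop
  obtain ⟨q, hq, hmin⟩ := hK.exists_isMinOn hne hcont
  refine ⟨r, hr, ‖1 - (q.1 : ℂ) * q.2‖, ?_, fun w hw => ⟨hb hw, fun t ht => ?_⟩⟩
  · exact norm_pos_iff.2 (Complex.slitPlane_ne_zero (BWa_slit (hb hq.2) hq.1.1 hq.1.2))
  · exact hmin (⟨ht, hw⟩ : (t, w) ∈ Icc (0 : ℝ) 1 ×ˢ Metric.closedBall z r)

private theorem BWa_log_le {z : ℂ} (h : 1 - z ∈ Complex.slitPlane) {c : ℝ} (hc : 0 < c)
    (hb : ∀ t ∈ Icc (0 : ℝ) 1, c ≤ ‖1 - (t : ℂ) * z‖) {t : ℝ} (ht : t ∈ Icc (0 : ℝ) 1) :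
    ‖Complex.log (1 - (t : ℂ) * z)‖ ≤ ‖z‖ / c * t := by
  have h1 := Convex.norm_image_sub_le_of_norm_hasDerivWithin_le (𝕜 := ℝ) (C := ‖z‖ / c)
    (f := fun s : ℝ => Complex.log (1 - (s : ℂ) * z)) (f' := fun s => -z / (1 - s * z))
    (s := Icc (0 : ℝ) 1) (x := 0) (y := t)
    (fun s hs => (BWa_deriv_t (BWa_slit h hs.1 hs.2)).hasDerivWithinAt)
    (fun s hs => by
      rw [norm_div, norm_neg]
      exact div_le_div_of_nonneg_left (norm_nonneg _) hc (hb s hs))
    (convex_Icc 0 1) (by simp) ht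
  have h2 : Complex.log (1 - ((0 : ℝ) : ℂ) * z) = 0 := by simp
  rw [h2, sub_zero, sub_zero, Real.norm_of_nonneg ht.1] at h1
  exact h1

private theorem BWa_meas_t (z : ℂ) : Measurable fun t : ℝ => Complex.log (1 - (t : ℂ) * z) / t := by
  refine Measurable.div (Complex.measurable_log.comp ?_) Complex.measurable_ofReal
  exact measurable_const.sub (Complex.measurable_ofReal.mul measurable_const)

private theorem BWa_int {z : ℂ} (h : 1 - z ∈ Complex.slitPlane) :
    IntervalIntegrable (fun t : ℝ => Complex.log (1 - (t : ℂ) * z) / t) volume 0 1 := by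
  obtain ⟨r, hr, c, hc, hb⟩ := BWa_ball h
  have hz := (hb z (Metric.mem_closedBall_self hr.le)).2
  rw [intervalIntegrable_iff_integrableOn_Ioc_of_le zero_le_one]
  refine IntegrableOn.of_bound (by simp) (BWa_meas_t z).aestronglyMeasurable (‖z‖ / c) ?_
  refine (ae_restrict_iff' measurableSet_Ioc).2 (Filter.Eventually.of_forall fun t ht => ?_)
  have h1 := BWa_log_le h hc hz ⟨ht.1.le, ht.2⟩
  rw [norm_div, Complex.norm_real, Real.norm_of_nonneg ht.1.le, div_le_iff₀ ht.1]
  exact h1

private theorem BWa_F_deriv {z : ℂ} (h0 : z ≠ 0) (h1 : 1 - z ∈ Complex.slitPlane) :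
    HasDerivAt BWaF (Complex.log (1 - z) / z) z := by
  obtain ⟨r, hr, c, hc, hb⟩ := BWa_ball h1
  have hI : ∀ t ∈ Ι (0 : ℝ) 1, 0 < t ∧ t ≤ 1 := fun t ht => by
    rwa [uIoc_of_le zero_le_one] at ht
  have key := intervalIntegral.hasDerivAt_integral_of_dominated_loc_of_deriv_le
    (μ := volume) (a := 0) (b := 1)
    (F := fun (w : ℂ) (t : ℝ) => Complex.log (1 - t * w) / t)
    (F' := fun (w : ℂ) (t : ℝ) => -1 / (1 - t * w)) (x₀ := z) (s := Metric.closedBall z r)
    (bound := fun _ => 1 / c)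
    (Metric.closedBall_mem_nhds z hr)
    (Filter.Eventually.of_forall fun w => (BWa_meas_t w).aestronglyMeasurable)
    (BWa_int h1)
    (by
      apply Measurable.aestronglyMeasurable
      exact measurable_const.div
        (measurable_const.sub (Complex.measurable_ofReal.mul measurable_const)))
    (by
      refine Filter.Eventually.of_forall fun t ht w hw => ?_
      obtain ⟨t0, t1⟩ := hI t ht
      rw [norm_div, norm_neg, norm_one]
      exact div_le_div_of_nonneg_left zero_le_one hc ((hb w hw).2 t ⟨t0.le, t1⟩))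
    intervalIntegrable_const
    (by
      refine Filter.Eventually.of_forall fun t ht w hw => ?_
      obtain ⟨t0, t1⟩ := hI t ht
      have hs := BWa_slit (hb w hw).1 t0.le t1
      have hne := Complex.slitPlane_ne_zero hs
      have d1 : HasDerivAt (fun w : ℂ => 1 - (t : ℂ) * w) (-t) w := by
        have := ((hasDerivAt_id w).const_mul (t : ℂ)).const_sub 1
        simpa using this
      have d2 := (d1.clog hs).div_const (t : ℂ)
      have ht0 : (t : ℂ) ≠ 0 := by exact_mod_cast t0.ne'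
      have e : -1 / (1 - (t : ℂ) * w) = -(t : ℂ) / (1 - (t : ℂ) * w) / (t : ℂ) := by
        rw [div_right_comm, neg_div (t : ℂ) (t : ℂ), div_self ht0]
      rw [e]
      exact d2)
  have h2 : ∫ t in (0:ℝ)..1, -z / (1 - (t : ℂ) * z) = Complex.log (1 - z) := by
    rw [intervalIntegral.integral_eq_sub_of_hasDerivAt
      (f := fun s : ℝ => Complex.log (1 - (s : ℂ) * z))]
    · simp
    · intro t ht
      rw [uIcc_of_le zero_le_one] at ht
      exact BWa_deriv_t (BWa_slit h1 ht.1 ht.2)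
    · have := key.1.const_mul z
      refine this.congr ?_
      intro t _
      simp only
      ring
  have h3 : ∫ t in (0:ℝ)..1, -1 / (1 - (t : ℂ) * z) = Complex.log (1 - z) / z := by
    rw [eq_div_iff h0, ← h2, ← intervalIntegral.integral_mul_const]
    congr 1
    funext t
    ring
  rw [← h3]
  exact key.2

private theorem BWa_im {z : ℂ} (h : 1 - z ∈ Complex.slitPlane) :
    ∫ t in (0:ℝ)..1, Complex.arg (1 - t * z) / t = (BWaF z).im := by
  have h1 := Complex.imCLM.intervalIntegral_comp_comm (BWa_int h)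
  rw [BWaF, ← Complex.imCLM_apply, ← h1]
  congr 1
  funext t
  rw [Complex.imCLM_apply, Complex.div_ofReal_im, Complex.log_im]

private theorem BWa_lognorm {z : ℂ} (h0 : z ≠ 0) :
    HasFDerivAt (fun w : ℂ => Real.log ‖w‖)
      ((1 / 2 : ℝ) • ((‖z‖ ^ 2)⁻¹ • (2 • innerSL ℝ z))) z := by
  have hz : ‖z‖ ^ 2 ≠ 0 := by
    have := norm_pos_iff.2 h0
    positivity
  have h := ((hasStrictFDerivAt_norm_sq z).hasFDerivAt.log hz).const_mul (1 / 2 : ℝ)
  refine h.congr_of_eventuallyEq (Filter.Eventually.of_forall fun w => ?_)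
  simp only
  rw [Real.log_pow]
  push_cast
  ring

private theorem BWa_re_div (z h : ℂ) : (‖z‖ ^ 2)⁻¹ * (cj z * h).re = (h / z).re := by
  by_cases h0 : z = 0
  · subst h0
    simp
  have h1 : h / z = (cj z * h) / ((‖z‖ ^ 2 : ℝ) : ℂ) := by
    have h2 : cj z * z = ((‖z‖ ^ 2 : ℝ) : ℂ) := by
      rw [cj, Complex.conj_mul']
      push_cast
      rfl
    rw [← h2, mul_div_mul_left _ _ (by rwa [Ne, cj_eq_zero])]
  rw [h1, Complex.div_ofReal_re]
  field_simp

theorem BW_deriv_slit {z : ℂ} (h0 : z ≠ 0) (h1 : 1 - z ∈ Complex.slitPlane) :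
    HasFDerivAt (fun w : ℂ => (BW w : ℂ)) (wl (D1 z) (cj (D1 z))) z := by
  have hU : {w : ℂ | 1 - w ∈ Complex.slitPlane} ∈ nhds z :=
    (Complex.isOpen_slitPlane.preimage (by fun_prop : Continuous fun w : ℂ => 1 - w)).mem_nhds h1
  have d1 : HasDerivAt (fun w : ℂ => Complex.log (1 - w)) (-1 / (1 - z)) z := by
    have := ((hasDerivAt_id z).const_sub 1).clog h1
    simpa using this
  have dA : HasFDerivAt (fun w : ℂ => (Complex.log (1 - w)).im)
      (Complex.imCLM.comp ((ContinuousLinearMap.toSpanSingleton ℂ (-1 / (1 - z))).restrictScalars ℝ))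
      z := Complex.imCLM.hasFDerivAt.comp z (d1.hasFDerivAt.restrictScalars ℝ)
  have dF : HasFDerivAt (fun w : ℂ => (BWaF w).im)
      (Complex.imCLM.comp
        ((ContinuousLinearMap.toSpanSingleton ℂ (Complex.log (1 - z) / z)).restrictScalars ℝ))
      z := Complex.imCLM.hasFDerivAt.comp z ((BWa_F_deriv h0 h1).hasFDerivAt.restrictScalars ℝ)
  have dN := BWa_lognorm h0
  have dB := Complex.ofRealCLM.hasFDerivAt.comp z ((dA.mul dN).sub dF)
  have heq : (fun w : ℂ => (BW w : ℂ)) =ᶠ[nhds z]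
      (Complex.ofRealCLM ∘ fun w : ℂ => (Complex.log (1 - w)).im * Real.log ‖w‖ - (BWaF w).im) := by
    filter_upwards [hU] with w hw
    simp only [Function.comp_apply, Complex.ofRealCLM_apply]
    rw [BW, BWa_im hw, Complex.log_im]
  have dC := dB.congr_of_eventuallyEq heq
  refine dC.congr_fderiv (ContinuousLinearMap.ext fun h => ?_)
  have e1 : wl (D1 z) (cj (D1 z)) h = ((2 * (D1 z * h).re : ℝ) : ℂ) := by
    have : wl (D1 z) (cj (D1 z)) h = D1 z * h + cj (D1 z * h) := by
      rw [cj_mul]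
      simp [wl, cj]
    rw [this, cj, Complex.add_conj]
  rw [e1]
  have e2 : (D1 z * h).re = (1 / 2) * (-(Real.log ‖z‖ * (h / (1 - z)).im)
      - Real.log ‖1 - z‖ * (h / z).im) := by
    have : D1 z * h = -(Complex.I * (((1 / 2 : ℝ) : ℂ) * (-((Real.log ‖z‖ : ℝ) * (h / (1 - z)))
        - (Real.log ‖1 - z‖ : ℝ) * (h / z)))) := by
      rw [D1]
      have hI : (1 : ℂ) / (2 * Complex.I) = -(Complex.I * (1 / 2)) := by
        have := Complex.I_ne_zero
        field_simp
        rw [Complex.I_sq]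
        norm_num
      rw [hI]
      push_cast
      ring
    rw [this]
    simp only [Complex.neg_re, Complex.I_mul_re, Complex.im_ofReal_mul,
      Complex.sub_im, Complex.neg_im]
    ring
  rw [e2]
  have e3 : h * (Complex.log (1 - z) / z) = (Real.log ‖1 - z‖ : ℝ) * (h / z)
      + Complex.I * ((Complex.arg (1 - z) : ℝ) * (h / z)) := by
    rw [Complex.log]
    ring
  have e4 : h * (-1 / (1 - z)) = -(h / (1 - z)) := by ring
  simp only [ContinuousLinearMap.comp_apply, sub_apply,
    add_apply, smul_apply, Complex.ofRealCLM_apply,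
    ContinuousLinearMap.coe_restrictScalars', ContinuousLinearMap.toSpanSingleton_apply,
    Complex.imCLM_apply, smul_eq_mul, innerSL_apply_apply, Complex.inner]
  rw [e3, e4]
  simp only [Complex.add_im, Complex.I_mul_im, Complex.re_ofReal_mul, Complex.im_ofReal_mul,
    Complex.neg_im, Complex.log_im, nsmul_eq_mul]
  have e5 := BWa_re_div z h
  rw [cj, mul_comm _ h] at e5
  congr 1
  push_cast
  linear_combination (Complex.arg (1 - z)) * e5

end EE7
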