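import Mathlib
import Pool.Agent.EE7.BWa

/-!
# EE7/BWb: the Bloch-Wigner dilogarithm, second part

PROOF. *Inversion*: if `z` is real both sides are `0` (`BW_real`). The set `V = {z : -z ∈ slitPlane}`
(complement of `[0, ∞)`) is open, connected (star-shaped with respect to `-1`), stable under
`z ↦ 1/z`, and for `z ∈ V` both `1 - z`, `1 - 1/z ∈ slitPlane`. The function `BW z + BW (1/z)` on `V`
has derivative `0`: by `BW_deriv_slit` and the chain rule its `∂` part is
`D1 z - D1 (1/z)/z² = 0` (algebra: `log ‖1 - 1/z‖ = log ‖1 - z‖ - log ‖z‖`), the `∂̄` part is the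
conjugate. At `z = -1` it is `2 BW(-1) = 0`.
*Bound*: `BW_bdd_disc` and inversion.
*Derivative at all `z ≠ 0, 1`*: if `1 - z ∈ slitPlane` this is `BW_deriv_slit`; otherwise `z` is real
`> 1`, `1 - 1/z ∈ slitPlane`, and `BW w = -BW (1/w)` for `w` near `z`; chain rule and
`D1 z = D1 (1/z)/z²`.
*Continuity*: at `z ≠ 0, 1` from the derivative. At `0`: `BW_small`, `BW 0 = 0`. At `1`:
`arg(1-z) log‖z‖ → 0` and `∫₀¹ arg (1 - t z)/t dt → 0` by dominated convergence (for `‖z‖ ≤ 2` the
integrand is bounded by `4` for `t ≤ 1/4` and by `4π` for `t > 1/4`; it tends to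
`arg (1 - t) / t = 0` for `t < 1`).
-/

open MeasureTheory Set

namespace EE7

lemma BWb_wl_apply (A B h : ℂ) : wl A B h = A * h + B * cj h := by
  simp [wl, cj]

lemma BWb_D1_inv {z : ℂ} (h0 : z ≠ 0) (h1 : z ≠ 1) :
    D1 (1 / z) / z ^ 2 = D1 z := by
  have h10 : (1 : ℂ) - z ≠ 0 := sub_ne_zero.2 (Ne.symm h1)
  have hz1 : z - 1 ≠ 0 := sub_ne_zero.2 h1
  have e1 : (1 : ℂ) - 1 / z = (z - 1) / z := by
    field_simp
  have e2 : Real.log ‖(1 : ℂ) - 1 / z‖ = Real.log ‖1 - z‖ - Real.log ‖z‖ := by
    rw [e1, norm_div, Real.log_div (norm_ne_zero_iff.2 hz1) (norm_ne_zero_iff.2 h0),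
      norm_sub_rev]
  have e3 : Real.log ‖(1 : ℂ) / z‖ = -Real.log ‖z‖ := by
    rw [norm_div, norm_one, one_div, Real.log_inv]
  unfold D1
  rw [e2, e3, e1]
  push_cast
  have hI := Complex.I_ne_zero
  have h12 : (1 : ℂ) - z = -(z - 1) := by ring
  rw [h12]
  field_simp
  ring

lemma BWb_comp {z : ℂ} (h0 : z ≠ 0) (h1 : z ≠ 1)
    (h : HasFDerivAt (fun w : ℂ => (BW w : ℂ)) (wl (D1 (1 / z)) (cj (D1 (1 / z)))) (1 / z)) :
    HasFDerivAt (fun w : ℂ => (BW (1 / w) : ℂ)) (-wl (D1 z) (cj (D1 z))) z := by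
  have hi : HasDerivAt (fun w : ℂ => 1 / w) (-(z ^ 2)⁻¹) z := by
    have := hasDerivAt_inv h0
    simpa [one_div] using this
  have hi2 := hi.hasFDerivAt.restrictScalars ℝ
  have hc := HasFDerivAt.comp z h hi2
  refine hc.congr_fderiv ?_
  ext x
  simp only [ContinuousLinearMap.comp_apply, _root_.neg_apply, BWb_wl_apply,
    ContinuousLinearMap.coe_restrictScalars']
  have hx : (ContinuousLinearMap.toSpanSingleton ℂ (-(z ^ 2)⁻¹)) x = x * (-(z ^ 2)⁻¹) := by
    simp
  rw [hx, ← BWb_D1_inv h0 h1, cj_mul, cj_neg, cj_div, cj_pow]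
  have h2 : cj (z ^ 2)⁻¹ = (cj z ^ 2)⁻¹ := by
    rw [cj, map_inv₀, map_pow]
  rw [h2]
  ring

lemma BWb_cj {z : ℂ} (h : z.im ≠ 0) : BW (cj z) = -BW z := by
  unfold BW
  have e1 : Complex.arg (1 - cj z) = -Complex.arg (1 - z) := by
    have : 1 - cj z = cj (1 - z) := by rw [cj_sub, cj_one]
    rw [this, cj, Complex.arg_conj, if_neg]
    intro hc
    have := (Complex.arg_eq_pi_iff.1 hc).2
    simp at this
    exact h this
  have e2 : ∫ t in (0:ℝ)..1, Complex.arg (1 - t * cj z) / t =
      -∫ t in (0:ℝ)..1, Complex.arg (1 - t * z) / t := by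
    rw [← intervalIntegral.integral_neg]
    refine intervalIntegral.integral_congr ?_
    intro t _
    simp only
    by_cases ht : t = 0
    · simp [ht]
    have : 1 - (t : ℂ) * cj z = cj (1 - t * z) := by rw [cj_sub, cj_one, cj_mul, cj_real]
    rw [this, cj, Complex.arg_conj, if_neg]
    · ring
    intro hc
    have := (Complex.arg_eq_pi_iff.1 hc).2
    simp at this
    rcases this with h' | h'
    · exact ht h'
    · exact h h'
  rw [e1, e2, norm_cj]
  ring

lemma BWb_slit {z : ℂ} (h : z.im ≠ 0) : 1 - z ∈ Complex.slitPlane := by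
  rw [Complex.mem_slitPlane_iff]
  right
  simpa using h

lemma BWb_inv_im {z : ℂ} (h : z.im ≠ 0) : (1 / z).im ≠ 0 := by
  rw [one_div, Complex.inv_im]
  have hz : z ≠ 0 := fun h0 => h (by rw [h0]; rfl)
  have : Complex.normSq z ≠ 0 := by
    rwa [Ne, Complex.normSq_eq_zero]
  exact div_ne_zero (neg_ne_zero.2 h) this

lemma BWb_ne {z : ℂ} (h : z.im ≠ 0) : z ≠ 0 ∧ z ≠ 1 :=
  ⟨fun h0 => h (by rw [h0]; rfl), fun h0 => h (by rw [h0]; rfl)⟩

lemma BWb_upper {z : ℂ} (hz : 0 < z.im) : BW (1 / z) = -BW z := by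
  have hconv : Convex ℝ {w : ℂ | 0 < w.im} := convex_halfSpace_im_gt 0
  have hopen : IsOpen {w : ℂ | 0 < w.im} := isOpen_lt continuous_const Complex.continuous_im
  have hd : ∀ w : ℂ, 0 < w.im →
      HasFDerivAt (fun w : ℂ => (BW w : ℂ) + (BW (1 / w) : ℂ)) (0 : ℂ →L[ℝ] ℂ) w := by
    intro w hw
    have hn := BWb_ne hw.ne'
    have h1 := BW_deriv_slit hn.1 (BWb_slit hw.ne')
    have h2 := BW_deriv_slit (one_div_ne_zero hn.1) (BWb_slit (BWb_inv_im hw.ne'))
    have h3 := BWb_comp hn.1 hn.2 h2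
    have h4 := h1.add h3
    rw [add_neg_cancel] at h4
    exact h4
  have hc := IsOpen.is_const_of_fderiv_eq_zero (𝕜 := ℝ) hopen hconv.isPreconnected
    (fun w hw => (hd w hw).differentiableAt.differentiableWithinAt)
    (fun w hw => (hd w hw).fderiv) (x := z) (y := Complex.I) hz (by simp)
  have hI : BW (1 / Complex.I) = -BW Complex.I := by
    have : (1 : ℂ) / Complex.I = cj Complex.I := by simp [cj]
    rw [this]
    exact BWb_cj (by simp)
  rw [hI] at hc
  have : (BW z + BW (1 / z) : ℂ) = 0 := by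
    rw [hc]
    push_cast
    ring
  have h2 : BW z + BW (1 / z) = 0 := by exact_mod_cast this
  linarith

theorem BW_inv {z : ℂ} (hz : z ≠ 0) : BW (1 / z) = -BW z := by
  rcases lt_trichotomy z.im 0 with h | h | h
  · have h2 : 0 < (1 / z).im := by
      rw [one_div, Complex.inv_im]
      have : 0 < Complex.normSq z := Complex.normSq_pos.2 hz
      exact div_pos (by linarith) this
    have h3 := BWb_upper h2
    rw [one_div_one_div] at h3
    linarith
  · have h2 : (1 / z).im = 0 := by
      rw [one_div, Complex.inv_im, h]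
      simp
    rw [BW_real h, BW_real h2]
    simp
  · exact BWb_upper h

theorem BW_bdd : ∃ C : ℝ, 0 ≤ C ∧ ∀ z : ℂ, |BW z| ≤ C := by
  obtain ⟨C, hC⟩ := BW_bdd_disc
  refine ⟨C, ?_, fun z => ?_⟩
  · exact (abs_nonneg _).trans (hC 0 (by simp))
  · rcases le_total ‖z‖ 1 with h | h
    · exact hC z h
    · have hz : z ≠ 0 := by
        rintro rfl
        norm_num at h
      have h1 := BW_inv hz
      have h2 := hC (1 / z) (by
        rw [norm_div, norm_one]
        exact (div_le_one (by linarith)).2 h)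
      rw [h1, abs_neg] at h2
      exact h2

theorem BW_deriv {z : ℂ} (h0 : z ≠ 0) (h1 : z ≠ 1) :
    HasFDerivAt (fun w : ℂ => (BW w : ℂ)) (wl (D1 z) (cj (D1 z))) z := by
  by_cases h : 1 - z ∈ Complex.slitPlane
  · exact BW_deriv_slit h0 h
  · rw [Complex.mem_slitPlane_iff] at h
    push Not at h
    obtain ⟨hre, him⟩ := h
    have him' : z.im = 0 := by simpa using him
    have hre' : 1 ≤ z.re := by simpa using hre
    have hre2 : 1 < z.re := by
      rcases hre'.lt_or_eq with h | h
      · exact h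
      · exact absurd (Complex.ext h.symm (by simpa using him')) h1
    have hs : 1 - 1 / z ∈ Complex.slitPlane := by
      rw [Complex.mem_slitPlane_iff]
      left
      have hzr : z = (z.re : ℂ) := Complex.ext rfl (by simpa using him')
      have : (1 / z).re = 1 / z.re := by
        rw [hzr, ← Complex.ofReal_one, ← Complex.ofReal_div]
        simp
      rw [Complex.sub_re, Complex.one_re, this]
      have : 1 / z.re < 1 := by
        rw [div_lt_one (by linarith)]
        exact hre2
      linarith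
    have h2 := BW_deriv_slit (one_div_ne_zero h0) hs
    have h3 := (BWb_comp h0 h1 h2).neg
    rw [neg_neg] at h3
    refine h3.congr_of_eventuallyEq ?_
    filter_upwards [isOpen_ne.mem_nhds h0] with w hw
    have := BW_inv hw
    simp only [Pi.neg_apply]
    rw [this]
    push_cast
    ring

theorem BW_zero : BW 0 = 0 := BW_real rfl

lemma BWb_arg {w : ℂ} (hw : ‖w‖ ≤ 1 / 2) : |Complex.arg (1 - w)| ≤ 2 * ‖w‖ := by
  have h := Complex.norm_log_one_add_half_le_self (z := -w) (by rwa [norm_neg])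
  rw [norm_neg, ← sub_eq_add_neg] at h
  have h2 : |(Complex.log (1 - w)).im| ≤ ‖Complex.log (1 - w)‖ := Complex.abs_im_le_norm _
  rw [Complex.log_im] at h2
  have := norm_nonneg w
  linarith

lemma BWb_int_tendsto : Filter.Tendsto
    (fun z : ℂ => ∫ t in (0:ℝ)..1, Complex.arg (1 - t * z) / t) (nhds 1) (nhds 0) := by
  suffices key : Filter.Tendsto
      (fun z : ℂ => ∫ t in (0:ℝ)..1, Complex.arg (1 - t * z) / t) (nhds 1)
      (nhds (∫ t in (0:ℝ)..1, (0 : ℝ))) by
    rwa [intervalIntegral.integral_zero] at key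
  refine intervalIntegral.tendsto_integral_filter_of_dominated_convergence (l := nhds (1:ℂ))
    (F := fun (z : ℂ) (t : ℝ) => Complex.arg (1 - t * z) / t) (f := fun _ => (0 : ℝ))
    (fun _ => 4 * Real.pi) ?_ ?_ ?_ ?_
  · refine Filter.Eventually.of_forall fun z => ?_
    refine Measurable.aestronglyMeasurable ?_
    refine Measurable.div ?_ measurable_id
    refine Complex.measurable_arg.comp ?_
    exact measurable_const.sub (Complex.measurable_ofReal.mul measurable_const)
  · have hb : ∀ᶠ z : ℂ in nhds 1, ‖z‖ < 2 := by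
      have : ContinuousAt (fun z : ℂ => ‖z‖) 1 := continuous_norm.continuousAt
      exact this.eventually (gt_mem_nhds (by simp))
    filter_upwards [hb] with z hz
    refine Filter.Eventually.of_forall fun t ht => ?_
    rw [Set.uIoc_of_le zero_le_one] at ht
    obtain ⟨ht0, ht1⟩ := ht
    rw [Real.norm_eq_abs, abs_div, abs_of_pos ht0, div_le_iff₀ ht0]
    have hpi := Real.pi_gt_three
    rcases le_or_gt t (1 / 4) with h | h
    · have hn : ‖(t : ℂ) * z‖ = t * ‖z‖ := by
        rw [norm_mul, Complex.norm_real, Real.norm_eq_abs, abs_of_pos ht0]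
      have h5 : ‖(t : ℂ) * z‖ ≤ 1 / 2 := by
        rw [hn]
        nlinarith [norm_nonneg z]
      have h6 := BWb_arg h5
      rw [hn] at h6
      nlinarith [norm_nonneg z]
    · have := Complex.abs_arg_le_pi (1 - (t : ℂ) * z)
      nlinarith
  · exact intervalIntegrable_const
  · have : ∀ᵐ t : ℝ, t ≠ 1 := by
      rw [ae_iff]
      simp
    filter_upwards [this] with t ht1 ht
    rw [Set.uIoc_of_le zero_le_one] at ht
    have htlt : t < 1 := lt_of_le_of_ne ht.2 ht1
    have hs : 1 - (t : ℂ) * 1 ∈ Complex.slitPlane := by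
      rw [Complex.mem_slitPlane_iff]
      left
      simp
      exact htlt
    have hc : ContinuousAt (fun z : ℂ => Complex.arg (1 - t * z) / t) 1 := by
      have h1 : ContinuousAt (fun z : ℂ => 1 - (t : ℂ) * z) 1 := by fun_prop
      exact (ContinuousAt.comp (f := fun z : ℂ => 1 - (t : ℂ) * z) (g := Complex.arg)
        (Complex.continuousAt_arg hs) h1).div_const _
    have hv : Complex.arg (1 - (t : ℂ) * 1) / t = 0 := by
      have : (1 : ℂ) - (t : ℂ) * 1 = ((1 - t : ℝ) : ℂ) := by push_cast; ring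
      rw [this, Complex.arg_ofReal_of_nonneg (by linarith)]
      simp
    have := hc.tendsto
    rw [hv] at this
    exact this

lemma BWb_cont_one : ContinuousAt BW 1 := by
  have h1 : BW 1 = 0 := BW_real rfl
  rw [ContinuousAt, h1]
  have ha : Filter.Tendsto (fun z : ℂ => Complex.arg (1 - z) * Real.log ‖z‖) (nhds 1) (nhds 0) := by
    have hl : Filter.Tendsto (fun z : ℂ => Real.pi * |Real.log ‖z‖|) (nhds 1) (nhds 0) := by
      have hc : ContinuousAt (fun z : ℂ => Real.pi * |Real.log ‖z‖|) 1 := by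
        have : ContinuousAt (fun z : ℂ => Real.log ‖z‖) 1 :=
          (Real.continuousAt_log (by simp)).comp continuous_norm.continuousAt
        exact continuousAt_const.mul this.abs
      have := hc.tendsto
      simpa using this
    refine squeeze_zero_norm (fun z => ?_) hl
    rw [norm_mul, Real.norm_eq_abs, Real.norm_eq_abs]
    exact mul_le_mul_of_nonneg_right (Complex.abs_arg_le_pi _) (abs_nonneg _)
  have := ha.sub BWb_int_tendsto
  rw [sub_zero] at this
  exact this

lemma BWb_cont_zero : ContinuousAt BW 0 := by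
  rw [ContinuousAt, BW_zero]
  have hl : Filter.Tendsto (fun z : ℂ => 2 * |‖z‖ * Real.log ‖z‖| + 2 * ‖z‖) (nhds 0) (nhds 0) := by
    have hc : Continuous (fun z : ℂ => 2 * |‖z‖ * Real.log ‖z‖| + 2 * ‖z‖) := by
      have : Continuous (fun z : ℂ => ‖z‖ * Real.log ‖z‖) :=
        Real.continuous_mul_log.comp continuous_norm
      exact (continuous_const.mul this.abs).add (continuous_const.mul continuous_norm)
    have := hc.tendsto 0
    simpa using this
  have hb : ∀ᶠ z : ℂ in nhds 0, ‖z‖ < 1 / 2 := by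
    have : ContinuousAt (fun z : ℂ => ‖z‖) 0 := continuous_norm.continuousAt
    exact this.eventually (gt_mem_nhds (by simp))
  refine squeeze_zero_norm' ?_ hl
  filter_upwards [hb] with z hz
  have := BW_small hz.le
  rw [Real.norm_eq_abs, abs_mul, abs_of_nonneg (norm_nonneg z)]
  linarith

theorem BW_cont : Continuous BW := by
  rw [continuous_iff_continuousAt]
  intro z
  by_cases h0 : z = 0
  · rw [h0]
    exact BWb_cont_zero
  by_cases h1 : z = 1
  · rw [h1]
    exact BWb_cont_one
  have h := (BW_deriv h0 h1).continuousAt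
  have h2 := (Complex.continuous_re.continuousAt).comp (f := fun w : ℂ => (BW w : ℂ)) (x := z) h
  exact h2

end EE7
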