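import Mathlib
import Pool.Agent.EE7.Bas

/-!
# EE7/BWc: the derivative of `D1` and growth bounds

`B(z) = 1 + |log ‖z‖| + 1/‖1 - z‖`.
PROOF. *Derivative*: `∂ log‖z‖ = 1/(2z)`, `∂̄ log‖z‖ = 1/(2 z̄)`, `∂ log‖1-z‖ = -1/(2(1-z))`,
`∂̄ log‖1-z‖ = -1/(2(1-z̄))`; in `∂ D1` the two terms `∓1/(2z(1-z))` cancel.
*Bounds*, for `z ≠ 0, 1`. Elementary facts: `|log ‖w‖| ≤ 2 |‖w‖ - 1|` for `‖w‖ ≥ 1/2`, and
`|log r| ≤ r + 1/r` for `r > 0`; `|log‖1-z‖| ≤ 2‖z‖` for `‖z‖ ≤ 1/2`.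
(a) `‖z‖ ≤ 1/2`: `‖D1 z‖ ≤ |log‖z‖| + 1`, `‖D2 z‖ ‖z‖ ≤ 2‖z‖|log‖z‖| + 1`; the identity
`D11 z = (1/4i) (z̄ - z)/(‖z‖²‖1-z‖²)` gives `‖D11 z‖ ‖z‖ ≤ (1/2)/‖1-z‖² ≤ 2`.
(b) `1/2 ≤ ‖z‖ ≤ 2`: `|log‖z‖| ≤ 2 ‖1-z‖`, so `‖D1 z‖ ≤ 1 + |log ‖1-z‖|  ≤ C (1 + 1/‖1-z‖)`,
`‖D2 z‖ ≤ 1/‖1-z‖ + 2 |log‖1-z‖|`, and `‖D11 z‖ ≤ |Im z|/(2 ‖z‖²‖1-z‖²) ≤ 2/‖1-z‖`
(`|Im z| ≤ ‖1-z‖`).
(c) `‖z‖ ≥ 2`: `log‖1-z‖ = log‖z‖ + r`, `|r| = |log ‖1 - 1/z‖| ≤ 2/‖z‖`. Then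
`2i D1 z = [z r - log‖1-z‖]/(z(1-z))` has norm `≤ C (1 + log‖z‖)/‖z‖²`, and
`2i D2 z = (1/z²) [r + log‖z‖ (1 - 1/(1 - 1/z)²)]` has norm `≤ C (1 + log‖z‖)/‖z‖³`;
`‖D11 z‖ ≤ |Im z|/(2‖z‖²‖1-z‖²) ≤ C/‖z‖³`. (And `(1+‖z‖)² ≤ (9/4) ‖z‖²`.)
-/

open MeasureTheory Set

namespace EE7

lemma BWc_wl_apply (A B h : ℂ) : wl A B h = A * h + B * cj h := by
  simp [wl, cj]

lemma BWc_const_mul {f : ℂ → ℂ} {A B z : ℂ} (c : ℂ) (h : HasFDerivAt f (wl A B) z) :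
    HasFDerivAt (fun w => c * f w) (wl (c * A) (c * B)) z := by
  have h1 := h.const_mul c
  have e : c • wl A B = wl (c * A) (c * B) := by
    ext1 v
    rw [smul_apply, BWc_wl_apply, BWc_wl_apply, smul_eq_mul]
    ring
  rw [e] at h1
  exact h1

lemma BWc_sub {f g : ℂ → ℂ} {A B A' B' z : ℂ} (hf : HasFDerivAt f (wl A B) z)
    (hg : HasFDerivAt g (wl A' B') z) :
    HasFDerivAt (fun w => f w - g w) (wl (A - A') (B - B')) z := by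
  have h1 := hf.sub hg
  have e : wl A B - wl A' B' = wl (A - A') (B - B') := by
    ext1 v
    rw [sub_apply, BWc_wl_apply, BWc_wl_apply, BWc_wl_apply]
    ring
  rw [e] at h1
  exact h1

lemma BWc_mul {f g : ℂ → ℂ} {A B A' B' z : ℂ} (hf : HasFDerivAt f (wl A B) z)
    (hg : HasFDerivAt g (wl A' B') z) :
    HasFDerivAt (fun w => f w * g w)
      (wl (f z * A' + A * g z) (f z * B' + B * g z)) z := by
  have h1 := hf.mul hg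
  have e : f z • wl A' B' + g z • wl A B
      = wl (f z * A' + A * g z) (f z * B' + B * g z) := by
    ext1 v
    rw [add_apply, smul_apply,
      smul_apply, BWc_wl_apply, BWc_wl_apply, BWc_wl_apply, smul_eq_mul,
      smul_eq_mul]
    ring
  rw [e] at h1
  exact h1

lemma BWc_holo {f : ℂ → ℂ} {f' z : ℂ} (hf : HasDerivAt f f' z) :
    HasFDerivAt f (wl f' 0) z := by
  have h1 := hf.hasFDerivAt.restrictScalars ℝ
  have e : ((ContinuousLinearMap.toSpanSingleton ℂ f').restrictScalars ℝ) = wl f' 0 := by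
    ext1 v
    rw [BWc_wl_apply]
    simp [mul_comm]
  rw [e] at h1
  exact h1

lemma BWc_log {z : ℂ} (hz : z ≠ 0) :
    HasFDerivAt (fun w : ℂ => ((Real.log ‖w‖ : ℝ) : ℂ)) (wl (1 / (2 * z)) (1 / (2 * cj z))) z := by
  have hn : ‖z‖ ^ 2 ≠ 0 := by
    have := norm_pos_iff.2 hz
    positivity
  have h1 : HasFDerivAt (fun w : ℂ => ‖w‖ ^ 2) (2 • (innerSL ℝ z)) z :=
    (hasStrictFDerivAt_norm_sq z).hasFDerivAt
  have h2 := h1.log hn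
  have h3 := (Complex.ofRealCLM.hasFDerivAt (x := Real.log (‖z‖ ^ 2))).comp z h2
  have h4 := h3.const_mul (1 / 2 : ℂ)
  refine (h4.congr_fderiv ?_).congr_of_eventuallyEq ?_
  · ext1 v
    rw [BWc_wl_apply]
    simp only [smul_apply, ContinuousLinearMap.comp_apply,
      Complex.ofRealCLM_apply, innerSL_apply_apply, Complex.inner, smul_eq_mul, nsmul_eq_mul]
    have hc : cj z ≠ 0 := fun h => hz (cj_eq_zero.1 h)
    have hzz : ((‖z‖ ^ 2 : ℝ) : ℂ) = z * cj z := by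
      rw [cj, Complex.mul_conj, Complex.normSq_eq_norm_sq]
    have hre : (((v * (starRingEnd ℂ) z).re : ℝ) : ℂ) = (v * cj z + cj v * z) / 2 := by
      rw [Complex.re_eq_add_conj, map_mul, Complex.conj_conj]
    push_cast
    push_cast at hzz
    rw [hre, hzz]
    field_simp
  · refine Filter.Eventually.of_forall fun w => ?_
    simp only [Function.comp, Complex.ofRealCLM_apply]
    rw [Real.log_pow]
    push_cast
    ring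

lemma BWc_log' {z : ℂ} (hz : z ≠ 1) :
    HasFDerivAt (fun w : ℂ => ((Real.log ‖1 - w‖ : ℝ) : ℂ))
      (wl (-(1 / (2 * (1 - z)))) (-(1 / (2 * (1 - cj z))))) z := by
  have h0 : (1 : ℂ) - z ≠ 0 := sub_ne_zero.2 hz.symm
  have h1 := BWc_log h0
  have h2 : HasFDerivAt (fun w : ℂ => 1 - w) (-(ContinuousLinearMap.id ℝ ℂ)) z :=
    (hasFDerivAt_id z).const_sub 1
  have h3 := HasFDerivAt.comp z h1 h2
  refine h3.congr_fderiv ?_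
  ext1 v
  rw [ContinuousLinearMap.comp_apply, BWc_wl_apply, BWc_wl_apply, cj_sub, cj_one]
  simp only [neg_apply, ContinuousLinearMap.id_apply, cj_neg]
  ring

theorem D1_deriv {z : ℂ} (h0 : z ≠ 0) (h1 : z ≠ 1) : HasFDerivAt D1 (wl (D2 z) (D11 z)) z := by
  have h0' : (1 : ℂ) - z ≠ 0 := sub_ne_zero.2 h1.symm
  have hc : cj z ≠ 0 := fun h => h0 (cj_eq_zero.1 h)
  have hc1 : 1 - cj z ≠ 0 := by
    intro h
    apply h0'
    have := congrArg cj h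
    rwa [cj_sub, cj_one, cj_cj, cj_zero] at this
  have a1 : HasFDerivAt (fun w : ℂ => (1 - w)⁻¹) (wl (1 / (1 - z) ^ 2) 0) z := by
    apply BWc_holo
    have := ((hasDerivAt_id z).const_sub 1).inv h0'
    rw [neg_neg] at this
    exact this
  have a2 : HasFDerivAt (fun w : ℂ => w⁻¹) (wl (-1 / z ^ 2) 0) z := by
    apply BWc_holo
    have := (hasDerivAt_inv h0)
    rw [neg_div, one_div]
    exact this
  have b1 := BWc_mul (BWc_log h0) a1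
  have b2 := BWc_mul (BWc_log' h1) a2
  have b3 := BWc_const_mul (1 / (2 * Complex.I)) (BWc_sub (BWc_const_mul (-1) b1) b2)
  have e : D1 = fun w : ℂ => 1 / (2 * Complex.I) * (-1 * (((Real.log ‖w‖ : ℝ) : ℂ) * (1 - w)⁻¹)
      - ((Real.log ‖1 - w‖ : ℝ) : ℂ) * w⁻¹) := by
    funext w
    rw [D1]
    ring
  rw [e]
  convert b3 using 2
  · rw [D2]
    field_simp
    ring
  · rw [D11]
    field_simp
    ring

/-! ### elementary inequalities -/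

lemma BWc_abs_log {r : ℝ} (hr : 1 / 2 ≤ r) : |Real.log r| ≤ 2 * |r - 1| := by
  have hpos : 0 < r := by linarith
  rcases le_total 1 r with h | h
  · rw [abs_of_nonneg (Real.log_nonneg h), abs_of_nonneg (by linarith)]
    have := Real.log_le_sub_one_of_pos hpos
    linarith
  · rw [abs_of_nonpos (Real.log_nonpos hpos.le h), abs_of_nonpos (by linarith)]
    have h1 := Real.one_sub_inv_le_log_of_pos hpos
    have h2 : r⁻¹ - 1 ≤ 2 * (1 - r) := by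
      have : r⁻¹ - 1 = (1 - r) / r := by
        field_simp
      rw [this, div_le_iff₀ hpos]
      nlinarith
    linarith

lemma BWc_abs_log' {r : ℝ} (hr : 0 < r) : |Real.log r| ≤ r + 1 / r := by
  rw [abs_le]
  have h1 := Real.log_le_sub_one_of_pos hr
  have h2 := Real.one_sub_inv_le_log_of_pos hr
  rw [one_div]
  have h3 : 0 < r⁻¹ := inv_pos.2 hr
  constructor <;> linarith

/-- the elementary facts on `a = ‖z‖`, `b = ‖1 - z‖` -/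
lemma BWc_ab (z : ℂ) : ‖1 - z‖ ≤ 1 + ‖z‖ ∧ ‖z‖ ≤ 1 + ‖1 - z‖ ∧ 1 ≤ ‖z‖ + ‖1 - z‖ := by
  refine ⟨?_, ?_, ?_⟩
  · have := norm_sub_le (1 : ℂ) z
    rwa [norm_one] at this
  · have := norm_sub_le (1 : ℂ) (1 - z)
    rw [norm_one] at this
    rwa [show (1 : ℂ) - (1 - z) = z by ring] at this
  · have := norm_add_le z (1 - z)
    rw [show z + (1 - z) = 1 by ring, norm_one] at this
    exact this

lemma BWc_norm_half (w : ℂ) : ‖1 / (2 * Complex.I) * w‖ = 1 / 2 * ‖w‖ := by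
  rw [norm_mul, norm_div, norm_one, norm_mul, Complex.norm_I, mul_one]
  norm_num

lemma BWc_norm_real (r : ℝ) : ‖(r : ℂ)‖ = |r| := by
  rw [Complex.norm_real, Real.norm_eq_abs]

lemma BWc_D1_crude {z : ℂ} :
    ‖D1 z‖ ≤ 1 / 2 * (|Real.log ‖z‖| / ‖1 - z‖ + |Real.log ‖1 - z‖| / ‖z‖) := by
  rw [D1, BWc_norm_half]
  have h : ‖-(Real.log ‖z‖ : ℂ) / (1 - z) - (Real.log ‖1 - z‖ : ℂ) / z‖
      ≤ |Real.log ‖z‖| / ‖1 - z‖ + |Real.log ‖1 - z‖| / ‖z‖ := by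
    refine (norm_sub_le _ _).trans (le_of_eq ?_)
    rw [norm_div, norm_div, norm_neg, BWc_norm_real, BWc_norm_real]
  linarith

lemma BWc_D2_crude {z : ℂ} :
    ‖D2 z‖ ≤ 1 / 2 * (|Real.log ‖z‖| / ‖1 - z‖ ^ 2 + |Real.log ‖1 - z‖| / ‖z‖ ^ 2) := by
  rw [D2, BWc_norm_half]
  have h : ‖-(Real.log ‖z‖ : ℂ) / (1 - z) ^ 2 + (Real.log ‖1 - z‖ : ℂ) / z ^ 2‖
      ≤ |Real.log ‖z‖| / ‖1 - z‖ ^ 2 + |Real.log ‖1 - z‖| / ‖z‖ ^ 2 := by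
    refine (norm_add_le _ _).trans (le_of_eq ?_)
    rw [norm_div, norm_div, norm_neg, BWc_norm_real, BWc_norm_real, norm_pow, norm_pow]
  linarith

lemma BWc_D11_eq {z : ℂ} (h0 : z ≠ 0) (h1 : z ≠ 1) :
    ‖D11 z‖ = |z.im| / (2 * ‖z‖ ^ 2 * ‖1 - z‖ ^ 2) := by
  have h0' : (1 : ℂ) - z ≠ 0 := sub_ne_zero.2 h1.symm
  have hc : cj z ≠ 0 := fun h => h0 (cj_eq_zero.1 h)
  have hc1 : 1 - cj z ≠ 0 := by
    intro h
    apply h0'
    have := congrArg cj h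
    rwa [cj_sub, cj_one, cj_cj, cj_zero] at this
  have e : D11 z = (cj z - z) / (4 * Complex.I * (z * cj z) * ((1 - z) * (1 - cj z))) := by
    rw [D11]
    field_simp
    ring
  have e2 : z * cj z = ((‖z‖ ^ 2 : ℝ) : ℂ) := by
    rw [cj, Complex.mul_conj, Complex.normSq_eq_norm_sq]
  have e3 : (1 - z) * (1 - cj z) = ((‖1 - z‖ ^ 2 : ℝ) : ℂ) := by
    rw [show (1 : ℂ) - cj z = cj (1 - z) by rw [cj_sub, cj_one], cj, Complex.mul_conj,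
      Complex.normSq_eq_norm_sq]
  have e4 : cj z - z = -(2 * z.im * Complex.I) := by
    apply Complex.ext
    · simp [cj]
    · simp [cj]
      ring
  rw [e, e2, e3, e4, norm_div, norm_neg, norm_mul, norm_mul, norm_mul, norm_mul, norm_mul,
    BWc_norm_real, BWc_norm_real, BWc_norm_real, Complex.norm_I,
    abs_of_nonneg (sq_nonneg ‖z‖), abs_of_nonneg (sq_nonneg ‖1 - z‖)]
  have ha := norm_pos_iff.2 h0
  have hb := norm_pos_iff.2 h0'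
  rw [show ‖(4 : ℂ)‖ = 4 by simp, show ‖(2 : ℂ)‖ = 2 by simp]
  field_simp
  norm_num
  ring

lemma BWc_r {z : ℂ} (hz : 2 ≤ ‖z‖) (hb : 0 < ‖1 - z‖) :
    |Real.log ‖1 - z‖ - Real.log ‖z‖| ≤ 2 / ‖z‖ := by
  obtain ⟨k1, k2, k3⟩ := BWc_ab z
  have ha : 0 < ‖z‖ := by linarith
  rw [← Real.log_div hb.ne' ha.ne']
  have h1 : 1 / 2 ≤ ‖1 - z‖ / ‖z‖ := by
    rw [le_div_iff₀ ha]
    linarith
  refine (BWc_abs_log h1).trans ?_
  have h2 : ‖1 - z‖ / ‖z‖ - 1 = (‖1 - z‖ - ‖z‖) / ‖z‖ := by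
    field_simp
  rw [h2, abs_div, abs_of_pos ha, mul_div_assoc']
  have h3 : |‖1 - z‖ - ‖z‖| ≤ 1 := by
    rw [abs_le]
    constructor <;> linarith
  gcongr
  linarith

lemma BWc_D1_large {z : ℂ} (hz : 2 ≤ ‖z‖) : ‖D1 z‖ ≤ (3 + |Real.log ‖z‖|) / ‖z‖ ^ 2 := by
  obtain ⟨k1, k2, k3⟩ := BWc_ab z
  have ha : 0 < ‖z‖ := by linarith
  have hb : 0 < ‖1 - z‖ := by linarith
  have h0 : z ≠ 0 := norm_pos_iff.1 ha
  have h0' : (1 : ℂ) - z ≠ 0 := norm_pos_iff.1 hb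
  have hr := BWc_r hz hb
  have e : D1 z = 1 / (2 * Complex.I) *
      ((z * ((Real.log ‖1 - z‖ - Real.log ‖z‖ : ℝ) : ℂ) - ((Real.log ‖1 - z‖ : ℝ) : ℂ))
        / (z * (1 - z))) := by
    rw [D1]
    push_cast
    field_simp
    ring
  rw [e, BWc_norm_half, norm_div, norm_mul]
  have h1 : ‖z * ((Real.log ‖1 - z‖ - Real.log ‖z‖ : ℝ) : ℂ) - ((Real.log ‖1 - z‖ : ℝ) : ℂ)‖
      ≤ 3 + |Real.log ‖z‖| := by
    refine (norm_sub_le _ _).trans ?_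
    rw [norm_mul, BWc_norm_real, BWc_norm_real]
    have h2 : ‖z‖ * |Real.log ‖1 - z‖ - Real.log ‖z‖| ≤ 2 := by
      calc ‖z‖ * |Real.log ‖1 - z‖ - Real.log ‖z‖| ≤ ‖z‖ * (2 / ‖z‖) := by gcongr
        _ = 2 := by field_simp
    have h3 : |Real.log ‖1 - z‖| ≤ |Real.log ‖z‖| + 1 := by
      have h4 : |Real.log ‖1 - z‖| ≤ |Real.log ‖1 - z‖ - Real.log ‖z‖| + |Real.log ‖z‖| := by
        have := abs_add_le (Real.log ‖1 - z‖ - Real.log ‖z‖) (Real.log ‖z‖)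
        rwa [sub_add_cancel] at this
      have h5 : 2 / ‖z‖ ≤ 1 := by
        rw [div_le_one ha]
        exact hz
      linarith
    linarith
  have h6 : 0 ≤ 3 + |Real.log ‖z‖| := by positivity
  have h7 : ‖z‖ ^ 2 / 2 ≤ ‖z‖ * ‖1 - z‖ := by nlinarith
  calc 1 / 2 * (‖z * ((Real.log ‖1 - z‖ - Real.log ‖z‖ : ℝ) : ℂ)
        - ((Real.log ‖1 - z‖ : ℝ) : ℂ)‖ / (‖z‖ * ‖1 - z‖))
      ≤ 1 / 2 * ((3 + |Real.log ‖z‖|) / (‖z‖ ^ 2 / 2)) := by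
        gcongr
    _ = (3 + |Real.log ‖z‖|) / ‖z‖ ^ 2 := by
        field_simp

lemma BWc_D2_large {z : ℂ} (hz : 2 ≤ ‖z‖) : ‖D2 z‖ ≤ (1 + 5 * |Real.log ‖z‖|) / ‖z‖ ^ 3 := by
  obtain ⟨k1, k2, k3⟩ := BWc_ab z
  have ha : 0 < ‖z‖ := by linarith
  have hb : 0 < ‖1 - z‖ := by linarith
  have h0 : z ≠ 0 := norm_pos_iff.1 ha
  have h0' : (1 : ℂ) - z ≠ 0 := norm_pos_iff.1 hb
  have hr := BWc_r hz hb
  have e : D2 z = 1 / (2 * Complex.I) *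
      ((((Real.log ‖1 - z‖ - Real.log ‖z‖ : ℝ) : ℂ)
        + ((Real.log ‖z‖ : ℝ) : ℂ) * ((1 - 2 * z) / (1 - z) ^ 2)) / z ^ 2) := by
    rw [D2]
    push_cast
    field_simp
    ring
  rw [e, BWc_norm_half, norm_div, norm_pow]
  have h1 : ‖((Real.log ‖1 - z‖ - Real.log ‖z‖ : ℝ) : ℂ)
      + ((Real.log ‖z‖ : ℝ) : ℂ) * ((1 - 2 * z) / (1 - z) ^ 2)‖
      ≤ 2 / ‖z‖ + |Real.log ‖z‖| * (10 / ‖z‖) := by
    refine (norm_add_le _ _).trans ?_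
    rw [norm_mul, BWc_norm_real, BWc_norm_real, norm_div, norm_pow]
    have h2 : ‖1 - 2 * z‖ / ‖1 - z‖ ^ 2 ≤ 10 / ‖z‖ := by
      have h3 : ‖1 - 2 * z‖ ≤ 5 / 2 * ‖z‖ := by
        have := norm_sub_le (1 : ℂ) (2 * z)
        rw [norm_one, norm_mul, show ‖(2 : ℂ)‖ = 2 by simp] at this
        linarith
      have h4 : ‖z‖ ^ 2 / 4 ≤ ‖1 - z‖ ^ 2 := by nlinarith
      calc ‖1 - 2 * z‖ / ‖1 - z‖ ^ 2 ≤ (5 / 2 * ‖z‖) / (‖z‖ ^ 2 / 4) := by gcongr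
        _ = 10 / ‖z‖ := by
          field_simp
          norm_num
    gcongr
  calc 1 / 2 * (‖((Real.log ‖1 - z‖ - Real.log ‖z‖ : ℝ) : ℂ)
      + ((Real.log ‖z‖ : ℝ) : ℂ) * ((1 - 2 * z) / (1 - z) ^ 2)‖ / ‖z‖ ^ 2)
      ≤ 1 / 2 * ((2 / ‖z‖ + |Real.log ‖z‖| * (10 / ‖z‖)) / ‖z‖ ^ 2) := by
        gcongr
    _ = (1 + 5 * |Real.log ‖z‖|) / ‖z‖ ^ 3 := by
        field_simp
        ring

theorem D1_bound : ∃ C : ℝ, 0 ≤ C ∧ ∀ z : ℂ, z ≠ 0 → z ≠ 1 →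
    ‖D1 z‖ * (1 + ‖z‖) ^ 2 ≤ C * (1 + |Real.log ‖z‖| + 1 / ‖1 - z‖) := by
  refine ⟨36, by norm_num, fun z h0 h1 => ?_⟩
  have h0' : (1 : ℂ) - z ≠ 0 := sub_ne_zero.2 h1.symm
  have ha := norm_pos_iff.2 h0
  have hb := norm_pos_iff.2 h0'
  obtain ⟨k1, k2, k3⟩ := BWc_ab z
  have hcr := BWc_D1_crude (z := z)
  have hib : 0 < 1 / ‖1 - z‖ := by positivity
  have hla : 0 ≤ |Real.log ‖z‖| := abs_nonneg _
  rcases le_total ‖z‖ (1 / 2) with hz | hz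
  · have hb2 : 1 / 2 ≤ ‖1 - z‖ := by linarith
    have l1 : |Real.log ‖1 - z‖| ≤ 2 * ‖z‖ := by
      refine (BWc_abs_log hb2).trans ?_
      have : |‖1 - z‖ - 1| ≤ ‖z‖ := by
        rw [abs_le]
        constructor <;> linarith
      linarith
    have l2 : |Real.log ‖z‖| / ‖1 - z‖ ≤ 2 * |Real.log ‖z‖| := by
      rw [div_le_iff₀ hb]
      nlinarith
    have l3 : |Real.log ‖1 - z‖| / ‖z‖ ≤ 2 := by
      rw [div_le_iff₀ ha]
      exact l1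
    have l4 : ‖D1 z‖ ≤ |Real.log ‖z‖| + 1 := by linarith
    have l5 : (1 + ‖z‖) ^ 2 ≤ 9 / 4 := by nlinarith
    calc ‖D1 z‖ * (1 + ‖z‖) ^ 2 ≤ (|Real.log ‖z‖| + 1) * (9 / 4) :=
          mul_le_mul l4 l5 (by positivity) (by positivity)
      _ ≤ 36 * (1 + |Real.log ‖z‖| + 1 / ‖1 - z‖) := by linarith
  · rcases le_total ‖z‖ 2 with hz2 | hz2
    · have l1 : |Real.log ‖z‖| ≤ 2 * ‖1 - z‖ := by
        refine (BWc_abs_log hz).trans ?_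
        have : |‖z‖ - 1| ≤ ‖1 - z‖ := by
          rw [abs_le]
          constructor <;> linarith
        linarith
      have l2 : |Real.log ‖z‖| / ‖1 - z‖ ≤ 2 := by
        rw [div_le_iff₀ hb]
        exact l1
      have l3 : |Real.log ‖1 - z‖| / ‖z‖ ≤ 2 * (3 + 1 / ‖1 - z‖) := by
        rw [div_le_iff₀ ha]
        have := BWc_abs_log' hb
        nlinarith
      have l4 : ‖D1 z‖ ≤ 4 + 1 / ‖1 - z‖ := by linarith
      have l5 : (1 + ‖z‖) ^ 2 ≤ 9 := by nlinarith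
      calc ‖D1 z‖ * (1 + ‖z‖) ^ 2 ≤ (4 + 1 / ‖1 - z‖) * 9 :=
            mul_le_mul l4 l5 (by positivity) (by positivity)
        _ ≤ 36 * (1 + |Real.log ‖z‖| + 1 / ‖1 - z‖) := by linarith
    · have l4 := BWc_D1_large hz2
      have l5 : (1 + ‖z‖) ^ 2 ≤ 9 / 4 * ‖z‖ ^ 2 := by nlinarith
      calc ‖D1 z‖ * (1 + ‖z‖) ^ 2
          ≤ ((3 + |Real.log ‖z‖|) / ‖z‖ ^ 2) * (9 / 4 * ‖z‖ ^ 2) :=
            mul_le_mul l4 l5 (by positivity) (by positivity)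
        _ = 9 / 4 * (3 + |Real.log ‖z‖|) := by
            field_simp
        _ ≤ 36 * (1 + |Real.log ‖z‖| + 1 / ‖1 - z‖) := by linarith

theorem D2_bound : ∃ C : ℝ, 0 ≤ C ∧ ∀ z : ℂ, z ≠ 0 → z ≠ 1 →
    ‖D2 z‖ * ‖z‖ * (1 + ‖z‖) ^ 2 ≤ C * (1 + |Real.log ‖z‖| + 1 / ‖1 - z‖) := by
  refine ⟨108, by norm_num, fun z h0 h1 => ?_⟩
  have h0' : (1 : ℂ) - z ≠ 0 := sub_ne_zero.2 h1.symm
  have ha := norm_pos_iff.2 h0
  have hb := norm_pos_iff.2 h0'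
  obtain ⟨k1, k2, k3⟩ := BWc_ab z
  have hcr := BWc_D2_crude (z := z)
  have hib : 0 < 1 / ‖1 - z‖ := by positivity
  have hla : 0 ≤ |Real.log ‖z‖| := abs_nonneg _
  rcases le_total ‖z‖ (1 / 2) with hz | hz
  · have hb2 : 1 / 2 ≤ ‖1 - z‖ := by linarith
    have l1 : |Real.log ‖1 - z‖| ≤ 2 * ‖z‖ := by
      refine (BWc_abs_log hb2).trans ?_
      have : |‖1 - z‖ - 1| ≤ ‖z‖ := by
        rw [abs_le]
        constructor <;> linarith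
      linarith
    have l2 : |Real.log ‖z‖| / ‖1 - z‖ ^ 2 ≤ 4 * |Real.log ‖z‖| := by
      rw [div_le_iff₀ (by positivity)]
      have : 1 / 4 ≤ ‖1 - z‖ ^ 2 := by nlinarith
      nlinarith
    have l3 : |Real.log ‖1 - z‖| / ‖z‖ ^ 2 ≤ 2 / ‖z‖ := by
      rw [div_le_div_iff₀ (by positivity) ha]
      nlinarith
    have l4 : ‖D2 z‖ * ‖z‖ ≤ |Real.log ‖z‖| + 1 := by
      calc ‖D2 z‖ * ‖z‖ ≤ (1 / 2 * (4 * |Real.log ‖z‖| + 2 / ‖z‖)) * ‖z‖ := by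
            gcongr
            linarith
        _ = 2 * ‖z‖ * |Real.log ‖z‖| + 1 := by
            field_simp
            ring
        _ ≤ |Real.log ‖z‖| + 1 := by nlinarith
    have l5 : (1 + ‖z‖) ^ 2 ≤ 9 / 4 := by nlinarith
    calc ‖D2 z‖ * ‖z‖ * (1 + ‖z‖) ^ 2 ≤ (|Real.log ‖z‖| + 1) * (9 / 4) :=
          mul_le_mul l4 l5 (by positivity) (by positivity)
      _ ≤ 108 * (1 + |Real.log ‖z‖| + 1 / ‖1 - z‖) := by linarith
  · rcases le_total ‖z‖ 2 with hz2 | hz2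
    · have l1 : |Real.log ‖z‖| ≤ 2 * ‖1 - z‖ := by
        refine (BWc_abs_log hz).trans ?_
        have : |‖z‖ - 1| ≤ ‖1 - z‖ := by
          rw [abs_le]
          constructor <;> linarith
        linarith
      have l2 : |Real.log ‖z‖| / ‖1 - z‖ ^ 2 ≤ 2 * (1 / ‖1 - z‖) := by
        rw [mul_one_div, div_le_div_iff₀ (by positivity) hb]
        nlinarith
      have l3 : |Real.log ‖1 - z‖| / ‖z‖ ^ 2 ≤ 4 * (3 + 1 / ‖1 - z‖) := by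
        rw [div_le_iff₀ (by positivity)]
        have h4 := BWc_abs_log' hb
        have h5 : 1 / 4 ≤ ‖z‖ ^ 2 := by nlinarith
        nlinarith
      have l4 : ‖D2 z‖ ≤ 6 + 3 * (1 / ‖1 - z‖) := by linarith
      have l5 : (1 + ‖z‖) ^ 2 ≤ 9 := by nlinarith
      calc ‖D2 z‖ * ‖z‖ * (1 + ‖z‖) ^ 2 ≤ ((6 + 3 * (1 / ‖1 - z‖)) * 2) * 9 :=
            mul_le_mul (mul_le_mul l4 hz2 (by positivity) (by positivity)) l5 (by positivity)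
              (by positivity)
        _ ≤ 108 * (1 + |Real.log ‖z‖| + 1 / ‖1 - z‖) := by linarith
    · have l4 := BWc_D2_large hz2
      have l5 : (1 + ‖z‖) ^ 2 ≤ 9 / 4 * ‖z‖ ^ 2 := by nlinarith
      calc ‖D2 z‖ * ‖z‖ * (1 + ‖z‖) ^ 2
          ≤ ((1 + 5 * |Real.log ‖z‖|) / ‖z‖ ^ 3) * ‖z‖ * (9 / 4 * ‖z‖ ^ 2) :=
            mul_le_mul (mul_le_mul l4 le_rfl (by positivity) (by positivity)) l5 (by positivity)
              (by positivity)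
        _ = 9 / 4 * (1 + 5 * |Real.log ‖z‖|) := by
            field_simp
        _ ≤ 108 * (1 + |Real.log ‖z‖| + 1 / ‖1 - z‖) := by linarith

theorem D11_bound : ∃ C : ℝ, 0 ≤ C ∧ ∀ z : ℂ, z ≠ 0 → z ≠ 1 →
    ‖D11 z‖ * ‖z‖ * (1 + ‖z‖) ^ 2 ≤ C * (1 + |Real.log ‖z‖| + 1 / ‖1 - z‖) := by
  refine ⟨9, by norm_num, fun z h0 h1 => ?_⟩
  have h0' : (1 : ℂ) - z ≠ 0 := sub_ne_zero.2 h1.symm
  have ha := norm_pos_iff.2 h0
  have hb := norm_pos_iff.2 h0'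
  obtain ⟨k1, k2, k3⟩ := BWc_ab z
  have hib : 0 < 1 / ‖1 - z‖ := by positivity
  have hla : 0 ≤ |Real.log ‖z‖| := abs_nonneg _
  have i1 : |z.im| ≤ ‖z‖ := Complex.abs_im_le_norm z
  have i2 : |z.im| ≤ ‖1 - z‖ := by
    have := Complex.abs_im_le_norm (1 - z)
    rwa [Complex.sub_im, Complex.one_im, zero_sub, abs_neg] at this
  have i3 : 0 ≤ |z.im| := abs_nonneg _
  have e : ‖D11 z‖ * ‖z‖ * (1 + ‖z‖) ^ 2
      = |z.im| * (1 + ‖z‖) ^ 2 / (2 * ‖z‖ * ‖1 - z‖ ^ 2) := by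
    rw [BWc_D11_eq h0 h1]
    field_simp
  rw [e]
  rcases le_total ‖z‖ (1 / 2) with hz | hz
  · have hb2 : 1 / 2 ≤ ‖1 - z‖ := by linarith
    have l5 : (1 + ‖z‖) ^ 2 ≤ 9 / 4 := by nlinarith
    have l6 : 1 / 4 ≤ ‖1 - z‖ ^ 2 := by nlinarith
    calc |z.im| * (1 + ‖z‖) ^ 2 / (2 * ‖z‖ * ‖1 - z‖ ^ 2)
        ≤ ‖z‖ * (9 / 4) / (2 * ‖z‖ * (1 / 4)) := by gcongr
      _ = 9 / 2 := by
        field_simp
      _ ≤ 9 * (1 + |Real.log ‖z‖| + 1 / ‖1 - z‖) := by linarith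
  · rcases le_total ‖z‖ 2 with hz2 | hz2
    · have l5 : (1 + ‖z‖) ^ 2 ≤ 9 := by nlinarith
      calc |z.im| * (1 + ‖z‖) ^ 2 / (2 * ‖z‖ * ‖1 - z‖ ^ 2)
          ≤ ‖1 - z‖ * 9 / (2 * (1 / 2) * ‖1 - z‖ ^ 2) := by gcongr
        _ = 9 * (1 / ‖1 - z‖) := by
          field_simp
        _ ≤ 9 * (1 + |Real.log ‖z‖| + 1 / ‖1 - z‖) := by linarith
    · have l5 : (1 + ‖z‖) ^ 2 ≤ 9 / 4 * ‖z‖ ^ 2 := by nlinarith
      have l6 : ‖z‖ ^ 2 / 4 ≤ ‖1 - z‖ ^ 2 := by nlinarith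
      calc |z.im| * (1 + ‖z‖) ^ 2 / (2 * ‖z‖ * ‖1 - z‖ ^ 2)
          ≤ ‖z‖ * (9 / 4 * ‖z‖ ^ 2) / (2 * ‖z‖ * (‖z‖ ^ 2 / 4)) := by gcongr
        _ = 9 / 2 := by
          field_simp
        _ ≤ 9 * (1 + |Real.log ‖z‖| + 1 / ‖1 - z‖) := by linarith

lemma BWc_meas_log : Measurable (fun z : ℂ => ((Real.log ‖z‖ : ℝ) : ℂ)) :=
  Complex.measurable_ofReal.comp (Real.measurable_log.comp measurable_norm)

lemma BWc_meas_log1 : Measurable (fun z : ℂ => ((Real.log ‖1 - z‖ : ℝ) : ℂ)) :=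
  BWc_meas_log.comp (measurable_const.sub measurable_id)

lemma BWc_meas_cj : Measurable (fun z : ℂ => cj z) :=
  Complex.continuous_conj.measurable

theorem D1_meas : Measurable D1 := by
  unfold D1
  have h1 := BWc_meas_log
  have h2 := BWc_meas_log1
  fun_prop

theorem D2_meas : Measurable D2 := by
  unfold D2
  have h1 := BWc_meas_log
  have h2 := BWc_meas_log1
  fun_prop

theorem D11_meas : Measurable D11 := by
  unfold D11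
  have h1 := BWc_meas_cj
  fun_prop

end EE7
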