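import Mathlib
import Pool.Agent.EE7.Tor

/-!
# EE7/Box: integrals over `E × E` as integrals over the unit box of `ℝ⁴`

PROOF. `mp_cell` for both factors (`MeasurePreserving.prod`), the restriction of a product measure
is the product of the restrictions (`Measure.prod_restrict`), and `G` is doubly periodic, so
`G (cu (pr u)) (cu (pr v)) = G u v` (`per_pr`, `pr_st`). Use `MeasurePreserving.integral_comp'`-type
statements for an integrable (a.e. strongly measurable) function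
(`MeasurePreserving.map_eq` and `integral_map`).
-/

open MeasureTheory Set

namespace EE7

theorem int_box {G : ℂ → ℂ → ℂ} (h1 : ∀ v, Per (fun u => G u v)) (h2 : ∀ u, Per (G u))
    (hi : Integrable (fun q : E × E => G (cu q.1) (cu q.2))) :
    IntegrableOn (fun p : (ℝ × ℝ) × (ℝ × ℝ) =>
      G ((p.1.1 : ℂ) + (p.1.2 : ℂ) * om) ((p.2.1 : ℂ) + (p.2.2 : ℂ) * om))
      ((Ioc (0:ℝ) 1 ×ˢ Ioc (0:ℝ) 1) ×ˢ (Ioc (0:ℝ) 1 ×ˢ Ioc (0:ℝ) 1)) ∧
    ∫ q : E × E, G (cu q.1) (cu q.2) =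
      ∫ p in ((Ioc (0:ℝ) 1 ×ˢ Ioc (0:ℝ) 1) ×ˢ (Ioc (0:ℝ) 1 ×ˢ Ioc (0:ℝ) 1)),
        G ((p.1.1 : ℂ) + (p.1.2 : ℂ) * om) ((p.2.1 : ℂ) + (p.2.2 : ℂ) * om) := by
  have hmp := mp_cell.prod mp_cell
  have hv : (volume : Measure E).prod (volume : Measure E) = (volume : Measure (E × E)) := rfl
  rw [Measure.prod_restrict, Measure.prod_restrict, hv] at hmp
  have hm : (volume : Measure ℝ).prod (volume : Measure ℝ) = (volume : Measure (ℝ × ℝ)) := rfl
  have hm2 : (volume : Measure (ℝ × ℝ)).prod (volume : Measure (ℝ × ℝ)) =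
      (volume : Measure ((ℝ × ℝ) × (ℝ × ℝ))) := rfl
  rw [hm, hm2] at hmp
  have he : (fun q : E × E => G (cu q.1) (cu q.2)) ∘
      (Prod.map (fun p : ℝ × ℝ => (((p.1 : ℝ) : UnitAddCircle), ((p.2 : ℝ) : UnitAddCircle)))
        (fun p : ℝ × ℝ => (((p.1 : ℝ) : UnitAddCircle), ((p.2 : ℝ) : UnitAddCircle)))) =
      fun p : (ℝ × ℝ) × (ℝ × ℝ) =>
        G ((p.1.1 : ℂ) + (p.1.2 : ℂ) * om) ((p.2.1 : ℂ) + (p.2.2 : ℂ) * om) := by
    funext p
    show G (cu (((p.1.1 : ℝ) : UnitAddCircle), ((p.1.2 : ℝ) : UnitAddCircle)))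
        (cu (((p.2.1 : ℝ) : UnitAddCircle), ((p.2.2 : ℝ) : UnitAddCircle))) = _
    rw [← pr_st, ← pr_st, per_pr (h2 _), per_pr (h1 ((p.2.1 : ℂ) + (p.2.2 : ℂ) * om))]
  refine ⟨?_, ?_⟩
  · have h := hmp.integrable_comp_of_integrable hi
    rw [he] at h
    exact h
  · have h := integral_map (μ := (volume : Measure ((ℝ × ℝ) × (ℝ × ℝ))).restrict
        ((Ioc (0:ℝ) 1 ×ˢ Ioc (0:ℝ) 1) ×ˢ (Ioc (0:ℝ) 1 ×ˢ Ioc (0:ℝ) 1)))
        hmp.measurable.aemeasurable (f := fun q : E × E => G (cu q.1) (cu q.2))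
        (by rw [hmp.map_eq]; exact hi.aestronglyMeasurable)
    rw [hmp.map_eq] at h
    rw [h]
    refine integral_congr_ae (Filter.Eventually.of_forall fun p => ?_)
    exact congrFun he p

end EE7
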