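import Mathlib
import Pool.Agent.EE7.Bas
import Pool.Agent.EllSch.Zeta
import Pool.Agent.EllSch.Add

/-!
# EE7/HalfP: half periods of `O` and the translation formulas of `℘`

PROOF. Everything follows from the library `Pool/Agent/EllSch` with `a = 1`, `b = om`
(`EE7.ind : Ind 1 om`, `EE7.lat_eq : lat 1 om n = xx n`): `wp_add_lat`, `wq_add_lat`, `wp_neg`,
`wq_neg`, `hasDerivAt_wp`, `hasDerivAt_wq`, `ode`, `exists_lat_of_eq` (same `℘` and same `℘'`
imply equal mod the lattice), `wq_ne_zero` (`℘' ≠ 0` outside half periods), `wp_add`.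
* If `2 u ∈ O`, `u ∉ O`: `℘'(-u) = ℘'(u)` by periodicity and `= -℘'(u)`, so `℘'(u) = 0`.
* `P u = P v` iff `u = ±v` mod `O`: by `ode`, `℘'(u)² = ℘'(v)²`, so `℘'(u) = ±℘'(v)`, and
  `exists_lat_of_eq` for `(u, v)` or `(u, -v)`. So the `e_i` are distinct (`1/2 ± ob/2 ∉ O` and so
  on; `hp = ob/2`, `1/2 + ob/2 = 1 - om/2`), they are the three roots of `4 x³ - g2 x - g3`
  (`ode` at the half periods), which gives `e_sum` and `P_ode`. `P1_deriv`: differentiate, or
  compare `6 ℘² - g2/2` with the derivative of the product, `g2/4 = -(e0 e1 + e0 e2 + e1 e2)`.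
* `P_half`: by `wp_add` (addition theorem) with `v = 1/2`, `℘'(1/2) = 0`:
  `℘(u + 1/2) = -℘(u) - e0 + ¼ (℘'(u) / (℘(u) - e0))²` and `P_ode`. `P1_half`: differentiate
  `P_half` (both sides are holomorphic near `u`), or the same computation. Same for `P_hp`.
* On the lattice all of `P`, `P1` are `0` (junk values: periodicity and the value at `0`; `P1` is
  odd and periodic).
-/

namespace EE7

open Pool.Agent.EllSch (wp wq Off lat)

theorem P_per : Per P := by
  intro u n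
  unfold P
  rw [← lat_eq]
  exact Pool.Agent.EllSch.wp_add_lat ind u n

theorem P1_per : Per P1 := by
  intro u n
  unfold P1
  rw [← lat_eq]
  exact Pool.Agent.EllSch.wq_add_lat ind u n

theorem P_neg (u : ℂ) : P (-u) = P u := Pool.Agent.EllSch.wp_neg ind u

theorem P1_neg (u : ℂ) : P1 (-u) = -P1 u := Pool.Agent.EllSch.wq_neg ind u

theorem HalfP_P_zero : P 0 = 0 := by
  unfold P wp
  have : (fun x : ℤ × ℤ => 1 / ((0:ℂ) - lat 1 om x) ^ 2 - 1 / lat 1 om x ^ 2) = fun _ => 0 := by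
    funext x
    rw [zero_sub, neg_sq, sub_self]
  rw [this, tsum_zero]

theorem P_lat {u : ℂ} (h : ¬ Ofl u) : P u = 0 := by
  obtain ⟨n, rfl⟩ := (not_ofl_iff u).1 h
  rw [← zero_add (xx n), P_per, HalfP_P_zero]

/-- `℘'` vanishes on all half periods (including the lattice, by convention) -/
theorem P1_two {u : ℂ} (h : ¬ Ofl (2 * u)) : P1 u = 0 := by
  obtain ⟨n, hn⟩ := (not_ofl_iff _).1 h
  have e : u = -u + xx n := by linear_combination hn
  have h1 : P1 u = -P1 u := by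
    conv_lhs => rw [e]
    rw [P1_per, P1_neg]
  have h2 : 2 * P1 u = 0 := by linear_combination h1
  rcases mul_eq_zero.1 h2 with h3 | h3
  · norm_num at h3
  · exact h3

theorem P1_ne {u : ℂ} (h : Ofl (2 * u)) : P1 u ≠ 0 := Pool.Agent.EllSch.wq_ne_zero ind h

theorem ofl_add (u : ℂ) (n : ℤ × ℤ) : Ofl (u + xx n) ↔ Ofl u := by
  unfold Ofl
  rw [← lat_eq]
  exact Pool.Agent.EllSch.off_add_lat n

theorem ofl_neg (u : ℂ) : Ofl (-u) ↔ Ofl u := Pool.Agent.EllSch.off_neg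

/-- a half of a lattice point -/
theorem HalfP_iff {u : ℂ} {n : ℤ × ℤ} (h : 2 * u = xx n) :
    ¬ Ofl u ↔ Even n.1 ∧ Even n.2 := by
  rw [not_ofl_iff]
  constructor
  · rintro ⟨m, rfl⟩
    rw [two_mul_xx] at h
    have := xx_inj h
    rw [← this]
    exact ⟨⟨m.1, by ring⟩, ⟨m.2, by ring⟩⟩
  · rintro ⟨⟨a, ha⟩, ⟨b, hb⟩⟩
    refine ⟨(a, b), ?_⟩
    have e : xx n = 2 * xx (a, b) := by
      rw [two_mul_xx]
      congr 1
      exact Prod.ext (by simp only; omega) (by simp only; omega)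
    rw [e] at h
    linear_combination h / 2

theorem HalfP_ofl {u : ℂ} (n : ℤ × ℤ) (h : 2 * u = xx n) (hn : ¬ (Even n.1 ∧ Even n.2)) :
    Ofl u := by
  by_contra hc
  exact hn ((HalfP_iff h).1 hc)

theorem HalfP_hp : hp = (1 - om) / 2 := rfl

theorem ofl_two_iff (u : ℂ) :
    Ofl (2 * u) ↔ Ofl u ∧ Ofl (u + 1 / 2) ∧ Ofl (u + hp) ∧ Ofl (u + om / 2) := by
  constructor
  · intro h
    rw [ofl_iff] at h
    refine ⟨?_, ?_, ?_, ?_⟩
    · by_contra hc
      obtain ⟨n, hn⟩ := (not_ofl_iff _).1 hc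
      apply h (2 * n.1, 2 * n.2)
      rw [← two_mul_xx, ← hn]
    · by_contra hc
      obtain ⟨n, hn⟩ := (not_ofl_iff _).1 hc
      apply h (2 * n.1 - 1, 2 * n.2)
      rw [xx_def] at hn ⊢
      push_cast
      linear_combination 2 * hn
    · by_contra hc
      obtain ⟨n, hn⟩ := (not_ofl_iff _).1 hc
      apply h (2 * n.1 - 1, 2 * n.2 + 1)
      rw [xx_def] at hn ⊢
      rw [HalfP_hp] at hn
      push_cast
      linear_combination 2 * hn
    · by_contra hc
      obtain ⟨n, hn⟩ := (not_ofl_iff _).1 hc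
      apply h (2 * n.1, 2 * n.2 - 1)
      rw [xx_def] at hn ⊢
      push_cast
      linear_combination 2 * hn
  · rintro ⟨h0, h1, h2, h3⟩
    by_contra hc
    obtain ⟨n, hn⟩ := (not_ofl_iff _).1 hc
    rw [ofl_iff] at h0 h1 h2 h3
    rw [xx_def] at hn
    rcases Int.even_or_odd n.1 with ⟨a, ha⟩ | ⟨a, ha⟩ <;>
      rcases Int.even_or_odd n.2 with ⟨b, hb⟩ | ⟨b, hb⟩ <;> rw [ha, hb] at hn <;>
      push_cast at hn
    · apply h0 (a, b)
      rw [xx_def]
      linear_combination hn / 2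
    · apply h3 (a, b + 1)
      rw [xx_def]
      push_cast
      linear_combination hn / 2
    · apply h1 (a + 1, b)
      rw [xx_def]
      push_cast
      linear_combination hn / 2
    · apply h2 (a + 1, b)
      rw [xx_def, HalfP_hp]
      push_cast
      linear_combination hn / 2

/-- if `2 u ∉ O` then `u` is different from all half periods -/
theorem ofl_of_two {u : ℂ} (h : Ofl (2 * u)) :
    Ofl u ∧ Ofl (u + 1 / 2) ∧ Ofl (u + hp) ∧ Ofl (u + om / 2) := (ofl_two_iff u).1 h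

theorem ofl_half : Ofl (1 / 2) ∧ Ofl hp ∧ Ofl (om / 2) := by
  refine ⟨HalfP_ofl (1, 0) ?_ (by decide), HalfP_ofl (1, -1) ?_ (by decide),
    HalfP_ofl (0, 1) ?_ (by decide)⟩
  · rw [xx_def]; push_cast; ring
  · rw [xx_def, HalfP_hp]; push_cast; ring
  · rw [xx_def]; push_cast; ring

theorem P_eq_iff {u v : ℂ} (hu : Ofl u) (hv : Ofl v) :
    P u = P v ↔ ¬ Ofl (u + v) ∨ ¬ Ofl (u - v) := by
  constructor
  · intro h
    have o1 := Pool.Agent.EllSch.ode ind hu
    have o2 := Pool.Agent.EllSch.ode ind hv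
    have h' : wp 1 om u = wp 1 om v := h
    rw [h', ← o2] at o1
    rcases sq_eq_sq_iff_eq_or_eq_neg.1 o1 with h1 | h1
    · right
      obtain ⟨x, hx⟩ := Pool.Agent.EllSch.exists_lat_of_eq ind hu hv h' h1
      rw [not_ofl_iff]
      refine ⟨x, ?_⟩
      rw [← lat_eq]
      linear_combination hx
    · left
      obtain ⟨x, hx⟩ := Pool.Agent.EllSch.exists_lat_of_eq ind hu
        (Pool.Agent.EllSch.off_neg.2 hv) (by rw [Pool.Agent.EllSch.wp_neg ind]; exact h')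
        (by rw [Pool.Agent.EllSch.wq_neg ind]; exact h1)
      rw [not_ofl_iff]
      refine ⟨x, ?_⟩
      rw [← lat_eq]
      linear_combination hx
  · rintro (h | h)
    · obtain ⟨n, hn⟩ := (not_ofl_iff _).1 h
      have e : u = -v + xx n := by linear_combination hn
      rw [e, P_per, P_neg]
    · obtain ⟨n, hn⟩ := (not_ofl_iff _).1 h
      have e : u = v + xx n := by linear_combination hn
      rw [e, P_per]

theorem e01 : e0 ≠ e1 := by
  intro h
  have h' : P (1 / 2) = P hp := h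
  rcases (P_eq_iff ofl_half.1 ofl_half.2.1).1 h' with h1 | h1
  · refine h1 (HalfP_ofl (2, -1) ?_ (by decide))
    rw [xx_def, HalfP_hp]; push_cast; ring
  · refine h1 (HalfP_ofl (0, 1) ?_ (by decide))
    rw [xx_def, HalfP_hp]; push_cast; ring

theorem e02 : e0 ≠ e2 := by
  intro h
  have h' : P (1 / 2) = P (om / 2) := h
  rcases (P_eq_iff ofl_half.1 ofl_half.2.2).1 h' with h1 | h1
  · refine h1 (HalfP_ofl (1, 1) ?_ (by decide))
    rw [xx_def]; push_cast; ring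
  · refine h1 (HalfP_ofl (1, -1) ?_ (by decide))
    rw [xx_def]; push_cast; ring

theorem e12 : e1 ≠ e2 := by
  intro h
  have h' : P hp = P (om / 2) := h
  rcases (P_eq_iff ofl_half.2.1 ofl_half.2.2).1 h' with h1 | h1
  · refine h1 (HalfP_ofl (1, 0) ?_ (by decide))
    rw [xx_def, HalfP_hp]; push_cast; ring
  · refine h1 (HalfP_ofl (1, -2) ?_ (by decide))
    rw [xx_def, HalfP_hp]; push_cast; ring

theorem CC_ne : CC ≠ 0 := by
  unfold CC
  exact mul_ne_zero (sub_ne_zero.2 e01) (sub_ne_zero.2 e02)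

/-- a half period is a root of the cubic -/
theorem HalfP_root {w : ℂ} (hw : Ofl w) (h2 : ¬ Ofl (2 * w)) :
    4 * P w ^ 3 - Pool.Agent.EllSch.G2 1 om * P w - Pool.Agent.EllSch.G3 1 om = 0 := by
  have o := Pool.Agent.EllSch.ode ind hw
  have h := P1_two h2
  have h' : wq 1 om w = 0 := h
  rw [h'] at o
  unfold P
  linear_combination -o

theorem HalfP_two_half : ¬ Ofl (2 * (1 / 2)) ∧ ¬ Ofl (2 * hp) ∧ ¬ Ofl (2 * (om / 2)) := by
  simp only [not_ofl_iff]
  refine ⟨⟨(1, 0), ?_⟩, ⟨(1, -1), ?_⟩, ⟨(0, 1), ?_⟩⟩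
  · rw [xx_def]; push_cast; ring
  · rw [xx_def, HalfP_hp]; push_cast; ring
  · rw [xx_def]; push_cast; ring

theorem HalfP_all : e0 + e1 + e2 = 0 ∧
    Pool.Agent.EllSch.G2 1 om = -4 * (e0 * e1 + e0 * e2 + e1 * e2) ∧
    Pool.Agent.EllSch.G3 1 om = 4 * (e0 * e1 * e2) := by
  have r0 : 4 * e0 ^ 3 - Pool.Agent.EllSch.G2 1 om * e0 - Pool.Agent.EllSch.G3 1 om = 0 :=
    HalfP_root ofl_half.1 HalfP_two_half.1
  have r1 : 4 * e1 ^ 3 - Pool.Agent.EllSch.G2 1 om * e1 - Pool.Agent.EllSch.G3 1 om = 0 :=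
    HalfP_root ofl_half.2.1 HalfP_two_half.2.1
  have r2 : 4 * e2 ^ 3 - Pool.Agent.EllSch.G2 1 om * e2 - Pool.Agent.EllSch.G3 1 om = 0 :=
    HalfP_root ofl_half.2.2 HalfP_two_half.2.2
  have a1 : 4 * (e0 ^ 2 + e0 * e1 + e1 ^ 2) - Pool.Agent.EllSch.G2 1 om = 0 := by
    have : (e0 - e1) * (4 * (e0 ^ 2 + e0 * e1 + e1 ^ 2) - Pool.Agent.EllSch.G2 1 om) = 0 := by
      linear_combination r0 - r1
    exact (mul_eq_zero.1 this).resolve_left (sub_ne_zero.2 e01)
  have a2 : 4 * (e0 ^ 2 + e0 * e2 + e2 ^ 2) - Pool.Agent.EllSch.G2 1 om = 0 := by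
    have : (e0 - e2) * (4 * (e0 ^ 2 + e0 * e2 + e2 ^ 2) - Pool.Agent.EllSch.G2 1 om) = 0 := by
      linear_combination r0 - r2
    exact (mul_eq_zero.1 this).resolve_left (sub_ne_zero.2 e02)
  have a3 : e0 + e1 + e2 = 0 := by
    have : (e1 - e2) * (e0 + e1 + e2) = 0 := by
      linear_combination a1 / 4 - a2 / 4
    exact (mul_eq_zero.1 this).resolve_left (sub_ne_zero.2 e12)
  have a4 : e2 = -e0 - e1 := by linear_combination a3
  refine ⟨a3, ?_, ?_⟩
  · rw [a4]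
    linear_combination -a1
  · rw [a4]
    linear_combination -r0 + e0 * a1

theorem e_sum : e0 + e1 + e2 = 0 := HalfP_all.1

theorem P_deriv {u : ℂ} (hu : Ofl u) : HasDerivAt P (P1 u) u :=
  Pool.Agent.EllSch.hasDerivAt_wp ind hu

theorem P_ode {u : ℂ} (hu : Ofl u) : P1 u ^ 2 = 4 * (P u - e0) * (P u - e1) * (P u - e2) := by
  have o : P1 u ^ 2 = 4 * P u ^ 3 - Pool.Agent.EllSch.G2 1 om * P u
    - Pool.Agent.EllSch.G3 1 om := Pool.Agent.EllSch.ode ind hu
  rw [o, HalfP_all.2.1, HalfP_all.2.2]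
  have := e_sum
  linear_combination (4 * P u ^ 2) * this

theorem P1_deriv {u : ℂ} (hu : Ofl u) : HasDerivAt P1
    (2 * ((P u - e0) * (P u - e1) + (P u - e0) * (P u - e2) + (P u - e1) * (P u - e2))) u := by
  have h : HasDerivAt P1 (6 * P u ^ 2 - Pool.Agent.EllSch.G2 1 om / 2) u :=
    Pool.Agent.EllSch.hasDerivAt_wq ind hu
  convert h using 1
  rw [HalfP_all.2.1]
  have := e_sum
  linear_combination -(4 * P u) * this

theorem P_eq_e0 {u : ℂ} (hu : Ofl u) : P u = e0 ↔ ¬ Ofl (u + 1 / 2) := by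
  have h := P_eq_iff hu ofl_half.1
  have e : u - 1 / 2 = u + 1 / 2 + xx (-1, 0) := by rw [xx_def]; push_cast; ring
  rw [e, ofl_add, or_self] at h
  exact h

theorem P_eq_e1 {u : ℂ} (hu : Ofl u) : P u = e1 ↔ ¬ Ofl (u + hp) := by
  have h := P_eq_iff hu ofl_half.2.1
  have e : u - hp = u + hp + xx (-1, 1) := by rw [xx_def, HalfP_hp]; push_cast; ring
  rw [e, ofl_add, or_self] at h
  exact h

theorem P_eq_e2 {u : ℂ} (hu : Ofl u) : P u = e2 ↔ ¬ Ofl (u + om / 2) := by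
  have h := P_eq_iff hu ofl_half.2.2
  have e : u - om / 2 = u + om / 2 + xx (0, -1) := by rw [xx_def]; push_cast; ring
  rw [e, ofl_add, or_self] at h
  exact h

/-- addition of a half period -/
theorem HalfP_addw {u w : ℂ} (hu : Ofl u) (hw : Ofl w) (h2w : ¬ Ofl (2 * w))
    (huw : Ofl (u + w)) (hne : P u ≠ P w) :
    P (u + w) = (P1 u / (P u - P w)) ^ 2 / 4 - P u - P w ∧
      P1 (u + w) = -(P1 u + P1 u / (P u - P w) * (P (u + w) - P u)) := by
  have z : P1 w = 0 := P1_two h2w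
  have a1 : P (u + w) = ((P1 u - P1 w) / (P u - P w)) ^ 2 / 4 - P u - P w :=
    Pool.Agent.EllSch.wp_add ind hu hw huw hne
  have a2 : P1 (u + w) = -(P1 u + (P1 u - P1 w) / (P u - P w) * (P (u + w) - P u)) :=
    Pool.Agent.EllSch.wq_add ind hu hw huw hne
  rw [z, sub_zero] at a1 a2
  exact ⟨a1, a2⟩

theorem P_half {u : ℂ} (hu : Ofl u) (h2 : Ofl (u + 1 / 2)) :
    P (u + 1 / 2) = e0 + CC / (P u - e0) := by
  have hne : P u ≠ e0 := fun h => (P_eq_e0 hu).1 h h2
  have h := (HalfP_addw hu ofl_half.1 HalfP_two_half.1 h2 hne).1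
  have e : P (1 / 2) = e0 := rfl
  rw [e, div_pow, P_ode hu] at h
  rw [h]
  have hd := sub_ne_zero.2 hne
  have hs : e2 = -e0 - e1 := by linear_combination e_sum
  unfold CC
  rw [hs]
  field_simp
  ring

theorem P1_half {u : ℂ} (hu : Ofl u) (h2 : Ofl (u + 1 / 2)) :
    P1 (u + 1 / 2) = -(CC * P1 u / (P u - e0) ^ 2) := by
  have hne : P u ≠ e0 := fun h => (P_eq_e0 hu).1 h h2
  have h := (HalfP_addw hu ofl_half.1 HalfP_two_half.1 h2 hne).2
  have e : P (1 / 2) = e0 := rfl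
  rw [e, P_half hu h2] at h
  rw [h]
  have hd := sub_ne_zero.2 hne
  field_simp
  ring

theorem P_hp {u : ℂ} (hu : Ofl u) (h2 : Ofl (u + hp)) :
    P (u + hp) = e1 + (e1 - e0) * (e1 - e2) / (P u - e1) := by
  have hne : P u ≠ e1 := fun h => (P_eq_e1 hu).1 h h2
  have h := (HalfP_addw hu ofl_half.2.1 HalfP_two_half.2.1 h2 hne).1
  have e : P hp = e1 := rfl
  rw [e, div_pow, P_ode hu] at h
  rw [h]
  have hd := sub_ne_zero.2 hne
  have hs : e2 = -e0 - e1 := by linear_combination e_sum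
  rw [hs]
  field_simp
  ring

theorem P1_hp {u : ℂ} (hu : Ofl u) (h2 : Ofl (u + hp)) :
    P1 (u + hp) = -((e1 - e0) * (e1 - e2) * P1 u / (P u - e1) ^ 2) := by
  have hne : P u ≠ e1 := fun h => (P_eq_e1 hu).1 h h2
  have h := (HalfP_addw hu ofl_half.2.1 HalfP_two_half.2.1 h2 hne).2
  have e : P hp = e1 := rfl
  rw [e, P_hp hu h2] at h
  rw [h]
  have hd := sub_ne_zero.2 hne
  field_simp
  ring

end EE7
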