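import Mathlib
import Pool.Agent.EE7.HalfP

/-!
# EE7/Cm: complex multiplication by `om` and the relation between the `e_i`

PROOF. The key formula is, for the sublattice of index two `O ⊂ om⁻¹ O = O ∪ (hp + O)`
(`om⁻¹ = ob / 2 = hp`):
`om² P(om u) = P(u) + P(u + hp) - e1`  for `u`, `u + hp ∉ O`  (so `om u ∉ O`).
Two ways to prove it. (a) Series: `om² ℘_O(om u) = Σ_{l ∈ om⁻¹ O} (1/(u - l)² - 1/l²)`
(`wp_smul`), split the lattice `om⁻¹ O` (generated by `hp` and `1`) into the even and odd multiples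
of `hp`: the even ones give `O` (note `2 hp = ob = 1 - om`), i.e. `P(u)`, the odd ones give
`Σ_{l ∈ O} (1/(u - hp - l)² - 1/(hp + l)²) = P(u - hp) - P(-hp) = P(u + hp) - e1`.
(b) `const_of_off` of EllSch/Basic applied to the difference, which is elliptic with removable
singularities at `0` and `hp`.
Only the value at `u = 1/2` is needed: `om² e2 = e0 + e2 - e1`, because `om / 2`, and
`1/2 + hp = 1 - om/2`, so `P(1/2 + hp) = e2`.
With `e0 + e1 + e2 = 0`: `e1 = -(om²/2) e2`, `e0 = (om²/2 - 1) e2`; by `om² = om - 2`: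
`e1 - e2 = -(om/2) e2`, `16 (e1-e2)² = 4 om² e2² = (4 om - 8) e2²` and
`(e0-e1)(e0-e2) = (om² - 1)(om²/2 - 2) e2² = (8 - 4 om) e2²`.
-/

namespace EE7

theorem Cm_hasSum (u : ℂ) :
    HasSum (fun x : ℤ × ℤ => 1 / (u - xx x) ^ 2 - 1 / xx x ^ 2) (P u) := by
  have h := (Pool.Agent.EllSch.pp ind).hasSum_weierstrassP u
  rw [← Pool.Agent.EllSch.wp_eq ind] at h
  rw [← ((Pool.Agent.EllSch.pp ind).latticeEquivProd.symm.toEquiv).hasSum_iff] at h
  have he : (fun x : ℤ × ℤ => 1 / (u - xx x) ^ 2 - 1 / xx x ^ 2)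
      = (fun l : (Pool.Agent.EllSch.pp ind).lattice => 1 / (u - (l : ℂ)) ^ 2 - 1 / (l : ℂ) ^ 2) ∘
        ((Pool.Agent.EllSch.pp ind).latticeEquivProd.symm.toEquiv) := by
    funext x
    have hx : (((Pool.Agent.EllSch.pp ind).latticeEquivProd.symm x :
        (Pool.Agent.EllSch.pp ind).lattice) : ℂ) = xx x := by
      rw [Pool.Agent.EllSch.pp_symm_coe, lat_eq]
    have hx2 : (((Pool.Agent.EllSch.pp ind).latticeEquivProd.symm.toEquiv x :
        (Pool.Agent.EllSch.pp ind).lattice) : ℂ) = xx x := hx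
    simp only [Function.comp, hx2]
  rw [he]
  exact h

/-- the splitting of `O` into `om O` and `1 + om O` -/
def Cm_equiv : (ℤ × ℤ) ⊕ (ℤ × ℤ) ≃ ℤ × ℤ where
  toFun
    | .inl y => (-2 * y.2, y.1 + y.2)
    | .inr y => (1 - 2 * y.2, y.1 + y.2)
  invFun x := if x.1 % 2 = 0 then .inl (x.2 + x.1 / 2, -(x.1 / 2))
    else .inr (x.2 + x.1 / 2, -(x.1 / 2))
  left_inv := by
    rintro (⟨a, b⟩ | ⟨a, b⟩)
    · have h1 : (-2 * b) % 2 = 0 := by omega
      have h2 : (-2 * b) / 2 = -b := by omega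
      simp only [h1, if_true, h2]
      congr 1
      exact Prod.ext (by simp) (by simp)
    · have h1 : ¬ ((1 - 2 * b) % 2 = 0) := by omega
      have h2 : (1 - 2 * b) / 2 = -b := by omega
      simp only [h1, if_false, h2]
      congr 1
      exact Prod.ext (by simp) (by simp)
  right_inv := by
    rintro ⟨a, b⟩
    by_cases h : a % 2 = 0
    · simp only [h, if_true]
      exact Prod.ext (by simp only; omega) (by simp only; omega)
    · simp only [h, if_false]
      exact Prod.ext (by simp only; omega) (by simp only; omega)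

theorem Cm_aux {a w : ℂ} (ha : a ≠ 0) : a ^ 2 * (1 / (a * w) ^ 2) = 1 / w ^ 2 := by
  rw [mul_pow, one_div, mul_inv, ← mul_assoc, mul_inv_cancel₀ (pow_ne_zero 2 ha), one_mul, one_div]

theorem cm_value : om ^ 2 * e2 = e0 + e2 - e1 := by
  have ho := om_ne_zero
  have hF := (Cm_hasSum (om / 2)).mul_left (om ^ 2)
  have h0 := Cm_hasSum (1 / 2)
  have h1 := (Cm_hasSum (1 / 2 - hp)).sub (Cm_hasSum (-hp))
  have hsum : HasSum ((fun x : ℤ × ℤ => om ^ 2 * (1 / (om / 2 - xx x) ^ 2 - 1 / xx x ^ 2)) ∘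
      Cm_equiv) (P (1 / 2) + (P (1 / 2 - hp) - P (-hp))) := by
    refine HasSum.sum ?_ ?_
    · have he : ((fun x : ℤ × ℤ => om ^ 2 * (1 / (om / 2 - xx x) ^ 2 - 1 / xx x ^ 2)) ∘
          Cm_equiv) ∘ Sum.inl = fun x : ℤ × ℤ => 1 / (1 / 2 - xx x) ^ 2 - 1 / xx x ^ 2 := by
        funext y
        have hy : xx (Cm_equiv (Sum.inl y)) = om * xx y := by
          rw [om_mul_xx]
          rfl
        simp only [Function.comp, hy]
        have e1' : om / 2 - om * xx y = om * (1 / 2 - xx y) := by ring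
        rw [e1', mul_sub, Cm_aux ho, Cm_aux ho]
      rw [he]
      exact h0
    · have he : ((fun x : ℤ × ℤ => om ^ 2 * (1 / (om / 2 - xx x) ^ 2 - 1 / xx x ^ 2)) ∘
          Cm_equiv) ∘ Sum.inr = fun x : ℤ × ℤ => (1 / (1 / 2 - hp - xx x) ^ 2 - 1 / xx x ^ 2)
            - (1 / (-hp - xx x) ^ 2 - 1 / xx x ^ 2) := by
        funext y
        have hh : om * hp = 1 := by
          unfold hp
          have := om_mul_ob
          linear_combination this / 2
        have hy : xx (Cm_equiv (Sum.inr y)) = om * (hp + xx y) := by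
          have h2 : xx (Cm_equiv (Sum.inr y)) = 1 + xx (-2 * y.2, y.1 + y.2) := by
            show xx (1 - 2 * y.2, y.1 + y.2) = _
            rw [xx_def, xx_def]
            push_cast
            ring
          rw [h2, ← om_mul_xx, mul_add, hh]
        simp only [Function.comp, hy]
        have e1' : om / 2 - om * (hp + xx y) = om * (1 / 2 - hp - xx y) := by ring
        have e2' : (-hp - xx y) ^ 2 = (hp + xx y) ^ 2 := by ring
        rw [e1', mul_sub, Cm_aux ho, Cm_aux ho, e2']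
        ring
      rw [he]
      exact h1
  rw [Cm_equiv.hasSum_iff] at hsum
  have hu := hF.unique hsum
  have e3 : (1 / 2 - hp : ℂ) = om / 2 := by
    unfold hp ob
    ring
  rw [e3, P_neg] at hu
  have e4 : P (om / 2) = e2 := rfl
  have e5 : P (1 / 2) = e0 := rfl
  have e6 : P hp = e1 := rfl
  rw [e4, e5, e6] at hu
  linear_combination hu

theorem e1_eq : e1 = -(om ^ 2 / 2) * e2 := by
  have h := cm_value
  have hs := e_sum
  linear_combination (1 / 2) * hs + (1 / 2) * h

theorem cm : 16 * (e1 - e2) ^ 2 + CC = 0 := by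
  have h1 := e1_eq
  have hs := e_sum
  have ho := om_sq
  have h0 : e0 = (om ^ 2 / 2 - 1) * e2 := by linear_combination hs - h1
  have h1' : e1 = (1 - om / 2) * e2 := by
    linear_combination h1 - (1 / 2) * e2 * ho
  have h0' : e0 = (om / 2 - 2) * e2 := by
    linear_combination h0 + (1 / 2) * e2 * ho
  unfold CC
  rw [h0', h1']
  linear_combination (9 / 2) * e2 ^ 2 * ho

end EE7
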