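import Mathlib
import Pool.Agent.EE7.Tor

/-!
# EE7/TorAe: null sets and shears of the torus

PROOF. `ae_cu`: `{x | cu x ∈ S}` is contained in the countable set `pr '' S` (`pr (cu x) = x`), and
the Haar measure of `E` has no atoms (product of `UnitAddCircle`s). `ae_gen`: by Fubini
(`MeasureTheory.Measure.ae_prod_iff`-type lemmas, the set of non generic `q` is measurable, or
null-measurable: it is a finite union of preimages under measurable maps of the countable set
`pr '' {h | 2 h ∈ O}` (four points): `2 cu x ∈ O` iff `x ∈ pr '' (half periods)`,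
`2 (cu x + cu y) ∈ O` iff `x + y ∈` the same four points, and so on). For a fixed `x` each
condition excludes countably many `y`. Shears: `(x, y) ↦ (x, x + y)` preserves the product of Haar
measures (`measurePreserving_prod_add` or similar), translations and `x ↦ -x` preserve the
measure; `(x, y) ↦ (x + y, x - y)` is a continuous surjective endomorphism of the compact group
`E × E` (surjective because `E` is divisible), so it preserves the Haar probability measure
(`AddMonoidHom.measurePreserving`, the additive form of `MonoidHom.measurePreserving`).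
-/

open MeasureTheory Set

namespace EE7

theorem TorAe_ofl (u : ℂ) : Ofl (2 * u) ↔ pr u + pr u ≠ 0 := by
  have h1 : pr u + pr u = pr (2 * u) := by
    rw [two_mul, pr_add]
  have h2 : ¬ Ofl (2 * u) ↔ pr u + pr u = 0 := by
    rw [h1, ← Tor_pr_zero, pr_eq_iff, not_ofl_iff]
    simp only [zero_add]
  rw [← not_iff_not, h2, not_not]

theorem ofl_two_cu (x : E) : Ofl (2 * cu x) ↔ x + x ≠ 0 := by
  rw [TorAe_ofl, pr_cu]

instance TorAe_haar : (volume : Measure E).IsAddHaarMeasure := by
  rw [Measure.volume_eq_prod]
  infer_instance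

instance TorAe_haar2 : (volume : Measure (E × E)).IsAddHaarMeasure :=
  Measure.prod.instIsAddHaarMeasure _ _

instance TorAe_null1 : NullSingletonClass (volume : Measure UnitAddCircle) where
  measure_singleton x := by
    rw [← Metric.closedBall_zero, AddCircle.volume_closedBall]
    simp

instance TorAe_null : NullSingletonClass (volume : Measure E) := by
  rw [Measure.volume_eq_prod]
  infer_instance

theorem ae_cu {S : Set ℂ} (hS : S.Countable) : ∀ᵐ x : E, cu x ∉ S := by
  have h := (hS.image pr).ae_notMem (volume : Measure E)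
  filter_upwards [h] with x hx hc
  exact hx ⟨cu x, hc, pr_cu x⟩

theorem ae_two : ∀ᵐ x : E, Ofl (2 * cu x) := by
  have hS : (Set.range (fun n : ℤ × ℤ => xx n / 2)).Countable := Set.countable_range _
  filter_upwards [ae_cu hS] with x hx
  by_contra hc
  rw [not_ofl_iff] at hc
  obtain ⟨n, hn⟩ := hc
  refine hx ⟨n, ?_⟩
  show xx n / 2 = cu x
  rw [← hn]
  ring

theorem mp_shear : MeasurePreserving (fun q : E × E => (q.1, q.1 + q.2)) volume volume := by
  rw [Measure.volume_eq_prod]
  exact measurePreserving_prod_add volume volume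

theorem mp_swap : MeasurePreserving (fun q : E × E => (q.2, q.1)) volume volume := by
  rw [Measure.volume_eq_prod]
  exact Measure.measurePreserving_swap

theorem mp_neg2 : MeasurePreserving (fun q : E × E => (q.1, -q.2)) volume volume := by
  have hn : MeasurePreserving (negAddMonoidHom : E →+ E) volume volume :=
    AddMonoidHom.measurePreserving (f := (negAddMonoidHom : E →+ E))
      (μ := (volume : Measure E)) (ν := (volume : Measure E))
      (show Continuous (fun x : E => -x) from continuous_neg)
      (show Function.Surjective (fun x : E => -x) from neg_surjective) rfl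
  rw [Measure.volume_eq_prod]
  exact (MeasurePreserving.id _).prod hn

theorem mp_shift (a b : E) :
    MeasurePreserving (fun q : E × E => (q.1 + a, q.2 + b)) volume volume := by
  rw [Measure.volume_eq_prod]
  exact (measurePreserving_add_right volume a).prod (measurePreserving_add_right volume b)

theorem TorAe_qfst : Measure.QuasiMeasurePreserving (fun q : E × E => q.1) volume volume := by
  rw [Measure.volume_eq_prod (α := E) (β := E)]
  exact Measure.quasiMeasurePreserving_fst

theorem TorAe_qsnd : Measure.QuasiMeasurePreserving (fun q : E × E => q.2) volume volume := by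
  rw [Measure.volume_eq_prod (α := E) (β := E)]
  exact Measure.quasiMeasurePreserving_snd

theorem ae_gen : ∀ᵐ q : E × E, Gen (cu q.1) (cu q.2) := by
  have h1 := TorAe_qfst.ae ae_two
  have h2 := TorAe_qsnd.ae ae_two
  have h3 := (TorAe_qsnd.comp mp_shear.quasiMeasurePreserving).ae ae_two
  have h4 := ((TorAe_qsnd.comp mp_shear.quasiMeasurePreserving).comp
    mp_neg2.quasiMeasurePreserving).ae ae_two
  filter_upwards [h1, h2, h3, h4] with q g1 g2 g3 g4
  refine ⟨g1, g2, ?_, ?_⟩
  · rw [TorAe_ofl, pr_add, pr_cu, pr_cu]
    have := (ofl_two_cu _).1 g3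
    exact this
  · rw [TorAe_ofl, pr_sub, pr_cu, pr_cu]
    have := (ofl_two_cu _).1 g4
    simpa [Function.comp, sub_eq_add_neg] using this

/-- `(x, y) ↦ (x + y, x - y)` as a homomorphism -/
def TorAe_hom : E × E →+ E × E where
  toFun q := (q.1 + q.2, q.1 - q.2)
  map_zero' := by simp
  map_add' p q := by
    refine Prod.ext ?_ ?_
    · show p.1 + q.1 + (p.2 + q.2) = p.1 + p.2 + (q.1 + q.2)
      abel
    · show p.1 + q.1 - (p.2 + q.2) = p.1 - p.2 + (q.1 - q.2)
      abel

theorem TorAe_cont : Continuous TorAe_hom := by
  show Continuous (fun q : E × E => (q.1 + q.2, q.1 - q.2))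
  fun_prop

theorem TorAe_surj : Function.Surjective TorAe_hom := by
  rintro ⟨p, q⟩
  have h : pr (cu (p + q) / 2) + pr (cu (p + q) / 2) = p + q := by
    rw [← pr_add, add_halves, pr_cu]
  refine ⟨(pr (cu (p + q) / 2), p - pr (cu (p + q) / 2)), ?_⟩
  refine Prod.ext ?_ ?_
  · show pr (cu (p + q) / 2) + (p - pr (cu (p + q) / 2)) = p
    abel
  · show pr (cu (p + q) / 2) - (p - pr (cu (p + q) / 2)) = q
    have h2 : pr (cu (p + q) / 2) - (p - pr (cu (p + q) / 2)) =
        (pr (cu (p + q) / 2) + pr (cu (p + q) / 2)) - p := by abel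
    rw [h2, h]
    abel

theorem TorAe_mp : MeasurePreserving TorAe_hom volume volume :=
  AddMonoidHom.measurePreserving TorAe_cont TorAe_surj rfl

/-- the map `(x, y) ↦ (x + y, x - y + b)` -/
theorem mp_t2 (b : E) :
    MeasurePreserving (fun q : E × E => (q.1 + q.2, q.1 - q.2 + b)) volume volume := by
  have h := (mp_shift 0 b).comp TorAe_mp
  have h2 : (fun q : E × E => (q.1 + q.2, q.1 - q.2 + b)) =
      (fun q : E × E => (q.1 + 0, q.2 + b)) ∘ TorAe_hom := by
    funext q
    refine Prod.ext ?_ rfl
    show q.1 + q.2 = q.1 + q.2 + 0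
    rw [add_zero]
  rw [h2]
  exact h

end EE7
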