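import Mathlib
import Pool.Agent.EE7.HalfP
import Pool.Agent.EE7.ZBas

/-!
# EE7/PhId: `ph` and `ps` as elliptic functions

PROOF. The addition theorem of the zeta function (`wz_add` in EllSch/Add):
`ζ(u + v) = ζ(u) + ζ(v) + ½ (℘'(u) - ℘'(v)) / (℘(u) - ℘(v))`.
(1) With `v = 1/2`, `℘'(1/2) = 0`: `ζ(u + 1/2) = ζ(u) + ζ(1/2) + ½ ℘'(u) / (℘(u) - e0)`; the linear
terms of `Z` are additive and `Z (1/2) = 0` (`Z_two`), so
`Z(u + 1/2) = Z(u) + ½ ℘'(u)/(℘(u) - e0)` for `u, u + 1/2 ∉ O`, i.e. `ph_eq`. If `u ∈ O` both sides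
are `0` (`Z_two`, `P1_two`), and if `u + 1/2 ∈ O` as well (`P u - e0 = 0`, `x / 0 = 0`, `Z_two`).
(2) `ps_eq`: with `w = u + 1/2`, add the addition theorems for `(w, v)` and `(w, -v)`:
`Z(w+v) + Z(w-v) - 2 Z(w) = ½ (℘'(w) - ℘'(v))/(℘(w) - ℘(v)) + ½ (℘'(w) + ℘'(v))/(℘(w) - ℘(v))`.
Here `P w ≠ P v` since `w ± v ∉ O` (`P_eq_iff`).
(The same formula for general points is `Z_sum`.)
-/

namespace EE7

theorem PhId_add {u v : ℂ} (hu : Ofl u) (hv : Ofl v) (huv : Ofl (u + v)) (hne : P u ≠ P v) :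
    Z (u + v) = Z u + Z v + 1 / 2 * ((P1 u - P1 v) / (P u - P v)) := by
  have h := Pool.Agent.EllSch.wz_add ind hu hv huv hne
  unfold Z
  rw [if_pos hu, if_pos hv, if_pos huv, h, cj_add]
  unfold P P1
  ring

theorem PhId_one : (1 : ℂ) = xx (1, 0) := by
  rw [xx_def]
  simp

theorem PhId_shift (u : ℂ) : Ofl (u + 1) ↔ Ofl u := by
  rw [PhId_one]
  exact ofl_add u (1, 0)

theorem PhId_Z (u : ℂ) : Z (u + 1) = Z u := by
  rw [PhId_one]
  exact Z_per u (1, 0)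

theorem PhId_lat : ¬ Ofl (0 : ℂ) := by
  rw [not_ofl_iff]
  exact ⟨0, xx_zero.symm⟩

theorem PhId_two {u : ℂ} (h : ¬ Ofl u) : ¬ Ofl (2 * u) := by
  rw [not_ofl_iff] at h ⊢
  obtain ⟨n, rfl⟩ := h
  exact ⟨(2 * n.1, 2 * n.2), two_mul_xx n⟩

theorem PhId_h : ¬ Ofl (2 * (1 / 2) : ℂ) := by
  have h : (2 * (1 / 2) : ℂ) = 0 + 1 := by norm_num
  rw [h, PhId_shift]
  exact PhId_lat


theorem ph_eq (u : ℂ) : ph u = -(P1 u / (P u - e0)) := by
  have h2 : (2 * (u + 1 / 2) : ℂ) = 2 * u + 1 := by ring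
  by_cases hu : Ofl u
  · by_cases hh : Ofl (u + 1 / 2)
    · have hne : P u ≠ e0 := by
        intro h
        exact (P_eq_e0 hu).1 h hh
      have ha := PhId_add hu ofl_half.1 hh hne
      rw [Z_two PhId_h, P1_two PhId_h] at ha
      unfold ph
      rw [ha]
      unfold e0
      ring
    · have h3 : ¬ Ofl (2 * u) := by
        have h4 := PhId_two hh
        rwa [h2, PhId_shift] at h4
      unfold ph
      rw [Z_lat hh, Z_two h3, P1_two h3]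
      simp
  · have h3 := PhId_two hu
    have h4 : ¬ Ofl (2 * (u + 1 / 2)) := by
      rwa [h2, PhId_shift]
    unfold ph
    rw [Z_lat hu, Z_two h4, P1_two h3]
    simp

theorem ph_per : Per ph := by
  intro u n
  unfold ph
  have h : u + xx n + 1 / 2 = u + 1 / 2 + xx n := by ring
  rw [h, Z_per, Z_per]

theorem ph_neg (u : ℂ) : ph (-u) = -ph u := by
  rw [ph_eq, ph_eq, P1_neg, P_neg]
  ring

theorem ph_half (u : ℂ) : ph (u + 1 / 2) = -ph u := by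
  unfold ph
  have h : u + 1 / 2 + 1 / 2 = u + 1 := by ring
  rw [h, PhId_Z]
  ring

/-- `Z(w+v) + Z(w-v) - 2 Z(w) = ℘'(w) / (℘(w) - ℘(v))` -/
theorem Z_sum {w v : ℂ} (hw : Ofl w) (hv : Ofl v) (h1 : Ofl (w + v)) (h2 : Ofl (w - v)) :
    Z (w + v) + Z (w - v) - 2 * Z w = P1 w / (P w - P v) := by
  have hne : P w ≠ P v := by
    intro h
    rcases (P_eq_iff hw hv).1 h with h3 | h3
    · exact h3 h1
    · exact h3 h2
  have a1 := PhId_add hw hv h1 hne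
  have hv' : Ofl (-v) := (ofl_neg v).2 hv
  have h2' : Ofl (w + -v) := by rwa [← sub_eq_add_neg]
  have hne' : P w ≠ P (-v) := by rwa [P_neg]
  have a2 := PhId_add hw hv' h2' hne'
  rw [Z_neg, P1_neg, P_neg] at a2
  rw [sub_eq_add_neg w v, a1, a2]
  ring

theorem ps_eq {u v : ℂ} (hv : Ofl v) (h0 : Ofl (u + 1 / 2)) (h1 : Ofl (u + 1 / 2 + v))
    (h2 : Ofl (u + 1 / 2 - v)) : ps u v = P1 (u + 1 / 2) / (P (u + 1 / 2) - P v) :=
  Z_sum h0 hv h1 h2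

end EE7
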