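import Mathlib
import Pool.Agent.EE7.PhId

/-!
# EE7/PhAlg: `ph (u ± v)` and `JJ` as rational functions of `℘`, `℘'`

Notation `a = P u - e0`, `b = P v - e0`, `M = a b - CC` (`CC = (e0-e1)(e0-e2)`).

PROOF.
* `ph_hp`: `ph (u + hp) = -P1 (u+hp) / (P (u+hp) - e0)`; by `P_hp`, `P1_hp`:
  `P(u+hp) - e0 = (e1-e0) (P u - e2)/(P u - e1)`, so
  `ph (u+hp) = (e1-e2) P1 u / ((P u - e1)(P u - e2)) = 4 (e1-e2)(P u - e0)/P1 u` by `P_ode`.
* `ph_sum`: `ph(u+v) + ph(u-v) = 2 [Z(u+v) + Z(u-v)] - 2 [Z(w+v) + Z(w-v)]`, `w = u + 1/2`; by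
  `Z_sum` twice it is `2 ph(u) + 2 P1 u/(P u - P v) - 2 P1 w/(P w - P v)`; insert `P_half`,
  `P1_half`: `P w - P v = -M/a`, `P1 w = -CC P1 u/a²`, `ph u = -P1 u / a`, so the sum is
  `2 P1 u [1/(a-b) - (M + CC)/(a M)] = 2 P1 u [1/(a-b) - b/M] = 2 P1 u (b² - CC)/((a-b) M)`.
* `ph_diff`: `ph(u+v) - ph(u-v) = ph(v+u) + ph(v-u)` (`ph_neg`) and `ph_sum` for `(v, u)`.
* `M ≠ 0`: `M = -a (P w - P v)` and `w ± v ∉ O`. `a - b = P u - P v ≠ 0`.
* `JJ_eq`: `JJ = ph(u+hp) (ph(u+v)+ph(u-v)) + ph(v+hp)(ph(u+v)-ph(u-v))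
  = 8 (e1-e2)/((a-b) M) [a (b²-CC) - b (a²-CC)] = -8 (e1-e2) (a b + CC)/M`.
-/

namespace EE7

theorem PhAlg_swap {u v : ℂ} (h : Gen u v) : Gen v u := by
  refine ⟨h.2.1, h.1, ?_, ?_⟩
  · rw [add_comm v u]
    exact h.2.2.1
  · have h1 := (ofl_neg _).2 h.2.2.2
    have e : 2 * (v - u) = -(2 * (u - v)) := by ring
    rw [e]
    exact h1

theorem PhAlg_a {u : ℂ} (hu : Ofl (2 * u)) : P u - e0 ≠ 0 := by
  have h := ofl_of_two hu
  intro h0
  exact (P_eq_e0 h.1).1 (sub_eq_zero.1 h0) h.2.1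

theorem PhAlg_w {u v : ℂ} (h : Gen u v) :
    P (u + 1 / 2) - P v = -(((P u - e0) * (P v - e0) - CC) / (P u - e0)) := by
  have hu := ofl_of_two h.1
  have ha := PhAlg_a h.1
  rw [P_half hu.1 hu.2.1]
  field_simp
  ring

theorem PhAlg_wv {u v : ℂ} (h : Gen u v) :
    Ofl (u + 1 / 2 + v) ∧ Ofl (u + 1 / 2 - v) := by
  have h1 := (ofl_of_two h.2.2.1).2.1
  have h2 := (ofl_of_two h.2.2.2).2.1
  constructor
  · have e : u + 1 / 2 + v = u + v + 1 / 2 := by ring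
    rw [e]
    exact h1
  · have e : u + 1 / 2 - v = u - v + 1 / 2 := by ring
    rw [e]
    exact h2

theorem M_ne {u v : ℂ} (h : Gen u v) : (P u - e0) * (P v - e0) - CC ≠ 0 := by
  intro h0
  have hu := ofl_of_two h.1
  have hv := ofl_of_two h.2.1
  have h1 := PhAlg_w h
  rw [h0, zero_div, neg_zero, sub_eq_zero] at h1
  obtain ⟨h2, h3⟩ := PhAlg_wv h
  rcases (P_eq_iff hu.2.1 hv.1).1 h1 with h4 | h4
  · exact h4 h2
  · exact h4 h3

theorem P_ne {u v : ℂ} (h : Gen u v) : P u ≠ P v := by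
  intro h0
  have hu := ofl_of_two h.1
  have hv := ofl_of_two h.2.1
  rcases (P_eq_iff hu.1 hv.1).1 h0 with h4 | h4
  · exact h4 (ofl_of_two h.2.2.1).1
  · exact h4 (ofl_of_two h.2.2.2).1

theorem ph_hp {u : ℂ} (hu : Ofl (2 * u)) :
    ph (u + hp) = 4 * (e1 - e2) * (P u - e0) / P1 u := by
  have h := ofl_of_two hu
  have h1 : P u - e1 ≠ 0 := fun h0 => (P_eq_e1 h.1).1 (sub_eq_zero.1 h0) h.2.2.1
  have h2 : P u - e2 ≠ 0 := fun h0 => (P_eq_e2 h.1).1 (sub_eq_zero.1 h0) h.2.2.2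
  have hd := P1_ne hu
  have h10 : e1 - e0 ≠ 0 := sub_ne_zero.2 e01.symm
  have hode := P_ode h.1
  rw [ph_eq, P_hp h.1 h.2.2.1, P1_hp h.1 h.2.2.1]
  have hden : e1 + (e1 - e0) * (e1 - e2) / (P u - e1) - e0 =
      (e1 - e0) * (P u - e2) / (P u - e1) := by
    field_simp
    ring
  rw [hden]
  have hs : -(-((e1 - e0) * (e1 - e2) * P1 u / (P u - e1) ^ 2) /
      ((e1 - e0) * (P u - e2) / (P u - e1))) = (e1 - e2) * P1 u / ((P u - e1) * (P u - e2)) := by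
    field_simp
  rw [hs, div_eq_div_iff (mul_ne_zero h1 h2) hd]
  linear_combination (e1 - e2) * hode

theorem ph_sum {u v : ℂ} (h : Gen u v) :
    ph (u + v) + ph (u - v) = 2 * P1 u * ((P v - e0) ^ 2 - CC) /
      ((P u - P v) * ((P u - e0) * (P v - e0) - CC)) := by
  have hu := ofl_of_two h.1
  have hv := ofl_of_two h.2.1
  obtain ⟨h2, h3⟩ := PhAlg_wv h
  have s1 := Z_sum hu.1 hv.1 (ofl_of_two h.2.2.1).1 (ofl_of_two h.2.2.2).1
  have s2 := Z_sum hu.2.1 hv.1 h2 h3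
  have ha := PhAlg_a h.1
  have hM := M_ne h
  have hP : P u - P v ≠ 0 := sub_ne_zero.2 (P_ne h)
  have hw := PhAlg_w h
  have hphu : ph u = -(P1 u / (P u - e0)) := ph_eq u
  rw [hw, P1_half hu.1 hu.2.1] at s2
  have e1 : u + v + 1 / 2 = u + 1 / 2 + v := by ring
  have e2 : u - v + 1 / 2 = u + 1 / 2 - v := by ring
  have key : ph (u + v) + ph (u - v) = 2 * (P1 u / (P u - P v)) -
      2 * (-(CC * P1 u / (P u - e0) ^ 2) / -(((P u - e0) * (P v - e0) - CC) / (P u - e0)))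
      + 2 * -(P1 u / (P u - e0)) := by
    have hz : ph u = 2 * Z u - 2 * Z (u + 1 / 2) := rfl
    rw [← hphu, hz]
    have hz1 : ph (u + v) = 2 * Z (u + v) - 2 * Z (u + 1 / 2 + v) := by
      rw [← e1]; rfl
    have hz2 : ph (u - v) = 2 * Z (u - v) - 2 * Z (u + 1 / 2 - v) := by
      rw [← e2]; rfl
    rw [hz1, hz2]
    linear_combination 2 * s1 - 2 * s2
  rw [key]
  generalize P u = p at *
  generalize P v = q at *
  generalize P1 u = d at *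
  have hpq : p - q = (p - e0) - (q - e0) := by ring
  have hM' : (p - e0) * (q - e0) - CC ≠ 0 := hM
  field_simp
  ring

theorem ph_diff {u v : ℂ} (h : Gen u v) :
    ph (u + v) - ph (u - v) = -(2 * P1 v * ((P u - e0) ^ 2 - CC) /
      ((P u - P v) * ((P u - e0) * (P v - e0) - CC))) := by
  have h1 := ph_sum (PhAlg_swap h)
  have e : ph (v - u) = -ph (u - v) := by
    rw [← ph_neg, neg_sub]
  rw [e, add_comm v u] at h1
  rw [sub_eq_add_neg, h1]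
  have e2 : (P v - P u) * ((P v - e0) * (P u - e0) - CC) =
      -((P u - P v) * ((P u - e0) * (P v - e0) - CC)) := by ring
  rw [e2, div_neg]

theorem JJ_eq {u v : ℂ} (h : Gen u v) :
    JJ u v = -(8 * (e1 - e2) * ((P u - e0) * (P v - e0) + CC) /
      ((P u - e0) * (P v - e0) - CC)) := by
  unfold JJ
  rw [ph_sum h, ph_diff h, ph_hp h.1, ph_hp h.2.1]
  have hM := M_ne h
  have hP : P u - P v ≠ 0 := sub_ne_zero.2 (P_ne h)
  have h1 := P1_ne h.1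
  have h2 := P1_ne h.2.1
  field_simp
  ring

end EE7
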