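import Mathlib
import Pool.Agent.EE7.PhId
import Pool.Agent.EE7.PhAlg

/-!
# EE7/XDer: the function `u ↦ X u v` for a fixed generic `v`

`hv : Ofl (2 * v)`; `Good v u` says that `u`, `u + 1/2`, `u + 1/2 ± v` are not in `O`.
PROOF. Put `a = P u - e0 ≠ 0`, `b = P v - e0 ≠ 0`.
* The set of bad `u` is a countable union of points.
* `X_eq`: `P_half`. `X ≠ 1`: `P (u+1/2) ≠ P v` (`P_eq_iff`).
* `X_u = P1 (u+1/2)/(P v - e0) = -ph (u+1/2) X = ph u X` (`ph_eq`, `ph_half`).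
* `ph² = P1²/a² = 4 (P u - e1)(P u - e2)/a = 4 (a² + 3 e0 a + CC)/a`
  (`(P u - e1)(P u - e2) = a² + (2 e0 - e1 - e2) a + CC`, `e_sum`).
* `ph' = -P1'/a + P1²/a² `, `P1' = 2[(..)(..)+..]` (`P1_deriv`), which simplifies to
  `2 CC/a - 2 a`.
* `ps = P1 w/(P w - P v)` (`ps_eq`), `w = u + 1/2`, and `-ph u X/(1-X) = -X_u/(1-X)
  = P1 w/(P w - P v)`.
* `X_bound`: `X = CC/(a b)`, so `a = CC/(b X)`, and
  `ph² X = 4 CC/b + 12 e0 X + 4 b X²`, `(2 CC/a - 2a) X = 2 b X² - 2 CC/b`.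
* `inv_bound` (for `Ofl (2u)`): `1/(1-X) = 1 + X/(1-X) = 1 - ps/ph u`, and
  `ph u · ph (u + hp) = -4 (e1 - e2)` (from `ph_eq`, `P_hp`, `P1_hp`: `ph (u+hp) = (e1-e2) P1 u /
  ((P u-e1)(P u-e2))`), so `1/ph u = -ph (u+hp)/(4 (e1-e2))`, `e12`.
* `log_bound`: `|log ‖X‖| ≤ |log ‖CC/b‖| + |log ‖a‖|`; if `‖a‖ ≥ 1` then
  `4‖a‖ ≤ ‖ph‖² + 12‖e0‖ + 4‖CC‖`, if `‖a‖ ≤ 1` then `4‖CC‖/‖a‖ ≤ ‖ph‖² + 4 + 12‖e0‖`, and
  `log (C (1 + ‖ph‖)²) ≤ C' + 2‖ph‖`.
-/

namespace EE7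

theorem XDer_cnt (c : ℂ) : {u : ℂ | ¬ Ofl (u + c)}.Countable := by
  have h : {u : ℂ | ¬ Ofl (u + c)} ⊆ Set.range (fun n : ℤ × ℤ => xx n - c) := by
    intro u hu
    obtain ⟨n, hn⟩ := (not_ofl_iff _).1 hu
    exact ⟨n, by simp only; linear_combination -hn⟩
  exact (Set.countable_range _).mono h

theorem bad_countable (v : ℂ) : {u : ℂ | ¬ Good v u}.Countable := by
  have h : {u : ℂ | ¬ Good v u} ⊆ {u : ℂ | ¬ Ofl (u + 0)} ∪ ({u : ℂ | ¬ Ofl (u + 1 / 2)} ∪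
      ({u : ℂ | ¬ Ofl (u + (1 / 2 + v))} ∪ {u : ℂ | ¬ Ofl (u + (1 / 2 - v))})) := by
    intro u hu
    simp only [Set.mem_setOf_eq, Set.mem_union] at hu ⊢
    by_contra hc
    push Not at hc
    obtain ⟨h0, h1, h2, h3⟩ := hc
    apply hu
    refine ⟨?_, h1, ?_, ?_⟩
    · rwa [add_zero] at h0
    · rwa [← add_assoc] at h2
    · rwa [← add_sub_assoc] at h3
  exact ((XDer_cnt 0).union ((XDer_cnt _).union ((XDer_cnt _).union (XDer_cnt _)))).mono h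

theorem good_add (v u : ℂ) (n : ℤ × ℤ) : Good v (u + xx n) ↔ Good v u := by
  unfold Good
  have e1 : u + xx n + 1 / 2 = u + 1 / 2 + xx n := by ring
  have e2 : u + xx n + 1 / 2 + v = u + 1 / 2 + v + xx n := by ring
  have e3 : u + xx n + 1 / 2 - v = u + 1 / 2 - v + xx n := by ring
  rw [e2, e3, e1, ofl_add, ofl_add, ofl_add, ofl_add]

theorem X_per (v : ℂ) : Per (fun u => X u v) := by
  intro u n
  have e1 : u + xx n + 1 / 2 = u + 1 / 2 + xx n := by ring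
  simp only [X]
  rw [e1, P_per]

theorem ps_per (v : ℂ) : Per (fun u => ps u v) := by
  intro u n
  have e1 : u + xx n + 1 / 2 = u + 1 / 2 + xx n := by ring
  have e2 : u + 1 / 2 + xx n + v = u + 1 / 2 + v + xx n := by ring
  have e3 : u + 1 / 2 + xx n - v = u + 1 / 2 - v + xx n := by ring
  simp only [ps]
  rw [e1, e2, e3, Z_per, Z_per, Z_per]

theorem XDer_a {u : ℂ} (h0 : Ofl u) (h1 : Ofl (u + 1 / 2)) : P u - e0 ≠ 0 :=
  sub_ne_zero.2 fun h => (P_eq_e0 h0).1 h h1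

theorem XDer_Xeq {u v : ℂ} (h0 : Ofl u) (h1 : Ofl (u + 1 / 2)) (hb : P v - e0 ≠ 0) :
    X u v = CC / ((P u - e0) * (P v - e0)) := by
  have ha := XDer_a h0 h1
  rw [X, P_half h0 h1]
  field_simp
  ring

theorem XDer_b {v : ℂ} (hv : Ofl (2 * v)) : P v - e0 ≠ 0 :=
  XDer_a (ofl_of_two hv).1 (ofl_of_two hv).2.1

theorem X_symm {u v : ℂ} (h : Gen u v) : X u v = X v u := by
  have hu := ofl_of_two h.1
  have hv := ofl_of_two h.2.1
  rw [XDer_Xeq hu.1 hu.2.1 (XDer_b h.2.1), XDer_Xeq hv.1 hv.2.1 (XDer_b h.1),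
    mul_comm (P u - e0)]

theorem X_eq {v u : ℂ} (hv : Ofl (2 * v)) (hu : Good v u) :
    X u v = CC / ((P u - e0) * (P v - e0)) := XDer_Xeq hu.1 hu.2.1 (XDer_b hv)

theorem XDer_Pne {v u : ℂ} (hv : Ofl (2 * v)) (hu : Good v u) : P (u + 1 / 2) ≠ P v := by
  intro h
  rcases (P_eq_iff hu.2.1 (ofl_of_two hv).1).1 h with h1 | h1
  · exact h1 hu.2.2.1
  · exact h1 hu.2.2.2

theorem X_ne {v u : ℂ} (hv : Ofl (2 * v)) (hu : Good v u) : X u v ≠ 0 ∧ X u v ≠ 1 := by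
  have hb := XDer_b hv
  refine ⟨?_, ?_⟩
  · rw [X_eq hv hu]
    exact div_ne_zero CC_ne (mul_ne_zero (XDer_a hu.1 hu.2.1) hb)
  · intro h
    rw [X, div_eq_one_iff_eq hb] at h
    exact XDer_Pne hv hu (sub_left_injective h)

theorem XDer_P1 {v u : ℂ} (hv : Ofl (2 * v)) (hu : Good v u) :
    P1 (u + 1 / 2) = ph u * X u v * (P v - e0) := by
  have ha := XDer_a hu.1 hu.2.1
  have hb := XDer_b hv
  rw [P1_half hu.1 hu.2.1, X_eq hv hu, ph_eq]
  field_simp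

theorem X_deriv {v u : ℂ} (hv : Ofl (2 * v)) (hu : Good v u) :
    HasDerivAt (fun w => X w v) (ph u * X u v) u := by
  have hb := XDer_b hv
  have h1 : HasDerivAt (fun w : ℂ => P (w + 1 / 2)) (P1 (u + 1 / 2)) u :=
    (P_deriv hu.2.1).comp_add_const u (1 / 2)
  have h2 := (h1.sub_const e0).div_const (P v - e0)
  have e : P1 (u + 1 / 2) / (P v - e0) = ph u * X u v := by
    rw [XDer_P1 hv hu, mul_div_assoc, div_self hb, mul_one]
  rw [e] at h2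
  exact h2

theorem XDer_prod (p : ℂ) :
    (p - e1) * (p - e2) = (p - e0) ^ 2 + 3 * e0 * (p - e0) + CC := by
  have hs : e2 = -e0 - e1 := by linear_combination e_sum
  unfold CC
  rw [hs]
  ring

theorem ph_deriv {u : ℂ} (h0 : Ofl u) (h1 : Ofl (u + 1 / 2)) :
    HasDerivAt ph (2 * CC / (P u - e0) - 2 * (P u - e0)) u := by
  have ha := XDer_a h0 h1
  have hf : ph = fun w => -(P1 w / (P w - e0)) := funext fun w => ph_eq w
  rw [hf]
  have h2 := ((P1_deriv h0).div ((P_deriv h0).sub_const e0) ha).neg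
  have hp := XDer_prod (P u)
  have ho := P_ode h0
  have hs := e_sum
  have e : -((2 * ((P u - e0) * (P u - e1) + (P u - e0) * (P u - e2) +
      (P u - e1) * (P u - e2)) * (P u - e0) - P1 u * P1 u) / (P u - e0) ^ 2) =
      2 * CC / (P u - e0) - 2 * (P u - e0) := by
    have e1' : P1 u * P1 u = 4 * (P u - e0) * ((P u - e0) ^ 2 + 3 * e0 * (P u - e0) + CC) := by
      rw [← hp]
      linear_combination ho
    have e2' : (P u - e0) * (P u - e1) + (P u - e0) * (P u - e2) + (P u - e1) * (P u - e2) =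
        (P u - e0) * (2 * (P u - e0) + 3 * e0) +
          ((P u - e0) ^ 2 + 3 * e0 * (P u - e0) + CC) := by
      rw [← hp]
      linear_combination -(P u - e0) * hs
    rw [e1', e2']
    field_simp
    ring
  rw [e] at h2
  exact h2

theorem ph_sq {u : ℂ} (h0 : Ofl u) (h1 : Ofl (u + 1 / 2)) :
    ph u ^ 2 = 4 * (P u - e0) + 12 * e0 + 4 * CC / (P u - e0) := by
  have ha := XDer_a h0 h1
  have hp := XDer_prod (P u)
  rw [ph_eq, neg_sq, div_pow, P_ode h0, mul_assoc, hp]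
  field_simp
  ring

theorem ps_eq' {v u : ℂ} (hv : Ofl (2 * v)) (hu : Good v u) :
    ps u v = -(ph u * X u v / (1 - X u v)) := by
  have hb := XDer_b hv
  have hX := X_ne hv hu
  have h1X : 1 - X u v ≠ 0 := sub_ne_zero.2 hX.2.symm
  rw [ps_eq (ofl_of_two hv).1 hu.2.1 hu.2.2.1 hu.2.2.2, XDer_P1 hv hu]
  have e : P (u + 1 / 2) - P v = -((1 - X u v) * (P v - e0)) := by
    rw [X, sub_mul, div_mul_cancel₀ _ hb]
    ring
  rw [e]
  field_simp

theorem X_bound {v : ℂ} (hv : Ofl (2 * v)) : ∃ C : ℝ, 0 ≤ C ∧ ∀ u, Good v u →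
    ‖ph u‖ ^ 2 * ‖X u v‖ ≤ C * (1 + ‖X u v‖) ^ 2 ∧
    ‖2 * CC / (P u - e0) - 2 * (P u - e0)‖ * ‖X u v‖ ≤ C * (1 + ‖X u v‖) ^ 2 := by
  have hb := XDer_b hv
  have hC := CC_ne
  refine ⟨4 * ‖CC / (P v - e0)‖ + 12 * ‖e0‖ + 4 * ‖P v - e0‖, by positivity, fun u hu => ?_⟩
  have ha := XDer_a hu.1 hu.2.1
  have hx := norm_nonneg (X u v)
  have n1 := norm_nonneg (CC / (P v - e0))
  have n2 := norm_nonneg e0
  have n3 := norm_nonneg (P v - e0)
  have key : ∀ x A B D : ℝ, 0 ≤ x → 0 ≤ A → 0 ≤ B → 0 ≤ D →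
      4 * A + 12 * B * x + 4 * D * x ^ 2 ≤ (4 * A + 12 * B + 4 * D) * (1 + x) ^ 2 := by
    intro x A B D hx hA hB hD
    have h1 : 0 ≤ A * x := mul_nonneg hA hx
    have h2 : 0 ≤ A * x ^ 2 := mul_nonneg hA (sq_nonneg x)
    have h3 : 0 ≤ B * x := mul_nonneg hB hx
    have h4 : 0 ≤ B * x ^ 2 := mul_nonneg hB (sq_nonneg x)
    have h5 : 0 ≤ D * x := mul_nonneg hD hx
    nlinarith
  have k := key ‖X u v‖ ‖CC / (P v - e0)‖ ‖e0‖ ‖P v - e0‖ hx n1 n2 n3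
  constructor
  · have e : ph u ^ 2 * X u v =
        4 * (CC / (P v - e0)) + 12 * e0 * X u v + 4 * (P v - e0) * X u v ^ 2 := by
      rw [ph_sq hu.1 hu.2.1, X_eq hv hu]
      field_simp
    have e' : ‖ph u‖ ^ 2 * ‖X u v‖ = ‖ph u ^ 2 * X u v‖ := by
      rw [norm_mul, norm_pow]
    rw [e', e]
    refine le_trans ((norm_add₃_le).trans ?_) k
    simp only [norm_mul, norm_pow, RCLike.norm_ofNat]
    exact le_refl _
  · have e : (2 * CC / (P u - e0) - 2 * (P u - e0)) * X u v =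
        2 * (P v - e0) * X u v ^ 2 - 2 * (CC / (P v - e0)) := by
      rw [X_eq hv hu]
      field_simp
    rw [← norm_mul, e]
    refine le_trans ((norm_sub_le _ _).trans ?_) k
    simp only [norm_mul, norm_pow, RCLike.norm_ofNat]
    have h5 : 0 ≤ ‖P v - e0‖ * ‖X u v‖ ^ 2 := by positivity
    have h6 : 0 ≤ ‖e0‖ * ‖X u v‖ := by positivity
    nlinarith

theorem inv_bound {v : ℂ} (hv : Ofl (2 * v)) : ∃ C : ℝ, 0 ≤ C ∧ ∀ u, Good v u → Ofl (2 * u) →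
    1 / ‖1 - X u v‖ ≤ C * (1 + ‖ps u v‖ * ‖ph (u + hp)‖) := by
  have h12 : 4 * (e1 - e2) ≠ 0 := mul_ne_zero (by norm_num) (sub_ne_zero.2 e12)
  refine ⟨1 + 1 / ‖4 * (e1 - e2)‖, by positivity, fun u hu h2 => ?_⟩
  have hX := X_ne hv hu
  have h1X : 1 - X u v ≠ 0 := sub_ne_zero.2 hX.2.symm
  have ha := XDer_a hu.1 hu.2.1
  have hP1 := P1_ne h2
  have e : 1 / (1 - X u v) = 1 + ps u v * ph (u + hp) / (4 * (e1 - e2)) := by
    rw [ps_eq' hv hu, ph_hp h2, ph_eq]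
    have h12' : e1 - e2 ≠ 0 := sub_ne_zero.2 e12
    field_simp
    ring
  have hn : 1 / ‖1 - X u v‖ = ‖1 / (1 - X u v)‖ := by rw [norm_div, norm_one]
  rw [hn, e]
  refine (norm_add_le _ _).trans ?_
  rw [norm_one, norm_div, norm_mul]
  have h3 : 0 ≤ ‖ps u v‖ * ‖ph (u + hp)‖ := by positivity
  have h4 : 0 < 1 / ‖4 * (e1 - e2)‖ := by positivity
  have h5 : ‖ps u v‖ * ‖ph (u + hp)‖ / ‖4 * (e1 - e2)‖ =
      1 / ‖4 * (e1 - e2)‖ * (‖ps u v‖ * ‖ph (u + hp)‖) := by ring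
  rw [h5]
  nlinarith

theorem XDer_log {K x y : ℝ} (hK : 0 < K) (hx : 0 ≤ x) (hy : 0 < y)
    (h : y ≤ K * (1 + x) ^ 2) : Real.log y ≤ |Real.log K| + 2 * x := by
  have h1 : Real.log y ≤ Real.log (K * (1 + x) ^ 2) := Real.log_le_log hy h
  rw [Real.log_mul hK.ne' (by positivity), Real.log_pow] at h1
  have h2 : Real.log (1 + x) ≤ x := by
    have := Real.log_le_sub_one_of_pos (show 0 < 1 + x by linarith)
    linarith
  have h3 := le_abs_self (Real.log K)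
  push_cast at h1
  linarith

theorem log_bound {v : ℂ} (hv : Ofl (2 * v)) : ∃ C : ℝ, 0 ≤ C ∧ ∀ u, Good v u →
    |Real.log ‖X u v‖| ≤ C * (1 + ‖ph u‖) := by
  have hb := XDer_b hv
  have hC := CC_ne
  have hCn : 0 < ‖CC‖ := norm_pos_iff.2 hC
  set K : ℝ := 1 + 3 * ‖e0‖ + ‖CC‖ with hK
  set K' : ℝ := (1 + 3 * ‖e0‖) / ‖CC‖ with hK'
  have n2 := norm_nonneg e0
  have hKp : 0 < K := by rw [hK]; positivity
  have hKp' : 0 < K' := by rw [hK']; positivity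
  refine ⟨|Real.log ‖CC / (P v - e0)‖| + |Real.log K| + |Real.log K'| + 2, by positivity,
    fun u hu => ?_⟩
  have ha := XDer_a hu.1 hu.2.1
  have hx := norm_nonneg (ph u)
  have han : 0 < ‖P u - e0‖ := norm_pos_iff.2 ha
  have hbn : 0 < ‖P v - e0‖ := norm_pos_iff.2 hb
  have hs := ph_sq hu.1 hu.2.1
  have e : ‖X u v‖ = ‖CC / (P v - e0)‖ / ‖P u - e0‖ := by
    rw [X_eq hv hu, norm_div, norm_div, norm_mul, div_div, mul_comm]
  have hq : 0 < ‖CC / (P v - e0)‖ := norm_pos_iff.2 (div_ne_zero hC hb)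
  rw [e, Real.log_div hq.ne' han.ne']
  have hcase : |Real.log ‖P u - e0‖| ≤ |Real.log K| + |Real.log K'| + 2 * ‖ph u‖ := by
    rcases le_total 1 ‖P u - e0‖ with h1 | h1
    · have hl : 0 ≤ Real.log ‖P u - e0‖ := Real.log_nonneg h1
      rw [abs_of_nonneg hl]
      have e3 : 4 * (P u - e0) = ph u ^ 2 - 12 * e0 - 4 * CC / (P u - e0) := by
        rw [hs]; ring
      have h3 : 4 * ‖P u - e0‖ ≤ ‖ph u‖ ^ 2 + 12 * ‖e0‖ + 4 * ‖CC‖ := by
        have h4 : ‖4 * (P u - e0)‖ = 4 * ‖P u - e0‖ := by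
          rw [norm_mul]; norm_num
        rw [← h4, e3]
        refine (norm_sub_le _ _).trans ?_
        have h5 : ‖ph u ^ 2 - 12 * e0‖ ≤ ‖ph u‖ ^ 2 + 12 * ‖e0‖ := by
          refine (norm_sub_le _ _).trans ?_
          rw [norm_pow, norm_mul]
          norm_num
        have h6 : ‖4 * CC / (P u - e0)‖ ≤ 4 * ‖CC‖ := by
          rw [norm_div, norm_mul]
          have h7 : ‖(4:ℂ)‖ = 4 := by norm_num
          rw [h7]
          exact div_le_self (by positivity) h1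
        linarith
      have h8 : ‖P u - e0‖ ≤ K * (1 + ‖ph u‖) ^ 2 := by
        rw [hK]
        have h9 : 0 ≤ ‖e0‖ * ‖ph u‖ := by positivity
        have h10 : 0 ≤ ‖e0‖ * ‖ph u‖ ^ 2 := by positivity
        have h11 : 0 ≤ ‖CC‖ * ‖ph u‖ := by positivity
        have h12 : 0 ≤ ‖CC‖ * ‖ph u‖ ^ 2 := by positivity
        nlinarith
      have h13 := XDer_log hKp hx han h8
      have h14 := abs_nonneg (Real.log K')
      linarith
    · have hl : Real.log ‖P u - e0‖ ≤ 0 := Real.log_nonpos han.le h1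
      rw [abs_of_nonpos hl]
      have hinv : Real.log (1 / ‖P u - e0‖) = -Real.log ‖P u - e0‖ := by
        rw [Real.log_div one_ne_zero han.ne', Real.log_one, zero_sub]
      rw [← hinv]
      have e3 : 4 * CC / (P u - e0) = ph u ^ 2 - 12 * e0 - 4 * (P u - e0) := by
        rw [hs]; ring
      have h3 : 4 * ‖CC‖ / ‖P u - e0‖ ≤ ‖ph u‖ ^ 2 + 12 * ‖e0‖ + 4 := by
        have h4 : ‖4 * CC / (P u - e0)‖ = 4 * ‖CC‖ / ‖P u - e0‖ := by
          rw [norm_div, norm_mul]; norm_num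
        rw [← h4, e3]
        refine (norm_sub_le _ _).trans ?_
        have h5 : ‖ph u ^ 2 - 12 * e0‖ ≤ ‖ph u‖ ^ 2 + 12 * ‖e0‖ := by
          refine (norm_sub_le _ _).trans ?_
          rw [norm_pow, norm_mul]
          norm_num
        have h6 : ‖4 * (P u - e0)‖ ≤ 4 := by
          rw [norm_mul]
          have h7 : ‖(4:ℂ)‖ = 4 := by norm_num
          rw [h7]
          linarith
        linarith
      have h8 : 1 / ‖P u - e0‖ ≤ K' * (1 + ‖ph u‖) ^ 2 := by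
        rw [hK', div_mul_eq_mul_div, le_div_iff₀ hCn]
        have h9 : 1 / ‖P u - e0‖ * ‖CC‖ = (4 * ‖CC‖ / ‖P u - e0‖) / 4 := by
          field_simp
        rw [h9]
        have h10 : 0 ≤ ‖e0‖ * ‖ph u‖ := by positivity
        have h11 : 0 ≤ ‖e0‖ * ‖ph u‖ ^ 2 := by positivity
        nlinarith
      have h13 := XDer_log hKp' hx (by positivity) h8
      have h14 := abs_nonneg (Real.log K)
      linarith
  have h1 := abs_sub (Real.log ‖CC / (P v - e0)‖) (Real.log ‖P u - e0‖)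
  have h2 := abs_nonneg (Real.log ‖CC / (P v - e0)‖)
  have h3 := abs_nonneg (Real.log K)
  have h4 := abs_nonneg (Real.log K')
  have h5 : 0 ≤ (|Real.log ‖CC / (P v - e0)‖| + |Real.log K| + |Real.log K'|) * ‖ph u‖ := by
    positivity
  nlinarith

end EE7
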