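import Mathlib
import Pool.Agent.EE7.XDer
import Pool.Agent.EE7.BWb
import Pool.Agent.EE7.BWc
import Pool.Agent.EE7.ZInt
import Pool.Agent.EE7.Green
import Pool.Agent.EE7.TorAe

/-!
# EE7/DX: the Laplace equation of `u ↦ BW (X u v)` for a fixed generic `v`

PROOF. Fix `v` with `Ofl (2 v)`; `S = {u | ¬ Good v u}` (countable, periodic). All for `u ∉ S`
(on `S` define the functions by the same formulas; values on a countable set do not matter, but
periodicity must hold there too: `P, ph, X(·,v)` are periodic everywhere).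
`F u = (BW (X u v) : ℂ)`, `dF = Q du + cj Q dū` with `Q u = D1 (X u v) · (ph u X u v)`
(`BW_deriv`, `X_deriv`, chain rule for `wl`).
`dQ = A du + B dū`, with `X' = ph X`, `X'' = (ph' + ph²) X`:
`A = D2 X · (ph X)² + D1 X · (ph' + ph²) X`, `B = D11 X · |ph X|²` (`D1_deriv`, `ph_deriv`).
INTEGRABILITY on `E`: with `Bd u = 1 + |log ‖X‖| + 1/‖1 - X‖`:
`‖Q‖ ≤ C Bd` (`‖ph X‖² = ‖ph‖²‖X‖‖X‖ ≤ C (1+‖X‖)³`, so `‖ph X‖ ≤ C (1+‖X‖)²`; `D1_bound`),
`‖A‖ ≤ C Bd` (`D2_bound`, `D1_bound`, `X_bound`), `‖B‖ ≤ C Bd` (`D11_bound`, `X_bound`). And `Bd ∘ cu`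
is integrable: `log_bound`, `ph_shift_int`, and `inv_bound`: `‖ps u v‖ ‖ph (u + hp)‖` is bounded by
a sum of products `‖Z (u + a)‖‖Z (u + b)‖` with `a ∈ {1/2 + v, 1/2 - v, 1/2}` and
`b ∈ {hp, hp + 1/2}`, and `a - b ∉ O` because `2 (a - b) ∈ {±2v} + O` is not in `O`, resp.
`1/2 - hp, hp ∉ O`: `Z_int2`. Measurability: `P_meas`, `Z_meas`, `D1_meas`, ....
`green_ch` for `F` and for `Q`: `fc Q n = cc xx n fc F n`, `fc B n = -cc cj (xx n) fc Q n`.
FORM OF `B`: `B = (1/4i)[X (1 - X̄)... ]`: with `D11 z = (1/4i)(1/(z(1-z̄)) - 1/(z̄(1-z)))` and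
`ps = -ph X/(1-X)` (`ps_eq'`):
`D11 X |ph|²|X|² = (1/4i) (|ph|² X̄/(1-X̄) - |ph|² X/(1-X)) = (1/4i) (-ph · cj ps + cj ph · ps)
= ½ Im (cj ph · ps)`.
-/

open MeasureTheory Set

namespace EE7

/-! ### Wirtinger calculus for `wl` -/

lemma DX_wl (A B h : ℂ) : wl A B h = A * h + B * cj h := by
  simp only [wl, _root_.add_apply, _root_.smul_apply,
    ContinuousLinearMap.id_apply, smul_eq_mul, ContinuousLinearEquiv.coe_coe,
    Complex.conjCLE_apply]

lemma DX_holo {f : ℂ → ℂ} {f' u : ℂ} (h : HasDerivAt f f' u) : HasFDerivAt f (wl f' 0) u := by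
  refine h.complexToReal_fderiv.congr_fderiv ?_
  ext h
  · simp [DX_wl]

lemma DX_comp {G f : ℂ → ℂ} {A B f' u : ℂ} (hG : HasFDerivAt G (wl A B) (f u))
    (hf : HasDerivAt f f' u) :
    HasFDerivAt (fun w => G (f w)) (wl (A * f') (B * cj f')) u := by
  refine (hG.comp u (DX_holo hf)).congr_fderiv ?_
  apply ContinuousLinearMap.ext
  intro h
  rw [ContinuousLinearMap.comp_apply, DX_wl, DX_wl, DX_wl, zero_mul, add_zero, cj_mul]
  ring

lemma DX_mul {F G : ℂ → ℂ} {A B A' B' u : ℂ} (hF : HasFDerivAt F (wl A B) u)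
    (hG : HasFDerivAt G (wl A' B') u) :
    HasFDerivAt (fun w => F w * G w) (wl (F u * A' + G u * A) (F u * B' + G u * B)) u := by
  refine (hF.mul hG).congr_fderiv ?_
  apply ContinuousLinearMap.ext
  intro h
  rw [DX_wl]
  simp only [_root_.add_apply, _root_.smul_apply, smul_eq_mul, DX_wl]
  ring

/-! ### the functions -/

/-- `∂ BW (X u v)` -/
noncomputable def DX_Q (v u : ℂ) : ℂ := D1 (X u v) * (ph u * X u v)

/-- the logarithmic second derivative -/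
noncomputable def DX_p (u : ℂ) : ℂ := 2 * CC / (P u - e0) - 2 * (P u - e0)

/-- `∂∂ BW (X u v)` -/
noncomputable def DX_A (v u : ℂ) : ℂ :=
  D1 (X u v) * (DX_p u * X u v + ph u * (ph u * X u v)) +
    (ph u * X u v) * (D2 (X u v) * (ph u * X u v))

/-- `∂̄∂ BW (X u v)` -/
noncomputable def DX_B (v u : ℂ) : ℂ :=
  D1 (X u v) * 0 + (ph u * X u v) * (D11 (X u v) * cj (ph u * X u v))

lemma DX_dF {v u : ℂ} (hv : Ofl (2 * v)) (hu : Good v u) :
    HasFDerivAt (fun w => (BW (X w v) : ℂ)) (wl (DX_Q v u) (cj (DX_Q v u))) u := by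
  have hX := X_ne hv hu
  have h := DX_comp (G := fun w => (BW w : ℂ)) (f := fun w => X w v) (BW_deriv hX.1 hX.2)
    (X_deriv hv hu)
  rw [← cj_mul] at h
  exact h

lemma DX_dQ {v u : ℂ} (hv : Ofl (2 * v)) (hu : Good v u) :
    HasFDerivAt (DX_Q v) (wl (DX_A v u) (DX_B v u)) u := by
  have hX := X_ne hv hu
  have h1 := DX_comp (G := D1) (f := fun w => X w v) (D1_deriv hX.1 hX.2) (X_deriv hv hu)
  have h2 := DX_holo ((ph_deriv hu.1 hu.2.1).mul (X_deriv hv hu))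
  exact DX_mul h1 h2

lemma DX_Beq {v u : ℂ} (hv : Ofl (2 * v)) (hu : Good v u) :
    DX_B v u = ((1 / 2 * (cj (ph u) * ps u v).im : ℝ) : ℂ) := by
  have hX := X_ne hv hu
  have hx0 := hX.1
  have hx1 : 1 - X u v ≠ 0 := sub_ne_zero.2 (Ne.symm hX.2)
  have hy0 : cj (X u v) ≠ 0 := fun h => hx0 (cj_eq_zero.1 h)
  have hy1 : 1 - cj (X u v) ≠ 0 := by
    intro h
    apply hx1
    rw [← cj_eq_zero, cj_sub, cj_one]
    exact h
  have e1 : ps u v = -(ph u * X u v / (1 - X u v)) := ps_eq' hv hu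
  have e2 : cj (ps u v) = -(cj (ph u) * cj (X u v) / (1 - cj (X u v))) := by
    rw [e1, cj_neg, cj_div, cj_mul, cj_sub, cj_one]
  have e3 : (((cj (ph u) * ps u v).im : ℝ) : ℂ) =
      (cj (ph u) * ps u v - ph u * cj (ps u v)) / (2 * Complex.I) := by
    rw [Complex.im_eq_sub_conj]
    congr 2
    have := cj_mul (cj (ph u)) (ps u v)
    rw [cj_cj] at this
    exact this
  rw [Complex.ofReal_mul, e3, e2, e1]
  unfold DX_B D11
  rw [cj_mul]
  generalize X u v = x at *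
  generalize ph u = a at *
  generalize cj x = y at *
  generalize cj a = b at *
  have hI := Complex.I_ne_zero
  push_cast
  field_simp
  ring

/-! ### periodicity -/

lemma DX_F_per (v : ℂ) : Per (fun u => (BW (X u v) : ℂ)) := by
  intro u n
  have h : X (u + xx n) v = X u v := X_per v u n
  simp only [h]

lemma DX_Q_per (v : ℂ) : Per (DX_Q v) := by
  intro u n
  have h : X (u + xx n) v = X u v := X_per v u n
  unfold DX_Q
  rw [h, ph_per]

lemma DX_Qc_per (v : ℂ) : Per (fun u => cj (DX_Q v u)) := by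
  intro u n
  simp only [DX_Q_per v u n]

lemma DX_A_per (v : ℂ) : Per (DX_A v) := by
  intro u n
  have h : X (u + xx n) v = X u v := X_per v u n
  unfold DX_A DX_p
  rw [h, ph_per, P_per]

lemma DX_B_per (v : ℂ) : Per (DX_B v) := by
  intro u n
  have h : X (u + xx n) v = X u v := X_per v u n
  unfold DX_B
  rw [h, ph_per]

/-! ### measurability -/

lemma DX_X_meas (v : ℂ) : Measurable (fun u => X u v) := by
  unfold X
  exact ((P_meas.comp (measurable_id.add_const _)).sub_const _).div_const _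

lemma DX_ph_meas : Measurable ph := by
  unfold ph
  exact (Z_meas.const_mul 2).sub ((Z_meas.comp (measurable_id.add_const _)).const_mul 2)

lemma DX_cj_meas {f : ℂ → ℂ} (hf : Measurable f) : Measurable (fun u => cj (f u)) :=
  Complex.continuous_conj.measurable.comp hf

lemma DX_Q_meas (v : ℂ) : Measurable (DX_Q v) := by
  unfold DX_Q
  exact (D1_meas.comp (DX_X_meas v)).mul (DX_ph_meas.mul (DX_X_meas v))

lemma DX_p_meas : Measurable DX_p := by
  unfold DX_p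
  exact ((P_meas.sub_const _).const_div (2 * CC)).sub ((P_meas.sub_const _).const_mul 2)

lemma DX_A_meas (v : ℂ) : Measurable (DX_A v) := by
  have hX := DX_X_meas v
  have hp := DX_ph_meas
  have hpX := hp.mul hX
  unfold DX_A
  exact ((D1_meas.comp hX).mul ((DX_p_meas.mul hX).add (hp.mul hpX))).add
    (hpX.mul ((D2_meas.comp hX).mul hpX))

lemma DX_B_meas (v : ℂ) : Measurable (DX_B v) := by
  have hX := DX_X_meas v
  have hp := DX_ph_meas
  have hpX := hp.mul hX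
  unfold DX_B
  exact ((D1_meas.comp hX).mul_const 0).add (hpX.mul ((D11_meas.comp hX).mul (DX_cj_meas hpX)))

/-! ### the majorant -/

/-- the majorant -/
noncomputable def DX_Bd (v u : ℂ) : ℝ := 1 + |Real.log ‖X u v‖| + 1 / ‖1 - X u v‖

lemma DX_Bd_meas (v : ℂ) : Measurable (DX_Bd v) := by
  have hX := DX_X_meas v
  unfold DX_Bd
  exact (((Real.measurable_log.comp hX.norm).abs).const_add 1).add
    ((hX.const_sub 1).norm.const_div 1)

lemma DX_two {w v : ℂ} (hv : Ofl (2 * v)) (n : ℤ × ℤ) (h : 2 * w = 2 * v + xx n) : Ofl w := by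
  apply (ofl_of_two (u := w) _).1
  rw [h]
  exact (ofl_add _ _).2 hv

lemma DX_ofl {v : ℂ} (hv : Ofl (2 * v)) :
    Ofl (1 / 2 + v - hp) ∧ Ofl (1 / 2 + v - (hp + 1 / 2)) ∧
    Ofl (1 / 2 - v - hp) ∧ Ofl (1 / 2 - v - (hp + 1 / 2)) ∧
    Ofl (1 / 2 - hp) ∧ Ofl (1 / 2 - (hp + 1 / 2)) := by
  have hv' : Ofl (2 * (-v)) := by
    have : (2 * (-v) : ℂ) = -(2 * v) := by ring
    rw [this]
    exact (ofl_neg _).2 hv
  refine ⟨DX_two hv (0, 1) ?_, DX_two hv (-1, 1) ?_, DX_two hv' (0, 1) ?_, DX_two hv' (-1, 1) ?_,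
    ?_, ?_⟩
  · rw [hp, ob, xx_def]; push_cast; ring
  · rw [hp, ob, xx_def]; push_cast; ring
  · rw [hp, ob, xx_def]; push_cast; ring
  · rw [hp, ob, xx_def]; push_cast; ring
  · have : (1 / 2 - hp : ℂ) = om / 2 := by rw [hp, ob]; ring
    rw [this]
    exact ofl_half.2.2
  · have : (1 / 2 - (hp + 1 / 2) : ℂ) = -hp := by ring
    rw [this]
    exact (ofl_neg _).2 ofl_half.2.1

lemma DX_prod_int {v : ℂ} (hv : Ofl (2 * v)) :
    Integrable (fun x : E => ‖ps (cu x) v‖ * ‖ph (cu x + hp)‖) := by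
  obtain ⟨o1, o2, o3, o4, o5, o6⟩ := DX_ofl hv
  have i := ((((Z_int2 o1).const_mul 2).add ((Z_int2 o2).const_mul 2)).add
    (((Z_int2 o3).const_mul 2).add ((Z_int2 o4).const_mul 2))).add
    (((Z_int2 o5).const_mul 4).add ((Z_int2 o6).const_mul 4))
  have m1 : Measurable (fun u : ℂ => ps u v) := by
    unfold ps
    exact ((Z_meas.comp ((measurable_id.add_const _).add_const _)).add
      (Z_meas.comp ((measurable_id.add_const _).sub_const _))).sub
      ((Z_meas.comp (measurable_id.add_const _)).const_mul 2)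
  have m2 : Measurable (fun u : ℂ => ph (u + hp)) := DX_ph_meas.comp (measurable_id.add_const _)
  refine Integrable.mono' i
    (((m1.comp measurable_cu).norm.mul (m2.comp measurable_cu).norm).aestronglyMeasurable)
    (Filter.Eventually.of_forall fun x => ?_)
  rw [Real.norm_eq_abs, abs_of_nonneg (by positivity)]
  simp only [Pi.add_apply]
  generalize cu x = u
  have a1 : ‖ps u v‖ ≤ ‖Z (u + (1 / 2 + v))‖ + ‖Z (u + (1 / 2 - v))‖ + 2 * ‖Z (u + 1 / 2)‖ := by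
    unfold ps
    have h1 : u + 1 / 2 + v = u + (1 / 2 + v) := by ring
    have h2 : u + 1 / 2 - v = u + (1 / 2 - v) := by ring
    rw [h1, h2]
    refine (norm_sub_le _ _).trans (add_le_add (norm_add_le _ _) ?_)
    rw [norm_mul]
    simp
  have a2 : ‖ph (u + hp)‖ ≤ 2 * ‖Z (u + hp)‖ + 2 * ‖Z (u + (hp + 1 / 2))‖ := by
    unfold ph
    have h1 : u + hp + 1 / 2 = u + (hp + 1 / 2) := by ring
    rw [h1]
    refine (norm_sub_le _ _).trans (le_of_eq ?_)
    rw [norm_mul, norm_mul]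
    simp
  refine (mul_le_mul a1 a2 (norm_nonneg _) (by positivity)).trans (le_of_eq ?_)
  ring

lemma DX_ae (v : ℂ) : ∀ᵐ x : E, Good v (cu x) := by
  filter_upwards [ae_cu (bad_countable v)] with x hx
  by_contra h
  exact hx h

lemma DX_Bd_int {v : ℂ} (hv : Ofl (2 * v)) : Integrable (fun x : E => DX_Bd v (cu x)) := by
  obtain ⟨C1, hC1, h1⟩ := log_bound hv
  obtain ⟨C2, hC2, h2⟩ := inv_bound hv
  have i0 : Integrable (fun x : E => ‖ph (cu x)‖) := by
    have := (ph_shift_int 0).norm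
    simpa using this
  have i1 := DX_prod_int hv
  have i := (((integrable_const (1 + C1 + C2)).add (i0.const_mul C1)).add (i1.const_mul C2) :
    Integrable _ (volume : Measure E))
  refine Integrable.mono' i ((DX_Bd_meas v).comp measurable_cu).aestronglyMeasurable ?_
  filter_upwards [DX_ae v, ae_two] with x hx hx2
  have b1 := h1 _ hx
  have b2 := h2 _ hx hx2
  have hpos : 0 ≤ DX_Bd v (cu x) := by unfold DX_Bd; positivity
  rw [Real.norm_eq_abs, abs_of_nonneg hpos]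
  simp only [Pi.add_apply]
  unfold DX_Bd
  nlinarith

/-- a function bounded by the majorant is integrable -/
lemma DX_of_bound {v : ℂ} (hv : Ofl (2 * v)) {f : ℂ → ℂ} (hf : Measurable f) {C : ℝ}
    (h : ∀ u, Good v u → ‖f u‖ ≤ C * DX_Bd v u) : Integrable (fun x : E => f (cu x)) := by
  refine Integrable.mono' ((DX_Bd_int hv).const_mul C) (hf.comp measurable_cu).aestronglyMeasurable ?_
  filter_upwards [DX_ae v] with x hx
  exact h _ hx

/-! ### the bounds -/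

lemma DX_phX {a x C : ℝ} (hx : 0 ≤ x) (hC : 0 ≤ C)
    (h : a ^ 2 * x ≤ C * (1 + x) ^ 2) : a * x ≤ (1 + C) * (1 + x) ^ 2 := by
  have h1 : (a * x) ^ 2 ≤ ((1 + C) * (1 + x) ^ 2) ^ 2 := by
    have e1 : (a * x) ^ 2 = a ^ 2 * x * x := by ring
    have h2 : a ^ 2 * x * x ≤ C * (1 + x) ^ 2 * (1 + x) ^ 2 := by
      apply mul_le_mul h _ hx (by positivity)
      nlinarith
    have h3 : C * (1 + x) ^ 2 * (1 + x) ^ 2 ≤ (1 + C) ^ 2 * ((1 + x) ^ 2 * (1 + x) ^ 2) := by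
      rw [mul_assoc]
      apply mul_le_mul_of_nonneg_right _ (by positivity)
      nlinarith
    rw [e1]
    calc a ^ 2 * x * x ≤ C * (1 + x) ^ 2 * (1 + x) ^ 2 := h2
      _ ≤ (1 + C) ^ 2 * ((1 + x) ^ 2 * (1 + x) ^ 2) := h3
      _ = ((1 + C) * (1 + x) ^ 2) ^ 2 := by ring
  exact (abs_le_of_sq_le_sq' h1 (by positivity)).2

lemma DX_Q_int {v : ℂ} (hv : Ofl (2 * v)) : Integrable (fun x : E => DX_Q v (cu x)) := by
  obtain ⟨C, hC, h⟩ := X_bound hv
  obtain ⟨C1, hC1, h1⟩ := D1_bound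
  refine DX_of_bound hv (DX_Q_meas v) (C := (1 + C) * C1) fun u hu => ?_
  have hX := X_ne hv hu
  have b1 := h1 _ hX.1 hX.2
  have b2 := DX_phX (norm_nonneg (X u v)) hC (h u hu).1
  unfold DX_Q DX_Bd
  rw [norm_mul, norm_mul]
  calc ‖D1 (X u v)‖ * (‖ph u‖ * ‖X u v‖) ≤ ‖D1 (X u v)‖ * ((1 + C) * (1 + ‖X u v‖) ^ 2) :=
        mul_le_mul_of_nonneg_left b2 (norm_nonneg _)
    _ = (1 + C) * (‖D1 (X u v)‖ * (1 + ‖X u v‖) ^ 2) := by ring
    _ ≤ (1 + C) * (C1 * (1 + |Real.log ‖X u v‖| + 1 / ‖1 - X u v‖)) :=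
        mul_le_mul_of_nonneg_left b1 (by positivity)
    _ = (1 + C) * C1 * (1 + |Real.log ‖X u v‖| + 1 / ‖1 - X u v‖) := by ring

lemma DX_A_int {v : ℂ} (hv : Ofl (2 * v)) : Integrable (fun x : E => DX_A v (cu x)) := by
  obtain ⟨C, hC, h⟩ := X_bound hv
  obtain ⟨C1, hC1, h1⟩ := D1_bound
  obtain ⟨C2, hC2, h2⟩ := D2_bound
  refine DX_of_bound hv (DX_A_meas v) (C := 2 * C * C1 + C * C2) fun u hu => ?_
  have hX := X_ne hv hu
  have b1 := h1 _ hX.1 hX.2
  have b2 := h2 _ hX.1 hX.2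
  obtain ⟨c1, c2⟩ := h u hu
  have hp : ‖DX_p u‖ * ‖X u v‖ ≤ C * (1 + ‖X u v‖) ^ 2 := c2
  have n1 : ‖DX_A v u‖ ≤ ‖D1 (X u v)‖ * (‖DX_p u‖ * ‖X u v‖ + ‖ph u‖ ^ 2 * ‖X u v‖) +
      ‖D2 (X u v)‖ * ‖X u v‖ * (‖ph u‖ ^ 2 * ‖X u v‖) := by
    unfold DX_A
    refine (norm_add_le _ _).trans (add_le_add ?_ (le_of_eq ?_))
    · rw [norm_mul]
      refine mul_le_mul_of_nonneg_left ((norm_add_le _ _).trans (le_of_eq ?_)) (norm_nonneg _)
      simp only [norm_mul]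
      ring
    · simp only [norm_mul]
      ring
  refine n1.trans ?_
  set L := 1 + |Real.log ‖X u v‖| + 1 / ‖1 - X u v‖ with hL
  have hBd : DX_Bd v u = L := rfl
  rw [hBd]
  have t1 : ‖D1 (X u v)‖ * (‖DX_p u‖ * ‖X u v‖ + ‖ph u‖ ^ 2 * ‖X u v‖) ≤ 2 * C * C1 * L := by
    calc ‖D1 (X u v)‖ * (‖DX_p u‖ * ‖X u v‖ + ‖ph u‖ ^ 2 * ‖X u v‖)
        ≤ ‖D1 (X u v)‖ * (C * (1 + ‖X u v‖) ^ 2 + C * (1 + ‖X u v‖) ^ 2) :=
          mul_le_mul_of_nonneg_left (add_le_add hp c1) (norm_nonneg _)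
      _ = 2 * C * (‖D1 (X u v)‖ * (1 + ‖X u v‖) ^ 2) := by ring
      _ ≤ 2 * C * (C1 * L) := mul_le_mul_of_nonneg_left b1 (by positivity)
      _ = 2 * C * C1 * L := by ring
  have t2 : ‖D2 (X u v)‖ * ‖X u v‖ * (‖ph u‖ ^ 2 * ‖X u v‖) ≤ C * C2 * L := by
    calc ‖D2 (X u v)‖ * ‖X u v‖ * (‖ph u‖ ^ 2 * ‖X u v‖)
        ≤ ‖D2 (X u v)‖ * ‖X u v‖ * (C * (1 + ‖X u v‖) ^ 2) :=
          mul_le_mul_of_nonneg_left c1 (by positivity)
      _ = C * (‖D2 (X u v)‖ * ‖X u v‖ * (1 + ‖X u v‖) ^ 2) := by ring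
      _ ≤ C * (C2 * L) := mul_le_mul_of_nonneg_left b2 hC
      _ = C * C2 * L := by ring
  linarith

lemma DX_B_int {v : ℂ} (hv : Ofl (2 * v)) : Integrable (fun x : E => DX_B v (cu x)) := by
  obtain ⟨C, hC, h⟩ := X_bound hv
  obtain ⟨C3, hC3, h3⟩ := D11_bound
  refine DX_of_bound hv (DX_B_meas v) (C := C * C3) fun u hu => ?_
  have hX := X_ne hv hu
  have b3 := h3 _ hX.1 hX.2
  obtain ⟨c1, c2⟩ := h u hu
  have n1 : ‖DX_B v u‖ = ‖D11 (X u v)‖ * ‖X u v‖ * (‖ph u‖ ^ 2 * ‖X u v‖) := by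
    unfold DX_B
    rw [mul_zero, zero_add]
    simp only [norm_mul, norm_cj]
    ring
  rw [n1]
  set L := 1 + |Real.log ‖X u v‖| + 1 / ‖1 - X u v‖ with hL
  have hBd : DX_Bd v u = L := rfl
  rw [hBd]
  calc ‖D11 (X u v)‖ * ‖X u v‖ * (‖ph u‖ ^ 2 * ‖X u v‖)
      ≤ ‖D11 (X u v)‖ * ‖X u v‖ * (C * (1 + ‖X u v‖) ^ 2) :=
        mul_le_mul_of_nonneg_left c1 (by positivity)
    _ = C * (‖D11 (X u v)‖ * ‖X u v‖ * (1 + ‖X u v‖) ^ 2) := by ring
    _ ≤ C * (C3 * L) := mul_le_mul_of_nonneg_left b3 hC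
    _ = C * C3 * L := by ring

lemma DX_F_int (v : ℂ) : Integrable (fun x : E => (BW (X (cu x) v) : ℂ)) := by
  obtain ⟨C, hC, h⟩ := BW_bdd
  have hm : Measurable (fun u : ℂ => (BW (X u v) : ℂ)) :=
    Complex.measurable_ofReal.comp (BW_cont.measurable.comp (DX_X_meas v))
  refine Integrable.mono' (integrable_const C) (hm.comp measurable_cu).aestronglyMeasurable
    (Filter.Eventually.of_forall fun x => ?_)
  rw [Complex.norm_real, Real.norm_eq_abs]
  exact h _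

lemma DX_Qc_int {v : ℂ} (hv : Ofl (2 * v)) : Integrable (fun x : E => cj (DX_Q v (cu x))) := by
  refine Integrable.mono' (DX_Q_int hv).norm
    ((DX_cj_meas (DX_Q_meas v)).comp measurable_cu).aestronglyMeasurable
    (Filter.Eventually.of_forall fun x => ?_)
  rw [norm_cj]

theorem DX_int {v : ℂ} (hv : Ofl (2 * v)) :
    Integrable (fun x : E => (((cj (ph (cu x)) * ps (cu x) v).im : ℝ) : ℂ)) := by
  refine ((DX_B_int hv).const_mul 2).congr ?_
  filter_upwards [DX_ae v] with x hx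
  rw [DX_Beq hv hx]
  push_cast
  ring

theorem DX_main {v : ℂ} (hv : Ofl (2 * v)) (n : ℤ × ℤ) :
    fc (fun u => ((1 / 2 * (cj (ph u) * ps u v).im : ℝ) : ℂ)) n =
      -((cc : ℂ) ^ 2 * (xx n * cj (xx n)) * fc (fun u => (BW (X u v) : ℂ)) n) := by
  have hgood : ∀ u, u ∉ {u : ℂ | ¬ Good v u} → Good v u := fun u hu => by
    by_contra h
    exact hu h
  have h1 := (green_ch (DX_F_per v) (DX_Q_per v) (DX_Qc_per v) (bad_countable v)
    (fun u hu => DX_dF hv (hgood u hu)) (DX_F_int v) (DX_Q_int hv) (DX_Qc_int hv) n).1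
  have h2 := (green_ch (DX_Q_per v) (DX_A_per v) (DX_B_per v) (bad_countable v)
    (fun u hu => DX_dQ hv (hgood u hu)) (DX_Q_int hv) (DX_A_int hv) (DX_B_int hv) n).2
  have h3 : fc (fun u => ((1 / 2 * (cj (ph u) * ps u v).im : ℝ) : ℂ)) n = fc (DX_B v) n := by
    unfold fc
    refine integral_congr_ae ?_
    filter_upwards [DX_ae v] with x hx
    rw [DX_Beq hv hx]
  rw [h3, h2, h1]
  ring

end EE7
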