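import Mathlib
import Pool.Agent.EE7.ZInt
import Pool.Agent.EE7.Green

/-!
# EE7/ZHat: Fourier coefficients of `Z` and `ph`

PROOF. For `n ≠ 0` apply `green` to `F u = Z u (ch (-n) u - 1)`, `S = {u | ¬ Ofl u}` (countable):
by `Z_deriv` and `ch_hasFDeriv`,
`A = (-P u - (η₁ - cc)) (ch (-n) u - 1) - cc xx n Z u ch (-n) u`,
`B = -cc (ch (-n) u - 1) + cc cj (xx n) Z u ch (-n) u`. Integrability: `Z_int`, and
`|P (cu x)| |ch (-n) (cu x) - 1| ≤ C/(‖x.1‖ + ‖x.2‖)` by `P_bound` and
`|ch n (s + t om) - 1| ≤ 2π (|n.2| |s| + |n.1 + n.2| |t|)`, `norm_int`.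
`∫ B = 0` and `∫ ch (-n) = 0` give `cc + cc cj (xx n) fc Z n = 0`.
`n = 0`: `Z` is odd, `x ↦ -x` preserves the measure, `fc Z 0 = 0 = -(1/0)`.
Conjugate: `fc (cj ∘ Z) n = cj (fc Z (-n))`. Shift: `fc (Z (· + 1/2)) n = ch n (1/2) fc Z n
= ep n fc Z n`, so `fc ph n = 2 (1 - ep n) fc Z n = 4 od n fc Z n`.
-/

open MeasureTheory Set

namespace EE7

/-! ### the measure -/

lemma ZHat_mp_neg : MeasurePreserving (fun x : E => -x) (volume : Measure E) volume := by
  have h := Measure.measurePreserving_neg (volume : Measure UnitAddCircle)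
  exact h.prod h

lemma ZHat_integral_neg (G : E → ℂ) : ∫ x : E, G (-x) = ∫ x : E, G x :=
  ZHat_mp_neg.integral_comp (MeasurableEquiv.neg E).measurableEmbedding G

lemma ZHat_integral_add (G : E → ℂ) (y : E) : ∫ x : E, G (x + y) = ∫ x : E, G x := by
  have : (volume : Measure E).IsAddRightInvariant := by
    show ((volume : Measure UnitAddCircle).prod
      (volume : Measure UnitAddCircle)).IsAddRightInvariant
    infer_instance
  exact integral_add_right_eq_self G y

/-! ### the bound near the lattice points -/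

lemma ZHat_P_per : Per P := by
  intro u n
  have := Pool.Agent.EllSch.wp_add_lat ind u n
  rw [lat_eq] at this
  exact this

lemma ZHat_cu_zero (n : ℤ × ℤ) : ch n (cu 0) = 1 := by
  have h : pr (cu 0) = pr 0 := by
    rw [pr_cu]
    have := pr_xx 0
    rw [xx_zero] at this
    exact this.symm
  obtain ⟨m, hm⟩ := pr_eq_iff.1 h
  rw [hm, ch_per n]
  unfold ch
  rw [mul_zero, cj_zero, sub_zero, mul_zero, Complex.exp_zero]

lemma ZHat_ch_sub (n : ℤ × ℤ) (x : E) :
    ‖ch n (cu x) - 1‖ ≤ 2 * Real.pi * (|(n.2 : ℝ)| + |(n.1 + n.2 : ℝ)|) * (‖x.1‖ + ‖x.2‖) := by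
  obtain ⟨s, hs, hs', -⟩ := ZInt_rep x.1
  obtain ⟨t, ht, ht', -⟩ := ZInt_rep x.2
  have hx : x = pr ((s : ℂ) + (t : ℂ) * om) := by
    rw [pr_st, hs, ht]
  have h1 : ch n (cu x) = ch n ((s : ℂ) + (t : ℂ) * om) := by
    conv_lhs => rw [hx]
    exact per_pr (ch_per n) _
  have h2 : (2 * Real.pi * Complex.I * (n.2 * s + (n.1 + n.2) * t) : ℂ) =
      Complex.I * ((2 * Real.pi * (n.2 * s + (n.1 + n.2) * t) : ℝ) : ℂ) := by
    push_cast
    ring
  rw [h1, ch_st, h2]
  refine Real.norm_exp_I_mul_ofReal_sub_one_le.trans ?_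
  have h3 : (0 : ℝ) < 2 * Real.pi := by positivity
  rw [Real.norm_eq_abs, abs_mul, abs_of_pos h3, ← hs', ← ht',
    mul_assoc (2 * Real.pi) (|(n.2 : ℝ)| + |(n.1 + n.2 : ℝ)|)]
  refine mul_le_mul_of_nonneg_left ?_ h3.le
  calc |(n.2 : ℝ) * s + (n.1 + n.2) * t| ≤ |(n.2 : ℝ) * s| + |((n.1 : ℝ) + n.2) * t| :=
        abs_add_le _ _
    _ = |(n.2 : ℝ)| * |s| + |((n.1 : ℝ) + n.2)| * |t| := by rw [abs_mul, abs_mul]
    _ ≤ (|(n.2 : ℝ)| + |(n.1 + n.2 : ℝ)|) * (|s| + |t|) := by
        nlinarith [abs_nonneg (n.2 : ℝ), abs_nonneg ((n.1 : ℝ) + n.2), abs_nonneg s, abs_nonneg t,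
          mul_nonneg (abs_nonneg (n.2 : ℝ)) (abs_nonneg t),
          mul_nonneg (abs_nonneg ((n.1 : ℝ) + n.2)) (abs_nonneg s)]

lemma ZHat_int_P (n : ℤ × ℤ) :
    Integrable (fun x : E => (ch n (cu x) - 1) * P (cu x)) := by
  obtain ⟨C, hC, h⟩ := P_bound
  set D : ℝ := 2 * Real.pi * (|(n.2 : ℝ)| + |(n.1 + n.2 : ℝ)|) with hD
  have hD0 : 0 ≤ D := by positivity
  refine Integrable.mono' (norm_int.const_mul (D * C)) ?_ ?_
  · exact (((continuous_ch_cu n).measurable.sub measurable_const).mul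
      (P_meas.comp measurable_cu)).aestronglyMeasurable
  · refine Filter.Eventually.of_forall fun x => ?_
    rcases eq_or_ne x 0 with rfl | hx
    · rw [ZHat_cu_zero, sub_self, zero_mul, norm_zero]
      positivity
    · have ha : 0 < ‖x.1‖ + ‖x.2‖ := by
        by_contra hc
        have h1 := norm_nonneg x.1
        have h2 := norm_nonneg x.2
        have h3 : ‖x.1‖ = 0 := by linarith
        have h4 : ‖x.2‖ = 0 := by linarith
        exact hx (Prod.ext (norm_eq_zero.1 h3) (norm_eq_zero.1 h4))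
      rw [norm_mul]
      calc ‖ch n (cu x) - 1‖ * ‖P (cu x)‖
          ≤ (D * (‖x.1‖ + ‖x.2‖)) * (C / (‖x.1‖ + ‖x.2‖) ^ 2) :=
            mul_le_mul (ZHat_ch_sub n x) (h x hx) (norm_nonneg _) (by positivity)
        _ = D * C * (1 / (‖x.1‖ + ‖x.2‖)) := by
            field_simp

lemma ZHat_int_ch (n : ℤ × ℤ) : Integrable (fun x : E => ch n (cu x) - 1) := by
  refine Integrable.mono' (integrable_const (2 : ℝ)) ?_ ?_
  · exact ((continuous_ch_cu n).measurable.sub measurable_const).aestronglyMeasurable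
  · refine Filter.Eventually.of_forall fun x => ?_
    calc ‖ch n (cu x) - 1‖ ≤ ‖ch n (cu x)‖ + ‖(1 : ℂ)‖ := norm_sub_le _ _
      _ = 2 := by rw [norm_ch, norm_one]; norm_num

lemma ZHat_int_Zch (n : ℤ × ℤ) : Integrable (fun x : E => Z (cu x) * ch n (cu x)) := by
  refine Z_int.mul_bdd (c := 1) (continuous_ch_cu n).aestronglyMeasurable ?_
  exact Filter.Eventually.of_forall fun x => (norm_ch n (cu x)).le

lemma ZHat_wl_smul (c A B : ℂ) : c • wl A B = wl (c * A) (c * B) := by
  unfold wl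
  rw [smul_add, smul_smul, smul_smul]

lemma ZHat_wl_add (A B A' B' : ℂ) : wl A B + wl A' B' = wl (A + A') (B + B') := by
  refine ContinuousLinearMap.ext fun h => ?_
  show A * h + B * cj h + (A' * h + B' * cj h) = (A + A') * h + (B + B') * cj h
  ring

lemma ZHat_ne (n : ℤ × ℤ) (hn : n ≠ 0) : 1 + cj (xx n) * fc Z n = 0 := by
  set e : ℂ := Pool.Agent.EllSch.eta1 1 om - cc with he
  have hS : {u : ℂ | ¬ Ofl u}.Countable := by
    refine (Set.countable_range xx).mono ?_
    intro u hu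
    obtain ⟨m, hm⟩ := (not_ofl_iff u).1 hu
    exact ⟨m, hm.symm⟩
  have hd : ∀ u, u ∉ {u : ℂ | ¬ Ofl u} → HasFDerivAt (fun u => Z u * (ch (-n) u - 1))
      (wl ((fun u => Z u * (cc * xx (-n) * ch (-n) u) + (ch (-n) u - 1) * (-P u - e)) u)
        ((fun u => Z u * (-(cc * cj (xx (-n)) * ch (-n) u)) + (ch (-n) u - 1) * (-cc)) u)) u := by
    intro u hu
    have hu' : Ofl u := by
      by_contra hc
      exact hu hc
    have h1 := Z_deriv hu'
    have h2 := (ch_hasFDeriv (-n) u).sub_const 1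
    have h3 := h1.mul h2
    rw [ZHat_wl_smul, ZHat_wl_smul, ZHat_wl_add] at h3
    exact h3
  have hP1 : Per (fun u => Z u * (ch (-n) u - 1)) := by
    intro u m
    show Z (u + xx m) * (ch (-n) (u + xx m) - 1) = Z u * (ch (-n) u - 1)
    rw [Z_per u m, ch_per (-n) u m]
  have hA : Per (fun u => Z u * (cc * xx (-n) * ch (-n) u) + (ch (-n) u - 1) * (-P u - e)) := by
    intro u m
    show Z (u + xx m) * (cc * xx (-n) * ch (-n) (u + xx m)) +
      (ch (-n) (u + xx m) - 1) * (-P (u + xx m) - e) = _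
    rw [Z_per u m, ch_per (-n) u m, ZHat_P_per u m]
  have hB : Per (fun u => Z u * (-(cc * cj (xx (-n)) * ch (-n) u)) +
      (ch (-n) u - 1) * (-(cc : ℂ))) := by
    intro u m
    show Z (u + xx m) * (-(cc * cj (xx (-n)) * ch (-n) (u + xx m))) +
      (ch (-n) (u + xx m) - 1) * (-(cc : ℂ)) = _
    rw [Z_per u m, ch_per (-n) u m]
  have iA : Integrable (fun x : E => (fun u => Z u * (cc * xx (-n) * ch (-n) u) +
      (ch (-n) u - 1) * (-P u - e)) (cu x)) := by
    have h := (((ZHat_int_Zch (-n)).const_mul (cc * xx (-n))).sub (ZHat_int_P (-n))).sub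
      ((ZHat_int_ch (-n)).const_mul e)
    refine h.congr (Filter.Eventually.of_forall fun x => ?_)
    simp only [Pi.sub_apply]
    ring
  have iB : Integrable (fun x : E => (fun u => Z u * (-(cc * cj (xx (-n)) * ch (-n) u)) +
      (ch (-n) u - 1) * (-(cc : ℂ))) (cu x)) := by
    have h := ((ZHat_int_Zch (-n)).const_mul (-(cc * cj (xx (-n))))).sub
      ((ZHat_int_ch (-n)).const_mul (cc : ℂ))
    refine h.congr (Filter.Eventually.of_forall fun x => ?_)
    simp only [Pi.sub_apply]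
    ring
  have hg := (green hP1 hA hB hS hd iA iB).2
  have h4 : (∫ x : E, (ch (-n) (cu x) - 1)) = -1 := by
    have hi : Integrable (fun x : E => ch (-n) (cu x)) := by
      have := (ZHat_int_ch (-n)).add (integrable_const (1 : ℂ))
      refine this.congr (Filter.Eventually.of_forall fun x => ?_)
      simp
    have h1 : (∫ x : E, (1 : ℂ)) = 1 := by
      have h0 := integral_ch 0
      rw [if_pos rfl] at h0
      refine Eq.trans ?_ h0
      exact integral_congr_ae (Filter.Eventually.of_forall fun x => (ch_idx_zero _).symm)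
    rw [integral_sub hi (integrable_const _), integral_ch, if_neg (neg_ne_zero.2 hn), h1, zero_sub]
  have h5 : (∫ x : E, (fun u => Z u * (-(cc * cj (xx (-n)) * ch (-n) u)) +
      (ch (-n) u - 1) * (-(cc : ℂ))) (cu x)) =
      (-(cc * cj (xx (-n)))) * fc Z n - cc * (-1) := by
    rw [← h4, fc, ← integral_const_mul, ← integral_const_mul, ← integral_sub
      ((ZHat_int_Zch (-n)).const_mul _) ((ZHat_int_ch (-n)).const_mul _)]
    refine integral_congr_ae (Filter.Eventually.of_forall fun x => ?_)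
    show Z (cu x) * (-(cc * cj (xx (-n)) * ch (-n) (cu x))) + (ch (-n) (cu x) - 1) * (-(cc : ℂ)) =
      -(cc * cj (xx (-n))) * (Z (cu x) * ch (-n) (cu x)) - cc * (ch (-n) (cu x) - 1)
    ring
  rw [h5, xx_neg, cj_neg] at hg
  have hc : (cc : ℂ) ≠ 0 := by exact_mod_cast cc_pos.ne'
  have h6 : (cc : ℂ) * (1 + cj (xx n) * fc Z n) = 0 := by linear_combination hg
  exact (mul_eq_zero.1 h6).resolve_left hc

theorem fc_Z (n : ℤ × ℤ) : fc Z n = -(1 / cj (xx n)) := by
  rcases eq_or_ne n 0 with rfl | hn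
  · have h1 : fc Z 0 = -fc Z 0 := by
      have h2 := ZHat_integral_neg (fun x : E => Z (cu x) * ch (-0) (cu x))
      unfold fc
      conv_lhs => rw [← h2]
      rw [← integral_neg]
      refine integral_congr_ae (Filter.Eventually.of_forall fun x => ?_)
      show Z (cu (-x)) * ch (-0) (cu (-x)) = -(Z (cu x) * ch (-0) (cu x))
      rw [per_cu_neg Z_per, Z_neg, neg_zero, ch_idx_zero, ch_idx_zero]
      ring
    have h3 : fc Z 0 = 0 := by
      have : (2 : ℂ) * fc Z 0 = 0 := by linear_combination h1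
      exact (mul_eq_zero.1 this).resolve_left two_ne_zero
    rw [h3, xx_zero, cj_zero, div_zero, neg_zero]
  · have h := ZHat_ne n hn
    have hx : cj (xx n) ≠ 0 := by
      rw [Ne, cj_eq_zero, xx_eq_zero]
      exact hn
    field_simp
    linear_combination h

lemma ZHat_conj (F : ℂ → ℂ) (n : ℤ × ℤ) : fc (fun u => cj (F u)) n = cj (fc F (-n)) := by
  unfold fc
  show _ = (starRingEnd ℂ) (∫ x : E, F (cu x) * ch (- -n) (cu x))
  rw [← integral_conj]
  refine integral_congr_ae (Filter.Eventually.of_forall fun x => ?_)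
  show cj (F (cu x)) * ch (-n) (cu x) = cj (F (cu x) * ch (- -n) (cu x))
  rw [cj_mul, neg_neg, ch_idx_neg]

theorem fc_Z_conj (n : ℤ × ℤ) : fc (fun u => cj (Z u)) n = 1 / xx n := by
  rw [ZHat_conj, fc_Z, xx_neg, cj_neg, cj_neg, cj_div, cj_one, cj_neg, cj_cj, div_neg, neg_neg]

/-- shift of a Fourier coefficient -/
theorem fc_shift {F : ℂ → ℂ} (hF : Per F) (a : ℂ) (n : ℤ × ℤ) :
    fc (fun u => F (u + a)) n = ch n a * fc F n := by
  have h := ZHat_integral_add (fun x : E => F (cu x) * ch (-n) (cu x)) (pr a)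
  unfold fc
  rw [← h, ← integral_const_mul]
  refine integral_congr_ae (Filter.Eventually.of_forall fun x => ?_)
  show F (cu x + a) * ch (-n) (cu x) = ch n a * (F (cu (x + pr a)) * ch (-n) (cu (x + pr a)))
  rw [per_cu_add_pr hF, per_cu_add_pr (ch_per (-n)), ch_add]
  have := ch_mul_neg n a
  linear_combination -(F (cu x + a) * ch (-n) (cu x)) * this

lemma ZHat_ep (n : ℤ × ℤ) : 1 - ep n = 2 * od n := by
  unfold ep od
  split_ifs <;> norm_num

theorem fc_ph (n : ℤ × ℤ) : fc ph n = -(4 * od n / cj (xx n)) := by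
  have h1 : fc ph n = 2 * fc Z n - 2 * fc (fun u => Z (u + 1 / 2)) n := by
    unfold fc
    rw [← integral_const_mul, ← integral_const_mul, ← integral_sub]
    · refine integral_congr_ae (Filter.Eventually.of_forall fun x => ?_)
      show ph (cu x) * ch (-n) (cu x) = 2 * (Z (cu x) * ch (-n) (cu x)) -
        2 * (Z (cu x + 1 / 2) * ch (-n) (cu x))
      rw [ph]
      ring
    · exact (ZHat_int_Zch (-n)).const_mul 2
    · refine Integrable.const_mul ?_ 2
      refine (Z_shift_int (1 / 2)).mul_bdd (c := 1) (continuous_ch_cu (-n)).aestronglyMeasurable ?_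
      exact Filter.Eventually.of_forall fun x => (norm_ch (-n) (cu x)).le
  rw [h1, fc_shift Z_per, ch_half, fc_Z]
  linear_combination -2 / cj (xx n) * ZHat_ep n

theorem fc_ph_conj (n : ℤ × ℤ) : fc (fun u => cj (ph u)) n = 4 * od n / xx n := by
  have h4 : cj 4 = 4 := map_ofNat _ 4
  have h5 : od (-n) = od n := by
    unfold od
    simp only [Prod.snd_neg, even_neg]
  have h6 : cj (od n) = od n := by
    unfold od
    split_ifs
    · exact cj_zero
    · exact cj_one
  rw [ZHat_conj, fc_ph, xx_neg, cj_neg, cj_div, cj_neg, cj_neg, cj_cj, cj_mul, h4, h5, h6, div_neg,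
    neg_neg]

end EE7
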