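import Mathlib
import Pool.Agent.EE7.DX
import Pool.Agent.EE7.ZHat

/-!
# EE7/DHat: the double Fourier coefficients of `BW (X u v)`, second index `≠ 0`

PROOF. Let `n.2` be odd (so `n ≠ 0`) and `m ≠ 0`. By Fubini (`BW` is bounded, measurable)
`Dh n m = ∫_y fc (fun u => BW (X u (cu y))) n · ch (-m) (cu y)`; for a.e. `y` (`ae_two`) `DX_main`
gives `-(cc² xx n cj (xx n)) Dh n m = ∫_y fc (½ Im (cj ph · ps(·, v))) n · ch (-m) (v)`, `v = cu y`.
With `w = u + 1/2`: `½ Im (cj (ph u) ps u v) = ½ Im (cj (ph u) (Z(w+v) + Z(w-v))) - c(u)`,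
`c(u) = Im (cj (ph u) Z w) = 2 Im (cj (Z u) Z w)` (`|Z w|²` is real), integrable by `Z_int2`
(`Ofl (1/2)`), independent of `v`: it contributes `0` since `∫ ch (-m) = 0`.
Each of the remaining products, such as `cj (ph u) Z (w + v)`, is integrable on `E × E` (shear
`mp_shear`, product of integrable functions), so Fubini in the other order. `v`-integrals:
`∫_v Z (w + v) ch (-m) v = ch m w · fc Z m = ep m ch m u · fc Z m`,
`∫_v Z (w - v) ch (-m) v = ch (-m) w · fc Z (-m) = -ep m ch (-m) u fc Z m`,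
and for the conjugates `∫_v cj (Z (w + v)) ch (-m) v = ep m ch m u / xx m`,
`∫_v cj (Z (w - v)) ch (-m) v = -ep m ch (-m) u / xx m`. Then the `u`-integrals:
`∫ cj (ph u) ch (±m) u ch (-n) u = fc (cj ∘ ph) (n ∓ m) = 4 od (n ∓ m)/(xx n ∓ xx m)`,
`∫ ph u ch (±m) u ch (-n) u = -4 od (n ∓ m)/cj (xx n ∓ xx m)`. As `n.2` is odd, `od (n ∓ m) = ev m`
and `ep m = 1` where `ev m ≠ 0`. With `Im z = (z - z̄)/(2i)`:
`-cc² |xx n|² Dh n m = ½ (1/2i) ev m { (-1/m̄) [4/(n-m) - 4/(n+m)] - (1/m)[-4/(n̄-m̄) + 4/(n̄+m̄)] }`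
(letters `n, m` for `xx n, xx m`)
`= i ev m { (1/m̄)[1/(n-m) - 1/(n+m)] - (1/m)[1/(n̄-m̄) - 1/(n̄+m̄)] }`, and this gives
`Dh n m = DF n m` (common denominator; `m² n̄² - m̄² n² = 2 i Im (m² n̄²)`). (Checked.)
-/

open MeasureTheory Set

namespace EE7

theorem BWX_meas : Measurable (fun q : E × E => BW (X (cu q.1) (cu q.2))) := by
  have h1 : Measurable (fun q : E × E => P (cu q.1 + 1 / 2)) :=
    P_meas.comp ((measurable_cu.comp measurable_fst).add_const _)
  have h2 : Measurable (fun q : E × E => P (cu q.2)) :=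
    P_meas.comp (measurable_cu.comp measurable_snd)
  exact BW_meas.comp ((h1.sub_const e0).div (h2.sub_const e0))

private lemma DHat_finE : IsFiniteMeasure (volume : Measure E) := by
  rw [Measure.volume_eq_prod]
  infer_instance

private lemma DHat_finEE : IsFiniteMeasure (volume : Measure (E × E)) := by
  have := DHat_finE
  rw [Measure.volume_eq_prod]
  infer_instance

/-- a bounded character factor does not change integrability on `E × E` -/
private lemma DHat_mul_ch {f : E × E → ℂ} (hf : Integrable f) (a b : ℤ × ℤ) :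
    Integrable (fun q : E × E => f q * (ch a (cu q.1) * ch b (cu q.2))) := by
  have hc : Continuous (fun q : E × E => ch a (cu q.1) * ch b (cu q.2)) :=
    ((continuous_ch_cu a).comp continuous_fst).mul ((continuous_ch_cu b).comp continuous_snd)
  refine hf.mul_bdd (c := 1) hc.aestronglyMeasurable (Filter.Eventually.of_forall fun q => ?_)
  rw [norm_mul, norm_ch, norm_ch, one_mul]

private lemma DHat_mul_ch1 {f : E → ℂ} (hf : Integrable f) (a : ℤ × ℤ) :
    Integrable (fun x : E => f x * ch a (cu x)) := by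
  refine hf.mul_bdd (c := 1) (continuous_ch_cu a).aestronglyMeasurable
    (Filter.Eventually.of_forall fun q => ?_)
  rw [norm_ch]

/-- the shear: `F (u) G (u + 1/2 + v)` is integrable -/
private lemma DHat_conv {F G : ℂ → ℂ} (hG : Per G) (iF : Integrable (fun x : E => F (cu x)))
    (iG : Integrable (fun x : E => G (cu x + 1 / 2))) :
    Integrable (fun q : E × E => F (cu q.1) * G (cu q.1 + 1 / 2 + cu q.2)) := by
  have h := iF.mul_prod iG
  have h2 := (mp_shear.integrable_comp_of_integrable (g := fun q : E × E =>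
    F (cu q.1) * G (cu q.2 + 1 / 2)) h)
  refine h2.congr (Filter.Eventually.of_forall fun q => ?_)
  have hG' : Per (fun u => G (u + 1 / 2)) := by
    intro u n
    show G (u + xx n + 1 / 2) = G (u + 1 / 2)
    rw [add_right_comm, hG]
  have e := per_cu_add hG' q.1 q.2
  show F (cu q.1) * G (cu (q.1 + q.2) + 1 / 2) = _
  rw [e, add_right_comm]

private lemma DHat_conv' {F G : ℂ → ℂ} (hG : Per G) (iF : Integrable (fun x : E => F (cu x)))
    (iG : Integrable (fun x : E => G (cu x + 1 / 2))) :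
    Integrable (fun q : E × E => F (cu q.1) * G (cu q.1 + 1 / 2 - cu q.2)) := by
  have h2 := mp_neg2.integrable_comp_of_integrable (DHat_conv hG iF iG)
  refine h2.congr (Filter.Eventually.of_forall fun q => ?_)
  have hG' : Per (fun u => G (cu q.1 + 1 / 2 + u)) := by
    intro u n
    show G (cu q.1 + 1 / 2 + (u + xx n)) = G (cu q.1 + 1 / 2 + u)
    rw [← add_assoc, hG]
  have e := per_cu_neg hG' q.2
  show F (cu q.1) * G (cu q.1 + 1 / 2 + cu (-q.2)) = _
  rw [e, ← sub_eq_add_neg]

private lemma DHat_int {F G : ℂ → ℂ} (hG : Per G) (iF : Integrable (fun x : E => F (cu x)))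
    (iG : Integrable (fun x : E => G (cu x + 1 / 2))) (n m : ℤ × ℤ) :
    ∫ q : E × E, F (cu q.1) * G (cu q.1 + 1 / 2 + cu q.2) * (ch (-n) (cu q.1) * ch (-m) (cu q.2))
      = ep m * fc G m * fc F (n - m) := by
  have hi := DHat_mul_ch (DHat_conv hG iF iG) (-n) (-m)
  rw [Measure.volume_eq_prod] at hi ⊢
  rw [integral_prod _ hi]
  have h1 : ∀ x : E, (∫ y : E, F (cu x) * G (cu x + 1 / 2 + cu y) *
      (ch (-n) (cu x) * ch (-m) (cu y))) = ep m * fc G m * (F (cu x) * ch (-(n - m)) (cu x)) := by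
    intro x
    have h2 : (∫ y : E, F (cu x) * G (cu x + 1 / 2 + cu y) *
      (ch (-n) (cu x) * ch (-m) (cu y))) =
        F (cu x) * ch (-n) (cu x) * fc (fun u => G (u + (cu x + 1 / 2))) m := by
      unfold fc
      rw [← integral_const_mul]
      congr 1
      funext y
      show _ = F (cu x) * ch (-n) (cu x) * (G (cu y + (cu x + 1 / 2)) * ch (-m) (cu y))
      rw [add_comm (cu y)]
      ring
    rw [h2, fc_shift hG, ch_add, ch_half]
    have h3 : ch (-(n - m)) (cu x) = ch (-n) (cu x) * ch m (cu x) := by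
      rw [← ch_idx_add]
      congr 1
      abel
    rw [h3]
    ring
  simp only [h1]
  rw [integral_const_mul]
  rfl

private lemma DHat_neg : (volume : Measure E).IsNegInvariant := by
  have h : MeasurePreserving (fun x : UnitAddCircle => -x) volume volume :=
    Measure.measurePreserving_neg volume
  exact ⟨(h.prod h).map_eq⟩

private lemma DHat_int' {F G : ℂ → ℂ} (hG : Per G) (iF : Integrable (fun x : E => F (cu x)))
    (iG : Integrable (fun x : E => G (cu x + 1 / 2))) (n m : ℤ × ℤ) :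
    ∫ q : E × E, F (cu q.1) * G (cu q.1 + 1 / 2 - cu q.2) * (ch (-n) (cu q.1) * ch (-m) (cu q.2))
      = ep m * fc G (-m) * fc F (n + m) := by
  have h0 := DHat_int hG iF iG n (-m)
  have e1 : ep (-m) = ep m := by
    unfold ep
    rw [Prod.snd_neg]
    simp only [even_neg]
  rw [e1, sub_neg_eq_add, neg_neg] at h0
  rw [← h0]
  have hi := DHat_mul_ch (DHat_conv hG iF iG) (-n) m
  have hi' := DHat_mul_ch (DHat_conv' hG iF iG) (-n) (-m)
  rw [Measure.volume_eq_prod] at hi hi' ⊢
  rw [integral_prod _ hi, integral_prod _ hi']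
  congr 1
  funext x
  have : (volume : Measure E).IsNegInvariant := DHat_neg
  rw [← integral_neg_eq_self (μ := (volume : Measure E))]
  congr 1
  funext y
  have hG' : Per (fun u => G (cu x + 1 / 2 - u)) := by
    intro u n
    show G (cu x + 1 / 2 - (u + xx n)) = G (cu x + 1 / 2 - u)
    have e3 : cu x + 1 / 2 - (u + xx n) = cu x + 1 / 2 - u + xx (-n) := by
      rw [xx_neg]
      ring
    rw [e3, hG]
  have e := per_cu_neg hG' y
  have e2 := per_cu_neg (ch_per (-m)) y
  show F (cu x) * G (cu x + 1 / 2 - cu (-y)) * (ch (-n) (cu x) * ch (-m) (cu (-y))) =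
    F (cu x) * G (cu x + 1 / 2 + cu y) * (ch (-n) (cu x) * ch m (cu y))
  rw [e, e2, ch_arg_neg, neg_neg, sub_neg_eq_add]

/-- the four products -/
private noncomputable def DHat_H (u v : ℂ) : ℂ :=
  (1 / (4 * Complex.I)) * ((cj (ph u) * Z (u + 1 / 2 + v) + cj (ph u) * Z (u + 1 / 2 - v))
    - (ph u * cj (Z (u + 1 / 2 + v)) + ph u * cj (Z (u + 1 / 2 - v))))

private noncomputable def DHat_c (u : ℂ) : ℂ := (((cj (ph u) * Z (u + 1 / 2)).im : ℝ) : ℂ)

private lemma DHat_im (z : ℂ) : ((z.im : ℝ) : ℂ) = (z - cj z) / (2 * Complex.I) := by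
  have h := Complex.sub_conj z
  rw [cj, h]
  push_cast
  field_simp

private lemma DHat_split (u v : ℂ) :
    ((1 / 2 * (cj (ph u) * ps u v).im : ℝ) : ℂ) = DHat_H u v - DHat_c u := by
  unfold DHat_H DHat_c
  rw [Complex.ofReal_mul, DHat_im, DHat_im, ps, cj_mul, cj_mul, cj_cj, cj_sub, cj_add, cj_mul,
    cj_two]
  have hI := Complex.I_ne_zero
  push_cast
  field_simp
  ring

private lemma DHat_cZ_per : Per (fun u => cj (Z u)) := by
  intro u n
  show cj (Z (u + xx n)) = cj (Z u)
  rw [Z_per]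

private lemma DHat_cj_int {f : E → ℂ} (h : Integrable f) : Integrable (fun x => cj (f x)) :=
  (Complex.conjLIE : ℂ ≃ₗᵢ[ℝ] ℂ).toContinuousLinearEquiv.toContinuousLinearMap.integrable_comp h

private lemma DHat_ph_int : Integrable (fun x : E => ph (cu x)) := by
  have h := ph_shift_int 0
  simpa only [add_zero] using h

private lemma DHat_c_int : Integrable (fun x : E => DHat_c (cu x)) := by
  have hO : Ofl (0 - 1 / 2) := by
    rw [zero_sub, ofl_neg]
    exact ofl_half.1
  have h := Z_int2 hO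
  have hm : AEStronglyMeasurable (fun x : E => DHat_c (cu x)) volume := by
    have h1 : Measurable (fun x : E => ph (cu x)) := by
      have a := Z_meas.comp measurable_cu
      have b := Z_meas.comp (measurable_cu.add_const (1 / 2))
      exact (a.const_mul 2).sub (b.const_mul 2)
    have h2 : Measurable (fun x : E => Z (cu x + 1 / 2)) :=
      Z_meas.comp (measurable_cu.add_const (1 / 2))
    have h3 : Measurable (fun x : E => cj (ph (cu x))) :=
      (Complex.continuous_conj.measurable).comp h1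
    exact (Complex.measurable_ofReal.comp (Complex.measurable_im.comp (h3.mul h2))).aestronglyMeasurable
  refine Integrable.mono' (h.const_mul 2) hm (Filter.Eventually.of_forall fun x => ?_)
  have e : (cj (ph (cu x)) * Z (cu x + 1 / 2)).im =
      2 * (cj (Z (cu x)) * Z (cu x + 1 / 2)).im := by
    have e1 : cj (ph (cu x)) * Z (cu x + 1 / 2) = 2 * (cj (Z (cu x)) * Z (cu x + 1 / 2)) -
        ((2 * Complex.normSq (Z (cu x + 1 / 2)) : ℝ) : ℂ) := by
      have e2 : cj (Z (cu x + 1 / 2)) * Z (cu x + 1 / 2) =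
        ((Complex.normSq (Z (cu x + 1 / 2)) : ℝ) : ℂ) := by
        rw [mul_comm, cj, Complex.mul_conj]
      rw [ph, cj_sub, cj_mul, cj_mul, cj_two]
      push_cast
      linear_combination (-2) * e2
    rw [e1, Complex.sub_im, Complex.ofReal_im, sub_zero]
    simp
  unfold DHat_c
  rw [e, Complex.norm_real, Real.norm_eq_abs, abs_mul, abs_two]
  have h5 := Complex.abs_im_le_norm (cj (Z (cu x)) * Z (cu x + 1 / 2))
  rw [norm_mul, norm_cj] at h5
  rw [add_zero]
  linarith

private lemma DHat_ints (n m : ℤ × ℤ) :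
    Integrable (fun q : E × E => DHat_H (cu q.1) (cu q.2)) ∧
    ∫ q : E × E, DHat_H (cu q.1) (cu q.2) * (ch (-n) (cu q.1) * ch (-m) (cu q.2)) =
      (1 / (4 * Complex.I)) * (ep m * fc Z m * fc (fun u => cj (ph u)) (n - m) +
        ep m * fc Z (-m) * fc (fun u => cj (ph u)) (n + m) -
        (ep m * fc (fun u => cj (Z u)) m * fc ph (n - m) +
        ep m * fc (fun u => cj (Z u)) (-m) * fc ph (n + m))) := by
  have i1 := DHat_ph_int
  have i2 := DHat_cj_int i1
  have j1 := Z_shift_int (1 / 2)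
  have j2 := DHat_cj_int j1
  have a1 := DHat_conv (F := fun u => cj (ph u)) Z_per i2 j1
  have a2 := DHat_conv' (F := fun u => cj (ph u)) Z_per i2 j1
  have a3 := DHat_conv (F := ph) (G := fun u => cj (Z u)) DHat_cZ_per i1 j2
  have a4 := DHat_conv' (F := ph) (G := fun u => cj (Z u)) DHat_cZ_per i1 j2
  refine ⟨((a1.add a2).sub (a3.add a4)).const_mul _, ?_⟩
  rw [← DHat_int (F := fun u => cj (ph u)) Z_per i2 j1,
    ← DHat_int' (F := fun u => cj (ph u)) Z_per i2 j1,
    ← DHat_int (F := ph) (G := fun u => cj (Z u)) DHat_cZ_per i1 j2,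
    ← DHat_int' (F := ph) (G := fun u => cj (Z u)) DHat_cZ_per i1 j2]
  have b1 := DHat_mul_ch a1 (-n) (-m)
  have b2 := DHat_mul_ch a2 (-n) (-m)
  have b3 := DHat_mul_ch a3 (-n) (-m)
  have b4 := DHat_mul_ch a4 (-n) (-m)
  have e := (integral_sub (b1.add b2) (b3.add b4)).trans
    (congrArg₂ (· - ·) (integral_add b1 b2) (integral_add b3 b4))
  refine Eq.trans ?_ (congrArg (fun z : ℂ => 1 / (4 * Complex.I) * z) e)
  show _ = 1 / (4 * Complex.I) * _
  rw [← integral_const_mul]
  congr 1
  funext q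
  simp only [DHat_H, Pi.add_apply]
  ring

private lemma DHat_alg {n m : ℤ × ℤ} (hn : ¬ Even n.2) (hm : m ≠ 0) :
    (1 / (4 * Complex.I)) * (ep m * fc Z m * fc (fun u => cj (ph u)) (n - m) +
        ep m * fc Z (-m) * fc (fun u => cj (ph u)) (n + m) -
        (ep m * fc (fun u => cj (Z u)) m * fc ph (n - m) +
        ep m * fc (fun u => cj (Z u)) (-m) * fc ph (n + m))) =
      -((cc : ℂ) ^ 2 * (xx n * cj (xx n)) * DF n m) := by
  rw [fc_Z, fc_Z, fc_Z_conj, fc_Z_conj, fc_ph, fc_ph, fc_ph_conj, fc_ph_conj]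
  have o1 : od (n - m) = ev m := by
    unfold od ev
    rw [Prod.snd_sub]
    by_cases h : Even m.2
    · rw [if_pos h, if_neg]
      rwa [Int.even_sub, iff_true_right h]
    · rw [if_neg h, if_pos]
      rw [Int.even_sub]
      exact iff_of_false hn h
  have o2 : od (n + m) = ev m := by
    unfold od ev
    rw [Prod.snd_add]
    by_cases h : Even m.2
    · rw [if_pos h, if_neg]
      rwa [Int.even_add, iff_true_right h]
    · rw [if_neg h, if_pos]
      rw [Int.even_add]
      exact iff_of_false hn h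
  rw [o1, o2]
  by_cases h : Even m.2
  · have e1 : ev m = 1 := if_pos h
    have e2 : ep m = 1 := if_pos h
    unfold DF
    rw [e1, e2, DHat_im]
    have hn0 : n ≠ 0 := by
      rintro rfl
      exact hn (by simp)
    have x1 : xx n ≠ 0 := fun h => hn0 (xx_eq_zero.1 h)
    have x2 : xx m ≠ 0 := fun h => hm (xx_eq_zero.1 h)
    have y1 : cj (xx n) ≠ 0 := fun h => x1 (cj_eq_zero.1 h)
    have y2 : cj (xx m) ≠ 0 := fun h => x2 (cj_eq_zero.1 h)
    have x3 : xx n - xx m ≠ 0 := by
      intro h0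
      rw [sub_eq_zero] at h0
      rw [xx_inj h0] at hn
      exact hn h
    have x4 : xx n + xx m ≠ 0 := by
      intro h0
      have h1 : xx n = xx (-m) := by
        rw [xx_neg]
        linear_combination h0
      rw [xx_inj h1] at hn
      apply hn
      rw [Prod.snd_neg, even_neg]
      exact h
    have y3 : cj (xx n) - cj (xx m) ≠ 0 := by
      rw [← cj_sub]
      exact fun h => x3 (cj_eq_zero.1 h)
    have y4 : cj (xx n) + cj (xx m) ≠ 0 := by
      rw [← cj_add]
      exact fun h => x4 (cj_eq_zero.1 h)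
    have hc : (cc : ℂ) ≠ 0 := by
      exact_mod_cast cc_pos.ne'
    have hI := Complex.I_ne_zero
    have hI2 := Complex.I_sq
    rw [xx_sub, xx_add, xx_neg, cj_sub, cj_add, cj_neg, cj_mul, cj_pow, cj_pow, cj_cj,
      sq_sub_sq (xx n), sq_sub_sq (cj (xx n))]
    field_simp
    ring_nf
  · have e1 : ev m = 0 := if_neg h
    unfold DF
    rw [e1]
    ring

theorem Dh_eq {n m : ℤ × ℤ} (hn : ¬ Even n.2) (hm : m ≠ 0) : Dh n m = DF n m := by
  have hn0 : n ≠ 0 := by
    rintro rfl
    exact hn (by simp)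
  have x1 : xx n ≠ 0 := fun h => hn0 (xx_eq_zero.1 h)
  have y1 : cj (xx n) ≠ 0 := fun h => x1 (cj_eq_zero.1 h)
  have hc : (cc : ℂ) ≠ 0 := by
    exact_mod_cast cc_pos.ne'
  have hK : (cc : ℂ) ^ 2 * (xx n * cj (xx n)) ≠ 0 := by positivity
  obtain ⟨C, hC, hB⟩ := BW_bdd
  have := DHat_finEE
  have iB : Integrable (fun q : E × E => (BW (X (cu q.1) (cu q.2)) : ℂ)) := by
    refine Integrable.mono' (integrable_const C)
      (Complex.measurable_ofReal.comp BWX_meas).aestronglyMeasurable
      (Filter.Eventually.of_forall fun q => ?_)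
    rw [Complex.norm_real]
    exact hB _
  have iB' := DHat_mul_ch iB (-n) (-m)
  obtain ⟨iH, eH⟩ := DHat_ints n m
  have iH' := DHat_mul_ch iH (-n) (-m)
  have key : (cc : ℂ) ^ 2 * (xx n * cj (xx n)) * Dh n m =
      -∫ q : E × E, DHat_H (cu q.1) (cu q.2) * (ch (-n) (cu q.1) * ch (-m) (cu q.2)) := by
    have d1 : Dh n m = ∫ y : E, fc (fun u => (BW (X u (cu y)) : ℂ)) n * ch (-m) (cu y) := by
      unfold Dh
      simp only [mul_assoc]
      rw [Measure.volume_eq_prod] at iB' ⊢
      rw [integral_prod_symm _ iB']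
      congr 1
      funext y
      unfold fc
      rw [← integral_mul_const]
      congr 1
      funext x
      ring
    have iH2 := iH'
    rw [Measure.volume_eq_prod] at iH2
    have s1 := iH2.prod_left_ae
    have s2 := iH2.integral_prod_right
    have d2 : (fun y : E => -((cc : ℂ) ^ 2 * (xx n * cj (xx n)) *
        (fc (fun u => (BW (X u (cu y)) : ℂ)) n * ch (-m) (cu y)))) =ᵐ[volume]
        fun y => (∫ x : E, DHat_H (cu x) (cu y) * (ch (-n) (cu x) * ch (-m) (cu y))) -
          fc DHat_c n * ch (-m) (cu y) := by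
      filter_upwards [ae_two, s1] with y hy hs
      have h1 := DX_main hy n
      have h2 : -((cc : ℂ) ^ 2 * (xx n * cj (xx n)) *
        (fc (fun u => (BW (X u (cu y)) : ℂ)) n * ch (-m) (cu y))) =
        fc (fun u => ((1 / 2 * (cj (ph u) * ps u (cu y)).im : ℝ) : ℂ)) n * ch (-m) (cu y) := by
        rw [h1]
        ring
      rw [h2]
      unfold fc
      rw [← integral_mul_const, ← integral_mul_const, ← integral_sub hs
        ((DHat_mul_ch1 DHat_c_int (-n)).mul_const _)]
      congr 1
      funext x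
      show ((1 / 2 * (cj (ph (cu x)) * ps (cu x) (cu y)).im : ℝ) : ℂ) * ch (-n) (cu x) *
        ch (-m) (cu y) = _
      rw [DHat_split]
      ring
    have d3 : ∫ y : E, -((cc : ℂ) ^ 2 * (xx n * cj (xx n)) *
        (fc (fun u => (BW (X u (cu y)) : ℂ)) n * ch (-m) (cu y))) =
        -((cc : ℂ) ^ 2 * (xx n * cj (xx n)) * Dh n m) := by
      rw [integral_neg, integral_const_mul, ← d1]
    have hfin := DHat_finE
    have i3 : Integrable (fun y : E => fc DHat_c n * ch (-m) (cu y)) := by
      have : Integrable (fun y : E => (1 : ℂ) * ch (-m) (cu y)) :=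
        DHat_mul_ch1 (integrable_const (1 : ℂ)) (-m)
      simp only [one_mul] at this
      exact this.const_mul _
    rw [← neg_eq_iff_eq_neg, ← d3, integral_congr_ae d2, integral_sub s2 i3, integral_const_mul,
      integral_ch, if_neg (neg_ne_zero.2 hm), mul_zero, sub_zero]
    exact (integral_prod_symm _ iH2).symm
  rw [eH, DHat_alg hn hm, neg_neg] at key
  exact mul_left_cancel₀ hK key

end EE7
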