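import Mathlib
import Pool.Agent.EE7.AIm
import Pool.Agent.EE7.Tor

/-!
# EE7/Fej: Fejér kernels on `E`

PROOF. One variable: `k_N(x) = (1/(N+1)) ‖Σ_{j=0}^{N} fourier j x‖²` on `UnitAddCircle`:
nonnegative, continuous, `= Σ_{|j| ≤ N} (1 - |j|/(N+1)) fourier j x` (multiply out), integral `1`
(`∫ fourier j = 0` for `j ≠ 0`), and by the geometric sum
`k_N(x) ≤ (1/(N+1)) 4/‖1 - e(x)‖²` (`e = fourier 1`), so it tends to `0` uniformly outside every
neighbourhood of `0`: `AI`. On `E`: `ai_prod`, the product `k_N(x.1) k_N(x.2)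
= Σ_{|p|,|q| ≤ N} (1 - |p|/(N+1)) (1 - |q|/(N+1)) fourier p x.1 · fourier q x.2`, and
`fourier p x.1 · fourier q x.2 = ch n (cu x)` with `n.2 = p`, `n.1 + n.2 = q`, i.e. `n = (q - p, p)`
(`ch_st`).
-/

open MeasureTheory Set Filter Topology

namespace EE7

/-- the character of the circle -/
noncomputable def Fej_e (j : ℤ) (x : UnitAddCircle) : ℂ := fourier j x

theorem Fej_e_add (i j : ℤ) (x : UnitAddCircle) : Fej_e (i + j) x = Fej_e i x * Fej_e j x :=
  fourier_add

theorem Fej_e_neg (j : ℤ) (x : UnitAddCircle) : Fej_e (-j) x = (starRingEnd ℂ) (Fej_e j x) :=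
  fourier_neg

theorem Fej_e_zero (x : UnitAddCircle) : Fej_e 0 x = 1 := fourier_zero

theorem Fej_e_cont (j : ℤ) : Continuous (Fej_e j) := (fourier j).continuous

theorem Fej_e_norm (j : ℤ) (x : UnitAddCircle) : ‖Fej_e j x‖ = 1 := Circle.norm_coe _

theorem Fej_e_rep (j : ℤ) (x : UnitAddCircle) :
    Fej_e j x = Complex.exp (2 * Real.pi * Complex.I * j * rep x) := by
  have h : ((rep x : ℝ) : UnitAddCircle) = x := AddCircle.coe_equivIco
  have h2 : Fej_e j ((rep x : ℝ) : UnitAddCircle) =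
      Complex.exp (2 * Real.pi * Complex.I * j * (rep x : ℝ) / ((1 : ℝ) : ℂ)) := fourier_coe_apply
  rw [h] at h2
  rw [h2]
  simp

theorem Fej_int (j : ℤ) : ∫ x : UnitAddCircle, Fej_e j x = if j = 0 then 1 else 0 := by
  split_ifs with h
  · rw [h]
    simp only [Fej_e_zero]
    rw [integral_const]
    simp [Measure.real]
  · have h1 : ∫ x : UnitAddCircle, Fej_e j (x + (((1 : ℝ) / 2 / j : ℝ) : UnitAddCircle)) =
        ∫ x : UnitAddCircle, Fej_e j x :=
      integral_add_right_eq_self (μ := (volume : Measure UnitAddCircle)) (Fej_e j) _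
    have h2 : ∀ x : UnitAddCircle, Fej_e j (x + (((1 : ℝ) / 2 / j : ℝ) : UnitAddCircle)) =
        -Fej_e j x := fun x => fourier_add_half_inv_index h one_pos x
    simp only [h2, integral_neg] at h1
    exact CharZero.neg_eq_self_iff.1 h1

/-- the geometric sum -/
noncomputable def Fej_S (N : ℕ) (x : UnitAddCircle) : ℂ := ∑ a ∈ Finset.range (N + 1), Fej_e a x

/-- the kernel -/
noncomputable def Fej_k (N : ℕ) (x : UnitAddCircle) : ℝ := 1 / ((N : ℝ) + 1) * ‖Fej_S N x‖ ^ 2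

/-- the pairs with a given difference -/
def Fej_F (N : ℕ) (j : ℤ) : Finset (ℕ × ℕ) :=
  (Finset.range (N + 1) ×ˢ Finset.range (N + 1)).filter (fun q => (q.1 : ℤ) - q.2 = j)

/-- the coefficients -/
noncomputable def Fej_c (N : ℕ) (j : ℤ) : ℝ := (Fej_F N j).card / ((N : ℝ) + 1)

theorem Fej_card_le (N : ℕ) (j : ℤ) : (Fej_F N j).card ≤ N + 1 := by
  rw [← Finset.card_range (N + 1)]
  apply Finset.card_le_card_of_injOn (fun q => q.1)
  · intro q hq
    have := (Finset.mem_product.1 (Finset.mem_filter.1 hq).1).1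
    exact this
  · intro q hq r hr h
    have h1 := (Finset.mem_filter.1 hq).2
    have h2 := (Finset.mem_filter.1 hr).2
    simp only at h
    refine Prod.ext h ?_
    rw [h] at h1
    omega

theorem Fej_card_ge (N : ℕ) (j : ℤ) : (N : ℤ) + 1 - |j| ≤ (Fej_F N j).card := by
  by_cases hj : |j| ≤ N
  · have h : (Finset.range (N + 1 - j.natAbs)).card ≤ (Fej_F N j).card := by
      apply Finset.card_le_card_of_injOn (fun b => (b + j.toNat, b + (-j).toNat))
      · intro b hb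
        have hb' := Finset.mem_range.1 hb
        simp only [Fej_F, Finset.coe_filter, Finset.mem_product, Finset.mem_range, Set.mem_ofPred_eq]
        refine ⟨⟨?_, ?_⟩, ?_⟩
        · omega
        · omega
        · push_cast
          omega
      · intro a _ b _ h
        have := congrArg Prod.fst h
        simp only at this
        omega
    rw [Finset.card_range] at h
    have h2 : (N : ℤ) + 1 - |j| = ((N + 1 - j.natAbs : ℕ) : ℤ) := by
      rw [Int.abs_eq_natAbs] at hj ⊢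
      omega
    rw [h2]
    exact_mod_cast h
  · have : (N : ℤ) + 1 - |j| ≤ 0 := by omega
    exact this.trans (by positivity)

theorem Fej_c_nonneg (N : ℕ) (j : ℤ) : 0 ≤ Fej_c N j := by
  unfold Fej_c
  positivity

theorem Fej_c_le (N : ℕ) (j : ℤ) : Fej_c N j ≤ 1 := by
  unfold Fej_c
  rw [div_le_one (by positivity)]
  exact_mod_cast Fej_card_le N j

theorem Fej_c_ge (N : ℕ) (j : ℤ) : 1 - |(j : ℝ)| / ((N : ℝ) + 1) ≤ Fej_c N j := by
  unfold Fej_c
  have h : (0 : ℝ) < (N : ℝ) + 1 := by positivity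
  rw [le_div_iff₀ h, sub_mul, one_mul, div_mul_cancel₀ _ h.ne']
  have := Fej_card_ge N j
  exact_mod_cast this

theorem Fej_c_zero (N : ℕ) : Fej_c N 0 = 1 := by
  have h := Fej_c_ge N 0
  simp only [Int.cast_zero, abs_zero, zero_div, sub_zero] at h
  exact le_antisymm (Fej_c_le N 0) h

theorem Fej_c_lim (j : ℤ) : Tendsto (fun N => Fej_c N j) atTop (𝓝 1) := by
  have h1 : Tendsto (fun N : ℕ => 1 - |(j : ℝ)| / ((N : ℝ) + 1)) atTop (𝓝 1) := by
    have h2 : Tendsto (fun N : ℕ => |(j : ℝ)| / ((N : ℝ) + 1)) atTop (𝓝 0) :=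
      tendsto_const_nhds.div_atTop (tendsto_atTop_add_const_right _ _ tendsto_natCast_atTop_atTop)
    simpa using h2.const_sub 1
  exact tendsto_of_tendsto_of_tendsto_of_le_of_le h1 tendsto_const_nhds (fun N => Fej_c_ge N j)
    (fun N => Fej_c_le N j)

theorem Fej_c_out (N : ℕ) (j : ℤ) (h : j ∉ Finset.Icc (-(N : ℤ)) N) : Fej_c N j = 0 := by
  unfold Fej_c
  have h0 : Fej_F N j = ∅ := by
    apply Finset.filter_eq_empty_iff.2
    intro q hq hj
    rw [Finset.mem_product, Finset.mem_range, Finset.mem_range] at hq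
    apply h
    rw [Finset.mem_Icc]
    omega
  rw [h0]
  simp

theorem Fej_sum (N : ℕ) (x : UnitAddCircle) :
    ((Fej_k N x : ℝ) : ℂ) = ∑ j ∈ Finset.Icc (-(N : ℤ)) N, (Fej_c N j : ℂ) * Fej_e j x := by
  unfold Fej_k
  rw [Complex.ofReal_mul, Complex.ofReal_pow, ← Complex.mul_conj']
  have h1 : Fej_S N x * (starRingEnd ℂ) (Fej_S N x) =
      ∑ q ∈ Finset.range (N + 1) ×ˢ Finset.range (N + 1), Fej_e ((q.1 : ℤ) - q.2) x := by
    unfold Fej_S
    rw [map_sum, Finset.sum_mul_sum, ← Finset.sum_product']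
    refine Finset.sum_congr rfl fun q _ => ?_
    rw [sub_eq_add_neg, Fej_e_add, Fej_e_neg]
  have h2 : ∑ q ∈ Finset.range (N + 1) ×ˢ Finset.range (N + 1), Fej_e ((q.1 : ℤ) - q.2) x =
      ∑ j ∈ Finset.Icc (-(N : ℤ)) N, ∑ q ∈ Fej_F N j, Fej_e ((q.1 : ℤ) - q.2) x := by
    refine (Finset.sum_fiberwise_of_maps_to (g := fun q : ℕ × ℕ => (q.1 : ℤ) - q.2) ?_ _).symm
    intro q hq
    rw [Finset.mem_product, Finset.mem_range, Finset.mem_range] at hq
    rw [Finset.mem_Icc]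
    omega
  rw [h1, h2, Finset.mul_sum]
  refine Finset.sum_congr rfl fun j _ => ?_
  have h3 : ∑ q ∈ Fej_F N j, Fej_e ((q.1 : ℤ) - q.2) x = (Fej_F N j).card • Fej_e j x := by
    refine Finset.sum_eq_card_nsmul fun q hq => ?_
    rw [(Finset.mem_filter.1 hq).2]
  rw [h3, nsmul_eq_mul]
  unfold Fej_c
  push_cast
  ring

theorem Fej_k_cont (N : ℕ) : Continuous (Fej_k N) := by
  unfold Fej_k Fej_S
  have : Continuous (fun x : UnitAddCircle => ∑ a ∈ Finset.range (N + 1), Fej_e (a : ℤ) x) :=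
    continuous_finsetSum _ fun a _ => Fej_e_cont a
  exact (this.norm.pow 2).const_mul _

theorem Fej_k_int (N : ℕ) : ∫ x, Fej_k N x = 1 := by
  have h : ((∫ x, Fej_k N x : ℝ) : ℂ) = 1 := by
    have h0 : ((∫ x, Fej_k N x : ℝ) : ℂ) = ∫ x, ((Fej_k N x : ℝ) : ℂ) := integral_ofReal.symm
    rw [h0]
    have h1 : ∀ x, ((Fej_k N x : ℝ) : ℂ) =
        ∑ j ∈ Finset.Icc (-(N : ℤ)) N, (Fej_c N j : ℂ) * Fej_e j x := Fej_sum N
    simp only [h1]
    rw [integral_finsetSum]
    · simp only [integral_const_mul, Fej_int]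
      rw [Finset.sum_eq_single (0 : ℤ)]
      · simp [Fej_c_zero]
      · intro j _ hj
        simp [hj]
      · intro h0
        exfalso
        apply h0
        rw [Finset.mem_Icc]
        omega
    · intro j _
      have : Integrable (Fej_e j) :=
        (Fej_e_cont j).integrable_of_hasCompactSupport (HasCompactSupport.of_compactSpace _)
      exact this.const_mul _
  exact_mod_cast h

theorem Fej_geom (N : ℕ) (x : UnitAddCircle) : Fej_S N x * (Fej_e 1 x - 1) = Fej_e (N + 1) x - 1 := by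
  unfold Fej_S
  induction N with
  | zero =>
    rw [zero_add, Finset.sum_range_one]
    simp [Fej_e_zero]
  | succ N ih =>
    rw [Finset.sum_range_succ, add_mul, ih]
    have h : Fej_e (((N + 1 : ℕ) : ℤ) + 1) x = Fej_e (N + 1) x * Fej_e 1 x := by
      rw [Fej_e_add]
      push_cast
      rfl
    rw [h]
    push_cast
    ring

theorem Fej_e_one_ne (x : UnitAddCircle) (hx : x ≠ 0) : Fej_e 1 x ≠ 1 := by
  intro h
  apply hx
  have h1 : (AddCircle.toCircle x : ℂ) = 1 := by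
    rw [← fourier_one]
    exact h
  apply AddCircle.injective_toCircle (T := (1 : ℝ)) one_ne_zero
  apply Subtype.ext
  rw [h1, AddCircle.toCircle_zero]
  rfl

theorem Fej_ai : AI Fej_k := by
  refine ⟨fun N x => ?_, Fej_k_cont, Fej_k_int, fun U hU => ?_⟩
  · unfold Fej_k
    positivity
  · obtain ⟨V, hVU, hVo, hV0⟩ := mem_nhds_iff.1 hU
    have hc : IsCompact (Vᶜ : Set UnitAddCircle) := hVo.isClosed_compl.isCompact
    obtain ⟨δ, hδ, hδ2⟩ : ∃ δ : ℝ, 0 < δ ∧ ∀ x ∈ (Vᶜ : Set UnitAddCircle), δ ≤ ‖Fej_e 1 x - 1‖ := by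
      rcases (Vᶜ : Set UnitAddCircle).eq_empty_or_nonempty with he | hne
      · exact ⟨1, one_pos, fun x hx => by rw [he] at hx; exact absurd hx (Set.notMem_empty x)⟩
      · obtain ⟨x0, hx0, hmin⟩ := hc.exists_isMinOn hne
          (f := fun x => ‖Fej_e 1 x - 1‖) ((Fej_e_cont 1).sub continuous_const).norm.continuousOn
        refine ⟨‖Fej_e 1 x0 - 1‖, ?_, fun x hx => hmin hx⟩
        rw [norm_pos_iff, sub_ne_zero]
        apply Fej_e_one_ne
        rintro rfl
        exact hx0 hV0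
    have hbd : ∀ N : ℕ, ∀ x ∈ (Uᶜ : Set UnitAddCircle), ‖Fej_k N x‖ ≤ 4 / δ ^ 2 / ((N : ℝ) + 1) := by
      intro N x hx
      have hx' : x ∈ (Vᶜ : Set UnitAddCircle) := fun h => hx (hVU h)
      have h1 := hδ2 x hx'
      have h2 := congrArg norm (Fej_geom N x)
      rw [norm_mul] at h2
      have h3 : ‖Fej_e (N + 1) x - 1‖ ≤ 2 := by
        refine (norm_sub_le _ _).trans ?_
        rw [Fej_e_norm, norm_one]
        norm_num
      have h4 : ‖Fej_S N x‖ * δ ≤ 2 := by
        calc ‖Fej_S N x‖ * δ ≤ ‖Fej_S N x‖ * ‖Fej_e 1 x - 1‖ :=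
              mul_le_mul_of_nonneg_left h1 (norm_nonneg _)
          _ ≤ 2 := by rw [h2]; exact h3
      have h5 : ‖Fej_S N x‖ ≤ 2 / δ := by
        rw [le_div_iff₀ hδ]
        exact h4
      have h6 : ‖Fej_S N x‖ ^ 2 ≤ 4 / δ ^ 2 := by
        calc ‖Fej_S N x‖ ^ 2 ≤ (2 / δ) ^ 2 := pow_le_pow_left₀ (norm_nonneg _) h5 2
          _ = 4 / δ ^ 2 := by
            rw [div_pow]
            norm_num
      have h7 : (0 : ℝ) < (N : ℝ) + 1 := by positivity
      unfold Fej_k
      rw [Real.norm_of_nonneg (by positivity), one_div, inv_mul_eq_div]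
      exact div_le_div_of_nonneg_right h6 h7.le
    have hlim : Tendsto (fun N : ℕ => 4 / δ ^ 2 / ((N : ℝ) + 1)) atTop (𝓝 0) :=
      tendsto_const_nhds.div_atTop (tendsto_atTop_add_const_right _ _ tendsto_natCast_atTop_atTop)
    refine squeeze_zero_norm (fun N => ?_) hlim
    refine (norm_setIntegral_le_of_norm_le_const (measure_lt_top _ _) (hbd N)).trans ?_
    have h8 : (volume : Measure UnitAddCircle).real Uᶜ ≤ 1 := by
      refine (measureReal_mono (subset_univ _)).trans ?_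
      simp [Measure.real]
    have h9 : 0 ≤ 4 / δ ^ 2 / ((N : ℝ) + 1) := by positivity
    calc 4 / δ ^ 2 / ((N : ℝ) + 1) * (volume : Measure UnitAddCircle).real Uᶜ ≤
          4 / δ ^ 2 / ((N : ℝ) + 1) * 1 := mul_le_mul_of_nonneg_left h8 h9
      _ = _ := mul_one _

theorem Fej_ch (n : ℤ × ℤ) (x : E) : ch n (cu x) = Fej_e n.2 x.1 * Fej_e (n.1 + n.2) x.2 := by
  unfold cu
  rw [ch_st, Fej_e_rep, Fej_e_rep, ← Complex.exp_add]
  congr 1
  push_cast
  ring

theorem exists_kernel : ∃ (K : ℕ → E → ℝ) (s : ℕ → Finset (ℤ × ℤ)) (κ : ℕ → ℤ × ℤ → ℝ),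
    AI K ∧ (∀ N n, 0 ≤ κ N n ∧ κ N n ≤ 1) ∧ (∀ n, Tendsto (fun N => κ N n) atTop (𝓝 1)) ∧
    (∀ N n, n ∉ s N → κ N n = 0) ∧
    ∀ N x, ((K N x : ℝ) : ℂ) = ∑ n ∈ s N, (κ N n : ℂ) * ch n (cu x) := by
  refine ⟨fun N x => Fej_k N x.1 * Fej_k N x.2,
    fun N => (Finset.Icc (-(N : ℤ)) N ×ˢ Finset.Icc (-(N : ℤ)) N).image (fun q => (q.2 - q.1, q.1)),
    fun N n => Fej_c N n.2 * Fej_c N (n.1 + n.2), ai_prod Fej_ai Fej_ai, fun N n => ⟨?_, ?_⟩,
    fun n => ?_, fun N n hn => ?_, fun N x => ?_⟩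
  · exact mul_nonneg (Fej_c_nonneg _ _) (Fej_c_nonneg _ _)
  · exact mul_le_one₀ (Fej_c_le _ _) (Fej_c_nonneg _ _) (Fej_c_le _ _)
  · have := (Fej_c_lim n.2).mul (Fej_c_lim (n.1 + n.2))
    rwa [mul_one] at this
  · by_cases h1 : n.2 ∈ Finset.Icc (-(N : ℤ)) N
    · by_cases h2 : n.1 + n.2 ∈ Finset.Icc (-(N : ℤ)) N
      · exfalso
        apply hn
        rw [Finset.mem_image]
        refine ⟨(n.2, n.1 + n.2), Finset.mem_product.2 ⟨h1, h2⟩, ?_⟩
        refine Prod.ext ?_ rfl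
        show n.1 + n.2 - n.2 = n.1
        ring
      · show Fej_c N n.2 * Fej_c N (n.1 + n.2) = 0
        rw [Fej_c_out N _ h2, mul_zero]
    · show Fej_c N n.2 * Fej_c N (n.1 + n.2) = 0
      rw [Fej_c_out N _ h1, zero_mul]
  · rw [Finset.sum_image]
    · rw [Complex.ofReal_mul, Fej_sum, Fej_sum, Finset.sum_mul_sum, ← Finset.sum_product']
      refine Finset.sum_congr rfl fun q _ => ?_
      rw [Fej_ch]
      have h : q.2 - q.1 + q.1 = q.2 := by ring
      simp only [h]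
      push_cast
      ring
    · intro q _ r _ h
      have h1 := congrArg Prod.fst h
      have h2 := congrArg Prod.snd h
      simp only at h1 h2
      refine Prod.ext h2 ?_
      rw [h2] at h1
      linarith

end EE7
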