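import Mathlib
import Pool.Agent.EE7.DHat
import Pool.Agent.EE7.Fej

/-!
# EE7/DHat0: the coefficients `Dh n 0`

PROOF. Let `n.2` be odd. For a.e. `x` (`u = cu x`, `u ∉ ½O`) `X u v → 0`... careful: as `v → 0`,
`v ≠ 0`: `P v → ∞` (`tendsto_norm_wp`), so `X u v = (P (u+1/2) - e0)/(P v - e0) → 0` and
`BW (X u v) → BW 0 = 0` (`BW_cont`, `BW_zero`). On the torus: `y ↦ BW (X (cu x) (cu y))` tends to `0`
along `𝓝[≠] 0` (for `y` near `0` the point `cu y` is near one of the four corners of the cell; by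
periodicity `P (cu y) = P (u')` with a small representative `u' ≠ 0`; or use `P (cu y) - e0`, `pr`
open). By `ai_tendsto`: `∫_y K_N(y) BW (X (cu x) (cu y)) → 0` for a.e. `x`, bounded by `C`
(`BW_bdd`), so by dominated convergence
`∫_x ch (-n) (cu x) ∫_y K_N(y) BW (X (cu x)(cu y)) → 0`. The left side is (finite sum, `κ` and the
kernel of `exists_kernel`) `Σ_{m ∈ s N} κ_N(m) ∫∫ BW (X) ch (-n) ch m = Σ_m κ_N(m) Dh n (-m)`.
The family `m ↦ Dh n m` is summable: for `m ≠ 0` it is `DF n m` (`Dh_eq`), and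
`|DF n m| ≤ C |m|²|n|²/(|n|²|m|²|n²-m²|²)`, `O(|m|⁻⁴)` (for fixed `n`). So the sums tend to
`Σ_m Dh n (-m) = Σ_m Dh n m` (`tendsto_tsum_of_dominated_convergence`), which is therefore `0`; and
`DF n 0 = 0`.
-/

open MeasureTheory Set Filter Topology

namespace EE7

lemma DHat0_norm_le (m : ℤ × ℤ) :
    (7 / 8 : ℝ) * ‖(![m.1, m.2] : Fin 2 → ℤ)‖ ^ 2 ≤ ‖xx m‖ ^ 2 := by
  rw [norm_sq_xx]
  have h : ‖(![m.1, m.2] : Fin 2 → ℤ)‖ = max |(m.1 : ℝ)| |(m.2 : ℝ)| := by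
    rw [EisensteinSeries.norm_eq_max_natAbs]
    push_cast [Nat.cast_natAbs]
    simp
  rw [h]
  rcases le_total |(m.1 : ℝ)| |(m.2 : ℝ)| with h1 | h1
  · rw [max_eq_right h1, sq_abs]
    nlinarith [sq_nonneg ((m.1 : ℝ) + m.2 / 2), sq_nonneg (m.2 : ℝ)]
  · rw [max_eq_left h1, sq_abs]
    nlinarith [sq_nonneg ((m.2 : ℝ) + m.1 / 4), sq_nonneg (m.1 : ℝ)]

lemma DHat0_summ4 : Summable (fun m : ℤ × ℤ => 1 / ‖xx m‖ ^ 4) := by
  have h1 := EisensteinSeries.summable_one_div_norm_rpow (k := 4) (by norm_num)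
  have h2 : Summable fun x : ℤ × ℤ => ‖(![x.1, x.2] : Fin 2 → ℤ)‖ ^ (-4 : ℝ) := by
    have := (finTwoArrowEquiv ℤ).symm.summable_iff.mpr h1
    exact this
  refine Summable.of_nonneg_of_le (fun x => by positivity) (fun x => ?_) (h2.mul_left (64 / 49))
  by_cases hx : x = 0
  · subst hx
    rw [xx_zero]
    simp only [norm_zero, ne_eq, OfNat.ofNat_ne_zero, not_false_eq_true, zero_pow, div_zero]
    positivity
  · have h3 := DHat0_norm_le x
    have hpos : 0 < ‖(![x.1, x.2] : Fin 2 → ℤ)‖ := by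
      rw [norm_pos_iff]
      intro h
      apply hx
      have h4 := congrFun h 0
      have h5 := congrFun h 1
      simp at h4 h5
      exact Prod.ext h4 h5
    have e : ‖(![x.1, x.2] : Fin 2 → ℤ)‖ ^ (-4 : ℝ) = 1 / ‖(![x.1, x.2] : Fin 2 → ℤ)‖ ^ 4 := by
      rw [show (-4 : ℝ) = -((4 : ℕ) : ℝ) by norm_num, Real.rpow_neg hpos.le, Real.rpow_natCast,
        one_div]
    rw [e]
    have h6 : (49 / 64 : ℝ) * ‖(![x.1, x.2] : Fin 2 → ℤ)‖ ^ 4 ≤ ‖xx x‖ ^ 4 := by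
      have := mul_self_le_mul_self (by positivity) h3
      nlinarith [this]
    calc 1 / ‖xx x‖ ^ 4 ≤ 1 / ((49 / 64 : ℝ) * ‖(![x.1, x.2] : Fin 2 → ℤ)‖ ^ 4) := by
          apply one_div_le_one_div_of_le (by positivity) h6
      _ = 64 / 49 * (1 / ‖(![x.1, x.2] : Fin 2 → ℤ)‖ ^ 4) := by
          field_simp

lemma DHat0_norm_ev (m : ℤ × ℤ) : ‖ev m‖ ≤ 1 := by
  unfold ev
  split_ifs <;> simp

lemma DHat0_DF_zero (n : ℤ × ℤ) : DF n 0 = 0 := by
  unfold DF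
  rw [xx_zero]
  simp

lemma DHat0_bound {n m : ℤ × ℤ} (hn : n ≠ 0) (hm : 2 * ‖xx n‖ < ‖xx m‖) :
    ‖DF n m‖ ≤ (64 / 9 / cc ^ 2) * (1 / ‖xx m‖ ^ 4) := by
  have hn1 : 0 < ‖xx n‖ := lt_of_lt_of_le one_pos (one_le_norm_xx hn)
  have hm1 : 0 < ‖xx m‖ := by linarith
  have hc := cc_pos
  have e1 : ‖xx n ^ 2 - xx m ^ 2‖ ≥ 3 / 4 * ‖xx m‖ ^ 2 := by
    have h1 : ‖xx m ^ 2‖ - ‖xx n ^ 2‖ ≤ ‖xx n ^ 2 - xx m ^ 2‖ := by
      rw [norm_sub_rev]
      exact norm_sub_norm_le _ _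
    rw [norm_pow, norm_pow] at h1
    nlinarith
  have e2 : ‖cj (xx n) ^ 2 - cj (xx m) ^ 2‖ = ‖xx n ^ 2 - xx m ^ 2‖ := by
    rw [← cj_pow, ← cj_pow, ← cj_sub, norm_cj]
  have e3 : ‖((((xx m ^ 2 * cj (xx n) ^ 2).im : ℝ)) : ℂ)‖ ≤ ‖xx m‖ ^ 2 * ‖xx n‖ ^ 2 := by
    rw [Complex.norm_real]
    refine (Complex.abs_im_le_norm _).trans ?_
    rw [norm_mul, norm_pow, norm_pow, norm_cj]
  unfold DF
  rw [norm_div, norm_mul, norm_mul, norm_mul, norm_mul, norm_mul, norm_mul, norm_mul, norm_div,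
    norm_pow, e2, norm_cj, norm_cj, Complex.norm_real, Real.norm_of_nonneg hc.le]
  have h4 : ‖(4 : ℂ)‖ = 4 := by norm_num
  rw [h4]
  have hA : 0 < 3 / 4 * ‖xx m‖ ^ 2 := by positivity
  have hden : ‖xx n‖ * ‖xx n‖ * (‖xx m‖ * ‖xx m‖) * ((3 / 4 * ‖xx m‖ ^ 2) * (3 / 4 * ‖xx m‖ ^ 2)) ≤
      ‖xx n‖ * ‖xx n‖ * (‖xx m‖ * ‖xx m‖) *
        (‖xx n ^ 2 - xx m ^ 2‖ * ‖xx n ^ 2 - xx m ^ 2‖) := by
    gcongr
  have hnum : ‖ev m‖ * (4 / cc ^ 2) * ‖((((xx m ^ 2 * cj (xx n) ^ 2).im : ℝ)) : ℂ)‖ ≤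
      1 * (4 / cc ^ 2) * (‖xx m‖ ^ 2 * ‖xx n‖ ^ 2) := by
    gcongr
    exact DHat0_norm_ev m
  calc _ ≤ 1 * (4 / cc ^ 2) * (‖xx m‖ ^ 2 * ‖xx n‖ ^ 2) /
        (‖xx n‖ * ‖xx n‖ * (‖xx m‖ * ‖xx m‖) *
          ((3 / 4 * ‖xx m‖ ^ 2) * (3 / 4 * ‖xx m‖ ^ 2))) := by
        apply div_le_div₀ (by positivity) hnum (by positivity) hden
    _ = _ := by
        field_simp
        ring

theorem DF_summable {n : ℤ × ℤ} (hn : ¬ Even n.2) : Summable (fun m => DF n m) := by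
  have hn0 : n ≠ 0 := by
    rintro rfl
    exact hn (by simp)
  have hn1 : 0 < ‖xx n‖ := lt_of_lt_of_le one_pos (one_le_norm_xx hn0)
  refine Summable.of_norm_bounded_eventually (g := fun m => (64 / 9 / cc ^ 2) * (1 / ‖xx m‖ ^ 4))
    (DHat0_summ4.mul_left _) ?_
  have h1 := DHat0_summ4.tendsto_cofinite_zero
  have h2 : ∀ᶠ m : ℤ × ℤ in cofinite, 1 / ‖xx m‖ ^ 4 < 1 / (2 * ‖xx n‖) ^ 4 :=
    (tendsto_order.1 h1).2 _ (by positivity)
  have h3 : ∀ᶠ m : ℤ × ℤ in cofinite, m ≠ 0 := by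
    have : ({0} : Set (ℤ × ℤ)).Finite := finite_singleton _
    filter_upwards [this.compl_mem_cofinite] with m hm
    simpa using hm
  filter_upwards [h2, h3] with m hm hm0
  apply DHat0_bound hn0
  have hm1 : 0 < ‖xx m‖ := lt_of_lt_of_le one_pos (one_le_norm_xx hm0)
  by_contra hcon
  rw [not_lt] at hcon
  have : 1 / (2 * ‖xx n‖) ^ 4 ≤ 1 / ‖xx m‖ ^ 4 := by
    apply one_div_le_one_div_of_le (by positivity)
    gcongr
  linarith

theorem DHat0_norm_P : Tendsto (fun u : ℂ => ‖P u‖) (𝓝[≠] 0) atTop := by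
  obtain ⟨C, r, hr, h⟩ := P_near
  have h1 : Tendsto (fun u : ℂ => ‖1 / u ^ 2‖ - C) (𝓝[≠] 0) atTop := by
    apply tendsto_atTop_add_const_right
    have h2 : Tendsto (fun u : ℂ => ‖u⁻¹‖) (𝓝[≠] 0) atTop :=
      tendsto_norm_inv_nhdsNE_zero_atTop
    have h3 : Tendsto (fun u : ℂ => ‖u⁻¹‖ * ‖u⁻¹‖) (𝓝[≠] 0) atTop := h2.atTop_mul_atTop₀ h2
    refine h3.congr (fun u => ?_)
    rw [one_div, ← inv_pow, norm_pow, sq]
  refine tendsto_atTop_mono' _ ?_ h1
  have h4 : ∀ᶠ u : ℂ in 𝓝[≠] 0, ‖u‖ < r := by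
    have : ∀ᶠ u : ℂ in 𝓝 0, ‖u‖ < r := by
      have := Metric.ball_mem_nhds (0 : ℂ) hr
      filter_upwards [this] with u hu
      simpa using hu
    exact this.filter_mono nhdsWithin_le_nhds
  filter_upwards [h4, self_mem_nhdsWithin] with u hu hu0
  have h5 := h u hu0 hu
  have h6 : ‖1 / u ^ 2‖ - ‖P u‖ ≤ ‖P u - 1 / u ^ 2‖ := by
    rw [norm_sub_rev]
    exact norm_sub_norm_le _ _
  linarith

theorem DHat0_lift {A : Type*} {F : ℂ → A} (hF : Per F) {l : Filter A}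
    (h : Tendsto F (𝓝[≠] 0) l) : Tendsto (fun y : E => F (cu y)) (𝓝[≠] 0) l := by
  intro S hS
  have h1 := h hS
  rw [mem_map, mem_nhdsWithin_iff_eventually] at h1 ⊢
  have h2 : 𝓝 (0 : E) ≤ map pr (𝓝 0) := by
    have := Tor_open.nhds_le 0
    rwa [Tor_pr_zero] at this
  apply h2
  rw [mem_map]
  filter_upwards [h1] with u hu
  intro hu0
  have hu1 : u ∈ ({0} : Set ℂ)ᶜ := by
    intro h3
    apply hu0
    rw [mem_singleton_iff] at h3
    rw [h3, Tor_pr_zero]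
    exact mem_singleton _
  have := hu hu1
  simp only [mem_preimage] at this ⊢
  rwa [per_pr hF]

theorem DHat0_X_zero (u : ℂ) : Tendsto (fun v : ℂ => X u v) (𝓝[≠] 0) (𝓝 0) := by
  unfold X
  have h1 : Tendsto (fun v : ℂ => ‖P v - e0‖) (𝓝[≠] 0) atTop := by
    have h2 : Tendsto (fun v : ℂ => ‖P v‖ - ‖e0‖) (𝓝[≠] 0) atTop :=
      tendsto_atTop_add_const_right _ _ DHat0_norm_P
    refine tendsto_atTop_mono (fun v => ?_) h2
    exact norm_sub_norm_le _ _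
  have h3 : Tendsto (fun v : ℂ => (P v - e0)⁻¹) (𝓝[≠] 0) (𝓝 0) := by
    rw [tendsto_zero_iff_norm_tendsto_zero]
    simp only [norm_inv]
    exact tendsto_inv_atTop_zero.comp h1
  have h4 := h3.const_mul (P (u + 1 / 2) - e0)
  simpa [div_eq_mul_inv] using h4

theorem DHat0_BW_zero (u : ℂ) :
    Tendsto (fun y : E => ((BW (X u (cu y)) : ℝ) : ℂ)) (𝓝[≠] 0) (𝓝 0) := by
  have hF : Per (fun v : ℂ => ((BW (X u v) : ℝ) : ℂ)) := by
    intro v n
    simp only [X]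
    rw [P_per]
  refine DHat0_lift hF ?_
  have h1 : Tendsto (fun v : ℂ => BW (X u v)) (𝓝[≠] 0) (𝓝 (BW 0)) :=
    (BW_cont.tendsto 0).comp (DHat0_X_zero u)
  rw [BW_zero] at h1
  have h2 := (Complex.continuous_ofReal.tendsto 0).comp h1
  simpa [Function.comp_def] using h2

theorem DHat0_vol : (volume : Measure E) {0} = 0 := by
  have h := ae_cu (S := {cu 0}) (countable_singleton _)
  rw [ae_iff] at h
  refine measure_mono_null ?_ h
  intro x hx
  rw [mem_singleton_iff] at hx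
  subst hx
  simp

theorem DHat0_Fm : Measurable (fun q : E × E => ((BW (X (cu q.1) (cu q.2)) : ℝ) : ℂ)) :=
  Complex.measurable_ofReal.comp BWX_meas

theorem DHat0_chm (n : ℤ × ℤ) : Measurable (fun x : E => ch n (cu x)) :=
  (continuous_ch_cu n).measurable

theorem DHat0_Fmx (x : E) : Measurable (fun y : E => ((BW (X (cu x) (cu y)) : ℝ) : ℂ)) := by
  have h : Measurable (fun y : E => (x, y)) := measurable_prodMk_left
  have h2 := DHat0_Fm.comp h
  simp only [Function.comp_def] at h2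
  exact h2

theorem DHat0_pt {K : ℕ → E → ℝ} (hAI : AI K) (x : E) : Tendsto (fun N =>
    ∫ y : E, (K N y : ℂ) * ((BW (X (cu x) (cu y)) : ℝ) : ℂ)) atTop (𝓝 0) := by
  obtain ⟨C, hC0, hC⟩ := BW_bdd
  have hb : ∃ C : ℝ, ∀ y : E, ‖((BW (X (cu x) (cu y)) : ℝ) : ℂ)‖ ≤ C :=
    ⟨C, fun y => by rw [Complex.norm_real]; exact hC _⟩
  exact ai_tendsto hAI (DHat0_Fmx x) hb (DHat0_BW_zero (cu x)) DHat0_vol

/-- the sums -/
theorem DHat0_sum {n : ℤ × ℤ} {K : ℕ → E → ℝ} {s : ℕ → Finset (ℤ × ℤ)} {κ : ℕ → ℤ × ℤ → ℝ}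
    (hK : ∀ N x, ((K N x : ℝ) : ℂ) = ∑ n ∈ s N, (κ N n : ℂ) * ch n (cu x)) (N : ℕ) :
    ∫ x : E, ch (-n) (cu x) * ∫ y : E, (K N y : ℂ) * ((BW (X (cu x) (cu y)) : ℝ) : ℂ) =
      ∑ m ∈ s N, (κ N m : ℂ) * Dh n (-m) := by
  obtain ⟨C, hC0, hC⟩ := BW_bdd
  have hint : ∀ m : ℤ × ℤ, Integrable (fun q : E × E =>
      ((BW (X (cu q.1) (cu q.2)) : ℝ) : ℂ) * ch (-n) (cu q.1) * ch m (cu q.2)) := by
    intro m
    refine Integrable.of_bound (C := C) ?_ (Eventually.of_forall fun q => ?_)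
    · exact ((DHat0_Fm.mul ((DHat0_chm (-n)).comp measurable_fst)).mul
        ((DHat0_chm m).comp measurable_snd)).aestronglyMeasurable
    · rw [norm_mul, norm_mul, norm_ch, norm_ch, mul_one, mul_one, Complex.norm_real]
      exact hC _
  have h1 : ∀ m, Dh n (-m) = ∫ x : E, ∫ y : E,
      ((BW (X (cu x) (cu y)) : ℝ) : ℂ) * ch (-n) (cu x) * ch m (cu y) := by
    intro m
    unfold Dh
    rw [neg_neg]
    exact integral_prod _ (hint m)
  have h2 : ∀ x : E, ch (-n) (cu x) * ∫ y : E, (K N y : ℂ) * ((BW (X (cu x) (cu y)) : ℝ) : ℂ) =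
      ∑ m ∈ s N, (κ N m : ℂ) * ∫ y : E,
        ((BW (X (cu x) (cu y)) : ℝ) : ℂ) * ch (-n) (cu x) * ch m (cu y) := by
    intro x
    have hi : ∀ m ∈ s N, Integrable (fun y : E =>
        (κ N m : ℂ) * (((BW (X (cu x) (cu y)) : ℝ) : ℂ) * ch (-n) (cu x) * ch m (cu y))) := by
      intro m _
      refine Integrable.const_mul ?_ _
      refine Integrable.of_bound (C := C) ?_ (Eventually.of_forall fun y => ?_)
      · exact (((DHat0_Fmx x).mul_const _).mul (DHat0_chm m)).aestronglyMeasurable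
      · rw [norm_mul, norm_mul, norm_ch, norm_ch, mul_one, mul_one, Complex.norm_real]
        exact hC _
    rw [← integral_const_mul]
    simp_rw [← integral_const_mul]
    rw [← integral_finsetSum _ hi]
    congr 1
    funext y
    rw [hK, Finset.sum_mul, Finset.mul_sum]
    refine Finset.sum_congr rfl fun m _ => ?_
    ring
  simp_rw [h2]
  rw [integral_finsetSum]
  · refine Finset.sum_congr rfl fun m _ => ?_
    rw [integral_const_mul, h1]
  · intro m _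
    exact (hint m).integral_prod_left.const_mul _

theorem Dh_zero {n : ℤ × ℤ} (hn : ¬ Even n.2) : Dh n 0 = -∑' m : ℤ × ℤ, DF n m := by
  obtain ⟨K, s, κ, hAI, hκ, hκ1, hκ0, hK⟩ := exists_kernel
  obtain ⟨C, hC0, hC⟩ := BW_bdd
  -- the limit of the integrals
  have hA : Tendsto (fun N => ∫ x : E, ch (-n) (cu x) *
      ∫ y : E, (K N y : ℂ) * ((BW (X (cu x) (cu y)) : ℝ) : ℂ)) atTop (𝓝 0) := by
    have h0 : (0 : ℂ) = ∫ x : E, (0 : ℂ) := by simp
    rw [h0]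
    refine tendsto_integral_of_dominated_convergence (fun _ => C) ?_ (integrable_const _) ?_ ?_
    · intro N
      refine (DHat0_chm (-n)).aestronglyMeasurable.mul ?_
      have hm : StronglyMeasurable (fun q : E × E =>
          (K N q.2 : ℂ) * ((BW (X (cu q.1) (cu q.2)) : ℝ) : ℂ)) := by
        refine Measurable.stronglyMeasurable ?_
        exact ((Complex.measurable_ofReal.comp (hAI.cont N).measurable).comp measurable_snd).mul
          DHat0_Fm
      exact hm.integral_prod_right.aestronglyMeasurable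
    · intro N
      refine Eventually.of_forall fun x => ?_
      rw [norm_mul, norm_ch, one_mul]
      calc ‖∫ y : E, (K N y : ℂ) * ((BW (X (cu x) (cu y)) : ℝ) : ℂ)‖
          ≤ ∫ y : E, K N y * C := by
            refine norm_integral_le_of_norm_le ((ai_int hAI N).mul_const _) ?_
            refine Eventually.of_forall fun y => ?_
            rw [norm_mul, Complex.norm_real, Complex.norm_real, Real.norm_of_nonneg
              (hAI.nonneg N y)]
            exact mul_le_mul_of_nonneg_left (hC _) (hAI.nonneg N y)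
        _ = C := by
            rw [integral_mul_const, hAI.int_one, one_mul]
    · refine Eventually.of_forall fun x => ?_
      have h2 := (DHat0_pt hAI x).const_mul (ch (-n) (cu x))
      rw [mul_zero] at h2
      exact h2
  -- summability
  have hs : Summable (fun m => Dh n m) := by
    have h1 : Summable (fun m : ℤ × ℤ => if m = 0 then Dh n 0 else 0) :=
      summable_of_ne_finset_zero (s := {0}) (fun x hx => by
        rw [Finset.mem_singleton] at hx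
        rw [if_neg hx])
    refine ((DF_summable hn).add h1).congr (fun m => ?_)
    by_cases hm : m = 0
    · subst hm
      rw [DHat0_DF_zero]
      simp
    · rw [if_neg hm, add_zero, Dh_eq hn hm]
  have hs' : Summable (fun m => Dh n (-m)) := (Equiv.neg (ℤ × ℤ)).summable_iff.mpr hs
  have hB : Tendsto (fun N => ∑' m, (κ N m : ℂ) * Dh n (-m)) atTop (𝓝 (∑' m, Dh n (-m))) := by
    refine tendsto_tsum_of_dominated_convergence (bound := fun m => ‖Dh n (-m)‖) hs'.norm ?_ ?_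
    · intro m
      have h1 : Tendsto (fun N => ((κ N m : ℝ) : ℂ)) atTop (𝓝 ((1 : ℝ) : ℂ)) :=
        (Complex.continuous_ofReal.tendsto 1).comp (hκ1 m)
      have h2 := h1.mul_const (Dh n (-m))
      simpa using h2
    · refine Eventually.of_forall fun N m => ?_
      rw [norm_mul, Complex.norm_real, Real.norm_of_nonneg (hκ N m).1]
      exact mul_le_of_le_one_left (norm_nonneg _) (hκ N m).2
  have hC' : (fun N => ∑' m, (κ N m : ℂ) * Dh n (-m)) = fun N => ∫ x : E, ch (-n) (cu x) *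
      ∫ y : E, (K N y : ℂ) * ((BW (X (cu x) (cu y)) : ℝ) : ℂ) := by
    funext N
    rw [DHat0_sum hK N]
    refine tsum_eq_sum (fun m hm => ?_)
    rw [hκ0 N m hm]
    simp
  rw [hC'] at hB
  have h0 : ∑' m, Dh n (-m) = 0 := tendsto_nhds_unique hB hA
  have h1 : ∑' m, Dh n m = 0 := by
    rw [← h0]
    exact ((Equiv.neg (ℤ × ℤ)).tsum_eq (fun m => Dh n m)).symm
  rw [hs.tsum_eq_add_tsum_ite 0] at h1
  have h2 : (∑' m, if m = 0 then 0 else Dh n m) = ∑' m, DF n m := by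
    refine tsum_congr fun m => ?_
    by_cases hm : m = 0
    · subst hm
      rw [DHat0_DF_zero]
      simp
    · rw [if_neg hm, Dh_eq hn hm]
  rw [h2] at h1
  exact eq_neg_of_add_eq_zero_left h1

end EE7
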