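import Mathlib
import Pool.Agent.EE7.HalfP
import Pool.Agent.EE7.Cm

/-!
# EE7/Weq: the map `E × E → W`, `W : (1+x)² (1+y)² (1+z)² = x y z`

Notation `a = P u - e0`, `b = P v - e0`, `M = a b - CC`.

PROOF. At a generic point (`Gen u v`):
* `x = -CC/(a b)` (`P_half`), so `(1+x)² = M² / (a b)²` and `x ≠ 0, -1`
  (`M ≠ 0`: `M = -a (P (u+1/2) - P v)`, `P_eq_iff`).
* `y = -(P v - e2)(P u - e1)/((P v - e1)(P u - e2))` (`P_hp`:
  `P(u+hp) - e0 = (e1-e0)(P u - e2)/(P u - e1)`), `1 + y = (e1-e2)(P v - P u)/((P v-e1)(P u-e2))`.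
* `z = -(P(u-v) - e0)/(P(u+v) - e0)`. Addition theorem (`wp_add` for `(u,v)` and `(u,-v)`):
  `P(u+v) - P(u-v) = -P1 u P1 v/(P u - P v)²` and
  `(P(u+v) - e0)(P(u-v) - e0) = M²/(P u - P v)²`
  (expand with `P_ode`; `P(u±v) = ¼((P1 u ∓ P1 v)/(P u - P v))² - P u - P v`).
  So `(1+z)²/z = -(P1 u)² (P1 v)²/((P u - P v)² M²)`.
* The product: `(1+x)²/x · (1+y)²/y · (1+z)²/z =
  [-M²/(a b CC)] · [-(e1-e2)² (P u - P v)²/((P u-e1)(P u-e2)(P v-e1)(P v-e2))] ·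
  [-16 a b (P u-e1)(P u-e2)(P v-e1)(P v-e2)/((P u-P v)² M²)] = -16 (e1-e2)²/CC = 1` by `cm`.
-/

namespace EE7

/-! ### algebra -/

theorem Weq_alg_diff {A B D S : ℂ} (hD : D ≠ 0) :
    (((A - B) / D) ^ 2 / 4 - S) - (((A + B) / D) ^ 2 / 4 - S) = -(A * B / D ^ 2) := by
  field_simp
  ring

theorem Weq_alg_prod {p q A B x0 x1 x2 : ℂ} (hD : p - q ≠ 0) (hs : x0 + x1 + x2 = 0)
    (hA : A ^ 2 = 4 * (p - x0) * (p - x1) * (p - x2))
    (hB : B ^ 2 = 4 * (q - x0) * (q - x1) * (q - x2)) :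
    (((A - B) / (p - q)) ^ 2 / 4 - p - q - x0) * (((A + B) / (p - q)) ^ 2 / 4 - p - q - x0) =
      ((p - x0) * (q - x0) - (x0 - x1) * (x0 - x2)) ^ 2 / (p - q) ^ 2 := by
  have h2 : x2 = -x0 - x1 := by linear_combination hs
  subst h2
  have h1 : (((A - B) / (p - q)) ^ 2 / 4 - p - q - x0) *
      (((A + B) / (p - q)) ^ 2 / 4 - p - q - x0) =
      ((A ^ 2 - B ^ 2) ^ 2 - 8 * (p + q + x0) * (p - q) ^ 2 * (A ^ 2 + B ^ 2)
        + 16 * (p + q + x0) ^ 2 * (p - q) ^ 4) / (16 * (p - q) ^ 4) := by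
    field_simp
    ring
  rw [h1, div_eq_div_iff (mul_ne_zero (by norm_num) (pow_ne_zero 4 hD)) (pow_ne_zero 2 hD), hA, hB]
  ring

theorem Weq_alg_sum {p q A B x0 x1 x2 : ℂ} (hD : p - q ≠ 0) (hs : x0 + x1 + x2 = 0)
    (hA : A ^ 2 = 4 * (p - x0) * (p - x1) * (p - x2))
    (hB : B ^ 2 = 4 * (q - x0) * (q - x1) * (q - x2)) :
    (((A - B) / (p - q)) ^ 2 / 4 - p - q) + (((A + B) / (p - q)) ^ 2 / 4 - p - q) - 2 * x0 =
      2 * ((q - x0) * (p - x1) * (p - x2) + (p - x0) * (q - x1) * (q - x2)) / (p - q) ^ 2 := by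
  have h2 : x2 = -x0 - x1 := by linear_combination hs
  subst h2
  have h1 : (((A - B) / (p - q)) ^ 2 / 4 - p - q) + (((A + B) / (p - q)) ^ 2 / 4 - p - q)
      - 2 * x0 = ((A ^ 2 + B ^ 2) - 4 * (p + q + x0) * (p - q) ^ 2) / (2 * (p - q) ^ 2) := by
    field_simp
    ring
  rw [h1, div_eq_div_iff (mul_ne_zero (by norm_num) (pow_ne_zero 2 hD)) (pow_ne_zero 2 hD), hA, hB]
  ring

/-! ### generic points -/

theorem Weq_u {u v : ℂ} (h : Gen u v) : Ofl u ∧ P u - e0 ≠ 0 ∧ P u - e1 ≠ 0 ∧ P u - e2 ≠ 0 := by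
  obtain ⟨h1, h2, h3, h4⟩ := ofl_of_two h.1
  exact ⟨h1, sub_ne_zero.2 fun e => (P_eq_e0 h1).1 e h2, sub_ne_zero.2 fun e => (P_eq_e1 h1).1 e h3,
    sub_ne_zero.2 fun e => (P_eq_e2 h1).1 e h4⟩

theorem Weq_v {u v : ℂ} (h : Gen u v) : Ofl v ∧ P v - e0 ≠ 0 ∧ P v - e1 ≠ 0 ∧ P v - e2 ≠ 0 := by
  obtain ⟨h1, h2, h3, h4⟩ := ofl_of_two h.2.1
  exact ⟨h1, sub_ne_zero.2 fun e => (P_eq_e0 h1).1 e h2, sub_ne_zero.2 fun e => (P_eq_e1 h1).1 e h3,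
    sub_ne_zero.2 fun e => (P_eq_e2 h1).1 e h4⟩

theorem Weq_uv {u v : ℂ} (h : Gen u v) : Ofl (u + v) ∧ P (u + v) - e0 ≠ 0 := by
  obtain ⟨h1, h2, h3, h4⟩ := ofl_of_two h.2.2.1
  exact ⟨h1, sub_ne_zero.2 fun e => (P_eq_e0 h1).1 e h2⟩

theorem Weq_umv {u v : ℂ} (h : Gen u v) : Ofl (u - v) ∧ P (u - v) - e0 ≠ 0 := by
  obtain ⟨h1, h2, h3, h4⟩ := ofl_of_two h.2.2.2
  exact ⟨h1, sub_ne_zero.2 fun e => (P_eq_e0 h1).1 e h2⟩

theorem Weq_D {u v : ℂ} (h : Gen u v) : P u - P v ≠ 0 := by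
  refine sub_ne_zero.2 fun e => ?_
  rcases (P_eq_iff (Weq_u h).1 (Weq_v h).1).1 e with h1 | h1
  · exact h1 (Weq_uv h).1
  · exact h1 (Weq_umv h).1

theorem Weq_add {u v : ℂ} (h : Gen u v) :
    P (u + v) = ((P1 u - P1 v) / (P u - P v)) ^ 2 / 4 - P u - P v :=
  Pool.Agent.EllSch.wp_add ind (Weq_u h).1 (Weq_v h).1 (Weq_uv h).1 (sub_ne_zero.1 (Weq_D h))

theorem Weq_sub {u v : ℂ} (h : Gen u v) :
    P (u - v) = ((P1 u + P1 v) / (P u - P v)) ^ 2 / 4 - P u - P v := by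
  have h1 : Ofl (u + -v) := by rw [← sub_eq_add_neg]; exact (Weq_umv h).1
  have h2 : P u ≠ P (-v) := by rw [P_neg]; exact sub_ne_zero.1 (Weq_D h)
  have h3 : P (u + -v) = ((P1 u - P1 (-v)) / (P u - P (-v))) ^ 2 / 4 - P u - P (-v) :=
    Pool.Agent.EllSch.wp_add ind (Weq_u h).1 ((ofl_neg v).2 (Weq_v h).1) h1 h2
  rw [P_neg, P1_neg, sub_neg_eq_add] at h3
  rw [sub_eq_add_neg]
  exact h3

theorem xf_eq {u v : ℂ} (h : Gen u v) : xf u v = -(CC / ((P u - e0) * (P v - e0))) := by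
  obtain ⟨hu, hu0, hu1, hu2⟩ := Weq_u h
  obtain ⟨hv, hv0, hv1, hv2⟩ := Weq_v h
  rw [xf, P_half hu (ofl_of_two h.1).2.1]
  field_simp
  ring

theorem yf_eq {u v : ℂ} (h : Gen u v) :
    yf u v = -((P v - e2) * (P u - e1) / ((P v - e1) * (P u - e2))) := by
  obtain ⟨hu, hu0, hu1, hu2⟩ := Weq_u h
  obtain ⟨hv, hv0, hv1, hv2⟩ := Weq_v h
  have h10 : e1 - e0 ≠ 0 := sub_ne_zero.2 (Ne.symm e01)
  have key : ∀ x : ℂ, x - e1 ≠ 0 →
      e1 + (e1 - e0) * (e1 - e2) / (x - e1) - e0 = (e1 - e0) * (x - e2) / (x - e1) := by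
    intro x hx
    field_simp
    ring
  rw [yf, P_hp hu (ofl_of_two h.1).2.2.1, P_hp hv (ofl_of_two h.2.1).2.2.1, key _ hu1, key _ hv1]
  field_simp

theorem P_diff {u v : ℂ} (h : Gen u v) :
    P (u + v) - P (u - v) = -(P1 u * P1 v / (P u - P v) ^ 2) := by
  rw [Weq_add h, Weq_sub h]
  have h1 := Weq_alg_diff (A := P1 u) (B := P1 v) (S := P u + P v) (Weq_D h)
  rw [← h1]
  ring

theorem P_prod {u v : ℂ} (h : Gen u v) :
    (P (u + v) - e0) * (P (u - v) - e0) =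
      ((P u - e0) * (P v - e0) - CC) ^ 2 / (P u - P v) ^ 2 := by
  rw [Weq_add h, Weq_sub h, CC]
  exact Weq_alg_prod (Weq_D h) e_sum (P_ode (Weq_u h).1) (P_ode (Weq_v h).1)

theorem P_sum {u v : ℂ} (h : Gen u v) :
    P (u + v) + P (u - v) - 2 * e0 = 2 * ((P v - e0) * (P u - e1) * (P u - e2)
      + (P u - e0) * (P v - e1) * (P v - e2)) / (P u - P v) ^ 2 := by
  rw [Weq_add h, Weq_sub h]
  exact Weq_alg_sum (Weq_D h) e_sum (P_ode (Weq_u h).1) (P_ode (Weq_v h).1)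

theorem Weq_M {u v : ℂ} (h : Gen u v) : (P u - e0) * (P v - e0) - CC ≠ 0 := by
  intro hM
  have h1 := P_prod h
  rw [hM] at h1
  have h2 : (P (u + v) - e0) * (P (u - v) - e0) = 0 := by rw [h1]; simp
  rcases mul_eq_zero.1 h2 with h3 | h3
  · exact (Weq_uv h).2 h3
  · exact (Weq_umv h).2 h3

theorem xyz_ne {u v : ℂ} (h : Gen u v) : xf u v ≠ 0 ∧ yf u v ≠ 0 ∧ zf u v ≠ 0 ∧
    xf u v ≠ -1 ∧ yf u v ≠ -1 ∧ zf u v ≠ -1 := by
  obtain ⟨hu, hu0, hu1, hu2⟩ := Weq_u h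
  obtain ⟨hv, hv0, hv1, hv2⟩ := Weq_v h
  have hD := Weq_D h
  have hM := Weq_M h
  have hp0 := (Weq_uv h).2
  have hm0 := (Weq_umv h).2
  refine ⟨?_, ?_, ?_, ?_, ?_, ?_⟩
  · rw [xf_eq h]
    exact neg_ne_zero.2 (div_ne_zero CC_ne (mul_ne_zero hu0 hv0))
  · rw [yf_eq h]
    exact neg_ne_zero.2 (div_ne_zero (mul_ne_zero hv2 hu1) (mul_ne_zero hv1 hu2))
  · rw [zf]
    exact div_ne_zero (neg_ne_zero.2 hm0) hp0
  · rw [xf_eq h]
    intro e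
    have e' := neg_inj.1 e
    rw [div_eq_one_iff_eq (mul_ne_zero hu0 hv0)] at e'
    exact hM (by rw [e', sub_self])
  · rw [yf_eq h]
    intro e
    have e' := neg_inj.1 e
    rw [div_eq_one_iff_eq (mul_ne_zero hv1 hu2)] at e'
    have h2 : (e1 - e2) * (P u - P v) = 0 := by linear_combination e'
    rcases mul_eq_zero.1 h2 with h3 | h3
    · exact e12 (sub_eq_zero.1 h3)
    · exact hD h3
  · rw [zf]
    intro e
    rw [neg_div] at e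
    have e' := neg_inj.1 e
    rw [div_eq_one_iff_eq hp0] at e'
    have h1 := P_diff h
    have h2 : P1 u * P1 v / (P u - P v) ^ 2 = 0 := by linear_combination h1 + e'
    exact div_ne_zero (mul_ne_zero (P1_ne h.1) (P1_ne h.2.1)) (pow_ne_zero 2 hD) h2

theorem Weq_x {u v : ℂ} (h : Gen u v) : (1 + xf u v) ^ 2 =
    -(((P u - e0) * (P v - e0) - CC) ^ 2 / ((P u - e0) * (P v - e0) * CC)) * xf u v := by
  obtain ⟨hu, hu0, hu1, hu2⟩ := Weq_u h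
  obtain ⟨hv, hv0, hv1, hv2⟩ := Weq_v h
  have hC := CC_ne
  rw [xf_eq h]
  generalize CC = C at *
  generalize P u - e0 = a at *
  generalize P v - e0 = b at *
  field_simp
  ring

theorem Weq_y {u v : ℂ} (h : Gen u v) : (1 + yf u v) ^ 2 =
    -((e1 - e2) ^ 2 * (P u - P v) ^ 2 /
      ((P v - e1) * (P u - e2) * ((P v - e2) * (P u - e1)))) * yf u v := by
  obtain ⟨hu, hu0, hu1, hu2⟩ := Weq_u h
  obtain ⟨hv, hv0, hv1, hv2⟩ := Weq_v h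
  rw [yf_eq h]
  field_simp
  ring

theorem Weq_z {u v : ℂ} (h : Gen u v) : (1 + zf u v) ^ 2 =
    -(P1 u ^ 2 * P1 v ^ 2 / ((P u - P v) ^ 2 * ((P u - e0) * (P v - e0) - CC) ^ 2)) * zf u v := by
  have hD := Weq_D h
  have hM := Weq_M h
  have hp0 := (Weq_uv h).2
  have hm0 := (Weq_umv h).2
  have h1 := P_prod h
  have h2 := P_diff h
  have h3 : P1 u ^ 2 * P1 v ^ 2 / ((P u - P v) ^ 2 * ((P u - e0) * (P v - e0) - CC) ^ 2)
      = (P (u + v) - P (u - v)) ^ 2 / ((P (u + v) - e0) * (P (u - v) - e0)) := by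
    rw [h1, h2]
    field_simp
  rw [h3, zf]
  field_simp
  ring

theorem W_eq {u v : ℂ} (h : Gen u v) :
    (1 + xf u v) ^ 2 * (1 + yf u v) ^ 2 * (1 + zf u v) ^ 2 = xf u v * yf u v * zf u v := by
  obtain ⟨hu, hu0, hu1, hu2⟩ := Weq_u h
  obtain ⟨hv, hv0, hv1, hv2⟩ := Weq_v h
  have hD := Weq_D h
  have hM := Weq_M h
  have hC := CC_ne
  have hcm := cm
  rw [Weq_x h, Weq_y h, Weq_z h, P_ode hu, P_ode hv]
  have hK : -(((P u - e0) * (P v - e0) - CC) ^ 2 / ((P u - e0) * (P v - e0) * CC)) *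
      -((e1 - e2) ^ 2 * (P u - P v) ^ 2 /
        ((P v - e1) * (P u - e2) * ((P v - e2) * (P u - e1)))) *
      -(4 * (P u - e0) * (P u - e1) * (P u - e2) * (4 * (P v - e0) * (P v - e1) * (P v - e2)) /
        ((P u - P v) ^ 2 * ((P u - e0) * (P v - e0) - CC) ^ 2)) = 1 := by
    have h16 : -(16 * (e1 - e2) ^ 2 / CC) = 1 := by
      have : 16 * (e1 - e2) ^ 2 = -CC := by linear_combination hcm
      rw [this, neg_div, neg_neg, div_self hC]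
    rw [← h16]
    generalize (P u - e0) * (P v - e0) - CC = M at *
    field_simp
    ring
  linear_combination (xf u v * yf u v * zf u v) * hK

end EE7
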