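import Mathlib
import Pool.Agent.EE7.PhAlg
import Pool.Agent.EE7.Weq

/-!
# EE7/Forms: the holomorphic two-form

All at generic points. PROOF.
* Logarithmic derivatives (use `P_deriv`, `ph_eq`, `ph_half`, `ph_neg`; `x_u/x = P1(u+1/2) /
  (P(u+1/2) - e0) = -ph(u+1/2) = ph u`, and so on):
  `x_u = ph u · x`, `x_v = ph v · x`, `y_u = ph(u+hp) y`, `y_v = -ph(v+hp) y`,
  `z_u = (ph(u+v) - ph(u-v)) z`, `z_v = (ph(u+v) + ph(u-v)) z`.
* Hence `wedge yf zf = JJ`,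
  `wedge zf xf = (ph(u+v) - ph(u-v)) ph v - (ph(u+v) + ph(u-v)) ph u`,
  `wedge xf yf = -(ph u · ph(v+hp) + ph v · ph(u+hp))`.
* `wedge yf zf = 8 (e1-e2) (x-1)/(x+1)`: `JJ_eq` and `x = -CC/(a b)`.
* `wedge zf xf`: by `ph_sum`, `ph_diff`, `ph u = -P1 u/a` it is
  `2/((a-b) M) [P1(v)²(a²-CC)/b + P1(u)²(b²-CC)/a]`, `P1(u)²/a = 4 (a² + 3 e0 a + CC)`, so
  `= 8/(a-b) [2 (a b + CC) + 3 e0 (a+b)]`; and with `yf_eq`,
  `(y-1)/(y+1) = [2 P u P v + e0 (P u + P v) + 2 e1 e2]/((e1-e2)(P u - P v))`, the same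
  (`CC = 2 e0² + e1 e2`, `e_sum`).
* `wedge xf yf`: `ph u = -P1 u/a`, `ph(v+hp) = 4 (e1-e2) b/P1 v`, so with `P1(u)² = 4 a (P u-e1)(P u-e2)`
  it is `16 (e1-e2)[b (P u-e1)(P u-e2) + a (P v-e1)(P v-e2)]/(P1 u P1 v)`, and
  `(z-1)/(z+1) = -(P(u+v) + P(u-v) - 2 e0)/(P(u+v) - P(u-v))`, use `P_sum`, `P_diff`.
-/

namespace EE7

lemma Forms_ofl_one (u : ℂ) : Ofl (u + 1) ↔ Ofl u := by
  have h := ofl_add u (1, 0)
  have h1 : xx (1, 0) = 1 := by simp [xx_def]
  rwa [h1] at h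

lemma Forms_ne0 {u : ℂ} (h : Ofl (2 * u)) : P u - e0 ≠ 0 := by
  obtain ⟨h1, h2, -, -⟩ := ofl_of_two h
  intro hc
  exact (P_eq_e0 h1).1 (sub_eq_zero.1 hc) h2

lemma Forms_ne1 {u : ℂ} (h : Ofl (2 * u)) : P u - e1 ≠ 0 := by
  obtain ⟨h1, -, h2, -⟩ := ofl_of_two h
  intro hc
  exact (P_eq_e1 h1).1 (sub_eq_zero.1 hc) h2

lemma Forms_ne2 {u : ℂ} (h : Ofl (2 * u)) : P u - e2 ≠ 0 := by
  obtain ⟨h1, -, -, h2⟩ := ofl_of_two h
  intro hc
  exact (P_eq_e2 h1).1 (sub_eq_zero.1 hc) h2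

lemma Forms_half {u : ℂ} (h : Ofl (2 * u)) : P (u + 1 / 2) - e0 ≠ 0 := by
  obtain ⟨h1, h2, -, -⟩ := ofl_of_two h
  intro hc
  have h3 := (P_eq_e0 h2).1 (sub_eq_zero.1 hc)
  rw [show u + 1 / 2 + 1 / 2 = u + 1 by ring] at h3
  exact h3 ((Forms_ofl_one u).2 h1)

lemma Forms_hp {u : ℂ} (h : Ofl (2 * u)) : P (u + hp) - e0 ≠ 0 := by
  obtain ⟨h1, -, h2, h4⟩ := ofl_of_two h
  intro hc
  have h3 := (P_eq_e0 h2).1 (sub_eq_zero.1 hc)
  have h5 := ofl_add (u + om / 2) (1, -1)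
  have h6 : u + om / 2 + xx (1, -1) = u + hp + 1 / 2 := by
    rw [xx_def, hp, ob]
    push_cast
    ring
  rw [h6] at h5
  exact h3 (h5.2 h4)

lemma Forms_ph (u : ℂ) : ph u = P1 (u + 1 / 2) / (P (u + 1 / 2) - e0) := by
  have h1 := ph_half u
  have h2 := ph_eq (u + 1 / 2)
  rw [h1] at h2
  exact neg_inj.1 h2

lemma Forms_shift {u : ℂ} (c : ℂ) (h : Ofl (u + c)) :
    HasDerivAt (fun w => P (w + c)) (P1 (u + c)) u := by
  exact HasDerivAt.comp_add_const u c (P_deriv h)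

theorem hasDerivAt_x1 {u v : ℂ} (h : Gen u v) :
    HasDerivAt (fun w => xf w v) (ph u * xf u v) u := by
  obtain ⟨hu, hv, hs, hd⟩ := h
  have h1 := Forms_shift (1 / 2) (ofl_of_two hu).2.1
  have h2 := ((h1.sub_const e0).neg).div_const (P v - e0)
  have h3 := Forms_half hu
  have h4 := Forms_ne0 hv
  have e : ph u * xf u v = -P1 (u + 1 / 2) / (P v - e0) := by
    rw [Forms_ph, xf]
    generalize P (u + 1 / 2) - e0 = A at h3 ⊢
    generalize P1 (u + 1 / 2) = B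
    field_simp
  rw [e]
  exact h2

theorem hasDerivAt_x2 {u v : ℂ} (h : Gen u v) :
    HasDerivAt (fun w => xf u w) (ph v * xf u v) v := by
  obtain ⟨hu, hv, hs, hd⟩ := h
  have h4 := Forms_ne0 hv
  have h1 := (P_deriv (ofl_of_two hv).1).sub_const e0
  have h2 := (h1.inv h4).const_mul (-(P (u + 1 / 2) - e0))
  have e : ph v * xf u v = -(P (u + 1 / 2) - e0) * (-P1 v / (P v - e0) ^ 2) := by
    rw [ph_eq, xf]
    field_simp
  rw [e]
  exact h2

theorem hasDerivAt_y1 {u v : ℂ} (h : Gen u v) :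
    HasDerivAt (fun w => yf w v) (ph (u + hp) * yf u v) u := by
  obtain ⟨hu, hv, hs, hd⟩ := h
  have h4 := Forms_hp hu
  have h1 := (Forms_shift hp (ofl_of_two hu).2.2.1).sub_const e0
  have h2 := (h1.inv h4).const_mul (-(P (v + hp) - e0))
  have e : ph (u + hp) * yf u v
      = -(P (v + hp) - e0) * (-P1 (u + hp) / (P (u + hp) - e0) ^ 2) := by
    rw [ph_eq, yf]
    field_simp
  rw [e]
  exact h2

theorem hasDerivAt_y2 {u v : ℂ} (h : Gen u v) :
    HasDerivAt (fun w => yf u w) (-ph (v + hp) * yf u v) v := by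
  obtain ⟨hu, hv, hs, hd⟩ := h
  have h4 := Forms_hp hu
  have h3 := Forms_hp hv
  have h1 := (Forms_shift hp (ofl_of_two hv).2.2.1).sub_const e0
  have h2 := (h1.neg).div_const (P (u + hp) - e0)
  have e : -ph (v + hp) * yf u v = -P1 (v + hp) / (P (u + hp) - e0) := by
    rw [ph_eq, yf]
    field_simp
  rw [e]
  exact h2

theorem hasDerivAt_z1 {u v : ℂ} (h : Gen u v) :
    HasDerivAt (fun w => zf w v) ((ph (u + v) - ph (u - v)) * zf u v) u := by
  obtain ⟨hu, hv, hs, hd⟩ := h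
  have h3 := Forms_ne0 hs
  have h4 := Forms_ne0 hd
  have h1 := ((Forms_shift v (ofl_of_two hs).1).sub_const e0)
  have h0 : Ofl (u + -v) := by
    rw [← sub_eq_add_neg]
    exact (ofl_of_two hd).1
  have h2 := ((Forms_shift (-v) h0).sub_const e0).neg
  have h5 := h2.div h1 h3
  have e : (ph (u + v) - ph (u - v)) * zf u v
      = (-P1 (u + -v) * (P (u + v) - e0) - -(P (u + -v) - e0) * P1 (u + v)) /
        (P (u + v) - e0) ^ 2 := by
    rw [ph_eq, ph_eq, zf, ← sub_eq_add_neg]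
    field_simp
    ring
  rw [e]
  refine h5.congr_of_eventuallyEq ?_
  refine Filter.Eventually.of_forall fun w => ?_
  simp only [zf, sub_eq_add_neg]
  rfl

theorem hasDerivAt_z2 {u v : ℂ} (h : Gen u v) :
    HasDerivAt (fun w => zf u w) ((ph (u + v) + ph (u - v)) * zf u v) v := by
  obtain ⟨hu, hv, hs, hd⟩ := h
  have h3 := Forms_ne0 hs
  have h4 := Forms_ne0 hd
  have h1 : HasDerivAt (fun w => P (u + w) - e0) (P1 (u + v)) v := by
    exact (HasDerivAt.comp_const_add u v (P_deriv (ofl_of_two hs).1)).sub_const e0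
  have h2 : HasDerivAt (fun w => -(P (u - w) - e0)) (P1 (u - v)) v := by
    have := ((HasDerivAt.comp_const_sub u v (P_deriv (ofl_of_two hd).1)).sub_const e0).neg
    rw [neg_neg] at this
    exact this
  have h5 := h2.div h1 h3
  have e : (ph (u + v) + ph (u - v)) * zf u v
      = (P1 (u - v) * (P (u + v) - e0) - -(P (u - v) - e0) * P1 (u + v)) /
        (P (u + v) - e0) ^ 2 := by
    rw [ph_eq, ph_eq, zf]
    field_simp
    ring
  rw [e]
  exact h5

theorem wedge_yz_JJ {u v : ℂ} (h : Gen u v) : wedge yf zf u v = JJ u v := by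
  obtain ⟨-, hy, hz, -⟩ := xyz_ne h
  rw [wedge, (hasDerivAt_y1 h).deriv, (hasDerivAt_y2 h).deriv, (hasDerivAt_z1 h).deriv,
    (hasDerivAt_z2 h).deriv, JJ]
  field_simp
  ring

theorem wedge_yz {u v : ℂ} (h : Gen u v) :
    wedge yf zf u v = 8 * (e1 - e2) * ((xf u v - 1) / (xf u v + 1)) := by
  have ha := Forms_ne0 h.1
  have hb := Forms_ne0 h.2.1
  have hM := M_ne h
  rw [wedge_yz_JJ h, JJ_eq h, xf_eq h]
  have e : (-(CC / ((P u - e0) * (P v - e0))) - 1) / (-(CC / ((P u - e0) * (P v - e0))) + 1)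
      = -(((P u - e0) * (P v - e0) + CC) / ((P u - e0) * (P v - e0) - CC)) := by
    rw [show -(CC / ((P u - e0) * (P v - e0))) + 1
        = ((P u - e0) * (P v - e0) - CC) / ((P u - e0) * (P v - e0)) by field_simp; ring,
      show -(CC / ((P u - e0) * (P v - e0))) - 1
        = -((P u - e0) * (P v - e0) + CC) / ((P u - e0) * (P v - e0)) by field_simp; ring]
    field_simp
  rw [e]
  ring

lemma Forms_zx {a b x y C c M : ℂ} (ha : a ≠ 0) (hb : b ≠ 0) (hab : a - b ≠ 0) (hM : M ≠ 0)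
    (hMe : M = a * b - C) (hx : x ^ 2 = 4 * a * (a ^ 2 + c * a + C))
    (hy : y ^ 2 = 4 * b * (b ^ 2 + c * b + C)) :
    -(2 * y * (a ^ 2 - C) / ((a - b) * M)) * -(y / b)
      - 2 * x * (b ^ 2 - C) / ((a - b) * M) * -(x / a)
      = 8 * (2 * (a * b + C) + c * (a + b)) / (a - b) := by
  have e : -(2 * y * (a ^ 2 - C) / ((a - b) * M)) * -(y / b)
      - 2 * x * (b ^ 2 - C) / ((a - b) * M) * -(x / a)
      = (2 * y ^ 2 * (a ^ 2 - C) * a + 2 * x ^ 2 * (b ^ 2 - C) * b) / ((a - b) * M * a * b) := by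
    field_simp
    ring
  rw [e, hx, hy, div_eq_div_iff (by exact mul_ne_zero (mul_ne_zero (mul_ne_zero hab hM) ha) hb) hab]
  subst hMe
  ring

lemma Forms_sq {u : ℂ} (h : Ofl (2 * u)) : P1 u ^ 2 =
    4 * (P u - e0) * ((P u - e0) ^ 2 + 3 * e0 * (P u - e0) + CC) := by
  rw [P_ode (ofl_of_two h).1, CC]
  have h1 : e1 = -e0 - e2 := by linear_combination e_sum
  rw [h1]
  ring

theorem wedge_zx {u v : ℂ} (h : Gen u v) :
    wedge zf xf u v = 8 * (e1 - e2) * ((yf u v - 1) / (yf u v + 1)) := by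
  obtain ⟨hx, -, hz, -⟩ := xyz_ne h
  have ha := Forms_ne0 h.1
  have hb := Forms_ne0 h.2.1
  have h1 := Forms_ne2 h.1
  have h2 := Forms_ne1 h.2.1
  have hM := M_ne h
  have hP : P u - P v ≠ 0 := sub_ne_zero.2 (P_ne h)
  have h12 : e1 - e2 ≠ 0 := sub_ne_zero.2 e12
  have w : wedge zf xf u v = (ph (u + v) - ph (u - v)) * ph v
      - (ph (u + v) + ph (u - v)) * ph u := by
    rw [wedge, (hasDerivAt_z1 h).deriv, (hasDerivAt_z2 h).deriv, (hasDerivAt_x1 h).deriv,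
      (hasDerivAt_x2 h).deriv]
    field_simp
  have hab : P u - e0 - (P v - e0) ≠ 0 := by
    rw [sub_sub_sub_cancel_right]
    exact hP
  have k := Forms_zx ha hb hab hM rfl (Forms_sq h.1) (Forms_sq h.2.1)
  rw [sub_sub_sub_cancel_right] at k
  rw [w, ph_diff h, ph_sum h, ph_eq v, ph_eq u, k, yf_eq h]
  have e : (-((P v - e2) * (P u - e1) / ((P v - e1) * (P u - e2))) - 1) /
      (-((P v - e2) * (P u - e1) / ((P v - e1) * (P u - e2))) + 1)
      = (2 * P u * P v - (e1 + e2) * (P u + P v) + 2 * e1 * e2) / ((e1 - e2) * (P u - P v)) := by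
    rw [show -((P v - e2) * (P u - e1) / ((P v - e1) * (P u - e2))) + 1
        = -((e1 - e2) * (P u - P v)) / ((P v - e1) * (P u - e2)) by field_simp; ring,
      show -((P v - e2) * (P u - e1) / ((P v - e1) * (P u - e2))) - 1
        = -(2 * P u * P v - (e1 + e2) * (P u + P v) + 2 * e1 * e2) /
          ((P v - e1) * (P u - e2)) by field_simp; ring]
    field_simp
  rw [e, mul_div_assoc', div_eq_div_iff hP (mul_ne_zero h12 hP), CC]
  have h3 : e0 = -e1 - e2 := by linear_combination e_sum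
  rw [h3]
  ring

lemma Forms_xy {a b x y A B c : ℂ} (ha : a ≠ 0) (hb : b ≠ 0) (hx0 : x ≠ 0) (hy0 : y ≠ 0)
    (hx : x ^ 2 = 4 * a * A) (hy : y ^ 2 = 4 * b * B) :
    -(x / a) * -(4 * c * b / y) - -(y / b) * (4 * c * a / x)
      = 8 * c * (2 * (b * A + a * B) / (x * y)) := by
  have e : -(x / a) * -(4 * c * b / y) - -(y / b) * (4 * c * a / x)
      = (4 * c * (x ^ 2 * b ^ 2 + y ^ 2 * a ^ 2)) / (a * b * (x * y)) := by
    field_simp
    ring
  rw [e, hx, hy]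
  field_simp
  ring

theorem wedge_xy {u v : ℂ} (h : Gen u v) :
    wedge xf yf u v = 8 * (e1 - e2) * ((zf u v - 1) / (zf u v + 1)) := by
  obtain ⟨hx, hy, hz, -⟩ := xyz_ne h
  have ha := Forms_ne0 h.1
  have hb := Forms_ne0 h.2.1
  have hs := Forms_ne0 h.2.2.1
  have hP : P u - P v ≠ 0 := sub_ne_zero.2 (P_ne h)
  have hu1 := P1_ne h.1
  have hv1 := P1_ne h.2.1
  have w : wedge xf yf u v = ph u * -ph (v + hp) - ph v * ph (u + hp) := by
    rw [wedge, (hasDerivAt_x1 h).deriv, (hasDerivAt_x2 h).deriv, (hasDerivAt_y1 h).deriv,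
      (hasDerivAt_y2 h).deriv]
    field_simp
  have hou := P_ode (ofl_of_two h.1).1
  have hov := P_ode (ofl_of_two h.2.1).1
  have k := Forms_xy (c := e1 - e2) (A := (P u - e1) * (P u - e2))
    (B := (P v - e1) * (P v - e2)) ha hb hu1 hv1 (by rw [hou]; ring) (by rw [hov]; ring)
  rw [w, ph_hp h.1, ph_hp h.2.1, ph_eq u, ph_eq v, k]
  congr 1
  have hd := P_diff h
  have hsm := P_sum h
  have e : (zf u v - 1) / (zf u v + 1)
      = -(P (u + v) + P (u - v) - 2 * e0) / (P (u + v) - P (u - v)) := by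
    have hden : P (u + v) - P (u - v) ≠ 0 := by
      rw [hd]
      exact neg_ne_zero.2 (div_ne_zero (mul_ne_zero hu1 hv1) (pow_ne_zero 2 hP))
    rw [zf, show -(P (u - v) - e0) / (P (u + v) - e0) - 1
        = -(P (u + v) + P (u - v) - 2 * e0) / (P (u + v) - e0) by field_simp; ring,
      show -(P (u - v) - e0) / (P (u + v) - e0) + 1
        = (P (u + v) - P (u - v)) / (P (u + v) - e0) by field_simp; ring]
    field_simp
  rw [e, hd, hsm]
  field_simp

end EE7
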