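import Mathlib
import Pool.Agent.EE7.Bas

/-!
# EE7/LSumm: absolute convergence of the double lattice sums

`LF a b q = xx a * xx q.1 + xx b * xx q.2`.

PROOF. `summ3`: `|n.1 + n.2 om|² ≥ c (n.1² + n.2²)` (`norm_sq_xx`; e.g. `≥ (n.1² + n.2²)/4`), and
the sum over `ℤ²` of `(n.1² + n.2²)^(-3/2)` converges: Mathlib has
`EisensteinSeries.summable_norm_eisSummand`-type lemmas, or bound by
`1/(|n.1|^(3/2) |n.2|^(3/2))` for `n.1 n.2 ≠ 0` (AM-GM) plus the two axes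
(`Summable.mul_of_nonneg`). (`EllSch`: `ZLattice.summable_norm_rpow` is used there as well.)
`summ33`: `LF a b q = xx (A q)`, `LF c d q = xx (B q)` with additive maps `A, B` (the product of two
elements of `O` is in `O`: `xx a * xx n = xx (a.1 n.1 - 2 a.2 n.2, a.1 n.2 + a.2 n.1 + a.2 n.2)`),
`q ↦ (A q, B q)` is injective because the determinant is not `0`; so the family is the
composition of the summable family `(m, n) ↦ 1/(|xx m|³ |xx n|³)` with an injective map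
(`Summable.comp_injective`).
The others: weighted arithmetic-geometric mean, for positive reals `x, y, z, t`:
`1/(x³ y² z) ≤ 1/(x³ y³) + 1/(x³ z³)` (if `z ≥ y` the left side is `≤ 1/(x³y³)`, if `z ≤ y` it is
`≤ 1/(x³ z³)`), `1/(x² y² z²) ≤ 1/(x³y³) + 1/(x³z³) + 1/(y³z³)` (the product of the two smallest:
if `z` is the largest, `x² y² z² ≥ x³ y³`... i.e. `z² ≥ x y`), and
`1/(x³ y z t) ≤ 1/(x³y³) + 1/(x³z³) + 1/(x³t³)` (`y z t ≥ min³`). If one of them is `0` the left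
side is `0`.
-/

namespace EE7

lemma LSumm_norm_le (n : ℤ × ℤ) : ‖n‖ / 2 ≤ ‖xx n‖ := by
  have h := norm_sq_xx n
  have h1 : ‖n‖ = max |(n.1 : ℝ)| |(n.2 : ℝ)| := by
    rw [Prod.norm_def, Int.norm_eq_abs, Int.norm_eq_abs]
  have h0 : 0 ≤ ‖xx n‖ := norm_nonneg _
  rw [h1]
  rcases le_total |(n.1 : ℝ)| |(n.2 : ℝ)| with h2 | h2
  · rw [max_eq_right h2]
    have h3 : |(n.2 : ℝ)| ^ 2 = (n.2 : ℝ) ^ 2 := sq_abs _
    have h4 : (|(n.2 : ℝ)| / 2) ^ 2 ≤ ‖xx n‖ ^ 2 := by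
      rw [h, div_pow, h3]
      nlinarith [sq_nonneg ((n.1 : ℝ) + n.2 / 2), sq_nonneg (n.2 : ℝ)]
    exact (sq_le_sq₀ (by positivity) h0).1 h4
  · rw [max_eq_left h2]
    have h3 : |(n.1 : ℝ)| ^ 2 = (n.1 : ℝ) ^ 2 := sq_abs _
    have h4 : (|(n.1 : ℝ)| / 2) ^ 2 ≤ ‖xx n‖ ^ 2 := by
      rw [h, div_pow, h3]
      nlinarith [sq_nonneg ((n.2 : ℝ) + n.1 / 4), sq_nonneg (n.1 : ℝ)]
    exact (sq_le_sq₀ (by positivity) h0).1 h4

lemma LSumm_cube : Summable (fun n : ℤ × ℤ => ‖n‖ ^ (-3 : ℝ)) := by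
  have h := EisensteinSeries.summable_one_div_norm_rpow (k := 3) (by norm_num)
  rw [← (finTwoArrowEquiv ℤ).symm.summable_iff] at h
  refine h.congr fun n => ?_
  have e : ‖(finTwoArrowEquiv ℤ).symm n‖ = ‖n‖ := by
    rw [EisensteinSeries.norm_eq_max_natAbs, Prod.norm_def, Int.norm_eq_abs, Int.norm_eq_abs]
    simp [Nat.cast_natAbs]
  rw [Function.comp_apply, e]

theorem summ3 : Summable (fun n : ℤ × ℤ => 1 / ‖xx n‖ ^ 3) := by
  refine Summable.of_nonneg_of_le (fun n => by positivity) (fun n => ?_) (LSumm_cube.mul_left 8)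
  by_cases hn : n = 0
  · subst hn
    rw [xx_zero, norm_zero]
    simp
  · have h1 := LSumm_norm_le n
    have h2 : 0 < ‖n‖ := norm_pos_iff.2 hn
    have h3 : (‖n‖ / 2) ^ 3 ≤ ‖xx n‖ ^ 3 := pow_le_pow_left₀ (by positivity) h1 3
    have h4 : ‖n‖ ^ (-3 : ℝ) = 1 / ‖n‖ ^ 3 := by
      rw [Real.rpow_neg h2.le, one_div]
      congr 1
      exact_mod_cast Real.rpow_natCast ‖n‖ 3
    rw [h4]
    calc 1 / ‖xx n‖ ^ 3 ≤ 1 / (‖n‖ / 2) ^ 3 := one_div_le_one_div_of_le (by positivity) h3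
      _ = 8 * (1 / ‖n‖ ^ 3) := by
        field_simp
        norm_num

/-- multiplication in `O` -/
def LSumm_ml (a n : ℤ × ℤ) : ℤ × ℤ :=
  (a.1 * n.1 - 2 * (a.2 * n.2), a.1 * n.2 + a.2 * n.1 + a.2 * n.2)

lemma LSumm_xx_ml (a n : ℤ × ℤ) : xx (LSumm_ml a n) = xx a * xx n := by
  rw [xx_def, xx_def, xx_def, LSumm_ml]
  push_cast
  linear_combination -((a.2 : ℂ) * n.2) * om_sq

/-- the index of the value of a linear form -/
def LSumm_ix (a b : ℤ × ℤ) (q : (ℤ × ℤ) × (ℤ × ℤ)) : ℤ × ℤ :=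
  LSumm_ml a q.1 + LSumm_ml b q.2

lemma LSumm_xx_ix (a b : ℤ × ℤ) (q : (ℤ × ℤ) × (ℤ × ℤ)) : xx (LSumm_ix a b q) = LF a b q := by
  rw [LSumm_ix, xx_add, LSumm_xx_ml, LSumm_xx_ml, LF]

lemma LSumm_inj {a b c d : ℤ × ℤ} (h : xx a * xx d - xx b * xx c ≠ 0) :
    Function.Injective (fun q : (ℤ × ℤ) × (ℤ × ℤ) => (LSumm_ix a b q, LSumm_ix c d q)) := by
  intro q r hqr
  have h1 : LSumm_ix a b q = LSumm_ix a b r := congrArg Prod.fst hqr
  have h2 : LSumm_ix c d q = LSumm_ix c d r := congrArg Prod.snd hqr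
  have e1 := congrArg xx h1
  have e2 := congrArg xx h2
  rw [LSumm_xx_ix, LSumm_xx_ix, LF, LF] at e1 e2
  have k1 : (xx a * xx d - xx b * xx c) * (xx q.1 - xx r.1) = 0 := by
    linear_combination xx d * e1 - xx b * e2
  have k2 : (xx a * xx d - xx b * xx c) * (xx q.2 - xx r.2) = 0 := by
    linear_combination xx a * e2 - xx c * e1
  have k3 := (mul_eq_zero.1 k1).resolve_left h
  have k4 := (mul_eq_zero.1 k2).resolve_left h
  exact Prod.ext (xx_inj (sub_eq_zero.1 k3)) (xx_inj (sub_eq_zero.1 k4))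

theorem summ33 {a b c d : ℤ × ℤ} (h : xx a * xx d - xx b * xx c ≠ 0) :
    Summable (fun q : (ℤ × ℤ) × (ℤ × ℤ) => 1 / (‖LF a b q‖ ^ 3 * ‖LF c d q‖ ^ 3)) := by
  have h1 : Summable (fun p : (ℤ × ℤ) × (ℤ × ℤ) => 1 / ‖xx p.1‖ ^ 3 * (1 / ‖xx p.2‖ ^ 3)) :=
    Summable.mul_of_nonneg summ3 summ3 (fun n => by positivity) (fun n => by positivity)
  have h2 := h1.comp_injective (LSumm_inj h)
  refine h2.congr fun q => ?_
  simp only [Function.comp_apply]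
  rw [LSumm_xx_ix, LSumm_xx_ix, one_div_mul_one_div]

lemma LSumm_321 {x y z : ℝ} (hx : 0 ≤ x) (hy : 0 ≤ y) (hz : 0 ≤ z) :
    1 / (x ^ 3 * y ^ 2 * z) ≤ 1 / (x ^ 3 * y ^ 3) + 1 / (x ^ 3 * z ^ 3) := by
  have p1 : 0 ≤ 1 / (x ^ 3 * y ^ 3) := by positivity
  have p2 : 0 ≤ 1 / (x ^ 3 * z ^ 3) := by positivity
  rcases hx.eq_or_lt with hx0 | hx0
  · rw [← hx0]
    simp
  rcases hy.eq_or_lt with hy0 | hy0
  · rw [← hy0]
    simp only [ne_eq, OfNat.ofNat_ne_zero, not_false_eq_true, zero_pow, mul_zero, zero_mul,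
      div_zero, zero_add]
    exact p2
  rcases hz.eq_or_lt with hz0 | hz0
  · rw [← hz0]
    simp only [ne_eq, OfNat.ofNat_ne_zero, not_false_eq_true, zero_pow, mul_zero,
      div_zero, add_zero]
    exact p1
  rcases le_total y z with h | h
  · refine le_add_of_le_of_nonneg (one_div_le_one_div_of_le (by positivity) ?_) p2
    have : x ^ 3 * y ^ 3 = x ^ 3 * y ^ 2 * y := by ring
    rw [this]
    exact mul_le_mul_of_nonneg_left h (by positivity)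
  · refine le_add_of_nonneg_of_le p1 (one_div_le_one_div_of_le (by positivity) ?_)
    have h2 : z ^ 2 ≤ y ^ 2 := pow_le_pow_left₀ hz h 2
    calc x ^ 3 * z ^ 3 = x ^ 3 * z ^ 2 * z := by ring
      _ ≤ x ^ 3 * y ^ 2 * z := by gcongr

lemma LSumm_222 {x y z : ℝ} (hx : 0 ≤ x) (hy : 0 ≤ y) (hz : 0 ≤ z) :
    1 / (x ^ 2 * y ^ 2 * z ^ 2) ≤
      1 / (x ^ 3 * y ^ 3) + 1 / (x ^ 3 * z ^ 3) + 1 / (y ^ 3 * z ^ 3) := by
  have p1 : 0 ≤ 1 / (x ^ 3 * y ^ 3) := by positivity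
  have p2 : 0 ≤ 1 / (x ^ 3 * z ^ 3) := by positivity
  have p3 : 0 ≤ 1 / (y ^ 3 * z ^ 3) := by positivity
  rcases hx.eq_or_lt with hx0 | hx0
  · rw [← hx0] at p1 p2 ⊢
    have : 1 / ((0:ℝ) ^ 2 * y ^ 2 * z ^ 2) = 0 := by simp
    rw [this]
    positivity
  rcases hy.eq_or_lt with hy0 | hy0
  · rw [← hy0] at p1 p3 ⊢
    have : 1 / (x ^ 2 * (0:ℝ) ^ 2 * z ^ 2) = 0 := by simp
    rw [this]
    positivity
  rcases hz.eq_or_lt with hz0 | hz0
  · rw [← hz0] at p2 p3 ⊢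
    have : 1 / (x ^ 2 * y ^ 2 * (0:ℝ) ^ 2) = 0 := by simp
    rw [this]
    positivity
  have key : ∀ u v w : ℝ, 0 < u → 0 < v → 0 < w → u ≤ w → v ≤ w →
      1 / (u ^ 2 * v ^ 2 * w ^ 2) ≤ 1 / (u ^ 3 * v ^ 3) := by
    intro u v w hu hv hw h1 h2
    refine one_div_le_one_div_of_le (by positivity) ?_
    have h3 : u * v ≤ w * w := mul_le_mul h1 h2 hv.le hw.le
    calc u ^ 3 * v ^ 3 = u ^ 2 * v ^ 2 * (u * v) := by ring
      _ ≤ u ^ 2 * v ^ 2 * (w * w) := mul_le_mul_of_nonneg_left h3 (by positivity)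
      _ = u ^ 2 * v ^ 2 * w ^ 2 := by ring
  rcases le_total x y with h1 | h1
  · rcases le_total y z with h2 | h2
    · have := key x y z hx0 hy0 hz0 (h1.trans h2) h2
      linarith
    · have := key x z y hx0 hz0 hy0 h1 h2
      have e : x ^ 2 * y ^ 2 * z ^ 2 = x ^ 2 * z ^ 2 * y ^ 2 := by ring
      rw [e]
      linarith
  · rcases le_total x z with h2 | h2
    · have := key x y z hx0 hy0 hz0 h2 (h1.trans h2)
      linarith
    · have := key y z x hy0 hz0 hx0 h1 h2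
      have e : x ^ 2 * y ^ 2 * z ^ 2 = y ^ 2 * z ^ 2 * x ^ 2 := by ring
      rw [e]
      linarith

lemma LSumm_3111 {x y z t : ℝ} (hx : 0 ≤ x) (hy : 0 ≤ y) (hz : 0 ≤ z) (ht : 0 ≤ t) :
    1 / (x ^ 3 * y * z * t) ≤
      1 / (x ^ 3 * y ^ 3) + 1 / (x ^ 3 * z ^ 3) + 1 / (x ^ 3 * t ^ 3) := by
  have p1 : 0 ≤ 1 / (x ^ 3 * y ^ 3) := by positivity
  have p2 : 0 ≤ 1 / (x ^ 3 * z ^ 3) := by positivity
  have p3 : 0 ≤ 1 / (x ^ 3 * t ^ 3) := by positivity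
  have z0 : ∀ w : ℝ, w = 0 → 1 / w ≤ 1 / (x ^ 3 * y ^ 3) + 1 / (x ^ 3 * z ^ 3)
      + 1 / (x ^ 3 * t ^ 3) := by
    intro w hw
    rw [hw, div_zero]
    positivity
  rcases hx.eq_or_lt with hx0 | hx0
  · exact z0 _ (by rw [← hx0]; ring)
  rcases hy.eq_or_lt with hy0 | hy0
  · exact z0 _ (by rw [← hy0]; ring)
  rcases hz.eq_or_lt with hz0 | hz0
  · exact z0 _ (by rw [← hz0]; ring)
  rcases ht.eq_or_lt with ht0 | ht0
  · exact z0 _ (by rw [← ht0]; ring)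
  have key : ∀ u v w : ℝ, 0 < u → 0 < v → 0 < w → u ≤ v → u ≤ w →
      1 / (x ^ 3 * (u * v * w)) ≤ 1 / (x ^ 3 * u ^ 3) := by
    intro u v w hu hv hw h1 h2
    refine one_div_le_one_div_of_le (by positivity) ?_
    refine mul_le_mul_of_nonneg_left ?_ (by positivity)
    calc u ^ 3 = u * u * u := by ring
      _ ≤ u * v * w := by gcongr
  rcases le_total y z with h1 | h1
  · rcases le_total y t with h2 | h2
    · have := key y z t hy0 hz0 ht0 h1 h2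
      have e : x ^ 3 * y * z * t = x ^ 3 * (y * z * t) := by ring
      rw [e]
      linarith
    · have := key t y z ht0 hy0 hz0 h2 (h2.trans h1)
      have e : x ^ 3 * y * z * t = x ^ 3 * (t * y * z) := by ring
      rw [e]
      linarith
  · rcases le_total z t with h2 | h2
    · have := key z y t hz0 hy0 ht0 h1 h2
      have e : x ^ 3 * y * z * t = x ^ 3 * (z * y * t) := by ring
      rw [e]
      linarith
    · have := key t y z ht0 hy0 hz0 (h2.trans h1) h2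
      have e : x ^ 3 * y * z * t = x ^ 3 * (t * y * z) := by ring
      rw [e]
      linarith

theorem summ321 {a b c d e f : ℤ × ℤ} (h1 : xx a * xx d - xx b * xx c ≠ 0)
    (h2 : xx a * xx f - xx b * xx e ≠ 0) :
    Summable (fun q : (ℤ × ℤ) × (ℤ × ℤ) =>
      1 / (‖LF a b q‖ ^ 3 * ‖LF c d q‖ ^ 2 * ‖LF e f q‖)) :=
  Summable.of_nonneg_of_le (fun q => by positivity)
    (fun q => LSumm_321 (norm_nonneg _) (norm_nonneg _) (norm_nonneg _))
    ((summ33 h1).add (summ33 h2))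

theorem summ222 {a b c d e f : ℤ × ℤ} (h1 : xx a * xx d - xx b * xx c ≠ 0)
    (h2 : xx a * xx f - xx b * xx e ≠ 0) (h3 : xx c * xx f - xx d * xx e ≠ 0) :
    Summable (fun q : (ℤ × ℤ) × (ℤ × ℤ) =>
      1 / (‖LF a b q‖ ^ 2 * ‖LF c d q‖ ^ 2 * ‖LF e f q‖ ^ 2)) :=
  Summable.of_nonneg_of_le (fun q => by positivity)
    (fun q => LSumm_222 (norm_nonneg _) (norm_nonneg _) (norm_nonneg _))
    (((summ33 h1).add (summ33 h2)).add (summ33 h3))

theorem summ3111 {a b c d e f g h : ℤ × ℤ} (h1 : xx a * xx d - xx b * xx c ≠ 0)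
    (h2 : xx a * xx f - xx b * xx e ≠ 0) (h3 : xx a * xx h - xx b * xx g ≠ 0) :
    Summable (fun q : (ℤ × ℤ) × (ℤ × ℤ) =>
      1 / (‖LF a b q‖ ^ 3 * ‖LF c d q‖ * ‖LF e f q‖ * ‖LF g h q‖)) :=
  Summable.of_nonneg_of_le (fun q => by positivity)
    (fun q => LSumm_3111 (norm_nonneg _) (norm_nonneg _) (norm_nonneg _) (norm_nonneg _))
    (((summ33 h1).add (summ33 h2)).add (summ33 h3))

/-- the sum `EE` converges -/
theorem summ_EE : Summable (fun n : ℤ × ℤ => 1 / (xx n ^ 2 * cj (xx n) ^ 4)) := by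
  refine Summable.of_norm_bounded summ3 fun n => ?_
  rw [norm_div, norm_one, norm_mul, norm_pow, norm_pow, norm_cj]
  by_cases hn : n = 0
  · subst hn
    rw [xx_zero, norm_zero]
    simp
  · have h1 := one_le_norm_xx hn
    refine one_div_le_one_div_of_le (by positivity) ?_
    calc ‖xx n‖ ^ 3 ≤ ‖xx n‖ ^ 6 := pow_le_pow_right₀ h1 (by norm_num)
      _ = ‖xx n‖ ^ 2 * ‖xx n‖ ^ 4 := by ring

/-- the sums `SS (xx a) (xx b)` converge absolutely -/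
theorem summ_KK {a b : ℤ × ℤ} (ha : a ≠ 0) (hb : b ≠ 0) :
    Summable (fun q : (ℤ × ℤ) × (ℤ × ℤ) => KK (xx a * xx q.1) (xx b * xx q.2)) := by
  have ha' : xx a ≠ 0 := fun h => ha (xx_eq_zero.1 h)
  have hb' : xx b ≠ 0 := fun h => hb (xx_eq_zero.1 h)
  have hab : xx a * xx b ≠ 0 := mul_ne_zero ha' hb'
  have h := summ321 (a := a) (b := 0) (c := 0) (d := b) (e := -a) (f := b)
    (by rw [xx_zero]; simpa using hab) (by rw [xx_zero]; simpa using hab)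
  refine Summable.of_norm_bounded h fun q => ?_
  have e1 : LF a 0 q = xx a * xx q.1 := by rw [LF, xx_zero]; ring
  have e2 : LF 0 b q = xx b * xx q.2 := by rw [LF, xx_zero]; ring
  have e3 : LF (-a) b q = xx b * xx q.2 - xx a * xx q.1 := by rw [LF, xx_neg]; ring
  rw [e1, e2, e3, KK, ← cj_sub, norm_div, norm_one, norm_mul, norm_mul, norm_mul, norm_mul,
    norm_pow, norm_cj, norm_cj, norm_cj]
  refine le_of_eq ?_
  congr 1
  ring

end EE7
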