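import Mathlib
import Pool.Agent.EE7.LSumm
import Pool.Agent.EllSch.Fix.Legendre

/-!
# EE7/LF0: the regularised sum `Σ (-1)^(n.2) / |xx n|² = 0`

`gg n = 1/(xx n · conj (xx n))` (`= 0` at `n = 0`).

PROOF. (1) SHIFT LEMMA. For `c, l ∈ O`: `Σ_m (gg (2m + c + 2l) - gg (2m + c)) = 0` (absolutely
convergent: the terms are `O(|m|⁻³)`). It is enough for `l = (1,0)` and `l = (0,1)` (the rest by
induction / composition). For `l = (1, 0)`: sum first over `m.1` (Fubini `tsum_prod`): the inner sum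
telescopes (`gg → 0` at `±∞`; the lemma `tele` in `Pool/Agent/EllSch/Fix/Legendre.lean`), same for
`(0,1)`. So the symbol `[c] - [c'] := Σ_m (gg (2m + c) - gg (2m + c'))` only depends on the
classes of `c, c'` mod `2 O`, and is additive.
(2) SCALING: `gg (om · n) = gg n / 2`. With `D := Σ_{λ ∈ ob·O} (gg (λ + 1) - gg λ)`: as
`ob·O = 2O ∪ (ob + 2O)`: `D = ([1] - [0]) + ([ob + 1] - [ob]) = ([1] - [0]) + ([om] - [ob])`
(`ob + 1 = 2 - om ≡ om` mod 2). Multiplying by `om` (`om·ob·O = 2 O`):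
`D/2 = Σ_{λ ∈ ob·O} (gg (om λ + om) - gg (om λ)) = Σ_{μ ∈ 2O} (gg (μ + om) - gg μ) = [om] - [0]`.
(3) For `s` with `s.2` odd, `{m : m.2 even} = 2O ∪ (1 + 2O)` and
`S := Σ_{m.2 even} (gg (s + m) - gg m) = ([s] - [0]) + ([s + 1] - [1])`; mod `2O` the pair
`{s, s+1}` is `{om, ob}` (`ob = 1 - om ≡ 1 + om`), so
`S = ([om] - [0]) + ([ob] - [1]) = D/2 + (([om] - [0]) - D) = D/2 + D/2 - D = 0`
(and the same for the other order, since `[s] + [s+1]` is symmetric).
-/

namespace EE7

open Filter Topology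

/-- `1/|xx n|²` -/
noncomputable def gg (n : ℤ × ℤ) : ℂ := 1 / (xx n * cj (xx n))

lemma LF0_norm_gg (n : ℤ × ℤ) : ‖gg n‖ = 1 / ‖xx n‖ ^ 2 := by
  rw [gg, norm_div, norm_mul, norm_cj, norm_one, sq]

lemma LF0_gg_eq (n : ℤ × ℤ) : gg n = 1 / ((n.1 ^ 2 + n.1 * n.2 + 2 * n.2 ^ 2 : ℤ) : ℂ) := by
  rw [gg, xx_mul_cj]

lemma LF0_aux {x y a : ℝ} (hx : 0 < x) (hy : 0 < y) (h : |x - y| ≤ a) :
    |1 / x ^ 2 - 1 / y ^ 2| ≤ 2 * a * (1 / x ^ 3 + 1 / y ^ 3) := by
  have ha : 0 ≤ a := (abs_nonneg _).trans h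
  have h1 : 1 / x ^ 2 - 1 / y ^ 2 = (y - x) * ((x + y) / (x ^ 2 * y ^ 2)) := by
    field_simp
    ring
  have h2 : (x + y) / (x ^ 2 * y ^ 2) ≤ 2 * (1 / x ^ 3 + 1 / y ^ 3) := by
    rw [div_add_div _ _ (by positivity) (by positivity), ← mul_div_assoc,
      div_le_div_iff₀ (by positivity) (by positivity)]
    have e : 0 ≤ x ^ 2 * y ^ 2 * (2 * (1 * y ^ 3 + x ^ 3 * 1) - (x + y) * (x * y)) := by
      have h4 : 0 ≤ 2 * (1 * y ^ 3 + x ^ 3 * 1) - (x + y) * (x * y) := by
        nlinarith [mul_nonneg (add_pos hx hy).le (sq_nonneg (x - y)), pow_pos hx 3, pow_pos hy 3]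
      positivity
    nlinarith [e]
  rw [h1, abs_mul, abs_of_pos (show 0 < (x + y) / (x ^ 2 * y ^ 2) by positivity), abs_sub_comm]
  calc |x - y| * ((x + y) / (x ^ 2 * y ^ 2)) ≤ a * (2 * (1 / x ^ 3 + 1 / y ^ 3)) :=
        mul_le_mul h h2 (by positivity) ha
    _ = _ := by ring

theorem gg_diff_summable (s : ℤ × ℤ) : Summable (fun m : ℤ × ℤ => gg (s + m) - gg m) := by
  have h1 : Summable (fun m : ℤ × ℤ => 1 / ‖xx (s + m)‖ ^ 3) :=
    summ3.comp_injective (add_right_injective s)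
  have h2 : Summable (fun m : ℤ × ℤ =>
      2 * ‖xx s‖ * (1 / ‖xx (s + m)‖ ^ 3 + 1 / ‖xx m‖ ^ 3)) := (h1.add summ3).mul_left _
  refine Summable.of_norm_bounded_eventually h2 ?_
  have h3 : ∀ᶠ m : ℤ × ℤ in cofinite, m ≠ 0 ∧ m ≠ -s := by
    refine (eventually_cofinite_ne 0).and (eventually_cofinite_ne (-s))
  filter_upwards [h3] with m hm
  have p1 : 0 < ‖xx (s + m)‖ := by
    rw [norm_pos_iff, Ne, xx_eq_zero]
    intro h
    exact hm.2 (eq_neg_of_add_eq_zero_right h)
  have p2 : 0 < ‖xx m‖ := by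
    rw [norm_pos_iff, Ne, xx_eq_zero]
    exact hm.1
  have e : gg (s + m) - gg m = ((1 / ‖xx (s + m)‖ ^ 2 - 1 / ‖xx m‖ ^ 2 : ℝ) : ℂ) := by
    have : ∀ n, gg n = ((1 / ‖xx n‖ ^ 2 : ℝ) : ℂ) := by
      intro n
      rw [gg, cj, Complex.mul_conj, Complex.normSq_eq_norm_sq]
      push_cast
      ring
    rw [this, this]
    push_cast
    ring
  rw [e, Complex.norm_real, Real.norm_eq_abs]
  refine LF0_aux p1 p2 ?_
  have := abs_norm_sub_norm_le (xx (s + m)) (xx m)
  rwa [xx_add, add_sub_cancel_right, ← xx_add] at this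

theorem f0_summable (s : ℤ × ℤ) : Summable (fun m : ℤ × ℤ => ev m * (gg (s + m) - gg m)) := by
  refine Summable.of_norm_bounded (gg_diff_summable s).norm fun m => ?_
  rw [norm_mul]
  unfold ev
  split_ifs
  · rw [norm_one, one_mul]
  · rw [norm_zero, zero_mul]
    exact norm_nonneg _

/-- twice a lattice point -/
def LF0_db (m : ℤ × ℤ) : ℤ × ℤ := (2 * m.1, 2 * m.2)

lemma LF0_db_inj : Function.Injective LF0_db := by
  intro m n h
  simp only [LF0_db, Prod.mk.injEq] at h
  exact Prod.ext (by omega) (by omega)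

lemma LF0_diff (c c' : ℤ × ℤ) :
    Summable (fun m : ℤ × ℤ => gg (LF0_db m + c) - gg (LF0_db m + c')) := by
  have hi : Function.Injective (fun m : ℤ × ℤ => LF0_db m + c') :=
    (add_left_injective c').comp LF0_db_inj
  have := (gg_diff_summable (c - c')).comp_injective hi
  refine this.congr fun m => ?_
  simp only [Function.comp]
  congr 2
  abel

/-- the symbol `[c] - [0]` -/
noncomputable def LF0_br (c : ℤ × ℤ) : ℂ := ∑' m : ℤ × ℤ, (gg (LF0_db m + c) - gg (LF0_db m))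

lemma LF0_br_sub (c c' : ℤ × ℤ) :
    ∑' m : ℤ × ℤ, (gg (LF0_db m + c) - gg (LF0_db m + c')) = LF0_br c - LF0_br c' := by
  have h1 := LF0_diff c 0
  have h2 := LF0_diff c' 0
  simp only [add_zero] at h1 h2
  rw [LF0_br, LF0_br, ← h1.tsum_sub h2]
  refine tsum_congr fun m => ?_
  ring

lemma LF0_tend (c : ℂ) {t : ℂ} (ht : t ≠ 0) :
    Tendsto (fun N : ℕ => 1 / ((c + (N : ℂ) * t) * cj (c + (N : ℂ) * t))) atTop (𝓝 0) := by
  have h1 := Pool.Agent.EllSch.Legendre.inv_tend c ht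
  have h2 : Tendsto (fun N : ℕ => cj (1 / (c + (N : ℂ) * t))) atTop (𝓝 (cj 0)) :=
    (Complex.continuous_conj.tendsto 0).comp h1
  rw [cj_zero] at h2
  have h3 := h1.mul h2
  rw [mul_zero] at h3
  refine h3.congr fun N => ?_
  rw [cj_div, cj_one, div_mul_div_comm, one_mul]

lemma LF0_row (F : ℤ → ℤ × ℤ) (c t : ℂ) (ht : t ≠ 0) (hF : ∀ n : ℤ, xx (F n) = c + (n : ℂ) * t)
    (hs : Summable fun n => gg (F (n + 1)) - gg (F n)) :
    ∑' n, (gg (F (n + 1)) - gg (F n)) = 0 := by
  refine Pool.Agent.EllSch.Legendre.tele (fun n => gg (F n)) hs ?_ ?_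
  · refine (LF0_tend c ht).congr fun N => ?_
    rw [gg, hF]
    push_cast
    rfl
  · refine (LF0_tend c (neg_ne_zero.2 ht)).congr fun N => ?_
    rw [gg, hF]
    push_cast
    rw [mul_neg, neg_mul]

lemma LF0_shift2 (c : ℤ × ℤ) : LF0_br (c + (0, 2)) = LF0_br c := by
  have h := LF0_br_sub (c + (0, 2)) c
  have hs := LF0_diff (c + (0, 2)) c
  have h0 : ∑' m : ℤ × ℤ, (gg (LF0_db m + (c + (0, 2))) - gg (LF0_db m + c)) = 0 := by
    rw [hs.tsum_prod]
    refine (tsum_congr fun a => ?_).trans tsum_zero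
    have hr := LF0_row (fun n => LF0_db (a, n) + c) (xx (2 * a, 0) + xx c) (2 * om)
      (mul_ne_zero two_ne_zero om_ne_zero) (fun n => by
        rw [xx_add]
        simp only [LF0_db, xx_def]
        push_cast
        ring) ?_
    · refine (tsum_congr fun n => ?_).trans hr
      congr 2
      simp only [LF0_db, Prod.ext_iff, Prod.fst_add, Prod.snd_add]
      constructor <;> ring
    · refine (hs.prod_factor a).congr fun n => ?_
      congr 2
      simp only [LF0_db, Prod.ext_iff, Prod.fst_add, Prod.snd_add]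
      constructor <;> ring
  rw [h0] at h
  exact (sub_eq_zero.1 h.symm)

lemma LF0_shift1 (c : ℤ × ℤ) : LF0_br (c + (2, 0)) = LF0_br c := by
  have h := LF0_br_sub (c + (2, 0)) c
  have hs := LF0_diff (c + (2, 0)) c
  have hs' := (Equiv.prodComm ℤ ℤ).summable_iff.2 hs
  have h0 : ∑' m : ℤ × ℤ, (gg (LF0_db m + (c + (2, 0))) - gg (LF0_db m + c)) = 0 := by
    rw [← (Equiv.prodComm ℤ ℤ).tsum_eq]
    refine Eq.trans hs'.tsum_prod ?_
    refine (tsum_congr fun a => ?_).trans tsum_zero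
    have hr := LF0_row (fun n => LF0_db (n, a) + c) (xx (0, 2 * a) + xx c) 2
      two_ne_zero (fun n => by
        rw [xx_add]
        simp only [LF0_db, xx_def]
        push_cast
        ring) ?_
    · refine (tsum_congr fun n => ?_).trans hr
      simp only [Function.comp, Equiv.prodComm_apply, Prod.swap_prod_mk]
      congr 2
      simp only [LF0_db, Prod.ext_iff, Prod.fst_add, Prod.snd_add]
      constructor <;> ring
    · refine (hs'.prod_factor a).congr fun n => ?_
      simp only [Function.comp, Equiv.prodComm_apply, Prod.swap_prod_mk]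
      congr 2
      simp only [LF0_db, Prod.ext_iff, Prod.fst_add, Prod.snd_add]
      constructor <;> ring
  rw [h0] at h
  exact (sub_eq_zero.1 h.symm)

lemma LF0_shift (c : ℤ × ℤ) (k l : ℤ) : LF0_br (c + (2 * k, 2 * l)) = LF0_br c := by
  have h1 : ∀ k : ℤ, LF0_br (c + (2 * k, 0)) = LF0_br c := by
    intro k
    induction k using Int.induction_on with
    | zero =>
      congr 1
      simp [Prod.ext_iff]
    | succ i ih =>
      rw [← ih, ← LF0_shift1 (c + (2 * (i : ℤ), 0))]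
      congr 1
      simp only [Prod.ext_iff, Prod.fst_add, Prod.snd_add]
      constructor <;> ring
    | pred i ih =>
      rw [← ih, ← LF0_shift1 (c + (2 * (-(i : ℤ) - 1), 0))]
      congr 1
      simp only [Prod.ext_iff, Prod.fst_add, Prod.snd_add]
      constructor <;> ring
  have h2 : ∀ (c : ℤ × ℤ) (l : ℤ), LF0_br (c + (0, 2 * l)) = LF0_br c := by
    intro c l
    induction l using Int.induction_on with
    | zero =>
      congr 1
      simp [Prod.ext_iff]
    | succ i ih =>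
      rw [← ih, ← LF0_shift2 (c + (0, 2 * (i : ℤ)))]
      congr 1
      simp only [Prod.ext_iff, Prod.fst_add, Prod.snd_add]
      constructor <;> ring
    | pred i ih =>
      rw [← ih, ← LF0_shift2 (c + (0, 2 * (-(i : ℤ) - 1)))]
      congr 1
      simp only [Prod.ext_iff, Prod.fst_add, Prod.snd_add]
      constructor <;> ring
  rw [← h1 k, ← h2 (c + (2 * k, 0)) l]
  congr 1
  simp only [Prod.ext_iff, Prod.fst_add, Prod.snd_add]
  constructor <;> ring

/-- splitting by the parity of the first coordinate -/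
lemma LF0_split {G : ℤ × ℤ → ℂ} (hG : Summable G) :
    ∑' m, G m = ∑' p : ℤ × ℤ, G (2 * p.1, p.2) + ∑' p : ℤ × ℤ, G (2 * p.1 + 1, p.2) := by
  have i1 : Function.Injective (fun p : ℤ × ℤ => ((2 * p.1, p.2) : ℤ × ℤ)) := by
    intro p q h
    simp only [Prod.mk.injEq] at h
    exact Prod.ext (by omega) (by omega)
  have i2 : Function.Injective (fun p : ℤ × ℤ => ((2 * p.1 + 1, p.2) : ℤ × ℤ)) := by
    intro p q h
    simp only [Prod.mk.injEq] at h
    exact Prod.ext (by omega) (by omega)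
  have hc : IsCompl (Set.range (fun p : ℤ × ℤ => ((2 * p.1, p.2) : ℤ × ℤ)))
      (Set.range (fun p : ℤ × ℤ => ((2 * p.1 + 1, p.2) : ℤ × ℤ))) := by
    refine IsCompl.of_eq ?_ ?_
    · rw [Set.bot_eq_empty, Set.eq_empty_iff_forall_notMem]
      rintro ⟨a, b⟩ ⟨⟨p, hp⟩, ⟨q, hq⟩⟩
      simp only [Prod.mk.injEq] at hp hq
      omega
    · rw [Set.top_eq_univ, Set.eq_univ_iff_forall]
      rintro ⟨a, b⟩
      rcases Int.even_or_odd' a with ⟨k, h | h⟩
      · left
        exact ⟨(k, b), by rw [h]⟩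
      · right
        exact ⟨(k, b), by rw [h]⟩
  have a1 := (hG.comp_injective i1).hasSum
  have a2 := (hG.comp_injective i2).hasSum
  rw [← i1.hasSum_range_iff] at a1
  rw [← i2.hasSum_range_iff] at a2
  exact (a1.add_isCompl hc a2).tsum_eq

/-- `om · n` -/
lemma LF0_scale (n : ℤ × ℤ) : gg (-2 * n.2, n.1 + n.2) = gg n / 2 := by
  rw [LF0_gg_eq, LF0_gg_eq, div_div]
  congr 1
  push_cast
  ring

/-- `D = 2 ([om] - [0])` and `D = [1] + [om] - [1 + om] - [0]` -/
lemma LF0_rel : LF0_br (1, 0) = LF0_br (0, 1) + LF0_br (1, 1) := by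
  let G : ℤ × ℤ → ℂ := fun m =>
    gg ((m.1 + 2 * m.2, -m.1) + (1, 0)) - gg (m.1 + 2 * m.2, -m.1)
  have hi : Function.Injective (fun m : ℤ × ℤ => ((m.1 + 2 * m.2, -m.1) : ℤ × ℤ)) := by
    intro p q h
    simp only [Prod.mk.injEq] at h
    exact Prod.ext (by omega) (by omega)
  have hG : Summable G := by
    refine ((gg_diff_summable (1, 0)).comp_injective hi).congr fun m => ?_
    simp only [Function.comp, G]
    rw [add_comm (1, 0)]
  have e1 : ∑' m, G m = 2 * LF0_br (0, 1) := by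
    rw [LF0_br, ← tsum_mul_left]
    refine tsum_congr fun m => ?_
    have h1 := LF0_scale ((m.1 + 2 * m.2, -m.1) + (1, 0))
    have h2 := LF0_scale (m.1 + 2 * m.2, -m.1)
    have e : ∀ z : ℂ, z = 2 * (z / 2) := fun z => by ring
    rw [show G m = gg ((m.1 + 2 * m.2, -m.1) + (1, 0)) - gg (m.1 + 2 * m.2, -m.1) from rfl,
      e (gg ((m.1 + 2 * m.2, -m.1) + (1, 0))), e (gg (m.1 + 2 * m.2, -m.1)), ← h1, ← h2, ← mul_sub]
    congr 3
    · simp only [LF0_db, Prod.ext_iff, Prod.fst_add, Prod.snd_add]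
      constructor <;> ring
    · simp only [LF0_db, Prod.ext_iff]
      constructor <;> ring
  have e2 : ∑' m, G m = LF0_br (1, 0) + (LF0_br (2, -1) - LF0_br (1, -1)) := by
    rw [LF0_split hG]
    have j : Function.Bijective (fun p : ℤ × ℤ => ((p.1 + p.2, -p.1) : ℤ × ℤ)) := by
      constructor
      · intro p q h
        simp only [Prod.mk.injEq] at h
        exact Prod.ext (by omega) (by omega)
      · rintro ⟨a, b⟩
        exact ⟨(-b, a + b), by simp⟩
    congr 1
    · rw [LF0_br, ← (Equiv.ofBijective _ j).tsum_eq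
        (fun m => gg (LF0_db m + (1, 0)) - gg (LF0_db m))]
      refine tsum_congr fun p => ?_
      simp only [G, Equiv.ofBijective_apply, LF0_db]
      congr 2 <;>
      · simp only [Prod.ext_iff, Prod.fst_add, Prod.snd_add]
        constructor <;> ring
    · rw [← LF0_br_sub, ← (Equiv.ofBijective _ j).tsum_eq
        (fun m => gg (LF0_db m + (2, -1)) - gg (LF0_db m + (1, -1)))]
      refine tsum_congr fun p => ?_
      simp only [G, Equiv.ofBijective_apply, LF0_db]
      congr 2 <;>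
      · simp only [Prod.ext_iff, Prod.fst_add, Prod.snd_add]
        constructor <;> ring
  have s1 : LF0_br (2, -1) = LF0_br (0, 1) := by
    have := LF0_shift (0, 1) 1 (-1)
    rw [← this]
    congr 1
  have s2 : LF0_br (1, -1) = LF0_br (1, 1) := by
    have := LF0_shift (1, 1) 0 (-1)
    rw [← this]
    congr 1
  rw [s1, s2, e1] at e2
  linear_combination -e2

lemma LF0_pair {s : ℤ × ℤ} (hs : ¬ Even s.2) :
    LF0_br s + LF0_br (s + (1, 0)) = LF0_br (0, 1) + LF0_br (1, 1) := by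
  obtain ⟨l, hl⟩ : ∃ l, s.2 = 2 * l + 1 := (Int.not_even_iff_odd.1 hs)
  rcases Int.even_or_odd' s.1 with ⟨k, h | h⟩
  · have h1 := LF0_shift (0, 1) k l
    have h2 := LF0_shift (1, 1) k l
    rw [← h1, ← h2]
    congr 2
    · simp only [Prod.ext_iff, Prod.fst_add, Prod.snd_add]
      constructor <;> omega
    · simp only [Prod.ext_iff, Prod.fst_add, Prod.snd_add]
      constructor <;> omega
  · have h1 := LF0_shift (0, 1) (k + 1) l
    have h2 := LF0_shift (1, 1) k l
    rw [← h1, ← h2, add_comm (LF0_br s)]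
    congr 2
    · simp only [Prod.ext_iff, Prod.fst_add, Prod.snd_add]
      constructor <;> omega
    · simp only [Prod.ext_iff, Prod.fst_add, Prod.snd_add]
      constructor <;> omega

theorem f0 {s : ℤ × ℤ} (hs : ¬ Even s.2) :
    ∑' m : ℤ × ℤ, ev m * (gg (s + m) - gg m) = 0 := by
  let G : ℤ × ℤ → ℂ := fun p => gg (s + (p.1, 2 * p.2)) - gg (p.1, 2 * p.2)
  have hi : Function.Injective (fun p : ℤ × ℤ => ((p.1, 2 * p.2) : ℤ × ℤ)) := by
    intro p q h
    simp only [Prod.mk.injEq] at h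
    exact Prod.ext (by omega) (by omega)
  have hG : Summable G := (gg_diff_summable s).comp_injective hi
  have e0 : ∑' m : ℤ × ℤ, ev m * (gg (s + m) - gg m) = ∑' p, G p := by
    rw [← hi.tsum_eq]
    · refine tsum_congr fun p => ?_
      simp only [G]
      rw [ev, if_pos (by simp), one_mul]
    · intro m hm
      by_contra hc
      apply hm
      have : ¬ Even m.2 := by
        intro h
        obtain ⟨k, hk⟩ := h
        exact hc ⟨(m.1, k), Prod.ext rfl (by simp only; omega)⟩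
      simp only [ev, if_neg this, zero_mul]
  rw [e0, LF0_split hG]
  have e1 : ∑' p : ℤ × ℤ, G (2 * p.1, p.2) = LF0_br s := by
    rw [LF0_br]
    refine tsum_congr fun p => ?_
    simp only [G, LF0_db]
    rw [add_comm s]
  have e2 : ∑' p : ℤ × ℤ, G (2 * p.1 + 1, p.2) = LF0_br (s + (1, 0)) - LF0_br (1, 0) := by
    rw [← LF0_br_sub]
    refine tsum_congr fun p => ?_
    simp only [G, LF0_db]
    have a1 : s + (2 * p.1 + 1, 2 * p.2) = (2 * p.1, 2 * p.2) + (s + (1, 0)) := by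
      simp only [Prod.ext_iff, Prod.fst_add, Prod.snd_add]
      constructor <;> ring
    have a2 : ((2 * p.1 + 1, 2 * p.2) : ℤ × ℤ) = (2 * p.1, 2 * p.2) + (1, 0) := by
      simp [Prod.ext_iff]
    rw [a1, a2]
  rw [e1, e2]
  linear_combination LF0_pair hs - LF0_rel

end EE7
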