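import Mathlib
import Pool.Agent.EE7.LSumm

/-!
# EE7/LSwap: scaling and exchange relations of `SS`

PROOF. *Scaling*: `KK (c s) (c l) = KK s l / (c² c̄⁴)` termwise.
*Exchange*: for `s ≠ l`, both nonzero, `KK s l + KK l s = 1/(s s̄² l l̄²)`
(`1/(l̄ - s̄) (1/s̄ - 1/l̄) = 1/(s̄ l̄)`). Hence (reindexing the second sum by `Prod.swap`)
`SS g b + SS b g = Σ_{x, y ≠ 0, g x ≠ b y} 1/(s s̄² l l̄²)`, `s = g x`, `l = b y`,
`= (Σ_x 1/(s s̄²)) (Σ_y 1/(l l̄²)) - Σ_{g x = b y ≠ 0} 1/(s² s̄⁴)`.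
The single sums converge absolutely (`summ3`) and vanish (odd functions). The diagonal:
`g = b = 1`: `EE`. `(om, ob)`: `om x = ob y` iff `x = ob z`, `y = om z` (`om ob = 2`, `om + ob = 1`:
`x = (om + ob) x = ob (y + x)`, ...), `s = 2 z`: `EE/64`. `(om, 1)`: `y = om x`, `s = om x`:
`EE/(om² ob⁴) = (om²/16) EE`. `(ob, 1)`: `(ob²/16) EE`.
(All `om`, `ob`, `1`, `2` are of the form `xx a`: `xx (0,1)`, `xx (1,-1)`, `xx (1,0)`, `xx (2,0)`;
`summ_KK`.)
-/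

namespace EE7

/-- `A s = 1 / (s s̄²)` -/
noncomputable def LSwap_A (s : ℂ) : ℂ := 1 / (s * cj s ^ 2)

/-- the defect in the exchange relation -/
noncomputable def LSwap_G (s l : ℂ) : ℂ := LSwap_A s * LSwap_A l - (KK s l + KK l s)

theorem LSwap_G_self (s : ℂ) : LSwap_G s s = 1 / (s ^ 2 * cj s ^ 4) := by
  unfold LSwap_G KK LSwap_A
  rw [sub_self]
  simp only [mul_zero, div_zero, add_zero, sub_zero]
  rw [one_div_mul_one_div]
  congr 1
  ring

theorem LSwap_G_ne {s l : ℂ} (h : s ≠ l) : LSwap_G s l = 0 := by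
  unfold LSwap_G KK LSwap_A
  by_cases hs : s = 0
  · subst hs
    simp
  by_cases hl : l = 0
  · subst hl
    simp
  have hs' : cj s ≠ 0 := fun h0 => hs (cj_eq_zero.1 h0)
  have hl' : cj l ≠ 0 := fun h0 => hl (cj_eq_zero.1 h0)
  have h1 : cj l - cj s ≠ 0 := by
    intro h0
    rw [← cj_sub] at h0
    exact h (sub_eq_zero.1 (cj_eq_zero.1 h0)).symm
  have h3 : cj s - cj l = -(cj l - cj s) := by ring
  rw [h3]
  generalize cj s = s' at *
  generalize cj l = l' at *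
  field_simp
  ring

theorem LSwap_A_norm (g : ℂ) (n : ℤ × ℤ) :
    ‖LSwap_A (g * xx n)‖ = 1 / ‖g‖ ^ 3 * (1 / ‖xx n‖ ^ 3) := by
  unfold LSwap_A
  rw [norm_div, norm_mul, norm_pow, norm_cj, norm_one, norm_mul]
  rw [one_div_mul_one_div]
  congr 1
  ring

theorem LSwap_A_summ (g : ℂ) : Summable fun n : ℤ × ℤ => ‖LSwap_A (g * xx n)‖ := by
  simp only [LSwap_A_norm]
  exact summ3.mul_left _

theorem LSwap_A_zero (g : ℂ) : ∑' n : ℤ × ℤ, LSwap_A (g * xx n) = 0 := by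
  have h := (Equiv.neg (ℤ × ℤ)).tsum_eq fun n : ℤ × ℤ => LSwap_A (g * xx n)
  have h2 : ∀ n : ℤ × ℤ, LSwap_A (g * xx ((Equiv.neg (ℤ × ℤ)) n)) = -LSwap_A (g * xx n) := by
    intro n
    rw [Equiv.neg_apply, xx_neg]
    unfold LSwap_A
    rw [mul_neg, cj_neg, neg_sq, neg_mul, div_neg]
  simp only [h2] at h
  rw [tsum_neg] at h
  have h3 : (2 : ℂ) * ∑' n : ℤ × ℤ, LSwap_A (g * xx n) = 0 := by
    linear_combination -h
  exact (mul_eq_zero.1 h3).resolve_left two_ne_zero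

theorem LSwap_AA (g b : ℂ) : Summable fun q : (ℤ × ℤ) × (ℤ × ℤ) =>
    LSwap_A (g * xx q.1) * LSwap_A (b * xx q.2) := by
  have h := summable_mul_of_summable_norm (f := fun n : ℤ × ℤ => LSwap_A (g * xx n))
    (g := fun n : ℤ × ℤ => LSwap_A (b * xx n)) (LSwap_A_summ g) (LSwap_A_summ b)
  exact h

theorem LSwap_AA0 (g b : ℂ) :
    ∑' q : (ℤ × ℤ) × (ℤ × ℤ), LSwap_A (g * xx q.1) * LSwap_A (b * xx q.2) = 0 := by
  have h := tsum_mul_tsum_of_summable_norm (f := fun n : ℤ × ℤ => LSwap_A (g * xx n))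
    (g := fun n : ℤ × ℤ => LSwap_A (b * xx n)) (LSwap_A_summ g) (LSwap_A_summ b)
  rw [LSwap_A_zero, zero_mul] at h
  exact h.symm

theorem LSwap_main {a b : ℤ × ℤ} (ha : a ≠ 0) (hb : b ≠ 0)
    {φ : ℤ × ℤ → (ℤ × ℤ) × (ℤ × ℤ)} (hi : Function.Injective φ)
    (h1 : ∀ z, xx a * xx (φ z).1 = xx b * xx (φ z).2)
    (h2 : ∀ q : (ℤ × ℤ) × (ℤ × ℤ), xx a * xx q.1 = xx b * xx q.2 → ∃ z, φ z = q) :
    SS (xx a) (xx b) + SS (xx b) (xx a) =
      -∑' z : ℤ × ℤ, 1 / ((xx a * xx (φ z).1) ^ 2 * cj (xx a * xx (φ z).1) ^ 4) := by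
  have hs1 := summ_KK ha hb
  have hs2 := summ_KK hb ha
  have hs3 : Summable fun q : (ℤ × ℤ) × (ℤ × ℤ) => KK (xx b * xx q.2) (xx a * xx q.1) :=
    (Equiv.prodComm (ℤ × ℤ) (ℤ × ℤ)).summable_iff.2 hs2
  have e2 : SS (xx b) (xx a) = ∑' q : (ℤ × ℤ) × (ℤ × ℤ), KK (xx b * xx q.2) (xx a * xx q.1) :=
    ((Equiv.prodComm (ℤ × ℤ) (ℤ × ℤ)).tsum_eq
      fun q : (ℤ × ℤ) × (ℤ × ℤ) => KK (xx b * xx q.1) (xx a * xx q.2)).symm
  have hA := LSwap_AA (xx a) (xx b)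
  have tA := LSwap_AA0 (xx a) (xx b)
  have tG : ∑' q : (ℤ × ℤ) × (ℤ × ℤ), LSwap_G (xx a * xx q.1) (xx b * xx q.2) =
      -(SS (xx a) (xx b) + SS (xx b) (xx a)) := by
    unfold LSwap_G
    rw [hA.tsum_sub (hs1.add hs3), tA, hs1.tsum_add hs3, e2, zero_sub]
    rfl
  have hsup : Function.support (fun q : (ℤ × ℤ) × (ℤ × ℤ) =>
      LSwap_G (xx a * xx q.1) (xx b * xx q.2)) ⊆ Set.range φ := by
    intro q hq
    by_contra hc
    refine hq (LSwap_G_ne fun h => ?_)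
    obtain ⟨z, hz⟩ := h2 q h
    exact hc ⟨z, hz⟩
  have tF := hi.tsum_eq hsup
  rw [← neg_eq_iff_eq_neg, ← tG, ← tF]
  refine tsum_congr fun z => ?_
  rw [← h1 z, LSwap_G_self]

theorem LSwap_om : om = xx (0, 1) := by
  rw [xx_def]
  simp

theorem LSwap_ob : ob = xx (1, -1) := by
  rw [xx_def, ob]
  push_cast
  ring

theorem LSwap_one : (1 : ℂ) = xx (1, 0) := by
  rw [xx_def]
  simp

theorem LSwap_idx {q : ℤ × ℤ} {z : ℤ × ℤ} (h : xx q = xx z) : q = z := xx_inj h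

theorem SS_scale {c : ℂ} (hc : c ≠ 0) (g b : ℂ) :
    SS (c * g) (c * b) = SS g b / (c ^ 2 * cj c ^ 4) := by
  have hc' : cj c ≠ 0 := fun h0 => hc (cj_eq_zero.1 h0)
  unfold SS
  rw [← tsum_div_const]
  refine tsum_congr fun q => ?_
  unfold KK
  rw [mul_assoc c g, mul_assoc c b, cj_mul c, cj_mul c, div_div]
  congr 1
  ring

theorem swap_11 : SS 1 1 = -(EE / 2) := by
  have h := LSwap_main (a := (1, 0)) (b := (1, 0)) (by simp) (by simp)
    (φ := fun z => (z, z)) (fun x y hxy => (Prod.ext_iff.1 hxy).1) (fun z => rfl)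
    (fun q hq => by
      rw [← LSwap_one, one_mul, one_mul] at hq
      exact ⟨q.1, Prod.ext rfl (xx_inj hq)⟩)
  rw [← LSwap_one] at h
  simp only [one_mul] at h
  have h2 : SS 1 1 + SS 1 1 = -EE := h
  linear_combination h2 / 2

theorem swap_ab : SS om ob + SS ob om = -(EE / 64) := by
  have k1 : ∀ z : ℤ × ℤ, xx (z.1 + 2 * z.2, -z.1) = ob * xx z := fun z => (ob_mul_xx z).symm
  have k2 : ∀ z : ℤ × ℤ, xx (-2 * z.2, z.1 + z.2) = om * xx z := fun z => (om_mul_xx z).symm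
  have h := LSwap_main (a := (0, 1)) (b := (1, -1)) (by simp) (by simp)
    (φ := fun z => ((z.1 + 2 * z.2, -z.1), (-2 * z.2, z.1 + z.2)))
    (fun x y hxy => by
      have h3 := (Prod.ext_iff.1 hxy).1
      have h4 := congrArg xx h3
      simp only [k1] at h4
      exact xx_inj (mul_left_cancel₀ ob_ne_zero h4))
    (fun z => by
      simp only [k1, k2]
      rw [← LSwap_om, ← LSwap_ob]
      ring)
    (fun q hq => by
      rw [← LSwap_om, ← LSwap_ob] at hq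
      refine ⟨q.1 + q.2, Prod.ext (xx_inj ?_) (xx_inj ?_)⟩
      · rw [k1, xx_add]
        linear_combination xx q.1 * om_add_ob - hq
      · rw [k2, xx_add]
        linear_combination xx q.2 * om_add_ob + hq)
  simp only [k1] at h
  rw [← LSwap_om, ← LSwap_ob] at h
  rw [h, EE, ← tsum_div_const]
  congr 1
  refine tsum_congr fun z => ?_
  have h5 : om * (ob * xx z) = 2 * xx z := by
    rw [← mul_assoc, om_mul_ob]
  rw [h5, cj_mul, cj_two, div_div]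
  congr 1
  ring

theorem swap_a1 : SS om 1 + SS 1 om = -(om ^ 2 / 16 * EE) := by
  have k2 : ∀ z : ℤ × ℤ, xx (-2 * z.2, z.1 + z.2) = om * xx z := fun z => (om_mul_xx z).symm
  have h := LSwap_main (a := (0, 1)) (b := (1, 0)) (by simp) (by simp)
    (φ := fun z => (z, (-2 * z.2, z.1 + z.2)))
    (fun x y hxy => (Prod.ext_iff.1 hxy).1)
    (fun z => by
      simp only [k2]
      rw [← LSwap_om, ← LSwap_one, one_mul])
    (fun q hq => by
      rw [← LSwap_om, ← LSwap_one, one_mul] at hq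
      refine ⟨q.1, Prod.ext rfl (xx_inj ?_)⟩
      rw [k2]
      exact hq)
  rw [← LSwap_om, ← LSwap_one] at h
  rw [h, EE, ← tsum_mul_left]
  congr 1
  refine tsum_congr fun z => ?_
  have ho := om_ne_zero
  have hb := ob_ne_zero
  have h16 : (16 : ℂ) = om ^ 4 * ob ^ 4 := by
    rw [← mul_pow, om_mul_ob]
    norm_num
  rw [cj_mul, cj_om, h16, div_mul_div_comm]
  have h6 : om ^ 4 * ob ^ 4 * (xx z ^ 2 * cj (xx z) ^ 4) =
      om ^ 2 * ((om * xx z) ^ 2 * (ob * cj (xx z)) ^ 4) := by ring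
  rw [h6]
  exact (mul_div_mul_left 1 _ (pow_ne_zero 2 ho)).symm

theorem swap_b1 : SS ob 1 + SS 1 ob = -(ob ^ 2 / 16 * EE) := by
  have k1 : ∀ z : ℤ × ℤ, xx (z.1 + 2 * z.2, -z.1) = ob * xx z := fun z => (ob_mul_xx z).symm
  have h := LSwap_main (a := (1, -1)) (b := (1, 0)) (by simp) (by simp)
    (φ := fun z => (z, (z.1 + 2 * z.2, -z.1)))
    (fun x y hxy => (Prod.ext_iff.1 hxy).1)
    (fun z => by
      simp only [k1]
      rw [← LSwap_ob, ← LSwap_one, one_mul])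
    (fun q hq => by
      rw [← LSwap_ob, ← LSwap_one, one_mul] at hq
      refine ⟨q.1, Prod.ext rfl (xx_inj ?_)⟩
      rw [k1]
      exact hq)
  rw [← LSwap_ob, ← LSwap_one] at h
  rw [h, EE, ← tsum_mul_left]
  congr 1
  refine tsum_congr fun z => ?_
  have ho := om_ne_zero
  have hb := ob_ne_zero
  have h16 : (16 : ℂ) = om ^ 4 * ob ^ 4 := by
    rw [← mul_pow, om_mul_ob]
    norm_num
  rw [cj_mul, cj_ob, h16, div_mul_div_comm]
  have h6 : om ^ 4 * ob ^ 4 * (xx z ^ 2 * cj (xx z) ^ 4) =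
      ob ^ 2 * ((ob * xx z) ^ 2 * (om * cj (xx z)) ^ 4) := by ring
  rw [h6]
  exact (mul_div_mul_left 1 _ (pow_ne_zero 2 hb)).symm

end EE7
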