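import Mathlib
import Pool.Agent.EE7.LSumm

/-!
# EE7/LTri: two level one sums

PROOF. Put `y1 = x`, `y2 = -y`, `y3 = y - x` (sum zero), all sums over `q = (x, y) ∈ O²` with
`y1, y2, y3 ≠ 0`; every sum below converges absolutely (`summ321`, `summ222`). The permutations of
`(y1, y2, y3)` are reindexings: exchange of `y1, y2`: `(x, y) ↦ (-y, -x)`; exchange of `y1, y3`:
`(x, y) ↦ (y - x, y)`. Write `[f] = Σ f`.
(1) `a := [1/(y1 y2 ȳ1² ȳ2²)] = EE`: the sum over all `y1, y2 ≠ 0` is a product of two odd sums, `0`,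
and the omitted part `y3 = 0` (`y2 = -y1`) is `Σ -1/(y1² ȳ1⁴) = -EE`.
(2) `b := [1/(y1 y2 ȳ2² ȳ3²)] = -EE/2`: since `1/(y1y2) + 1/(y2y3) + 1/(y3y1) = 0`, multiply by
`1/(ȳ1² ȳ2²)`: `a + 2 b = 0` (both other terms are `b` after a permutation).
(3) `X := [1/(y1 y2 ȳ1 ȳ2 ȳ3²)] = EE`: `1/(ȳ1² ȳ2²) = (1/ȳ3²)(1/ȳ1 + 1/ȳ2)²`, so
`a = 2 b + 2 X`.
(4) `c := [1/(y1 y2 ȳ2 ȳ3³)] = -EE/2`: exchange `1, 2` and average:
`2 c = [(1/(y1 y2)) (1/ȳ1 + 1/ȳ2)/ȳ3³] = -X`.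
Finally the sum in `triB` is `-b` and the sum in `triC` is `c`.
(In Lean terms with vanishing denominators are `0`; in (1) and when the kernel does not contain
all three of `y1, y2, y3` in the denominator, the condition has to be added.)
-/

namespace EE7

/-- exchange of `y1, y2` -/
def LTri_e12 : ((ℤ × ℤ) × (ℤ × ℤ)) ≃ ((ℤ × ℤ) × (ℤ × ℤ)) where
  toFun q := (-q.2, -q.1)
  invFun q := (-q.2, -q.1)
  left_inv q := by simp
  right_inv q := by simp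

/-- exchange of `y1, y3` -/
def LTri_e13 : ((ℤ × ℤ) × (ℤ × ℤ)) ≃ ((ℤ × ℤ) × (ℤ × ℤ)) where
  toFun q := (q.2 - q.1, q.2)
  invFun q := (q.2 - q.1, q.2)
  left_inv q := by simp
  right_inv q := by simp

/-- the sum of a kernel over all `(y1, y2, y3)` -/
noncomputable def LTri_S (K : ℂ → ℂ → ℂ → ℂ) : ℂ :=
  ∑' q : (ℤ × ℤ) × (ℤ × ℤ), K (xx q.1) (-xx q.2) (xx q.2 - xx q.1)

/-- summability of a kernel -/
def LTri_Su (K : ℂ → ℂ → ℂ → ℂ) : Prop :=
  Summable (fun q : (ℤ × ℤ) × (ℤ × ℤ) => K (xx q.1) (-xx q.2) (xx q.2 - xx q.1))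

lemma LTri_perm12 (K : ℂ → ℂ → ℂ → ℂ) : LTri_S (fun a b c => K b a c) = LTri_S K := by
  unfold LTri_S
  rw [← Equiv.tsum_eq LTri_e12]
  refine tsum_congr fun q => ?_
  simp only [LTri_e12, Equiv.coe_fn_mk, xx_neg]
  ring_nf

lemma LTri_perm13 (K : ℂ → ℂ → ℂ → ℂ) : LTri_S (fun a b c => K c b a) = LTri_S K := by
  unfold LTri_S
  rw [← Equiv.tsum_eq LTri_e13]
  refine tsum_congr fun q => ?_
  simp only [LTri_e13, Equiv.coe_fn_mk, xx_sub]
  ring_nf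

lemma LTri_su12 {K : ℂ → ℂ → ℂ → ℂ} (h : LTri_Su K) : LTri_Su (fun a b c => K b a c) := by
  unfold LTri_Su at h ⊢
  rw [← LTri_e12.summable_iff]
  refine h.congr fun q => ?_
  simp only [Function.comp_apply, LTri_e12, Equiv.coe_fn_mk, xx_neg]
  ring_nf

lemma LTri_su13 {K : ℂ → ℂ → ℂ → ℂ} (h : LTri_Su K) : LTri_Su (fun a b c => K c b a) := by
  unfold LTri_Su at h ⊢
  rw [← LTri_e13.summable_iff]
  refine h.congr fun q => ?_
  simp only [Function.comp_apply, LTri_e13, Equiv.coe_fn_mk, xx_sub]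
  ring_nf

lemma LTri_add {K L : ℂ → ℂ → ℂ → ℂ} (hK : LTri_Su K) (hL : LTri_Su L) :
    LTri_S (fun a b c => K a b c + L a b c) = LTri_S K + LTri_S L :=
  Summable.tsum_add hK hL

lemma LTri_congr {K L : ℂ → ℂ → ℂ → ℂ} (h : ∀ a b c, a + b + c = 0 → K a b c = L a b c) :
    LTri_S K = LTri_S L :=
  tsum_congr fun q => h _ _ _ (by ring)

/-! ### the kernels -/

/-- kernel `a` -/
noncomputable def LTri_A (y1 y2 y3 : ℂ) : ℂ :=
  if y3 = 0 then 0 else 1 / (y1 * y2 * cj y1 ^ 2 * cj y2 ^ 2)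

/-- kernel `b` -/
noncomputable def LTri_B (y1 y2 y3 : ℂ) : ℂ := 1 / (y1 * y2 * cj y2 ^ 2 * cj y3 ^ 2)

/-- kernel `X` -/
noncomputable def LTri_X (y1 y2 y3 : ℂ) : ℂ := 1 / (y1 * y2 * cj y1 * cj y2 * cj y3 ^ 2)

/-- kernel `c` -/
noncomputable def LTri_C (y1 y2 y3 : ℂ) : ℂ := 1 / (y1 * y2 * cj y2 * cj y3 ^ 3)

lemma LTri_x10 : xx (1, 0) = 1 := by
  simp [xx_def]

lemma LTri_xm10 : xx (-1, 0) = -1 := by
  simp [xx_def]

lemma LTri_LF1 (q : (ℤ × ℤ) × (ℤ × ℤ)) : LF (1, 0) 0 q = xx q.1 := by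
  rw [LF, LTri_x10, xx_zero]
  ring

lemma LTri_LF2 (q : (ℤ × ℤ) × (ℤ × ℤ)) : LF 0 (1, 0) q = xx q.2 := by
  rw [LF, LTri_x10, xx_zero]
  ring

lemma LTri_LF3 (q : (ℤ × ℤ) × (ℤ × ℤ)) : LF (-1, 0) (1, 0) q = xx q.2 - xx q.1 := by
  rw [LF, LTri_x10, LTri_xm10]
  ring

lemma LTri_suB : LTri_Su LTri_B := by
  have h := summ321 (a := 0) (b := (1, 0)) (c := (-1, 0)) (d := (1, 0)) (e := (1, 0)) (f := 0)
    (by rw [LTri_x10, LTri_xm10, xx_zero]; norm_num) (by rw [LTri_x10, xx_zero]; norm_num)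
  refine Summable.of_norm (h.congr fun q => ?_)
  rw [LTri_LF1, LTri_LF2, LTri_LF3, LTri_B]
  simp only [norm_div, norm_mul, norm_pow, norm_cj, norm_one, norm_neg]
  congr 1
  ring

lemma LTri_suC : LTri_Su LTri_C := by
  have h := summ321 (a := (-1, 0)) (b := (1, 0)) (c := 0) (d := (1, 0)) (e := (1, 0)) (f := 0)
    (by rw [LTri_x10, LTri_xm10, xx_zero]; norm_num)
    (by rw [LTri_x10, LTri_xm10, xx_zero]; norm_num)
  refine Summable.of_norm (h.congr fun q => ?_)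
  rw [LTri_LF1, LTri_LF2, LTri_LF3, LTri_C]
  simp only [norm_div, norm_mul, norm_pow, norm_cj, norm_one, norm_neg]
  congr 1
  ring

lemma LTri_suX : LTri_Su LTri_X := by
  have h := summ222 (a := (1, 0)) (b := 0) (c := 0) (d := (1, 0)) (e := (-1, 0)) (f := (1, 0))
    (by rw [LTri_x10, xx_zero]; norm_num) (by rw [LTri_x10, LTri_xm10, xx_zero]; norm_num)
    (by rw [LTri_x10, LTri_xm10, xx_zero]; norm_num)
  refine Summable.of_norm (h.congr fun q => ?_)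
  rw [LTri_LF1, LTri_LF2, LTri_LF3, LTri_X]
  simp only [norm_div, norm_mul, norm_pow, norm_cj, norm_one, norm_neg]
  congr 1
  ring

lemma LTri_su33 : Summable (fun q : (ℤ × ℤ) × (ℤ × ℤ) =>
    1 / (xx q.1 * -xx q.2 * cj (xx q.1) ^ 2 * cj (-xx q.2) ^ 2)) := by
  have h := summ33 (a := (1, 0)) (b := 0) (c := 0) (d := (1, 0))
    (by rw [LTri_x10, xx_zero]; norm_num)
  refine Summable.of_norm (h.congr fun q => ?_)
  rw [LTri_LF1, LTri_LF2]
  simp only [norm_div, norm_mul, norm_pow, norm_cj, norm_one, norm_neg]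
  congr 1
  ring

lemma LTri_suA : LTri_Su LTri_A := by
  refine Summable.of_norm_bounded LTri_su33.norm fun q => ?_
  rw [LTri_A]
  split_ifs
  · rw [norm_zero]
    exact norm_nonneg _
  · exact le_rfl

/-! ### step 1 -/

lemma LTri_odd : ∑' n : ℤ × ℤ, 1 / (xx n * cj (xx n) ^ 2) = 0 := by
  have h : ∑' n : ℤ × ℤ, 1 / (xx n * cj (xx n) ^ 2)
      = -∑' n : ℤ × ℤ, 1 / (xx n * cj (xx n) ^ 2) := by
    rw [← tsum_neg, ← Equiv.tsum_eq (Equiv.neg (ℤ × ℤ))]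
    refine tsum_congr fun n => ?_
    rw [Equiv.neg_apply, xx_neg, cj_neg]
    rw [show -xx n * (-cj (xx n)) ^ 2 = -(xx n * cj (xx n) ^ 2) by ring, div_neg]
  linear_combination h / 2

lemma LTri_su1 : Summable (fun n : ℤ × ℤ => 1 / (xx n * cj (xx n) ^ 2)) := by
  refine Summable.of_norm (summ3.congr fun n => ?_)
  simp only [norm_div, norm_mul, norm_pow, norm_cj, norm_one]
  congr 1
  ring

lemma LTri_all : ∑' q : (ℤ × ℤ) × (ℤ × ℤ),
    1 / (xx q.1 * -xx q.2 * cj (xx q.1) ^ 2 * cj (-xx q.2) ^ 2) = 0 := by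
  have h := tsum_mul_tsum_of_summable_norm LTri_su1.norm LTri_su1.norm
  rw [LTri_odd, zero_mul] at h
  have h2 : ∑' q : (ℤ × ℤ) × (ℤ × ℤ),
    1 / (xx q.1 * -xx q.2 * cj (xx q.1) ^ 2 * cj (-xx q.2) ^ 2)
      = -∑' q : (ℤ × ℤ) × (ℤ × ℤ),
        1 / (xx q.1 * cj (xx q.1) ^ 2) * (1 / (xx q.2 * cj (xx q.2) ^ 2)) := by
    rw [← tsum_neg]
    refine tsum_congr fun q => ?_
    rw [cj_neg, show xx q.1 * -xx q.2 * cj (xx q.1) ^ 2 * (-cj (xx q.2)) ^ 2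
      = -((xx q.1 * cj (xx q.1) ^ 2) * (xx q.2 * cj (xx q.2) ^ 2)) by ring, div_neg,
      one_div_mul_one_div]
  rw [h2, ← h, neg_zero]

lemma LTri_valA : LTri_S LTri_A = EE := by
  have hd : ∑' q : (ℤ × ℤ) × (ℤ × ℤ), (if q.1 = q.2 then
      1 / (xx q.1 * -xx q.2 * cj (xx q.1) ^ 2 * cj (-xx q.2) ^ 2) else 0) = -EE := by
    have hinj : Function.Injective (fun n : ℤ × ℤ => (n, n)) := fun n m h => by
      simpa using h
    rw [← hinj.tsum_eq]
    · rw [EE, ← tsum_neg]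
      refine tsum_congr fun n => ?_
      simp only [if_true]
      rw [cj_neg, show xx n * -xx n * cj (xx n) ^ 2 * (-cj (xx n)) ^ 2
        = -(xx n ^ 2 * cj (xx n) ^ 4) by ring, div_neg]
    · intro q hq
      rw [Function.mem_support] at hq
      have : q.1 = q.2 := by
        by_contra hne
        exact hq (if_neg hne)
      exact ⟨q.1, Prod.ext rfl this⟩
  have hsd : Summable (fun q : (ℤ × ℤ) × (ℤ × ℤ) => (if q.1 = q.2 then
      1 / (xx q.1 * -xx q.2 * cj (xx q.1) ^ 2 * cj (-xx q.2) ^ 2) else 0)) := by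
    refine Summable.of_norm_bounded LTri_su33.norm fun q => ?_
    split_ifs
    · exact le_rfl
    · rw [norm_zero]
      exact norm_nonneg _
  have h := LTri_all
  have h2 : LTri_S LTri_A = ∑' q : (ℤ × ℤ) × (ℤ × ℤ),
      (1 / (xx q.1 * -xx q.2 * cj (xx q.1) ^ 2 * cj (-xx q.2) ^ 2)
        - (if q.1 = q.2 then
          1 / (xx q.1 * -xx q.2 * cj (xx q.1) ^ 2 * cj (-xx q.2) ^ 2) else 0)) := by
    refine tsum_congr fun q => ?_
    rw [LTri_A]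
    by_cases hq : q.1 = q.2
    · rw [if_pos (by rw [hq, sub_self]), if_pos hq, sub_self]
    · rw [if_neg, if_neg hq, sub_zero]
      intro h0
      exact hq (xx_inj (sub_eq_zero.1 h0)).symm
  rw [h2, LTri_su33.tsum_sub hsd, h, hd]
  ring

/-! ### step 2 -/

lemma LTri_valB : LTri_S LTri_B = -(EE / 2) := by
  -- the three permuted forms
  have s1 : LTri_Su (fun y1 y2 y3 => LTri_B y3 y2 y1) := LTri_su13 LTri_suB
  have s2 : LTri_Su (fun y1 y2 y3 => LTri_B y3 y1 y2) :=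
    LTri_su12 (K := fun y1 y2 y3 => LTri_B y3 y2 y1) s1
  have v1 : LTri_S (fun y1 y2 y3 => LTri_B y3 y2 y1) = LTri_S LTri_B := LTri_perm13 _
  have v2 : LTri_S (fun y1 y2 y3 => LTri_B y3 y1 y2) = LTri_S LTri_B := by
    rw [← v1]
    exact LTri_perm12 (fun y1 y2 y3 => LTri_B y3 y2 y1)
  have h : LTri_S (fun y1 y2 y3 => LTri_A y1 y2 y3 + (LTri_B y3 y2 y1 + LTri_B y3 y1 y2))
      = LTri_S (fun _ _ _ => 0) := by
    refine LTri_congr fun y1 y2 y3 hy => ?_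
    have hw : cj y1 + cj y2 + cj y3 = 0 := by
      rw [← cj_add, ← cj_add, hy, cj_zero]
    simp only [LTri_A, LTri_B]
    by_cases h3 : y3 = 0
    · simp [h3]
    by_cases h1 : y1 = 0
    · simp [h1, cj_zero]
    by_cases h2 : y2 = 0
    · simp [h2, cj_zero]
    rw [if_neg h3]
    have w1 : cj y1 ≠ 0 := fun h => h1 (cj_eq_zero.1 h)
    have w2 : cj y2 ≠ 0 := fun h => h2 (cj_eq_zero.1 h)
    have e3 : y3 = -y1 - y2 := by linear_combination hy
    field_simp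
    linear_combination hy
  have h0 : LTri_S (fun _ _ _ => 0) = 0 := tsum_zero
  rw [h0, LTri_add LTri_suA (show LTri_Su (fun y1 y2 y3 => LTri_B y3 y2 y1 + LTri_B y3 y1 y2)
    from Summable.add s1 s2), LTri_add s1 s2, v1, v2, LTri_valA] at h
  linear_combination h / 2

/-! ### step 3 -/

lemma LTri_valX : LTri_S LTri_X = EE := by
  have s1 : LTri_Su (fun y1 y2 y3 => LTri_B y2 y1 y3) := LTri_su12 LTri_suB
  have v1 : LTri_S (fun y1 y2 y3 => LTri_B y2 y1 y3) = LTri_S LTri_B := LTri_perm12 _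
  have h : LTri_S LTri_A = LTri_S (fun y1 y2 y3 =>
      (LTri_B y1 y2 y3 + LTri_B y2 y1 y3) + (LTri_X y1 y2 y3 + LTri_X y1 y2 y3)) := by
    refine LTri_congr fun y1 y2 y3 hy => ?_
    have hw : cj y1 + cj y2 + cj y3 = 0 := by
      rw [← cj_add, ← cj_add, hy, cj_zero]
    simp only [LTri_A, LTri_B, LTri_X]
    by_cases h3 : y3 = 0
    · simp [h3, cj_zero]
    by_cases h1 : y1 = 0
    · simp [h1, cj_zero]
    by_cases h2 : y2 = 0
    · simp [h2, cj_zero]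
    rw [if_neg h3]
    have w1 : cj y1 ≠ 0 := fun h => h1 (cj_eq_zero.1 h)
    have w2 : cj y2 ≠ 0 := fun h => h2 (cj_eq_zero.1 h)
    have w3 : cj y3 ≠ 0 := fun h => h3 (cj_eq_zero.1 h)
    have e3 : cj y3 = -cj y1 - cj y2 := by linear_combination hw
    field_simp
    rw [e3]
    ring
  rw [LTri_add (show LTri_Su (fun y1 y2 y3 => LTri_B y1 y2 y3 + LTri_B y2 y1 y3)
    from Summable.add LTri_suB s1)
    (show LTri_Su (fun y1 y2 y3 => LTri_X y1 y2 y3 + LTri_X y1 y2 y3)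
    from Summable.add LTri_suX LTri_suX), LTri_add LTri_suB s1, LTri_add LTri_suX LTri_suX, v1,
    LTri_valA] at h
  have hB := LTri_valB
  linear_combination -h / 2 - hB

/-! ### step 4 -/

lemma LTri_valC : LTri_S LTri_C = -(EE / 2) := by
  have s1 : LTri_Su (fun y1 y2 y3 => LTri_C y2 y1 y3) := LTri_su12 LTri_suC
  have v1 : LTri_S (fun y1 y2 y3 => LTri_C y2 y1 y3) = LTri_S LTri_C := LTri_perm12 _
  have h : LTri_S (fun y1 y2 y3 => (LTri_C y1 y2 y3 + LTri_C y2 y1 y3) + LTri_X y1 y2 y3)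
      = LTri_S (fun _ _ _ => 0) := by
    refine LTri_congr fun y1 y2 y3 hy => ?_
    have hw : cj y1 + cj y2 + cj y3 = 0 := by
      rw [← cj_add, ← cj_add, hy, cj_zero]
    simp only [LTri_C, LTri_X]
    by_cases h3 : y3 = 0
    · simp [h3, cj_zero]
    by_cases h1 : y1 = 0
    · simp [h1, cj_zero]
    by_cases h2 : y2 = 0
    · simp [h2, cj_zero]
    have w1 : cj y1 ≠ 0 := fun h => h1 (cj_eq_zero.1 h)
    have w2 : cj y2 ≠ 0 := fun h => h2 (cj_eq_zero.1 h)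
    have w3 : cj y3 ≠ 0 := fun h => h3 (cj_eq_zero.1 h)
    field_simp
    linear_combination hw
  have h0 : LTri_S (fun _ _ _ => 0) = 0 := tsum_zero
  rw [h0, LTri_add (show LTri_Su (fun y1 y2 y3 => LTri_C y1 y2 y3 + LTri_C y2 y1 y3)
    from Summable.add LTri_suC s1) LTri_suX, LTri_add LTri_suC s1, v1, LTri_valX] at h
  linear_combination h / 2

theorem triC : ∑' q : (ℤ × ℤ) × (ℤ × ℤ), 1 / (xx q.1 * xx q.2 * cj (xx q.2)
    * (cj (xx q.2) - cj (xx q.1)) ^ 3) = -(EE / 2) := by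
  rw [← LTri_valC, LTri_S]
  refine tsum_congr fun q => ?_
  rw [LTri_C, cj_neg, cj_sub]
  congr 1
  ring

theorem triB : ∑' q : (ℤ × ℤ) × (ℤ × ℤ), 1 / (xx q.1 * xx q.2 * cj (xx q.2) ^ 2
    * (cj (xx q.2) - cj (xx q.1)) ^ 2) = EE / 2 := by
  have h := LTri_valB
  have h2 : ∑' q : (ℤ × ℤ) × (ℤ × ℤ), 1 / (xx q.1 * xx q.2 * cj (xx q.2) ^ 2
    * (cj (xx q.2) - cj (xx q.1)) ^ 2) = -LTri_S LTri_B := by
    rw [LTri_S, ← tsum_neg]
    refine tsum_congr fun q => ?_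
    rw [LTri_B, cj_neg, cj_sub, show xx q.1 * -xx q.2 * (-cj (xx q.2)) ^ 2
      * (cj (xx q.2) - cj (xx q.1)) ^ 2 = -(xx q.1 * xx q.2 * cj (xx q.2) ^ 2
      * (cj (xx q.2) - cj (xx q.1)) ^ 2) by ring, div_neg, neg_neg]
  rw [h2, h]
  ring

end EE7
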