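import Mathlib
import Pool.Agent.EE7.LSwap
import Pool.Agent.EE7.LTri

/-!
# EE7/LFour: the four line relation

Write `α = om`, `β = ob`, `x = xx q.1`, `m = xx q.2`, `y = x + m`, `N = β x - α m`
(so `N̄ = α x̄ - β m̄`).
POINTWISE IDENTITY (checked; rational identity in `x, m, x̄, m̄`; `y = x + m`, `ȳ = x̄ + m̄`, valid
when `x, m, y, N ≠ 0`; only `α + β = 1`, `α β = 2` are used):
`4 β² KK(α m, β x) - 2 KK(m, β y) + (1/(m m̄³)) (1/(x x̄) - 1/(y ȳ))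
  = 1/(x y ȳ m̄³) + (1/α) /(x y ȳ² m̄²) - (1/α²) [KK(y, x) - 2 β² KK(α y, x)]`.
Sum it over the domain `D = {q : x, m, y, N ≠ 0}`. Each of the kernels is absolutely summable over
all `q` (`summ321`, `summ222`, `summ_KK`), and its sum over `D` is the full sum minus the
sum over the one line on which it does not vanish (with `1/0 = 0`), all of them multiples of
`EE`:
* `4 β² KK(α m, β x)`: full sum `4 β² SS α β`; line `y = 0` (`x = -m`): `-β EE`.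
* `2 KK(m, β y)`: full `2 SS 1 β`; line `x = 0`: `2 KK(m, β m) = 1/((α - 1) m² m̄⁴)`, `-(α/2) EE`.
* `(1/(m m̄³)) (1/(x x̄) - 1/(y ȳ))`: for fixed `m` the sum over all `x` is `0` (`x ↦ -x - m`
  exchanges the two terms; it converges absolutely since the difference is `O(|x|⁻³)`); the lines
  `x = 0` and `y = 0` contribute `-EE` and `+EE`; the line `N = 0` (`x = α z`, `m = β z`, `y = z`):
  `(1/(β α³)) (1/2 - 1) EE = -(β²/16) EE`. So the sum over `D` is `+(β²/16) EE`.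
  (Absolute convergence in `q`: `|1/(x x̄) - 1/(y ȳ)| ≤ |m| (|x| + |y|)/(|x|² |y|²)`, `summ321`.)
* `1/(x y ȳ m̄³)`: full `triC = -EE/2`; line `N = 0`: `EE/α⁴ = (β⁴/16) EE`.
* `1/(x y ȳ² m̄²)`: full `triB = EE/2`; line `N = 0`: `EE/α³ = (β³/8) EE`.
* `KK(y, x)`: full `SS 1 1 = -EE/2`; line `N = 0`: `KK(z, α z) = EE/(2 (β - 1)) = -(β/4) EE`.
* `2 β² KK(α y, x)`: full `2 β² SS α 1`; line `m = 0` (`y = x`): `β/(1 - β) EE = (β²/2) EE`.
Result: `4 β² SS α β + β EE - 2 SS 1 β - (α/2) EE + (β²/16) EE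
 = (-1/2 - β⁴/16) EE + (β/2) (1/2 - β³/8) EE - (β²/4) [(-1/2 + β/4) EE - 2 β² SS α 1 + (β²/2) EE]`,
and `β² = β - 2` gives the theorem. (Checked numerically to 6 digits.)
The line `N = 0`: `β x = α m` iff `x = α z`, `m = β z` with `z = x + m`
(`x = (α+β) x = α x + α m`, ...).
-/

namespace EE7

/-- sums over one line -/
lemma LFour_line {l : ℤ × ℤ → (ℤ × ℤ) × (ℤ × ℤ)} (hl : Function.Injective l)
    {G : (ℤ × ℤ) × (ℤ × ℤ) → ℂ} (hG : ∀ q, q ∉ Set.range l → G q = 0) (c : ℂ)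
    (hc : ∀ n, G (l n) = c * (1 / (xx n ^ 2 * cj (xx n) ^ 4))) :
    HasSum G (c * EE) := by
  have h : HasSum (G ∘ l) (c * EE) := by
    have h1 := summ_EE.hasSum.mul_left c
    have e : G ∘ l = fun n => c * (1 / (xx n ^ 2 * cj (xx n) ^ 4)) := funext hc
    rw [e]
    exact h1
  exact (hl.hasSum_iff hG).1 h

/-- `(q₂, q₁ + q₂)` -/
def LFour_e1 : (ℤ × ℤ) × (ℤ × ℤ) ≃ (ℤ × ℤ) × (ℤ × ℤ) where
  toFun q := (q.2, q.1 + q.2)
  invFun q := (q.2 - q.1, q.1)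
  left_inv q := by simp
  right_inv q := by simp

/-- `(q₁, q₁ + q₂)` -/
def LFour_e2 : (ℤ × ℤ) × (ℤ × ℤ) ≃ (ℤ × ℤ) × (ℤ × ℤ) where
  toFun q := (q.1, q.1 + q.2)
  invFun q := (q.1, q.2 - q.1)
  left_inv q := by simp
  right_inv q := by simp

/-- `(q₁ + q₂, q₁)` -/
def LFour_e3 : (ℤ × ℤ) × (ℤ × ℤ) ≃ (ℤ × ℤ) × (ℤ × ℤ) where
  toFun q := (q.1 + q.2, q.1)
  invFun q := (q.2, q.1 - q.2)
  left_inv q := by simp
  right_inv q := by simp

/-- `(-q₁ - q₂, q₂)` -/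
def LFour_e4 : (ℤ × ℤ) × (ℤ × ℤ) ≃ (ℤ × ℤ) × (ℤ × ℤ) where
  toFun q := (-q.1 - q.2, q.2)
  invFun q := (-q.1 - q.2, q.2)
  left_inv q := by simp
  right_inv q := by simp

lemma LFour_xom : xx (0, 1) = om := by simp [xx_def]
lemma LFour_xob : xx (1, -1) = ob := by simp [xx_def, ob, sub_eq_add_neg]
lemma LFour_xone : xx (1, 0) = 1 := by simp [xx_def]

lemma LFour_xz : xx (0, 0) = 0 := by simp [xx_def]

lemma LFour_hasSum {a b : ℤ × ℤ} (ha : a ≠ 0) (hb : b ≠ 0) :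
    HasSum (fun q : (ℤ × ℤ) × (ℤ × ℤ) => KK (xx a * xx q.1) (xx b * xx q.2))
      (SS (xx a) (xx b)) :=
  (summ_KK ha hb).hasSum

/-- the kernel `(y ȳ - x x̄) / (m m̄³ x x̄ y ȳ)` -/
noncomputable def LFour_k (q : (ℤ × ℤ) × (ℤ × ℤ)) : ℂ :=
  (xx (q.1 + q.2) * cj (xx (q.1 + q.2)) - xx q.1 * cj (xx q.1)) /
    (xx q.2 * cj (xx q.2) ^ 3 * (xx q.1 * cj (xx q.1)) *
      (xx (q.1 + q.2) * cj (xx (q.1 + q.2))))

lemma LFour_h1 : HasSum (fun q : (ℤ × ℤ) × (ℤ × ℤ) =>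
    4 * ob ^ 2 * KK (om * xx q.2) (ob * xx q.1)) (4 * ob ^ 2 * SS om ob) := by
  have h := LFour_hasSum (a := (0, 1)) (b := (1, -1)) (by decide) (by decide)
  rw [LFour_xom, LFour_xob] at h
  exact ((Equiv.hasSum_iff (Equiv.prodComm (ℤ × ℤ) (ℤ × ℤ))).2 h).mul_left _

lemma LFour_h2 : HasSum (fun q : (ℤ × ℤ) × (ℤ × ℤ) =>
    2 * KK (xx q.2) (ob * xx (q.1 + q.2))) (2 * SS 1 ob) := by
  have h := LFour_hasSum (a := (1, 0)) (b := (1, -1)) (by decide) (by decide)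
  rw [LFour_xone, LFour_xob] at h
  have h2 := ((Equiv.hasSum_iff LFour_e1).2 h).mul_left 2
  simpa only [Function.comp, LFour_e1, Equiv.coe_fn_mk, one_mul] using h2

lemma LFour_h3 : HasSum (fun q : (ℤ × ℤ) × (ℤ × ℤ) =>
    1 / om ^ 2 * KK (xx (q.1 + q.2)) (xx q.1)) (1 / om ^ 2 * SS 1 1) := by
  have h := LFour_hasSum (a := (1, 0)) (b := (1, 0)) (by decide) (by decide)
  rw [LFour_xone] at h
  have h2 := ((Equiv.hasSum_iff LFour_e3).2 h).mul_left (1 / om ^ 2)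
  simpa only [Function.comp, LFour_e3, Equiv.coe_fn_mk, one_mul] using h2

lemma LFour_h4 : HasSum (fun q : (ℤ × ℤ) × (ℤ × ℤ) =>
    2 * ob ^ 2 / om ^ 2 * KK (om * xx (q.1 + q.2)) (xx q.1))
    (2 * ob ^ 2 / om ^ 2 * SS om 1) := by
  have h := LFour_hasSum (a := (0, 1)) (b := (1, 0)) (by decide) (by decide)
  rw [LFour_xone, LFour_xom] at h
  have h2 := ((Equiv.hasSum_iff LFour_e3).2 h).mul_left (2 * ob ^ 2 / om ^ 2)
  simpa only [Function.comp, LFour_e3, Equiv.coe_fn_mk, one_mul] using h2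

lemma LFour_LFm (q : (ℤ × ℤ) × (ℤ × ℤ)) : LF (0, 0) (1, 0) q = xx q.2 := by
  simp only [LF, LFour_xone, LFour_xz]
  ring

lemma LFour_LFx (q : (ℤ × ℤ) × (ℤ × ℤ)) : LF (1, 0) (0, 0) q = xx q.1 := by
  simp only [LF, LFour_xone, LFour_xz]
  ring

lemma LFour_LFy (q : (ℤ × ℤ) × (ℤ × ℤ)) : LF (1, 0) (1, 0) q = xx (q.1 + q.2) := by
  simp only [LF, LFour_xone, xx_add]
  ring

lemma LFour_s321m : Summable (fun q : (ℤ × ℤ) × (ℤ × ℤ) =>
    1 / (‖xx q.2‖ ^ 3 * ‖xx (q.1 + q.2)‖ ^ 2 * ‖xx q.1‖)) := by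
  have h := summ321 (a := (0, 0)) (b := (1, 0)) (c := (1, 0)) (d := (1, 0)) (e := (1, 0))
    (f := (0, 0)) (by rw [LFour_xone, LFour_xz]; norm_num) (by rw [LFour_xone, LFour_xz]; norm_num)
  simpa only [LFour_LFm, LFour_LFx, LFour_LFy] using h

lemma LFour_s321m' : Summable (fun q : (ℤ × ℤ) × (ℤ × ℤ) =>
    1 / (‖xx q.2‖ ^ 3 * ‖xx q.1‖ ^ 2 * ‖xx (q.1 + q.2)‖)) := by
  have h := summ321 (a := (0, 0)) (b := (1, 0)) (c := (1, 0)) (d := (0, 0)) (e := (1, 0))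
    (f := (1, 0)) (by rw [LFour_xone, LFour_xz]; norm_num) (by rw [LFour_xone, LFour_xz]; norm_num)
  simpa only [LFour_LFm, LFour_LFx, LFour_LFy] using h

lemma LFour_s321y : Summable (fun q : (ℤ × ℤ) × (ℤ × ℤ) =>
    1 / (‖xx (q.1 + q.2)‖ ^ 3 * ‖xx q.2‖ ^ 2 * ‖xx q.1‖)) := by
  have h := summ321 (a := (1, 0)) (b := (1, 0)) (c := (0, 0)) (d := (1, 0)) (e := (1, 0))
    (f := (0, 0)) (by rw [LFour_xone, LFour_xz]; norm_num) (by rw [LFour_xone, LFour_xz]; norm_num)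
  simpa only [LFour_LFm, LFour_LFx, LFour_LFy] using h

lemma LFour_h5 : HasSum (fun q : (ℤ × ℤ) × (ℤ × ℤ) =>
    1 / (xx q.1 * xx (q.1 + q.2) * cj (xx (q.1 + q.2)) * cj (xx q.2) ^ 3)) (-(EE / 2)) := by
  have hs : Summable (fun q : (ℤ × ℤ) × (ℤ × ℤ) =>
      1 / (xx q.1 * xx (q.1 + q.2) * cj (xx (q.1 + q.2)) * cj (xx q.2) ^ 3)) := by
    refine Summable.of_norm (LFour_s321m.congr (fun q => ?_))
    rw [norm_div, norm_one, norm_mul, norm_mul, norm_mul, norm_pow, norm_cj, norm_cj]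
    congr 1
    ring
  have h := hs.hasSum
  have e : ∑' q : (ℤ × ℤ) × (ℤ × ℤ),
      1 / (xx q.1 * xx (q.1 + q.2) * cj (xx (q.1 + q.2)) * cj (xx q.2) ^ 3) = -(EE / 2) := by
    rw [← triC, ← Equiv.tsum_eq LFour_e2 (fun q : (ℤ × ℤ) × (ℤ × ℤ) => 1 / (xx q.1 * xx q.2
      * cj (xx q.2) * (cj (xx q.2) - cj (xx q.1)) ^ 3))]
    refine tsum_congr (fun q => ?_)
    simp only [LFour_e2, Equiv.coe_fn_mk]
    have : cj (xx (q.1 + q.2)) - cj (xx q.1) = cj (xx q.2) := by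
      rw [xx_add, cj_add]
      ring
    rw [this]
  rwa [e] at h

lemma LFour_h6 : HasSum (fun q : (ℤ × ℤ) × (ℤ × ℤ) =>
    1 / (xx q.1 * xx (q.1 + q.2) * cj (xx (q.1 + q.2)) ^ 2 * cj (xx q.2) ^ 2)) (EE / 2) := by
  have hs : Summable (fun q : (ℤ × ℤ) × (ℤ × ℤ) =>
      1 / (xx q.1 * xx (q.1 + q.2) * cj (xx (q.1 + q.2)) ^ 2 * cj (xx q.2) ^ 2)) := by
    refine Summable.of_norm (LFour_s321y.congr (fun q => ?_))
    rw [norm_div, norm_one, norm_mul, norm_mul, norm_mul, norm_pow, norm_pow, norm_cj, norm_cj]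
    congr 1
    ring
  have h := hs.hasSum
  have e : ∑' q : (ℤ × ℤ) × (ℤ × ℤ),
      1 / (xx q.1 * xx (q.1 + q.2) * cj (xx (q.1 + q.2)) ^ 2 * cj (xx q.2) ^ 2) = EE / 2 := by
    rw [← triB, ← Equiv.tsum_eq LFour_e2 (fun q : (ℤ × ℤ) × (ℤ × ℤ) => 1 / (xx q.1 * xx q.2
      * cj (xx q.2) ^ 2 * (cj (xx q.2) - cj (xx q.1)) ^ 2))]
    refine tsum_congr (fun q => ?_)
    simp only [LFour_e2, Equiv.coe_fn_mk]
    have : cj (xx (q.1 + q.2)) - cj (xx q.1) = cj (xx q.2) := by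
      rw [xx_add, cj_add]
      ring
    rw [this]
  rwa [e] at h

lemma LFour_ksummable : Summable LFour_k := by
  refine Summable.of_norm_bounded (LFour_s321m.add LFour_s321m') (fun q => ?_)
  by_cases hx : xx q.1 = 0
  · simp [LFour_k, hx]
  by_cases hy : xx (q.1 + q.2) = 0
  · simp [LFour_k, hy]
  by_cases hm : xx q.2 = 0
  · simp [LFour_k, hm]
  have px : 0 < ‖xx q.1‖ := norm_pos_iff.2 hx
  have py : 0 < ‖xx (q.1 + q.2)‖ := norm_pos_iff.2 hy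
  have pm : 0 < ‖xx q.2‖ := norm_pos_iff.2 hm
  have hnum : ‖xx (q.1 + q.2) * cj (xx (q.1 + q.2)) - xx q.1 * cj (xx q.1)‖
      ≤ ‖xx q.2‖ * (‖xx (q.1 + q.2)‖ + ‖xx q.1‖) := by
    have e : xx (q.1 + q.2) * cj (xx (q.1 + q.2)) - xx q.1 * cj (xx q.1)
        = xx q.2 * cj (xx (q.1 + q.2)) + xx q.1 * cj (xx q.2) := by
      rw [xx_add, cj_add]
      ring
    rw [e]
    calc ‖xx q.2 * cj (xx (q.1 + q.2)) + xx q.1 * cj (xx q.2)‖
        ≤ ‖xx q.2 * cj (xx (q.1 + q.2))‖ + ‖xx q.1 * cj (xx q.2)‖ := norm_add_le _ _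
      _ = ‖xx q.2‖ * (‖xx (q.1 + q.2)‖ + ‖xx q.1‖) := by
          rw [norm_mul, norm_mul, norm_cj, norm_cj]
          ring
  rw [LFour_k, norm_div, norm_mul, norm_mul, norm_mul, norm_mul, norm_mul, norm_pow, norm_cj,
    norm_cj, norm_cj]
  rw [div_le_iff₀ (by positivity)]
  refine hnum.trans (le_of_eq ?_)
  field_simp
  ring

lemma LFour_h7 : HasSum LFour_k 0 := by
  have h := LFour_ksummable.hasSum
  have h2 := (Equiv.hasSum_iff LFour_e4).2 h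
  have e : (LFour_k ∘ LFour_e4) = fun q => -LFour_k q := by
    funext q
    have e1 : xx (-q.1 - q.2) = -xx (q.1 + q.2) := by
      rw [xx_sub, xx_neg, xx_add]
      ring
    have e2 : xx (-q.1 - q.2 + q.2) = -xx q.1 := by
      rw [sub_add_cancel, xx_neg]
    simp only [Function.comp, LFour_e4, Equiv.coe_fn_mk, LFour_k, e1, e2, cj_neg]
    ring
  rw [e] at h2
  have h3 := h2.unique h.neg
  have h4 : (∑' q, LFour_k q) = 0 := by
    have : (2:ℂ) * (∑' q, LFour_k q) = 0 := by linear_combination h3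
    exact (mul_eq_zero.1 this).resolve_left two_ne_zero
  rwa [h4] at h

/-- the sum of all kernels -/
noncomputable def LFour_F (q : (ℤ × ℤ) × (ℤ × ℤ)) : ℂ :=
  4 * ob ^ 2 * KK (om * xx q.2) (ob * xx q.1) - 2 * KK (xx q.2) (ob * xx (q.1 + q.2))
    + LFour_k q
    - 1 / (xx q.1 * xx (q.1 + q.2) * cj (xx (q.1 + q.2)) * cj (xx q.2) ^ 3)
    - 1 / om * (1 / (xx q.1 * xx (q.1 + q.2) * cj (xx (q.1 + q.2)) ^ 2 * cj (xx q.2) ^ 2))
    + 1 / om ^ 2 * KK (xx (q.1 + q.2)) (xx q.1)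
    - 2 * ob ^ 2 / om ^ 2 * KK (om * xx (q.1 + q.2)) (xx q.1)

lemma LFour_hF : HasSum LFour_F (4 * ob ^ 2 * SS om ob - 2 * SS 1 ob + 0 - -(EE / 2)
    - 1 / om * (EE / 2) + 1 / om ^ 2 * SS 1 1 - 2 * ob ^ 2 / om ^ 2 * SS om 1) :=
  (((((LFour_h1.sub LFour_h2).add LFour_h7).sub LFour_h5).sub (LFour_h6.mul_left _)).add
    LFour_h3).sub LFour_h4

lemma LFour_inv1 : 1 / om = ob / 2 := by
  rw [div_eq_div_iff om_ne_zero two_ne_zero]
  linear_combination -om_mul_ob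

lemma LFour_inv2 : 1 / om ^ 2 = ob ^ 2 / 4 := by
  have h := LFour_inv1
  rw [← one_div_pow, h]
  ring

/-- the core of the pointwise identity -/
lemma LFour_phi {u v w N : ℂ} (hu : u ≠ 0) (hv : v ≠ 0) (hw : w ≠ 0) (hN : N ≠ 0)
    (ew : w = u + v) (eN : N = om * u - ob * v) :
    1 / (w * v ^ 3) + (ob / 2) / (w ^ 2 * v ^ 2) + (ob ^ 2 / 4) / (u * w ^ 2 * v)
      + (ob ^ 3 / 4) / (u * w ^ 2 * N) = om / (v ^ 3 * N) := by
  have e : 1 / (w * v ^ 3) + (ob / 2) / (w ^ 2 * v ^ 2) + (ob ^ 2 / 4) / (u * w ^ 2 * v)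
      + (ob ^ 3 / 4) / (u * w ^ 2 * N) - om / (v ^ 3 * N)
      = (w * u * N + ob / 2 * v * u * N + ob ^ 2 / 4 * v ^ 2 * N + ob ^ 3 / 4 * v ^ 3
        - om * w ^ 2 * u) / (u * w ^ 2 * v ^ 3 * N) := by
    field_simp
  have p : w * u * N + ob / 2 * v * u * N + ob ^ 2 / 4 * v ^ 2 * N + ob ^ 3 / 4 * v ^ 3
        - om * w ^ 2 * u = 0 := by
    rw [ew, eN]
    linear_combination u ^ 2 * v * (-om_add_ob + (1 / 2) * om_mul_ob)
      + u * v ^ 2 * (-om_add_ob + (ob / 4) * om_mul_ob - (1 / 2) * ob_sq)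
  rw [p, zero_div] at e
  exact sub_eq_zero.1 e

/-- the pointwise identity in abstract variables -/
lemma LFour_alg {X M Y u v w N : ℂ} (hX : X ≠ 0) (hM : M ≠ 0) (hY : Y ≠ 0) (hu : u ≠ 0)
    (hv : v ≠ 0) (hw : w ≠ 0) (hN : N ≠ 0) (eY : Y = X + M) (ew : w = u + v)
    (eN : N = om * u - ob * v) :
    4 * ob ^ 2 * (1 / (om * M * (ob * v) ^ 2 * (ob * X) * (om * u) * N))
      - 2 * (1 / (M * v ^ 2 * (ob * Y) * (om * w) * N))
      + (Y * w - X * u) / (M * v ^ 3 * (X * u) * (Y * w))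
      - 1 / (X * Y * w * v ^ 3) - 1 / om * (1 / (X * Y * w ^ 2 * v ^ 2))
      + 1 / om ^ 2 * (1 / (Y * w ^ 2 * X * u * (-v)))
      - 2 * ob ^ 2 / om ^ 2 * (1 / (om * Y * (ob * w) ^ 2 * X * u * N)) = 0 := by
  have hA := om_ne_zero
  have hB := ob_ne_zero
  have hab := om_mul_ob
  have hph := LFour_phi hu hv hw hN ew eN
  have t1 : 4 * ob ^ 2 * (1 / (om * M * (ob * v) ^ 2 * (ob * X) * (om * u) * N))
      = ob / (M * v ^ 2 * X * u * N) := by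
    have : om * M * (ob * v) ^ 2 * (ob * X) * (om * u) * N
        = 4 * ob * (M * v ^ 2 * X * u * N) := by
      linear_combination (om * ob + 2) * (M * v ^ 2 * X * u * N * ob) * hab
    rw [this]
    field_simp
  have t2 : 2 * (1 / (M * v ^ 2 * (ob * Y) * (om * w) * N)) = 1 / (M * v ^ 2 * Y * w * N) := by
    have : M * v ^ 2 * (ob * Y) * (om * w) * N = 2 * (M * v ^ 2 * Y * w * N) := by
      linear_combination (M * v ^ 2 * Y * w * N) * hab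
    rw [this]
    field_simp
  have t3 : (Y * w - X * u) / (M * v ^ 3 * (X * u) * (Y * w))
      = 1 / (M * v ^ 3 * X * u) - 1 / (M * v ^ 3 * Y * w) := by
    field_simp
  have t5 : 1 / om * (1 / (X * Y * w ^ 2 * v ^ 2)) = (1 / (X * Y)) * (ob / 2 / (w ^ 2 * v ^ 2)) := by
    rw [LFour_inv1]
    field_simp
  have t6 : 1 / om ^ 2 * (1 / (Y * w ^ 2 * X * u * (-v)))
      = -((1 / (X * Y)) * (ob ^ 2 / 4 / (u * w ^ 2 * v))) := by
    rw [LFour_inv2]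
    field_simp
  have t7 : 2 * ob ^ 2 / om ^ 2 * (1 / (om * Y * (ob * w) ^ 2 * X * u * N))
      = (1 / (X * Y)) * (ob ^ 3 / 4 / (u * w ^ 2 * N)) := by
    have e : 2 * ob ^ 2 / om ^ 2 = 2 * ob ^ 2 * (ob ^ 2 / 4) := by
      rw [← LFour_inv2]
      ring
    have e2 : om * Y * (ob * w) ^ 2 * X * u * N = 2 * ob * (X * Y * (u * w ^ 2 * N)) := by
      linear_combination (ob * (X * Y * (u * w ^ 2 * N))) * hab
    rw [e, e2]
    field_simp
  have c1 : ob / (M * v ^ 2 * X * u * N) + 1 / (M * v ^ 3 * X * u)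
      = (1 / (M * X)) * (om / (v ^ 3 * N)) := by
    have : ob / (M * v ^ 2 * X * u * N) + 1 / (M * v ^ 3 * X * u)
        = (ob * v + N) / (M * X * v ^ 3 * u * N) := by
      field_simp
    rw [this, show ob * v + N = om * u by rw [eN]; ring]
    field_simp
  have c2 : 1 / (M * v ^ 2 * Y * w * N) + 1 / (M * v ^ 3 * Y * w)
      = (1 / (M * Y)) * (om / (v ^ 3 * N)) := by
    have : 1 / (M * v ^ 2 * Y * w * N) + 1 / (M * v ^ 3 * Y * w)
        = (v + N) / (M * Y * v ^ 3 * w * N) := by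
      field_simp
    rw [this, show v + N = om * w by
      rw [eN, ew]
      linear_combination (-v) * om_add_ob]
    field_simp
  have c3 : 1 / (M * X) - 1 / (M * Y) = 1 / (X * Y) := by
    have : 1 / (M * X) - 1 / (M * Y) = (Y - X) / (M * X * Y) := by
      field_simp
    rw [this, show Y - X = M by rw [eY]; ring]
    field_simp
  have t4 : 1 / (X * Y * w * v ^ 3) = (1 / (X * Y)) * (1 / (w * v ^ 3)) := by
    field_simp
  rw [t1, t2, t3, t4, t5, t6, t7]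
  linear_combination c1 - c2 + (om / (v ^ 3 * N)) * c3 - (1 / (X * Y)) * hph

/-- the pointwise identity on the open domain -/
lemma LFour_generic {q : (ℤ × ℤ) × (ℤ × ℤ)} (hx : xx q.1 ≠ 0) (hm : xx q.2 ≠ 0)
    (hy : xx (q.1 + q.2) ≠ 0) (hN : om * cj (xx q.1) - ob * cj (xx q.2) ≠ 0) :
    LFour_F q = 0 := by
  have hx' : cj (xx q.1) ≠ 0 := fun h => hx (cj_eq_zero.1 h)
  have hm' : cj (xx q.2) ≠ 0 := fun h => hm (cj_eq_zero.1 h)
  have hy' : cj (xx (q.1 + q.2)) ≠ 0 := fun h => hy (cj_eq_zero.1 h)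
  have ew : cj (xx (q.1 + q.2)) = cj (xx q.1) + cj (xx q.2) := by rw [xx_add, cj_add]
  have ey : xx (q.1 + q.2) = xx q.1 + xx q.2 := xx_add _ _
  have h := LFour_alg hx hm hy hx' hm' hy' hN ey ew rfl
  have n2 : om * cj (xx (q.1 + q.2)) - cj (xx q.2)
      = om * cj (xx q.1) - ob * cj (xx q.2) := by
    rw [ew]
    linear_combination cj (xx q.2) * om_add_ob
  have n3 : cj (xx q.1) - ob * cj (xx (q.1 + q.2))
      = om * cj (xx q.1) - ob * cj (xx q.2) := by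
    rw [ew]
    linear_combination -cj (xx q.1) * om_add_ob
  have n4 : cj (xx q.1) - cj (xx (q.1 + q.2)) = -cj (xx q.2) := by
    rw [ew]
    ring
  rw [← h]
  unfold LFour_F KK LFour_k
  simp only [cj_mul, cj_om, cj_ob, n2, n3, n4]

/-- the values on the four lines -/
lemma LFour_v0 (n : ℤ × ℤ) : LFour_F (0, n) = om / 2 * (1 / (xx n ^ 2 * cj (xx n) ^ 4)) := by
  have e : LFour_F (0, n) = -(2 * KK (xx n) (ob * xx n)) := by
    simp [LFour_F, LFour_k, KK, xx_zero]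
  rw [e, KK, cj_mul, cj_ob]
  by_cases hn : xx n = 0
  · simp [hn]
  have hn' : cj (xx n) ≠ 0 := fun h => hn (cj_eq_zero.1 h)
  have e2 : xx n * cj (xx n) ^ 2 * (ob * xx n) * (om * cj (xx n)) * (om * cj (xx n) - cj (xx n))
      = -(2 * ob) * (xx n ^ 2 * cj (xx n) ^ 4) := by
    have ho : om - 1 = -ob := by rw [ob]; ring
    linear_combination (xx n ^ 2 * cj (xx n) ^ 4) * (om - 1) * om_mul_ob
      + 2 * (xx n ^ 2 * cj (xx n) ^ 4) * ho
  have hB := ob_ne_zero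
  rw [e2]
  have : om / 2 = 1 / ob := by
    rw [div_eq_div_iff two_ne_zero hB]
    linear_combination om_mul_ob
  rw [this]
  field_simp

lemma LFour_v1 (n : ℤ × ℤ) :
    LFour_F (-n, n) = -ob * (1 / (xx n ^ 2 * cj (xx n) ^ 4)) := by
  have e : LFour_F (-n, n) = 4 * ob ^ 2 * KK (om * xx n) (ob * xx (-n)) := by
    simp [LFour_F, LFour_k, KK, xx_zero, cj_zero]
  rw [e, KK, cj_mul, cj_mul, cj_ob, cj_om, xx_neg, cj_neg]
  by_cases hn : xx n = 0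
  · simp [hn]
  have hn' : cj (xx n) ≠ 0 := fun h => hn (cj_eq_zero.1 h)
  have hB := ob_ne_zero
  have e2 : om * xx n * (ob * cj (xx n)) ^ 2 * (ob * -xx n) * (om * -cj (xx n)) *
      (om * -cj (xx n) - ob * cj (xx n)) = -(4 * ob) * (xx n ^ 2 * cj (xx n) ^ 4) := by
    linear_combination -(xx n ^ 2 * cj (xx n) ^ 4) * om ^ 2 * ob ^ 3 * om_add_ob
      - (xx n ^ 2 * cj (xx n) ^ 4) * ob * (om * ob + 2) * om_mul_ob
  rw [e2]
  field_simp

lemma LFour_v2 (n : ℤ × ℤ) :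
    LFour_F (n, 0) = -(ob ^ 4 / 8) * (1 / (xx n ^ 2 * cj (xx n) ^ 4)) := by
  have e : LFour_F (n, 0) = -(2 * ob ^ 2 / om ^ 2 * KK (om * xx n) (xx n)) := by
    simp [LFour_F, LFour_k, KK, xx_zero, cj_zero]
  rw [e, KK, cj_mul, cj_om]
  by_cases hn : xx n = 0
  · simp [hn]
  have hn' : cj (xx n) ≠ 0 := fun h => hn (cj_eq_zero.1 h)
  have hB := ob_ne_zero
  have e1 : 2 * ob ^ 2 / om ^ 2 = 2 * ob ^ 2 * (ob ^ 2 / 4) := by
    rw [← LFour_inv2]
    ring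
  have e2 : om * xx n * (ob * cj (xx n)) ^ 2 * xx n * cj (xx n) * (cj (xx n) - ob * cj (xx n))
      = 4 * (xx n ^ 2 * cj (xx n) ^ 4) := by
    have ho : 1 - ob = om := by rw [ob]; ring
    linear_combination (xx n ^ 2 * cj (xx n) ^ 4) * (om * ob ^ 2) * ho
      + (xx n ^ 2 * cj (xx n) ^ 4) * (om * ob + 2) * om_mul_ob
  rw [e1, e2]
  field_simp
  ring

/-- the points of the fourth line -/
def LFour_l (n : ℤ × ℤ) : (ℤ × ℤ) × (ℤ × ℤ) := ((-2 * n.2, n.1 + n.2), (n.1 + 2 * n.2, -n.1))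

lemma LFour_l1 (n : ℤ × ℤ) : xx (LFour_l n).1 = om * xx n := (om_mul_xx n).symm

lemma LFour_l2 (n : ℤ × ℤ) : xx (LFour_l n).2 = ob * xx n := (ob_mul_xx n).symm

lemma LFour_l3 (n : ℤ × ℤ) : (LFour_l n).1 + (LFour_l n).2 = n := by
  simp only [LFour_l]
  ext <;> simp

lemma LFour_KKself (s : ℂ) : KK s s = 0 := by
  simp [KK]

lemma LFour_v3 (n : ℤ × ℤ) :
    LFour_F (LFour_l n) = -((ob ^ 2 + 2 * ob ^ 4 + ob ^ 3) / 16) *
      (1 / (xx n ^ 2 * cj (xx n) ^ 4)) := by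
  unfold LFour_F LFour_k
  rw [LFour_l1, LFour_l2, LFour_l3]
  have k1 : KK (om * (ob * xx n)) (ob * (om * xx n)) = 0 := by
    rw [show om * (ob * xx n) = ob * (om * xx n) by ring]
    exact LFour_KKself _
  rw [k1, LFour_KKself, LFour_KKself, KK]
  simp only [cj_mul, cj_om, cj_ob]
  by_cases hn : xx n = 0
  · simp [hn, cj_zero]
  have hn' : cj (xx n) ≠ 0 := fun h => hn (cj_eq_zero.1 h)
  have hA := om_ne_zero
  have hB := ob_ne_zero
  have ho : ob - 1 = -om := by rw [ob]; ring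
  have w1 : (xx n * cj (xx n) - om * xx n * (ob * cj (xx n))) /
      (ob * xx n * (om * cj (xx n)) ^ 3 * (om * xx n * (ob * cj (xx n))) * (xx n * cj (xx n)))
      = -(ob ^ 2 / 16) * (1 / (xx n ^ 2 * cj (xx n) ^ 4)) := by
    have a1 : xx n * cj (xx n) - om * xx n * (ob * cj (xx n)) = -(xx n * cj (xx n)) := by
      linear_combination -(xx n * cj (xx n)) * om_mul_ob
    have a2 : ob * xx n * (om * cj (xx n)) ^ 3 * (om * xx n * (ob * cj (xx n))) *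
        (xx n * cj (xx n)) = 4 * om ^ 2 * (xx n ^ 3 * cj (xx n) ^ 5) := by
      linear_combination (om * ob + 2) * om ^ 2 * (xx n ^ 3 * cj (xx n) ^ 5) * om_mul_ob
    have a3 : ob ^ 2 / 16 = 1 / (4 * om ^ 2) := by
      have h := LFour_inv2
      have h2 : 1 / (4 * om ^ 2) = 1 / om ^ 2 / 4 := by field_simp
      rw [h2, h]
      ring
    rw [a1, a2, a3]
    field_simp
  have i4 : 1 / om ^ 4 = ob ^ 4 / 16 := by
    have h2 : 1 / om ^ 4 = (1 / om ^ 2) ^ 2 := by field_simp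
    rw [h2, LFour_inv2]
    ring
  have w2 : 1 / (om * xx n * xx n * cj (xx n) * (om * cj (xx n)) ^ 3)
      = ob ^ 4 / 16 * (1 / (xx n ^ 2 * cj (xx n) ^ 4)) := by
    rw [← i4]
    field_simp
  have w3 : 1 / om * (1 / (om * xx n * xx n * cj (xx n) ^ 2 * (om * cj (xx n)) ^ 2))
      = ob ^ 4 / 16 * (1 / (xx n ^ 2 * cj (xx n) ^ 4)) := by
    rw [← i4]
    field_simp
  have w4 : 1 / om ^ 2 * (1 / (xx n * cj (xx n) ^ 2 * (om * xx n) * (ob * cj (xx n)) *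
      (ob * cj (xx n) - cj (xx n)))) = -(ob ^ 3 / 16) * (1 / (xx n ^ 2 * cj (xx n) ^ 4)) := by
    have a1 : xx n * cj (xx n) ^ 2 * (om * xx n) * (ob * cj (xx n)) *
      (ob * cj (xx n) - cj (xx n)) = -(2 * om) * (xx n ^ 2 * cj (xx n) ^ 4) := by
      linear_combination (om * ob) * (xx n ^ 2 * cj (xx n) ^ 4) * ho
        - om * (xx n ^ 2 * cj (xx n) ^ 4) * om_mul_ob
    have a2 : ob ^ 3 / 16 = 1 / om ^ 2 * (1 / om) / 2 := by
      rw [LFour_inv2, LFour_inv1]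
      ring
    rw [a1, a2]
    field_simp
  rw [w1, w2, w3, w4]
  ring

/-- a point with vanishing fourth form lies on the fourth line -/
lemma LFour_on {q : (ℤ × ℤ) × (ℤ × ℤ)} (hN : om * cj (xx q.1) - ob * cj (xx q.2) = 0) :
    q = LFour_l (q.1 + q.2) := by
  have h : ob * xx q.1 - om * xx q.2 = 0 := by
    have h2 := congrArg cj hN
    rw [cj_sub, cj_mul, cj_mul, cj_cj, cj_cj, cj_om, cj_ob, cj_zero] at h2
    exact h2
  have e1 : xx q.1 = xx (LFour_l (q.1 + q.2)).1 := by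
    rw [LFour_l1, xx_add]
    linear_combination h - xx q.1 * om_add_ob
  have e2 : xx q.2 = xx (LFour_l (q.1 + q.2)).2 := by
    rw [LFour_l2, xx_add]
    linear_combination -h - xx q.2 * om_add_ob
  exact Prod.ext (xx_inj e1) (xx_inj e2)

lemma LFour_term_zero : (1 / (xx 0 ^ 2 * cj (xx 0) ^ 4) : ℂ) = 0 := by
  simp [xx_zero]

open Classical in
lemma LFour_g0 : HasSum (fun q : (ℤ × ℤ) × (ℤ × ℤ) => if q.1 = 0 then LFour_F q else 0)
    (om / 2 * EE) := by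
  refine LFour_line (l := fun n => (0, n)) (fun a b h => (Prod.ext_iff.1 h).2) (fun q hq => ?_) _
    (fun n => ?_)
  · rw [if_neg]
    intro h
    exact hq ⟨q.2, Prod.ext h.symm rfl⟩
  · rw [if_pos rfl]
    exact LFour_v0 n

open Classical in
lemma LFour_g1 : HasSum (fun q : (ℤ × ℤ) × (ℤ × ℤ) =>
    if q.1 ≠ 0 ∧ q.1 + q.2 = 0 then LFour_F q else 0) (-ob * EE) := by
  refine LFour_line (l := fun n => (-n, n)) (fun a b h => (Prod.ext_iff.1 h).2)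
    (fun q hq => ?_) _ (fun n => ?_)
  · rw [if_neg]
    intro h
    exact hq ⟨q.2, Prod.ext (neg_eq_of_add_eq_zero_left h.2) rfl⟩
  · by_cases hn : n = 0
    · rw [if_neg (by simp [hn]), hn, LFour_term_zero, mul_zero]
    · rw [if_pos ⟨by simpa using hn, by simp⟩]
      exact LFour_v1 n

open Classical in
lemma LFour_g2 : HasSum (fun q : (ℤ × ℤ) × (ℤ × ℤ) =>
    if q.1 ≠ 0 ∧ q.2 = 0 then LFour_F q else 0) (-(ob ^ 4 / 8) * EE) := by
  refine LFour_line (l := fun n => (n, 0)) (fun a b h => (Prod.ext_iff.1 h).1)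
    (fun q hq => ?_) _ (fun n => ?_)
  · rw [if_neg]
    intro h
    exact hq ⟨q.1, Prod.ext rfl h.2.symm⟩
  · by_cases hn : n = 0
    · rw [if_neg (by simp [hn]), hn, LFour_term_zero, mul_zero]
    · rw [if_pos ⟨hn, rfl⟩]
      exact LFour_v2 n

open Classical in
lemma LFour_g3 : HasSum (fun q : (ℤ × ℤ) × (ℤ × ℤ) =>
    if q.1 ≠ 0 ∧ q = LFour_l (q.1 + q.2) then LFour_F q else 0)
    (-((ob ^ 2 + 2 * ob ^ 4 + ob ^ 3) / 16) * EE) := by
  refine LFour_line (l := LFour_l) (fun a b h => ?_) (fun q hq => ?_) _ (fun n => ?_)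
  · rw [← LFour_l3 a, ← LFour_l3 b, h]
  · rw [if_neg]
    intro h
    exact hq ⟨q.1 + q.2, h.2.symm⟩
  · by_cases hn : n = 0
    · rw [if_neg (by simp [hn, LFour_l]), hn, LFour_term_zero, mul_zero]
    · rw [if_pos]
      · exact LFour_v3 n
      · refine ⟨fun h => hn ?_, by rw [LFour_l3]⟩
        have h1 := LFour_l1 n
        rw [h, xx_zero] at h1
        exact xx_eq_zero.1 ((mul_eq_zero.1 h1.symm).resolve_left om_ne_zero)

open Classical in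
lemma LFour_split (q : (ℤ × ℤ) × (ℤ × ℤ)) : LFour_F q =
    (if q.1 = 0 then LFour_F q else 0) + (if q.1 ≠ 0 ∧ q.1 + q.2 = 0 then LFour_F q else 0)
      + (if q.1 ≠ 0 ∧ q.2 = 0 then LFour_F q else 0)
      + (if q.1 ≠ 0 ∧ q = LFour_l (q.1 + q.2) then LFour_F q else 0) := by
  by_cases h0 : q.1 = 0
  · simp [h0]
  by_cases h1 : q.1 + q.2 = 0
  · have h2 : q.2 ≠ 0 := fun h => h0 (by rw [h, add_zero] at h1; exact h1)
    have h3 : ¬ q = LFour_l (q.1 + q.2) := by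
      intro h
      rw [h1] at h
      exact h0 (by rw [h]; rfl)
    rw [if_neg h0, if_pos ⟨h0, h1⟩, if_neg (fun h => h2 h.2), if_neg (fun h => h3 h.2)]
    ring
  by_cases h2 : q.2 = 0
  · have h3 : ¬ q = LFour_l (q.1 + q.2) := by
      intro h
      have h4 := LFour_l2 (q.1 + q.2)
      rw [← h, show xx q.2 = 0 by rw [h2, xx_zero]] at h4
      exact h1 (xx_eq_zero.1 ((mul_eq_zero.1 h4.symm).resolve_left ob_ne_zero))
    rw [if_neg h0, if_neg (fun h => h1 h.2), if_pos ⟨h0, h2⟩, if_neg (fun h => h3 h.2)]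
    ring
  by_cases h3 : q = LFour_l (q.1 + q.2)
  · rw [if_neg h0, if_neg (fun h => h1 h.2), if_neg (fun h => h2 h.2), if_pos ⟨h0, h3⟩]
    ring
  · rw [if_neg h0, if_neg (fun h => h1 h.2), if_neg (fun h => h2 h.2), if_neg (fun h => h3 h.2)]
    rw [LFour_generic (fun h => h0 (xx_eq_zero.1 h)) (fun h => h2 (xx_eq_zero.1 h))
      (fun h => h1 (xx_eq_zero.1 h)) (fun h => h3 (LFour_on h))]
    ring

theorem rel : 4 * ob ^ 2 * SS om ob - 2 * SS 1 ob - ob ^ 4 / 2 * SS om 1 =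
    -(EE * (1 / 2 + 3 / 8 * ob)) := by
  classical
  have h := ((LFour_g0.add LFour_g1).add LFour_g2).add LFour_g3
  have e : (fun q : (ℤ × ℤ) × (ℤ × ℤ) =>
      (if q.1 = 0 then LFour_F q else 0) + (if q.1 ≠ 0 ∧ q.1 + q.2 = 0 then LFour_F q else 0)
      + (if q.1 ≠ 0 ∧ q.2 = 0 then LFour_F q else 0)
      + (if q.1 ≠ 0 ∧ q = LFour_l (q.1 + q.2) then LFour_F q else 0)) = LFour_F :=
    funext (fun q => (LFour_split q).symm)
  rw [e] at h
  have u := LFour_hF.unique h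
  have e1 : 2 * ob ^ 2 / om ^ 2 = ob ^ 4 / 2 := by
    have := LFour_inv2
    calc 2 * ob ^ 2 / om ^ 2 = 2 * ob ^ 2 * (1 / om ^ 2) := by ring
      _ = ob ^ 4 / 2 := by rw [this]; ring
  rw [swap_11, e1, LFour_inv1, LFour_inv2] at u
  linear_combination u + (1 / 2) * EE * om_add_ob
    + EE * (-ob ^ 2 / 4 - 5 * ob / 16 + 1 / 4) * ob_sq

end EE7
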