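import Mathlib
import Pool.Agent.EE7.LSumm

/-!
# EE7/LT1: `TT = TS`

Notation: `ν = xx q.1` (odd: `q.1.2` odd), `κ = xx q.2` (`q.2.2` even), all sums absolutely
convergent (`summ321`, `summ222`, `summ3111`; `|Im(κ² ν̄²)| ≤ |κ|²|ν|²`, `|Im (κ ν̄)| ≤ |κ||ν|`).
`TT = T1 - T2`,
`T1 = Σ Im(κ² ν̄²)/(|ν|²|κ|²|ν²-κ²|²) · sg(ν - κ)/(ν̄ (ν̄ - κ̄))`,
`T2 = Σ Im(κ² ν̄²)/(|ν|²|κ|²|ν²-κ²|²) · sg(ν)/ν̄²`.
PROOF. (T1) Substitute `s = ν - κ` (odd), `m = κ` (a bijection of the index set `(odd, even)`):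
`ν = s + m`, `ν - κ = s`, `ν + κ = s + 2m`, `Im(κ² ν̄²) = 2 Re(m (s̄+m̄)) Im(m s̄)`
(`Im(m (s̄ + m̄)) = Im(m s̄)`), and `4 Re(m (s̄+m̄)) = |s+2m|² - |s|²`. So
`T1 = Σ sg(s) (|s+2m|² - |s|²) Im(m s̄) / (2 s̄ (s̄+m̄) |s+m|²|m|²|s|²|s+2m|²)`.
The involution `(s, m) ↦ (s + 2m, -m)` fixes `s + m`, `sg`, `|m|`, exchanges `s` and `s + 2m`, and
`Im(m s̄) ↦ -Im(m s̄)`, `|s+2m|² - |s|² ↦ -(..)`; symmetrising, `1/s̄` is replaced by
`½ (1/s̄ + 1/(s̄+2m̄)) = (s̄+m̄)/(s̄ (s̄+2m̄))`: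
`T1 = Σ sg(s) Im(m s̄) /(2 s̄ (s̄+2m̄) |s+m|²|m|²) · (1/|s|² - 1/|s+2m|²)`, and under the same
involution the second part equals the first:
`T1 = Σ sg(s) Im(m s̄)/(s̄ (s̄+2m̄)|s+m|²|m|²|s|²)`.
(T2) `Im(κ² ν̄²) = 2 Re(κ ν̄) Im(κ ν̄)`, `4 Re(κ ν̄) = |ν+κ|² - |ν-κ|²`:
`T2 = Σ sg(ν) Im(κ ν̄)/(2 ν̄²|ν|²|κ|²) (1/|ν-κ|² - 1/|ν+κ|²)`, and `κ ↦ -κ` shows
`T2 = Σ sg(ν) Im(κ ν̄)/(ν̄²|ν|²|κ|²|ν-κ|²)`, then `κ = -m`, `ν = s`:
`T2 = -Σ sg(s) Im(m s̄)/(s̄²|s|²|m|²|s+m|²)`.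
Hence `TT = Σ sg(s) Im(m s̄)/(|s+m|²|m|²|s|²) [1/(s̄ (s̄+2m̄)) + 1/s̄²]`, and the bracket is
`2 (s̄+m̄)/(s̄² (s̄+2m̄))`: this is `TS`. (No denominator vanishes for `m ≠ 0`: `s`, `s+m`, `s+2m`
are odd. For `m = 0` all terms are `0`.)
-/

namespace EE7

lemma LT1_im (z : ℂ) : ((z.im : ℝ) : ℂ) = (z - cj z) * (1 / (2 * Complex.I)) := by
  have h := Complex.sub_conj z
  rw [cj, h]
  push_cast
  field_simp

/-! ### norms -/

lemma LT1_norm_od (n : ℤ × ℤ) : ‖od n‖ ≤ 1 := by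
  unfold od; split_ifs <;> simp

lemma LT1_norm_ev (n : ℤ × ℤ) : ‖ev n‖ ≤ 1 := by
  unfold ev; split_ifs <;> simp

lemma LT1_norm_sg (n : ℤ × ℤ) : ‖sg n‖ = 1 := by
  unfold sg; split_ifs <;> simp

lemma LT1_norm_im (z : ℂ) : ‖((z.im : ℝ) : ℂ)‖ ≤ ‖z‖ := by
  rw [Complex.norm_real, Real.norm_eq_abs]
  exact Complex.abs_im_le_norm z

lemma LT1_frac {A B D : ℝ} (hB : B ≤ A) (hA : 0 ≤ A) (hD : 0 ≤ D) : B / (A * D) ≤ 1 / D := by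
  rcases eq_or_lt_of_le hA with h | h
  · rw [← h, zero_mul, div_zero]; positivity
  · calc B / (A * D) ≤ A / (A * D) := div_le_div_of_nonneg_right hB (by positivity)
      _ = 1 / D := by
        rw [div_mul_eq_div_div, div_self h.ne']

/-! ### the pieces -/

/-- first part of `TT` -/
noncomputable def LT1_t1 (q : (ℤ × ℤ) × (ℤ × ℤ)) : ℂ := od q.1 * ev q.2 *
    (((xx q.2 ^ 2 * cj (xx q.1) ^ 2).im : ℝ) : ℂ) /
      (xx q.1 * cj (xx q.1) * (xx q.2 * cj (xx q.2)) *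
        ((xx q.1 ^ 2 - xx q.2 ^ 2) * (cj (xx q.1) ^ 2 - cj (xx q.2) ^ 2))) *
    (sg (q.1 - q.2) / (cj (xx q.1) * (cj (xx q.1) - cj (xx q.2))))

/-- second part of `TT` -/
noncomputable def LT1_t2 (q : (ℤ × ℤ) × (ℤ × ℤ)) : ℂ := od q.1 * ev q.2 *
    (((xx q.2 ^ 2 * cj (xx q.1) ^ 2).im : ℝ) : ℂ) /
      (xx q.1 * cj (xx q.1) * (xx q.2 * cj (xx q.2)) *
        ((xx q.1 ^ 2 - xx q.2 ^ 2) * (cj (xx q.1) ^ 2 - cj (xx q.2) ^ 2))) *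
    (sg q.1 / cj (xx q.1) ^ 2)

/-- common factor of `w`, `w3` -/
noncomputable def LT1_c (q : (ℤ × ℤ) × (ℤ × ℤ)) : ℂ := od q.1 * ev q.2 * sg q.1 *
  (((xx q.2 * cj (xx q.1)).im : ℝ) : ℂ) /
    ((xx q.1 + xx q.2) * cj (xx q.1 + xx q.2) * (xx q.2 * cj (xx q.2)) * (xx q.1 * cj (xx q.1)))

noncomputable def LT1_w (q : (ℤ × ℤ) × (ℤ × ℤ)) : ℂ :=
  LT1_c q * (1 / (cj (xx q.1) * (cj (xx q.1) + 2 * cj (xx q.2))))

noncomputable def LT1_w3 (q : (ℤ × ℤ) × (ℤ × ℤ)) : ℂ :=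
  LT1_c q * (1 / cj (xx q.1) ^ 2)

lemma LT1_norm_pre (q : (ℤ × ℤ) × (ℤ × ℤ)) : ‖od q.1 * ev q.2 *
    (((xx q.2 ^ 2 * cj (xx q.1) ^ 2).im : ℝ) : ℂ) /
      (xx q.1 * cj (xx q.1) * (xx q.2 * cj (xx q.2)) *
        ((xx q.1 ^ 2 - xx q.2 ^ 2) * (cj (xx q.1) ^ 2 - cj (xx q.2) ^ 2)))‖ ≤
    1 / (‖xx q.1 - xx q.2‖ ^ 2 * ‖xx q.1 + xx q.2‖ ^ 2) := by
  have e1 : ‖xx q.1 * cj (xx q.1) * (xx q.2 * cj (xx q.2)) *
        ((xx q.1 ^ 2 - xx q.2 ^ 2) * (cj (xx q.1) ^ 2 - cj (xx q.2) ^ 2))‖ =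
      (‖xx q.1‖ ^ 2 * ‖xx q.2‖ ^ 2) * (‖xx q.1 - xx q.2‖ ^ 2 * ‖xx q.1 + xx q.2‖ ^ 2) := by
    have h1 : xx q.1 ^ 2 - xx q.2 ^ 2 = (xx q.1 - xx q.2) * (xx q.1 + xx q.2) := by ring
    have h2 : cj (xx q.1) ^ 2 - cj (xx q.2) ^ 2 = cj ((xx q.1 - xx q.2) * (xx q.1 + xx q.2)) := by
      rw [cj_mul, cj_sub, cj_add]; ring
    rw [h1, h2]
    simp only [norm_mul, norm_cj]
    ring
  rw [norm_div, e1]
  refine LT1_frac ?_ (by positivity) (by positivity)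
  calc ‖od q.1 * ev q.2 * (((xx q.2 ^ 2 * cj (xx q.1) ^ 2).im : ℝ) : ℂ)‖
      = ‖od q.1‖ * ‖ev q.2‖ * ‖(((xx q.2 ^ 2 * cj (xx q.1) ^ 2).im : ℝ) : ℂ)‖ := by
        rw [norm_mul, norm_mul]
    _ ≤ 1 * 1 * ‖xx q.2 ^ 2 * cj (xx q.1) ^ 2‖ := by
        refine mul_le_mul (mul_le_mul (LT1_norm_od _) (LT1_norm_ev _) (norm_nonneg _) zero_le_one)
          (LT1_norm_im _) (norm_nonneg _) (by norm_num)
    _ = ‖xx q.1‖ ^ 2 * ‖xx q.2‖ ^ 2 := by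
        rw [norm_mul, norm_pow, norm_pow, norm_cj]; ring

lemma LT1_LF (a b : ℤ) (q : (ℤ × ℤ) × (ℤ × ℤ)) :
    LF (a, 0) (b, 0) q = a * xx q.1 + b * xx q.2 := by
  simp [LF, xx_def]

lemma LT1_xx (a : ℤ) : xx (a, 0) = a := by simp [xx_def]

lemma LT1_t1_summable : Summable LT1_t1 := by
  have h := summ321 (a := (1, 0)) (b := (-1, 0)) (c := (1, 0)) (d := (1, 0)) (e := (1, 0))
    (f := (0, 0)) (by rw [LT1_xx, LT1_xx]; norm_num) (by rw [LT1_xx, LT1_xx, LT1_xx]; norm_num)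
  refine Summable.of_norm_bounded h fun q => ?_
  rw [LT1_LF, LT1_LF, LT1_LF, LT1_t1, norm_mul]
  have h1 := LT1_norm_pre q
  have h2 : ‖sg (q.1 - q.2) / (cj (xx q.1) * (cj (xx q.1) - cj (xx q.2)))‖ =
      1 / (‖xx q.1‖ * ‖xx q.1 - xx q.2‖) := by
    rw [norm_div, LT1_norm_sg, norm_mul, ← cj_sub, norm_cj, norm_cj]
  rw [h2]
  refine (mul_le_mul_of_nonneg_right h1 (by positivity)).trans (le_of_eq ?_)
  have e1 : ((1 : ℤ) : ℂ) * xx q.1 + ((-1 : ℤ) : ℂ) * xx q.2 = xx q.1 - xx q.2 := by push_cast; ring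
  have e2 : ((1 : ℤ) : ℂ) * xx q.1 + ((1 : ℤ) : ℂ) * xx q.2 = xx q.1 + xx q.2 := by push_cast; ring
  have e3 : ((1 : ℤ) : ℂ) * xx q.1 + ((0 : ℤ) : ℂ) * xx q.2 = xx q.1 := by push_cast; ring
  rw [e1, e2, e3, one_div_mul_one_div]
  congr 1
  ring

lemma LT1_t2_summable : Summable LT1_t2 := by
  have h := summ222 (a := (1, 0)) (b := (-1, 0)) (c := (1, 0)) (d := (1, 0)) (e := (1, 0))
    (f := (0, 0)) (by rw [LT1_xx, LT1_xx]; norm_num) (by rw [LT1_xx, LT1_xx, LT1_xx]; norm_num)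
    (by rw [LT1_xx, LT1_xx]; norm_num)
  refine Summable.of_norm_bounded h fun q => ?_
  rw [LT1_LF, LT1_LF, LT1_LF, LT1_t2, norm_mul]
  have h1 := LT1_norm_pre q
  have h2 : ‖sg q.1 / cj (xx q.1) ^ 2‖ = 1 / ‖xx q.1‖ ^ 2 := by
    rw [norm_div, LT1_norm_sg, norm_pow, norm_cj]
  rw [h2]
  refine (mul_le_mul_of_nonneg_right h1 (by positivity)).trans (le_of_eq ?_)
  have e1 : ((1 : ℤ) : ℂ) * xx q.1 + ((-1 : ℤ) : ℂ) * xx q.2 = xx q.1 - xx q.2 := by push_cast; ring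
  have e2 : ((1 : ℤ) : ℂ) * xx q.1 + ((1 : ℤ) : ℂ) * xx q.2 = xx q.1 + xx q.2 := by push_cast; ring
  have e3 : ((1 : ℤ) : ℂ) * xx q.1 + ((0 : ℤ) : ℂ) * xx q.2 = xx q.1 := by push_cast; ring
  rw [e1, e2, e3, one_div_mul_one_div]

lemma LT1_norm_c (q : (ℤ × ℤ) × (ℤ × ℤ)) :
    ‖LT1_c q‖ ≤ 1 / (‖xx q.1 + xx q.2‖ ^ 2 * ‖xx q.2‖ * ‖xx q.1‖) := by
  have e1 : ‖(xx q.1 + xx q.2) * cj (xx q.1 + xx q.2) * (xx q.2 * cj (xx q.2)) *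
      (xx q.1 * cj (xx q.1))‖ =
      (‖xx q.1‖ * ‖xx q.2‖) * (‖xx q.1 + xx q.2‖ ^ 2 * ‖xx q.2‖ * ‖xx q.1‖) := by
    simp only [norm_mul, norm_cj]
    ring
  rw [LT1_c, norm_div, e1]
  refine LT1_frac ?_ (by positivity) (by positivity)
  calc ‖od q.1 * ev q.2 * sg q.1 * (((xx q.2 * cj (xx q.1)).im : ℝ) : ℂ)‖
      = ‖od q.1‖ * ‖ev q.2‖ * ‖sg q.1‖ * ‖(((xx q.2 * cj (xx q.1)).im : ℝ) : ℂ)‖ := by
        rw [norm_mul, norm_mul, norm_mul]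
    _ ≤ 1 * 1 * 1 * ‖xx q.2 * cj (xx q.1)‖ := by
        refine mul_le_mul (mul_le_mul (mul_le_mul (LT1_norm_od _) (LT1_norm_ev _) (norm_nonneg _)
          zero_le_one) (LT1_norm_sg _).le (norm_nonneg _) (by norm_num))
          (LT1_norm_im _) (norm_nonneg _) (by norm_num)
    _ = ‖xx q.1‖ * ‖xx q.2‖ := by
        rw [norm_mul, norm_cj]; ring

lemma LT1_w3_summable : Summable LT1_w3 := by
  have h := summ321 (a := (1, 0)) (b := (0, 0)) (c := (1, 0)) (d := (1, 0)) (e := (0, 0))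
    (f := (1, 0)) (by rw [LT1_xx, LT1_xx]; norm_num) (by rw [LT1_xx, LT1_xx]; norm_num)
  refine Summable.of_norm_bounded h fun q => ?_
  rw [LT1_LF, LT1_LF, LT1_LF, LT1_w3, norm_mul]
  have h1 := LT1_norm_c q
  have h2 : ‖1 / cj (xx q.1) ^ 2‖ = 1 / ‖xx q.1‖ ^ 2 := by
    rw [norm_div, norm_one, norm_pow, norm_cj]
  rw [h2]
  refine (mul_le_mul_of_nonneg_right h1 (by positivity)).trans (le_of_eq ?_)
  have e1 : ((1 : ℤ) : ℂ) * xx q.1 + ((0 : ℤ) : ℂ) * xx q.2 = xx q.1 := by push_cast; ring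
  have e2 : ((1 : ℤ) : ℂ) * xx q.1 + ((1 : ℤ) : ℂ) * xx q.2 = xx q.1 + xx q.2 := by push_cast; ring
  have e3 : ((0 : ℤ) : ℂ) * xx q.1 + ((1 : ℤ) : ℂ) * xx q.2 = xx q.2 := by push_cast; ring
  rw [e1, e2, e3, one_div_mul_one_div]
  congr 1
  ring

lemma LT1_inv_mul {z t : ℝ} (hz : 0 ≤ z) (ht : 0 ≤ t) : 1 / (z * t) ≤ 1 / z ^ 2 + 1 / t ^ 2 := by
  rcases eq_or_lt_of_le hz with h | h
  · rw [← h, zero_mul, div_zero]; positivity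
  rcases eq_or_lt_of_le ht with h' | h'
  · rw [← h', mul_zero, div_zero]; positivity
  rcases le_total z t with hzt | hzt
  · have : 1 / (z * t) ≤ 1 / z ^ 2 := one_div_le_one_div_of_le (by positivity) (by nlinarith)
    have : 0 ≤ 1 / t ^ 2 := by positivity
    linarith
  · have : 1 / (z * t) ≤ 1 / t ^ 2 := one_div_le_one_div_of_le (by positivity) (by nlinarith)
    have : 0 ≤ 1 / z ^ 2 := by positivity
    linarith

lemma LT1_w_summable : Summable LT1_w := by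
  have hA := summ222 (a := (1, 0)) (b := (1, 0)) (c := (1, 0)) (d := (0, 0)) (e := (0, 0))
    (f := (1, 0)) (by rw [LT1_xx, LT1_xx]; norm_num) (by rw [LT1_xx, LT1_xx]; norm_num)
    (by rw [LT1_xx, LT1_xx]; norm_num)
  have hB := summ222 (a := (1, 0)) (b := (1, 0)) (c := (1, 0)) (d := (0, 0)) (e := (1, 0))
    (f := (2, 0)) (by rw [LT1_xx, LT1_xx]; norm_num) (by rw [LT1_xx, LT1_xx]; norm_num)
    (by rw [LT1_xx, LT1_xx, LT1_xx]; norm_num)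
  refine Summable.of_norm_bounded (hA.add hB) fun q => ?_
  simp only [LT1_LF]
  rw [LT1_w, norm_mul]
  have h1 := LT1_norm_c q
  have h2 : ‖1 / (cj (xx q.1) * (cj (xx q.1) + 2 * cj (xx q.2)))‖ =
      1 / (‖xx q.1‖ * ‖xx q.1 + 2 * xx q.2‖) := by
    have : cj (xx q.1) + 2 * cj (xx q.2) = cj (xx q.1 + 2 * xx q.2) := by
      rw [cj_add, cj_mul, cj_two]
    rw [this, norm_div, norm_one, norm_mul, norm_cj, norm_cj]
  rw [h2]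
  refine (mul_le_mul_of_nonneg_right h1 (by positivity)).trans ?_
  have e1 : ((1 : ℤ) : ℂ) * xx q.1 + ((0 : ℤ) : ℂ) * xx q.2 = xx q.1 := by push_cast; ring
  have e2 : ((1 : ℤ) : ℂ) * xx q.1 + ((1 : ℤ) : ℂ) * xx q.2 = xx q.1 + xx q.2 := by push_cast; ring
  have e3 : ((0 : ℤ) : ℂ) * xx q.1 + ((1 : ℤ) : ℂ) * xx q.2 = xx q.2 := by push_cast; ring
  have e4 : ((1 : ℤ) : ℂ) * xx q.1 + ((2 : ℤ) : ℂ) * xx q.2 = xx q.1 + 2 * xx q.2 := by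
    push_cast; ring
  rw [e1, e2, e3, e4, one_div_mul_one_div]
  set x := ‖xx q.1 + xx q.2‖
  set y := ‖xx q.1‖
  set z := ‖xx q.2‖
  set t := ‖xx q.1 + 2 * xx q.2‖
  have hz : 0 ≤ z := norm_nonneg _
  have ht : 0 ≤ t := norm_nonneg _
  have e5 : 1 / (x ^ 2 * z * y * (y * t)) = 1 / (x ^ 2 * y ^ 2) * (1 / (z * t)) := by
    rw [one_div_mul_one_div]; congr 1; ring
  have e6 : 1 / (x ^ 2 * y ^ 2 * z ^ 2) + 1 / (x ^ 2 * y ^ 2 * t ^ 2) =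
      1 / (x ^ 2 * y ^ 2) * (1 / z ^ 2 + 1 / t ^ 2) := by
    rw [mul_add, one_div_mul_one_div, one_div_mul_one_div]
  rw [e5, e6]
  exact mul_le_mul_of_nonneg_left (LT1_inv_mul hz ht) (by positivity)

/-! ### reindexing -/

/-- `(s, m) ↦ (s + m, m)` -/
def LT1_e1 : (ℤ × ℤ) × (ℤ × ℤ) ≃ (ℤ × ℤ) × (ℤ × ℤ) where
  toFun q := (q.1 + q.2, q.2)
  invFun q := (q.1 - q.2, q.2)
  left_inv q := by ext <;> simp
  right_inv q := by ext <;> simp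

/-- `(s, m) ↦ (s + 2 m, -m)` -/
def LT1_e2 : (ℤ × ℤ) × (ℤ × ℤ) ≃ (ℤ × ℤ) × (ℤ × ℤ) where
  toFun q := (q.1 + q.2 + q.2, -q.2)
  invFun q := (q.1 + q.2 + q.2, -q.2)
  left_inv q := by ext <;> simp
  right_inv q := by ext <;> simp

/-- `(s, m) ↦ (s, -m)` -/
def LT1_e3 : (ℤ × ℤ) × (ℤ × ℤ) ≃ (ℤ × ℤ) × (ℤ × ℤ) where
  toFun q := (q.1, -q.2)
  invFun q := (q.1, -q.2)
  left_inv q := by ext <;> simp
  right_inv q := by ext <;> simp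

lemma LT1_ne {n : ℤ × ℤ} (h : ¬ Even n.2) : xx n ≠ 0 := by
  intro h0
  rw [xx_eq_zero] at h0
  rw [h0] at h
  exact h (by simp)

lemma LT1_half {F : (ℤ × ℤ) × (ℤ × ℤ) → ℂ} (e : (ℤ × ℤ) × (ℤ × ℤ) ≃ (ℤ × ℤ) × (ℤ × ℤ))
    (hF : Summable F) : ∑' q, (F q + F (e q)) = 2 * ∑' q, F q := by
  have h1 : Summable fun q => F (e q) := (Equiv.summable_iff e).mpr hF
  rw [hF.tsum_add h1, e.tsum_eq F]
  ring

lemma LT1_alg0 {a a' b b' c c' d d' J s : ℂ} (ha : a ≠ 0) (ha' : a' ≠ 0) (hb : b ≠ 0)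
    (hb' : b' ≠ 0) (h1 : c ≠ 0) (h1' : c' ≠ 0) (h2 : d ≠ 0) (h2' : d' ≠ 0)
    (e1 : c = a + b) (e1' : c' = a' + b') (e2 : d = a + 2 * b) (e2' : d' = a' + 2 * b') :
    (b ^ 2 * c' ^ 2 - b' ^ 2 * c ^ 2) * J /
        (c * c' * (b * b') * ((a * d) * (a' * d'))) * (s / (c' * a')) +
      (b ^ 2 * c' ^ 2 - b' ^ 2 * c ^ 2) * J /
        (c * c' * (b * b') * ((a * d) * (a' * d'))) * (s / (c' * d')) =
    s * ((b * a' - b' * a) * J) / (c * c' * (b * b') * (a * a')) * (1 / (a' * d')) +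
      s * ((-b * d' + b' * d) * J) / (c * c' * (b * b') * (d * d')) * (1 / (d' * a')) := by
  field_simp
  rw [e1, e1', e2, e2']
  ring

lemma LT1_alg1 {a a' b b' J s : ℂ} (ha : a ≠ 0) (ha' : a' ≠ 0) (hb : b ≠ 0) (hb' : b' ≠ 0)
    (h1 : a + b ≠ 0) (h1' : a' + b' ≠ 0) (h2 : a + 2 * b ≠ 0) (h2' : a' + 2 * b' ≠ 0) :
    (b ^ 2 * (a' + b') ^ 2 - b' ^ 2 * (a + b) ^ 2) * J /
        ((a + b) * (a' + b') * (b * b') * ((a * (a + 2 * b)) * (a' * (a' + 2 * b')))) *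
        (s / ((a' + b') * a')) +
      (b ^ 2 * (a' + b') ^ 2 - b' ^ 2 * (a + b) ^ 2) * J /
        ((a + b) * (a' + b') * (b * b') * ((a * (a + 2 * b)) * (a' * (a' + 2 * b')))) *
        (s / ((a' + b') * (a' + 2 * b'))) =
    s * ((b * a' - b' * a) * J) / ((a + b) * (a' + b') * (b * b') * (a * a')) *
        (1 / (a' * (a' + 2 * b'))) +
      s * ((-b * (a' + 2 * b') + b' * (a + 2 * b)) * J) /
        ((a + b) * (a' + b') * (b * b') * ((a + 2 * b) * (a' + 2 * b'))) *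
        (1 / ((a' + 2 * b') * a')) :=
  LT1_alg0 ha ha' hb hb' h1 h1' h2 h2' rfl rfl rfl rfl

lemma LT1_pt1 (q : (ℤ × ℤ) × (ℤ × ℤ)) :
    LT1_t1 (LT1_e1 q) + LT1_t1 (LT1_e1 (LT1_e2 q)) = LT1_w q + LT1_w (LT1_e2 q) := by
  obtain ⟨s, m⟩ := q
  by_cases hm : Even m.2
  swap
  · have e1 : ev m = 0 := by unfold ev; rw [if_neg hm]
    have e2 : ev (-m) = 0 := by unfold ev; rw [if_neg (by simpa using hm)]
    simp [LT1_t1, LT1_w, LT1_c, LT1_e1, LT1_e2, e1, e2]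
  by_cases hs : Even s.2
  · have e1 : od s = 0 := by unfold od; rw [if_pos hs]
    have e2 : od (s + m) = 0 := by unfold od; rw [if_pos (by simpa using hs.add hm)]
    have e3 : od (s + m + m) = 0 := by
      unfold od; rw [if_pos (by simpa using (hs.add hm).add hm)]
    have e4 : od (s + m + m + -m) = 0 := by rw [add_neg_cancel_right]; exact e2
    simp [LT1_t1, LT1_w, LT1_c, LT1_e1, LT1_e2, e1, e2, e3]
  have hsm : ¬ Even (s + m).2 := by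
    rw [Prod.snd_add, Int.even_add]; tauto
  have hsmm : ¬ Even (s + m + m).2 := by
    rw [Prod.snd_add, Int.even_add]; tauto
  have o1 : od s = 1 := by unfold od; rw [if_neg hs]
  have o2 : od (s + m) = 1 := by unfold od; rw [if_neg hsm]
  have o3 : od (s + m + m) = 1 := by unfold od; rw [if_neg hsmm]
  have v1 : ev m = 1 := by unfold ev; rw [if_pos hm]
  have v2 : ev (-m) = 1 := by unfold ev; rw [if_pos (by simpa using hm)]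
  have g1 : sg (s + m + m) = sg s := by
    unfold sg
    have : Even (s + m + m).1 ↔ Even s.1 := by
      rw [Prod.fst_add, Prod.fst_add, Int.even_add, Int.even_add]; tauto
    simp only [this]
  rcases eq_or_ne m 0 with rfl | hm0
  · have hx : xx (0 : ℤ × ℤ) = 0 := xx_zero
    simp [LT1_t1, LT1_w, LT1_c, LT1_e1, LT1_e2, hx]
  have n0 : xx m ≠ 0 := fun h => hm0 (xx_eq_zero.mp h)
  have n1 : xx s ≠ 0 := LT1_ne hs
  have n2 : xx s + xx m ≠ 0 := by rw [← xx_add]; exact LT1_ne hsm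
  have n3 : xx s + 2 * xx m ≠ 0 := by
    have : xx s + 2 * xx m = xx (s + m + m) := by rw [xx_add, xx_add]; ring
    rw [this]; exact LT1_ne hsmm
  have c0 : cj (xx m) ≠ 0 := fun h => n0 (cj_eq_zero.mp h)
  have c1 : cj (xx s) ≠ 0 := fun h => n1 (cj_eq_zero.mp h)
  have c2 : cj (xx s) + cj (xx m) ≠ 0 := by
    rw [← cj_add]; exact fun h => n2 (cj_eq_zero.mp h)
  have c3 : cj (xx s) + 2 * cj (xx m) ≠ 0 := by
    have : cj (xx s) + 2 * cj (xx m) = cj (xx s + 2 * xx m) := by rw [cj_add, cj_mul, cj_two]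
    rw [this]; exact fun h => n3 (cj_eq_zero.mp h)
  have key := LT1_alg1 (J := 1 / (2 * Complex.I)) (s := sg s) n1 c1 n0 c0 n2 c2 n3 c3
  have f1 : LT1_t1 (LT1_e1 (s, m)) =
      (xx m ^ 2 * (cj (xx s) + cj (xx m)) ^ 2 - cj (xx m) ^ 2 * (xx s + xx m) ^ 2) *
        (1 / (2 * Complex.I)) /
        ((xx s + xx m) * (cj (xx s) + cj (xx m)) * (xx m * cj (xx m)) *
          ((xx s * (xx s + 2 * xx m)) * (cj (xx s) * (cj (xx s) + 2 * cj (xx m))))) *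
        (sg s / ((cj (xx s) + cj (xx m)) * cj (xx s))) := by
    simp only [LT1_t1, LT1_e1, Equiv.coe_fn_mk, o2, v1, LT1_im, xx_add, cj_add, cj_mul, cj_pow,
      cj_cj, add_sub_cancel_right, one_mul]
    congr 2
    ring
  have f2 : LT1_t1 (LT1_e1 (LT1_e2 (s, m))) =
      (xx m ^ 2 * (cj (xx s) + cj (xx m)) ^ 2 - cj (xx m) ^ 2 * (xx s + xx m) ^ 2) *
        (1 / (2 * Complex.I)) /
        ((xx s + xx m) * (cj (xx s) + cj (xx m)) * (xx m * cj (xx m)) *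
          ((xx s * (xx s + 2 * xx m)) * (cj (xx s) * (cj (xx s) + 2 * cj (xx m))))) *
        (sg s / ((cj (xx s) + cj (xx m)) * (cj (xx s) + 2 * cj (xx m)))) := by
    simp only [LT1_t1, LT1_e1, LT1_e2, Equiv.coe_fn_mk, add_neg_cancel_right, o2, v2, LT1_im,
      xx_add, xx_neg, cj_add, cj_neg, cj_mul, cj_pow, cj_cj, one_mul, sub_neg_eq_add, g1]
    congr 2
    · ring
    · ring
    · ring
  have f3 : LT1_w (s, m) =
      sg s * ((xx m * cj (xx s) - cj (xx m) * xx s) * (1 / (2 * Complex.I))) /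
        ((xx s + xx m) * (cj (xx s) + cj (xx m)) * (xx m * cj (xx m)) * (xx s * cj (xx s))) *
        (1 / (cj (xx s) * (cj (xx s) + 2 * cj (xx m)))) := by
    simp only [LT1_w, LT1_c, o1, v1, LT1_im, cj_add, cj_mul, cj_cj, one_mul]
  have f4 : LT1_w (LT1_e2 (s, m)) =
      sg s * ((-xx m * (cj (xx s) + 2 * cj (xx m)) + cj (xx m) * (xx s + 2 * xx m)) *
        (1 / (2 * Complex.I))) /
        ((xx s + xx m) * (cj (xx s) + cj (xx m)) * (xx m * cj (xx m)) *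
          ((xx s + 2 * xx m) * (cj (xx s) + 2 * cj (xx m)))) *
        (1 / ((cj (xx s) + 2 * cj (xx m)) * cj (xx s))) := by
    simp only [LT1_w, LT1_c, LT1_e2, Equiv.coe_fn_mk, o3, v2, LT1_im, xx_add, xx_neg, cj_add,
      cj_neg, cj_mul, cj_cj, one_mul, g1]
    congr 2
    · ring
    · ring
    · ring
  rw [f1, f2, f3, f4]
  exact key

lemma LT1_alg2 {a a' b b' J s : ℂ} (ha : a ≠ 0) (ha' : a' ≠ 0) (hb : b ≠ 0) (hb' : b' ≠ 0)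
    (h1 : a + b ≠ 0) (h1' : a' + b' ≠ 0) (h2 : a - b ≠ 0) (h2' : a' - b' ≠ 0) :
    -2 * ((b ^ 2 * a' ^ 2 - b' ^ 2 * a ^ 2) * J /
        (a * a' * (b * b') * (((a - b) * (a + b)) * ((a' - b') * (a' + b')))) *
        (s / a' ^ 2)) =
    s * ((b * a' - b' * a) * J) / ((a + b) * (a' + b') * (b * b') * (a * a')) * (1 / a' ^ 2) +
      s * ((-b * a' + b' * a) * J) / ((a - b) * (a' - b') * (b * b') * (a * a')) *
        (1 / a' ^ 2) := by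
  field_simp
  ring

lemma LT1_pt2 (q : (ℤ × ℤ) × (ℤ × ℤ)) :
    -2 * LT1_t2 q = LT1_w3 q + LT1_w3 (LT1_e3 q) := by
  obtain ⟨s, m⟩ := q
  by_cases hm : Even m.2
  swap
  · have e1 : ev m = 0 := by unfold ev; rw [if_neg hm]
    have e2 : ev (-m) = 0 := by unfold ev; rw [if_neg (by simpa using hm)]
    simp [LT1_t2, LT1_w3, LT1_c, LT1_e3, e1, e2]
  by_cases hs : Even s.2
  · have e1 : od s = 0 := by unfold od; rw [if_pos hs]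
    simp [LT1_t2, LT1_w3, LT1_c, LT1_e3, e1]
  have hsm : ¬ Even (s + m).2 := by
    rw [Prod.snd_add, Int.even_add]; tauto
  have hsm' : ¬ Even (s - m).2 := by
    rw [Prod.snd_sub, Int.even_sub]; tauto
  have o1 : od s = 1 := by unfold od; rw [if_neg hs]
  have v1 : ev m = 1 := by unfold ev; rw [if_pos hm]
  have v2 : ev (-m) = 1 := by unfold ev; rw [if_pos (by simpa using hm)]
  rcases eq_or_ne m 0 with rfl | hm0
  · have hx : xx (0 : ℤ × ℤ) = 0 := xx_zero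
    simp [LT1_t2, LT1_w3, LT1_c, LT1_e3, hx]
  have n0 : xx m ≠ 0 := fun h => hm0 (xx_eq_zero.mp h)
  have n1 : xx s ≠ 0 := LT1_ne hs
  have n2 : xx s + xx m ≠ 0 := by rw [← xx_add]; exact LT1_ne hsm
  have n3 : xx s - xx m ≠ 0 := by rw [← xx_sub]; exact LT1_ne hsm'
  have c0 : cj (xx m) ≠ 0 := fun h => n0 (cj_eq_zero.mp h)
  have c1 : cj (xx s) ≠ 0 := fun h => n1 (cj_eq_zero.mp h)
  have c2 : cj (xx s) + cj (xx m) ≠ 0 := by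
    rw [← cj_add]; exact fun h => n2 (cj_eq_zero.mp h)
  have c3 : cj (xx s) - cj (xx m) ≠ 0 := by
    rw [← cj_sub]; exact fun h => n3 (cj_eq_zero.mp h)
  have key := LT1_alg2 (J := 1 / (2 * Complex.I)) (s := sg s) n1 c1 n0 c0 n2 c2 n3 c3
  have f1 : LT1_t2 (s, m) =
      (xx m ^ 2 * cj (xx s) ^ 2 - cj (xx m) ^ 2 * xx s ^ 2) * (1 / (2 * Complex.I)) /
        (xx s * cj (xx s) * (xx m * cj (xx m)) * (((xx s - xx m) * (xx s + xx m)) *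
          ((cj (xx s) - cj (xx m)) * (cj (xx s) + cj (xx m))))) * (sg s / cj (xx s) ^ 2) := by
    simp only [LT1_t2, o1, v1, LT1_im, cj_mul, cj_pow, cj_cj, one_mul]
    congr 2
    ring
  have f3 : LT1_w3 (s, m) =
      sg s * ((xx m * cj (xx s) - cj (xx m) * xx s) * (1 / (2 * Complex.I))) /
        ((xx s + xx m) * (cj (xx s) + cj (xx m)) * (xx m * cj (xx m)) * (xx s * cj (xx s))) *
        (1 / cj (xx s) ^ 2) := by
    simp only [LT1_w3, LT1_c, o1, v1, LT1_im, cj_add, cj_mul, cj_cj, one_mul]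
  have f4 : LT1_w3 (LT1_e3 (s, m)) =
      sg s * ((-xx m * cj (xx s) + cj (xx m) * xx s) * (1 / (2 * Complex.I))) /
        ((xx s - xx m) * (cj (xx s) - cj (xx m)) * (xx m * cj (xx m)) * (xx s * cj (xx s))) *
        (1 / cj (xx s) ^ 2) := by
    simp only [LT1_w3, LT1_c, LT1_e3, Equiv.coe_fn_mk, o1, v2, LT1_im, xx_neg, cj_add,
      cj_neg, cj_mul, cj_cj, one_mul]
    congr 2
    · ring
    · ring
  rw [f1, f3, f4]
  exact key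

lemma LT1_split (q : (ℤ × ℤ) × (ℤ × ℤ)) : od q.1 * ev q.2 *
    (((xx q.2 ^ 2 * cj (xx q.1) ^ 2).im : ℝ) : ℂ) /
      (xx q.1 * cj (xx q.1) * (xx q.2 * cj (xx q.2)) *
        ((xx q.1 ^ 2 - xx q.2 ^ 2) * (cj (xx q.1) ^ 2 - cj (xx q.2) ^ 2))) *
    (sg (q.1 - q.2) / (cj (xx q.1) * (cj (xx q.1) - cj (xx q.2))) - sg q.1 / cj (xx q.1) ^ 2) =
    LT1_t1 q - LT1_t2 q := by
  rw [mul_sub]
  rfl

theorem TT_summable : Summable (fun q : (ℤ × ℤ) × (ℤ × ℤ) => od q.1 * ev q.2 *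
    (((xx q.2 ^ 2 * cj (xx q.1) ^ 2).im : ℝ) : ℂ) /
      (xx q.1 * cj (xx q.1) * (xx q.2 * cj (xx q.2)) *
        ((xx q.1 ^ 2 - xx q.2 ^ 2) * (cj (xx q.1) ^ 2 - cj (xx q.2) ^ 2))) *
    (sg (q.1 - q.2) / (cj (xx q.1) * (cj (xx q.1) - cj (xx q.2))) - sg q.1 / cj (xx q.1) ^ 2)) := by
  simp only [LT1_split]
  exact LT1_t1_summable.sub LT1_t2_summable

lemma LT1_sum1 : ∑' q, LT1_t1 q = ∑' q, LT1_w q := by
  have hu : Summable (fun q => LT1_t1 (LT1_e1 q)) := (Equiv.summable_iff LT1_e1).mpr LT1_t1_summable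
  have h1 := LT1_half LT1_e2 hu
  have h2 := LT1_half LT1_e2 LT1_w_summable
  have h3 : ∑' q, (LT1_t1 (LT1_e1 q) + LT1_t1 (LT1_e1 (LT1_e2 q))) =
      ∑' q, (LT1_w q + LT1_w (LT1_e2 q)) := tsum_congr LT1_pt1
  have h4 := LT1_e1.tsum_eq LT1_t1
  rw [← h4]
  have h5 : (2 : ℂ) * ∑' q, LT1_t1 (LT1_e1 q) = 2 * ∑' q, LT1_w q := by
    rw [← h1, ← h2, h3]
  exact mul_left_cancel₀ two_ne_zero h5

lemma LT1_sum2 : ∑' q, LT1_t2 q = -∑' q, LT1_w3 q := by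
  have h2 := LT1_half LT1_e3 LT1_w3_summable
  have h3 : ∑' q, (-2 * LT1_t2 q) = ∑' q, (LT1_w3 q + LT1_w3 (LT1_e3 q)) := tsum_congr LT1_pt2
  rw [tsum_mul_left, h2] at h3
  linear_combination (-1 / 2 : ℂ) * h3

lemma LT1_ts (q : (ℤ × ℤ) × (ℤ × ℤ)) : LT1_w q + LT1_w3 q =
    od q.1 * ev q.2 * sg q.1 * (((xx q.2 * cj (xx q.1)).im : ℝ) : ℂ) /
    ((xx q.1 + xx q.2) * cj (xx q.1 + xx q.2) * (xx q.2 * cj (xx q.2)) * (xx q.1 * cj (xx q.1))) *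
  (2 * cj (xx q.1 + xx q.2) / (cj (xx q.1) ^ 2 * cj (xx q.1 + 2 * xx q.2))) := by
  obtain ⟨s, m⟩ := q
  by_cases hm : Even m.2
  swap
  · have e1 : ev m = 0 := by unfold ev; rw [if_neg hm]
    simp [LT1_w, LT1_w3, LT1_c, e1]
  by_cases hs : Even s.2
  · have e1 : od s = 0 := by unfold od; rw [if_pos hs]
    simp [LT1_w, LT1_w3, LT1_c, e1]
  have hsmm : ¬ Even (s + m + m).2 := by
    rw [Prod.snd_add, Int.even_add, Prod.snd_add, Int.even_add]; tauto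
  have n1 : xx s ≠ 0 := LT1_ne hs
  have n3 : xx s + 2 * xx m ≠ 0 := by
    have : xx s + 2 * xx m = xx (s + m + m) := by rw [xx_add, xx_add]; ring
    rw [this]; exact LT1_ne hsmm
  have c1 : cj (xx s) ≠ 0 := fun h => n1 (cj_eq_zero.mp h)
  have e3 : cj (xx s + 2 * xx m) = cj (xx s) + 2 * cj (xx m) := by rw [cj_add, cj_mul, cj_two]
  have c3 : cj (xx s) + 2 * cj (xx m) ≠ 0 := by
    rw [← e3]; exact fun h => n3 (cj_eq_zero.mp h)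
  have e4 : 1 / (cj (xx s) * (cj (xx s) + 2 * cj (xx m))) + 1 / cj (xx s) ^ 2 =
      2 * (cj (xx s) + cj (xx m)) / (cj (xx s) ^ 2 * (cj (xx s) + 2 * cj (xx m))) := by
    field_simp
    ring
  show LT1_c (s, m) * (1 / (cj (xx s) * (cj (xx s) + 2 * cj (xx m)))) +
    LT1_c (s, m) * (1 / cj (xx s) ^ 2) = LT1_c (s, m) *
      (2 * cj (xx s + xx m) / (cj (xx s) ^ 2 * cj (xx s + 2 * xx m)))
  rw [← mul_add, e4, e3, cj_add]

theorem TT_eq_TS : TT = TS := by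
  unfold TT TS
  simp only [LT1_split]
  rw [LT1_t1_summable.tsum_sub LT1_t2_summable, LT1_sum1, LT1_sum2, sub_neg_eq_add,
    ← LT1_w_summable.tsum_add LT1_w3_summable]
  exact tsum_congr LT1_ts

end EE7
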