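import Mathlib
import Pool.Agent.EE7.LF0
import Pool.Agent.EE7.LSumm

/-!
# EE7/LT2: `TS = -i UU`

Notation `s = xx q.1` (odd), `m = xx q.2` (even, i.e. `q.2.2` even), `σ = sg`.
PROOF. `Im(m s̄) = (m s̄ - m̄ s)/(2i)`, `(s̄+m̄)/|s+m|² = 1/(s+m)`, so for `m ≠ 0` the term of `TS` is
`-i σ(s) [1/(m̄ s) - 1/(m s̄)] / ((s+m) s̄² (s̄+2m̄))`, and by partial fractions it is
`-i (σ(s)/(s s̄³)) a_s(m)`, `a_s(m) = 1/((s+m) m̄) - 1/((s+m)(s̄+2m̄)) - 1/(m (s̄+2m̄))`
(`a_s(m) = O(|m|⁻³)` for fixed `s`; put `a_s(0) = 0`).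
The term of `UU`: for `l, k ∈ O`:
`KK(s, l) = (1/(s s̄³)) b_s(l)`, `b_s(l) = 1/(l (l̄ - s̄)) - 1/(l l̄)` for `l ≠ 0, s` (else `0`),
`-2 KK(s, 2k) = (1/(s s̄³)) c_s(k)`, `c_s(k) = -1/(k (2k̄ - s̄)) + 1/(2 k k̄)` for `k ≠ 0` (else
`0`; `2k ≠ s`).
So with absolutely convergent inner sums (all `O(|.|⁻³)`)
`UU = Σ_s od(s) (σ(s)/(s s̄³)) [Σ_{l odd, ≠ s} b_s(l) + Σ_{k ≠ 0} c_s(k)]`. Split `k` into odd ones
(`k = s + m`, `m` even, all `m`) and even ones (`k = -m`, `m` even `≠ 0`), `l = s + m`, `m ≠ 0`: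
`[..] = c_s(s) + Σ_{m even, ≠ 0} [b_s(s+m) + c_s(s+m) + c_s(-m)]`, and the bracket is
`a_s(m) - ½ (1/|s+m|² - 1/|m|²)`; `c_s(s) = -1/(2|s|²)`; by `f0`
(the term `m = 0` of `f0` is `1/|s|²`): `Σ_{m even, ≠ 0} (1/|s+m|² - 1/|m|²) = -1/|s|²`. So
`[..] = Σ_m a_s(m) + 1/(2|s|²) - 1/(2|s|²) = Σ_m a_s(m)`. Hence `TS = -i UU`.
Absolute convergence of the double sums: `summ3111` for `TS` (term
`≤ 2/(|s|³ |m| |s+m| |s+2m|)`), `summ_KK` for `UU`; then `tsum_prod`.
-/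

namespace EE7

/-- the term of `TS` -/
private noncomputable def LT2_t (q : (ℤ × ℤ) × (ℤ × ℤ)) : ℂ := od q.1 * ev q.2 * sg q.1 *
  (((xx q.2 * cj (xx q.1)).im : ℝ) : ℂ) /
    ((xx q.1 + xx q.2) * cj (xx q.1 + xx q.2) * (xx q.2 * cj (xx q.2)) * (xx q.1 * cj (xx q.1))) *
  (2 * cj (xx q.1 + xx q.2) / (cj (xx q.1) ^ 2 * cj (xx q.1 + 2 * xx q.2)))

private lemma LT2_od_norm (n : ℤ × ℤ) : ‖od n‖ ≤ 1 := by
  unfold od; split_ifs <;> simp

private lemma LT2_ev_norm (n : ℤ × ℤ) : ‖ev n‖ ≤ 1 := by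
  unfold ev; split_ifs <;> simp

private lemma LT2_sg_norm (n : ℤ × ℤ) : ‖sg n‖ ≤ 1 := by
  unfold sg; split_ifs <;> simp

private lemma LT2_xx10 : xx (1, 0) = 1 := by simp [xx_def]
private lemma LT2_xx20 : xx (2, 0) = 2 := by simp [xx_def]
private lemma LT2_xx00 : xx (0, 0) = 0 := by simp [xx_def]

private lemma LT2_aux {x y z w c : ℝ} (hx : 0 ≤ x) (hy : 0 ≤ y) (hz : 0 ≤ z) (hw : 0 ≤ w)
    (hc' : c ≤ y * x) :
    c / (z * z * (y * y) * (x * x)) * (2 * z / (x ^ 2 * w)) ≤ 2 * (1 / (x ^ 3 * y * z * w)) := by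
  rcases hx.eq_or_lt with h | hx
  · subst h; simp
  rcases hy.eq_or_lt with h | hy
  · subst h; simp
  rcases hz.eq_or_lt with h | hz
  · subst h; simp
  rcases hw.eq_or_lt with h | hw
  · subst h; simp
  calc c / (z * z * (y * y) * (x * x)) * (2 * z / (x ^ 2 * w))
      ≤ (y * x) / (z * z * (y * y) * (x * x)) * (2 * z / (x ^ 2 * w)) := by gcongr
    _ = 2 * (1 / (x ^ 3 * y * z * w)) := by field_simp

private lemma LT2_t_summable : Summable LT2_t := by
  have h := (summ3111 (a := (1, 0)) (b := (0, 0)) (c := (0, 0)) (d := (1, 0)) (e := (1, 0))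
    (f := (1, 0)) (g := (1, 0)) (h := (2, 0)) (by simp [LT2_xx10, LT2_xx00])
    (by simp [LT2_xx10, LT2_xx00]) (by simp [LT2_xx10, LT2_xx00, LT2_xx20])).mul_left 2
  refine Summable.of_norm_bounded h fun q => ?_
  have e1 : LF (1, 0) (0, 0) q = xx q.1 := by simp [LF, LT2_xx10, LT2_xx00]
  have e2 : LF (0, 0) (1, 0) q = xx q.2 := by simp [LF, LT2_xx10, LT2_xx00]
  have e3 : LF (1, 0) (1, 0) q = xx q.1 + xx q.2 := by simp [LF, LT2_xx10]
  have e4 : LF (1, 0) (2, 0) q = xx q.1 + 2 * xx q.2 := by simp [LF, LT2_xx10, LT2_xx20]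
  rw [e1, e2, e3, e4]
  set s := xx q.1
  set m := xx q.2
  have him : ‖od q.1 * ev q.2 * sg q.1 * (((m * cj s).im : ℝ) : ℂ)‖ ≤ ‖m‖ * ‖s‖ := by
    have h1 := LT2_od_norm q.1
    have h2 := LT2_ev_norm q.2
    have h3 := LT2_sg_norm q.1
    have h4 : ‖(((m * cj s).im : ℝ) : ℂ)‖ ≤ ‖m‖ * ‖s‖ := by
      rw [Complex.norm_real, Real.norm_eq_abs]
      refine (Complex.abs_im_le_norm _).trans ?_
      rw [norm_mul, norm_cj]
    rw [norm_mul, norm_mul, norm_mul]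
    calc ‖od q.1‖ * ‖ev q.2‖ * ‖sg q.1‖ * ‖(((m * cj s).im : ℝ) : ℂ)‖
        ≤ 1 * 1 * 1 * (‖m‖ * ‖s‖) := by gcongr
      _ = _ := by ring
  have := LT2_aux (norm_nonneg s) (norm_nonneg m) (norm_nonneg (s + m))
    (norm_nonneg (s + 2 * m)) him
  refine le_trans (le_of_eq ?_) this
  unfold LT2_t
  rw [norm_mul, norm_div, norm_div]
  simp only [norm_mul, norm_cj, norm_pow, Complex.norm_ofNat]
  rfl

private lemma LT2_KK1 : Summable (fun q : (ℤ × ℤ) × (ℤ × ℤ) => KK (xx q.1) (xx q.2)) := by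
  have := summ_KK (a := (1, 0)) (b := (1, 0)) (by simp) (by simp)
  simpa only [LT2_xx10, one_mul] using this

private lemma LT2_KK2 : Summable (fun q : (ℤ × ℤ) × (ℤ × ℤ) => KK (xx q.1) (2 * xx q.2)) := by
  have := summ_KK (a := (1, 0)) (b := (2, 0)) (by simp) (by simp)
  simpa only [LT2_xx10, LT2_xx20, one_mul] using this

/-- the term of `UU` -/
private noncomputable def LT2_u (q : (ℤ × ℤ) × (ℤ × ℤ)) : ℂ := sg q.1 * od q.1 *
  (od q.2 * KK (xx q.1) (xx q.2) - 2 * KK (xx q.1) (2 * xx q.2))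

private lemma LT2_bdd {ι : Type*} {f : ι → ℂ} (hf : Summable f) {c : ι → ℂ}
    (hc : ∀ i, ‖c i‖ ≤ 1) : Summable fun i => c i * f i := by
  refine Summable.of_norm_bounded hf.norm fun i => ?_
  rw [norm_mul]
  exact mul_le_of_le_one_left (norm_nonneg _) (hc i)

private lemma LT2_u_summable : Summable LT2_u := by
  have h1 := LT2_bdd LT2_KK1 (c := fun q => od q.2) fun q => LT2_od_norm _
  have h2 := (h1.sub (LT2_KK2.mul_left 2))
  refine LT2_bdd h2 (c := fun q => sg q.1 * od q.1) fun q => ?_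
  rw [norm_mul]
  exact mul_le_one₀ (LT2_sg_norm _) (norm_nonneg _) (LT2_od_norm _)

private lemma LT2_od_add {n : ℤ × ℤ} (hn : ¬ Even n.2) (m : ℤ × ℤ) : od (n + m) = ev m := by
  unfold od ev
  have : Even (n + m).2 ↔ ¬ Even m.2 := by
    rw [Prod.snd_add, Int.even_add]; tauto
  by_cases h : Even m.2
  · rw [if_neg (by rw [this]; exact not_not.2 h), if_pos h]
  · rw [if_pos (this.2 h), if_neg h]

private lemma LT2_ev_neg (m : ℤ × ℤ) : ev (-m) = ev m := by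
  unfold ev
  simp

private lemma LT2_ev_add_od (m : ℤ × ℤ) : ev m + od m = 1 := by
  unfold ev od; split_ifs <;> simp

private lemma LT2_gg (n : ℤ × ℤ) : gg n = 1 / (xx n * cj (xx n)) := rfl

private lemma LT2_point {n m : ℤ × ℤ} (hn : ¬ Even n.2) (hm : Even m.2) :
    (((xx m * cj (xx n)).im : ℝ) : ℂ) /
      ((xx n + xx m) * cj (xx n + xx m) * (xx m * cj (xx m)) * (xx n * cj (xx n))) *
      (2 * cj (xx n + xx m) / (cj (xx n) ^ 2 * cj (xx n + 2 * xx m))) =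
    -Complex.I * (KK (xx n) (xx (n + m)) - 2 * KK (xx n) (2 * xx (n + m))
      - 2 * KK (xx n) (2 * xx (-m)))
      - (Complex.I / 2) * (1 / (xx n * cj (xx n) ^ 3)) * (gg (n + m) - gg m) := by
  have hs : xx n ≠ 0 := by
    rw [Ne, xx_eq_zero]; rintro rfl; exact hn (by simp)
  have hS : cj (xx n) ≠ 0 := by rwa [Ne, cj_eq_zero]
  rw [xx_add, xx_neg, LT2_gg, LT2_gg, xx_add, Complex.im_eq_sub_conj]
  by_cases h0 : m = 0
  · subst h0
    simp only [KK, xx_zero, zero_mul, map_zero, sub_zero, zero_div, add_zero, mul_zero, neg_zero,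
      div_zero]
    rw [cj_mul, cj_two, sub_self]
    have h2 : 2 * cj (xx n) - cj (xx n) = cj (xx n) := by ring
    rw [h2]
    field_simp
    ring
  have hm0 : xx m ≠ 0 := by rwa [Ne, xx_eq_zero]
  have hM : cj (xx m) ≠ 0 := by rwa [Ne, cj_eq_zero]
  have hsm : xx n + xx m ≠ 0 := by
    rw [← xx_add, Ne, xx_eq_zero]
    intro h
    have := congrArg Prod.snd h
    simp only [Prod.snd_add, Prod.snd_zero] at this
    apply hn
    have e : n.2 = -m.2 := by linarith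
    rw [e]; exact hm.neg
  have hSM : cj (xx n) + cj (xx m) ≠ 0 := by rwa [← cj_add, Ne, cj_eq_zero]
  have hs2 : xx n + 2 * xx m ≠ 0 := by
    rw [two_mul_xx, ← xx_add, Ne, xx_eq_zero]
    intro h
    have := congrArg Prod.snd h
    simp only [Prod.snd_add, Prod.snd_zero] at this
    apply hn
    have e : n.2 = 2 * (-m.2) := by linarith
    rw [e]; exact even_two_mul _
  have hS2 : cj (xx n) + 2 * cj (xx m) ≠ 0 := by
    rw [← cj_two, ← cj_mul, ← cj_add, Ne, cj_eq_zero]; exact hs2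
  simp only [KK]
  have c1 : (starRingEnd ℂ) (xx m * cj (xx n)) = cj (xx m) * xx n := by
    show cj (xx m * cj (xx n)) = _
    rw [cj_mul, cj_cj]
  rw [c1]
  simp only [cj_add, cj_mul, cj_two, cj_neg]
  have d1 : cj (xx n) + cj (xx m) - cj (xx n) = cj (xx m) := by ring
  have d2 : 2 * (cj (xx n) + cj (xx m)) - cj (xx n) = cj (xx n) + 2 * cj (xx m) := by ring
  have d3 : 2 * -cj (xx m) - cj (xx n) = -(cj (xx n) + 2 * cj (xx m)) := by ring
  rw [d1, d2, d3]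
  generalize xx n = a at *
  generalize xx m = b at *
  generalize cj a = A at *
  generalize cj b = B at *
  have hI : Complex.I ≠ 0 := Complex.I_ne_zero
  obtain ⟨D, hD⟩ : ∃ D, D = A + 2 * B := ⟨_, rfl⟩
  rw [← hD] at hS2 ⊢
  have hI2 : Complex.I ^ 2 = -1 := Complex.I_sq
  field_simp
  rw [hI2]
  rw [hD]
  ring

private lemma LT2_inner (n : ℤ × ℤ) :
    ∑' m : ℤ × ℤ, LT2_t (n, m) = -Complex.I * ∑' m : ℤ × ℤ, LT2_u (n, m) := by
  by_cases hn : Even n.2
  · have h0 : od n = 0 := by simp [od, hn]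
    simp [LT2_t, LT2_u, h0]
  have h1 : od n = 1 := by simp [od, hn]
  have sA0 : Summable fun k => KK (xx n) (xx k) := LT2_KK1.prod_factor n
  have sB : Summable fun k => KK (xx n) (2 * xx k) := LT2_KK2.prod_factor n
  have sA : Summable fun k => od k * KK (xx n) (xx k) := LT2_bdd sA0 LT2_od_norm
  have sBe : Summable fun k => ev k * KK (xx n) (2 * xx k) := LT2_bdd sB LT2_ev_norm
  have sBo : Summable fun k => od k * KK (xx n) (2 * xx k) := LT2_bdd sB LT2_od_norm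
  have tA : ∑' k, od k * KK (xx n) (xx k) = ∑' m, ev m * KK (xx n) (xx (n + m)) := by
    rw [← (Equiv.addLeft n).tsum_eq]
    simp only [Equiv.coe_addLeft, LT2_od_add hn]
  have tBo : ∑' k, od k * KK (xx n) (2 * xx k) = ∑' m, ev m * KK (xx n) (2 * xx (n + m)) := by
    rw [← (Equiv.addLeft n).tsum_eq]
    simp only [Equiv.coe_addLeft, LT2_od_add hn]
  have tBe : ∑' k, ev k * KK (xx n) (2 * xx k) = ∑' m, ev m * KK (xx n) (2 * xx (-m)) := by
    rw [← (Equiv.neg (ℤ × ℤ)).tsum_eq]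
    simp only [Equiv.neg_apply, LT2_ev_neg]
  have s1 : Summable fun m => ev m * KK (xx n) (xx (n + m)) := by
    have := (Equiv.addLeft n).summable_iff.mpr sA
    exact this.congr fun m => by simp [LT2_od_add hn]
  have s2 : Summable fun m => ev m * KK (xx n) (2 * xx (n + m)) := by
    have := (Equiv.addLeft n).summable_iff.mpr sBo
    exact this.congr fun m => by simp [LT2_od_add hn]
  have s3 : Summable fun m => ev m * KK (xx n) (2 * xx (-m)) := by
    have := (Equiv.neg (ℤ × ℤ)).summable_iff.mpr sBe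
    exact this.congr fun m => by simp [LT2_ev_neg]
  have tB : ∑' k, KK (xx n) (2 * xx k) =
      ∑' m, ev m * KK (xx n) (2 * xx (n + m)) + ∑' m, ev m * KK (xx n) (2 * xx (-m)) := by
    rw [← tBo, ← tBe, ← sBo.tsum_add sBe]
    refine tsum_congr fun k => ?_
    rw [← add_mul, add_comm, LT2_ev_add_od, one_mul]
  have tu : ∑' m : ℤ × ℤ, LT2_u (n, m) = sg n * (∑' m, ev m * KK (xx n) (xx (n + m))
      - 2 * (∑' m, ev m * KK (xx n) (2 * xx (n + m)) +
        ∑' m, ev m * KK (xx n) (2 * xx (-m)))) := by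
    unfold LT2_u
    simp only [h1, mul_one]
    rw [tsum_mul_left, sA.tsum_sub (sB.mul_left 2), tsum_mul_left, tA, tB]
  have tt : ∑' m : ℤ × ℤ, LT2_t (n, m) = sg n * (-Complex.I * (∑' m, ev m * KK (xx n) (xx (n + m))
      - 2 * ∑' m, ev m * KK (xx n) (2 * xx (n + m)) -
        2 * ∑' m, ev m * KK (xx n) (2 * xx (-m))) -
        (Complex.I / 2) * (1 / (xx n * cj (xx n) ^ 3)) *
          ∑' m : ℤ × ℤ, ev m * (gg (n + m) - gg m)) := by
    rw [← tsum_mul_left, ← tsum_mul_left (a := (2 : ℂ)) (f := fun m => ev m * KK (xx n) (2 * xx (-m))),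
      ← s1.tsum_sub (s2.mul_left 2), ← (s1.sub (s2.mul_left 2)).tsum_sub (s3.mul_left 2),
      ← tsum_mul_left, ← tsum_mul_left (f := fun m : ℤ × ℤ => ev m * (gg (n + m) - gg m)),
      ← (((s1.sub (s2.mul_left 2)).sub (s3.mul_left 2)).mul_left _).tsum_sub
        ((f0_summable n).mul_left _), ← tsum_mul_left]
    refine tsum_congr fun m => ?_
    by_cases hm : Even m.2
    · have he : ev m = 1 := by simp [ev, hm]
      have := LT2_point hn hm
      unfold LT2_t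
      simp only [h1, he, one_mul]
      rw [mul_div_assoc, mul_assoc, this]
    · have he : ev m = 0 := by simp [ev, hm]
      simp [LT2_t, he]
  rw [tu, tt, f0 hn]
  ring

theorem TS_eq : TS = -Complex.I * UU := by
  have hT : TS = ∑' q, LT2_t q := rfl
  have hU : UU = ∑' q, LT2_u q := rfl
  rw [hT, hU, LT2_t_summable.tsum_prod, LT2_u_summable.tsum_prod, ← tsum_mul_left]
  exact tsum_congr LT2_inner

end EE7
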