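import Mathlib
import Pool.Agent.EE7.LFour

/-!
# EE7/LU: the value of `UU`

PROOF. (1) INDICATORS. With `1a(n) = [n.1 even]`, `1b(n) = [n.1 + n.2 even]`,
`12(n) = [n.1, n.2 even]`: `sg · od = 1a - 1b`, `od = 1a + 1b - 2·12` (check the four parity
classes). Reindexing: `Σ_n 1a(n) F(xx n) = Σ_m F(om · xx m)` (`om_mul_xx`:
`m ↦ (-2 m.2, m.1 + m.2)` is a bijection onto `{n.1 even}`), `Σ_n 1b(n) F(xx n) = Σ_m F(ob · xx m)`
(`ob_mul_xx`), `Σ_n 12(n) F(xx n) = Σ_m F(2 · xx m)`.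
So (all sums absolutely convergent, `summ_KK`)
`UU = SS om om - SS ob ob + SS om ob - SS ob om - 4 SS om 2 + 4 SS ob 2`.
(2) `SS_scale` with `c = om` (`om² ob⁴ = 4 ob²`, `1/(4 ob²) = om²/16`):
`SS om om = (om²/16) SS 1 1`, `SS om 2 = (om²/16) SS 1 ob` (`2 = om ob`), and with `c = ob`:
`SS ob ob = (ob²/16) SS 1 1`, `SS ob 2 = (ob²/16) SS 1 om`.
(3) With `p = SS om ob`, `q = SS 1 ob`, `r = SS 1 om`, `swap_11`, `swap_ab`, `swap_a1`:
`UU = -(om²-ob²)/32 EE + 2 p + EE/64 - (om²/4) q + (ob²/4) r`, `om² - ob² = om - ob = rt`, and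
`rel` becomes `4 ob² p - 2 q + (ob⁴/2) r = -EE (1/4 + ob/2)`. Multiply `rel` by `om²/8`
(`om² ob² = 4`, `om² ob⁴ = 4 ob²`): `2 p - (om²/4) q + (ob²/4) r = -EE (om²/32 + om² ob/16)`. So
`UU = EE [-rt/32 + 1/64 - om²/32 - om² ob/16]`, `om² = om - 2`, `om² ob = 2 om`, `om = (1+rt)/2`:
`= -(7 rt/64) EE`. (Checked numerically.)
-/

namespace EE7

/-- `[n.1 even]` -/
noncomputable def LU_a (n : ℤ × ℤ) : ℂ := if Even n.1 then 1 else 0

/-- `[n.1 + n.2 even]` -/
noncomputable def LU_b (n : ℤ × ℤ) : ℂ := if Even (n.1 + n.2) then 1 else 0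

/-- `[n.1, n.2 even]` -/
noncomputable def LU_c (n : ℤ × ℤ) : ℂ := if Even n.1 ∧ Even n.2 then 1 else 0

/-- an indicator together with a parametrisation of its support by multiplication -/
structure LU_Ind (c : ℂ) (I : ℤ × ℤ → ℂ) (f : ℤ × ℤ → ℤ × ℤ) : Prop where
  inj : Function.Injective f
  mul : ∀ n, xx (f n) = c * xx n
  one : ∀ n, I (f n) = 1
  zero : ∀ n, n ∉ Set.range f → I n = 0

lemma LU_sgod (n : ℤ × ℤ) : sg n * od n = LU_a n - LU_b n := by
  unfold sg od LU_a LU_b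
  rcases Int.even_or_odd n.1 with h1 | h1 <;> rcases Int.even_or_odd n.2 with h2 | h2
  · have h3 : Even (n.1 + n.2) := h1.add h2
    simp [h1, h2, h3]
  · have h3 : ¬ Even (n.1 + n.2) := by
      rw [Int.not_even_iff_odd]; exact h1.add_odd h2
    simp [h1, Int.not_even_iff_odd.2 h2, h3]
  · have h3 : ¬ Even (n.1 + n.2) := by
      rw [Int.not_even_iff_odd]; exact h1.add_even h2
    simp [Int.not_even_iff_odd.2 h1, h2, h3]
  · have h3 : Even (n.1 + n.2) := h1.add_odd h2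
    simp [Int.not_even_iff_odd.2 h1, Int.not_even_iff_odd.2 h2, h3]

lemma LU_od (n : ℤ × ℤ) : od n = LU_a n + LU_b n - 2 * LU_c n := by
  unfold od LU_a LU_b LU_c
  rcases Int.even_or_odd n.1 with h1 | h1 <;> rcases Int.even_or_odd n.2 with h2 | h2
  · have h3 : Even (n.1 + n.2) := h1.add h2
    simp only [h1, h2, h3, if_true, and_self]
    norm_num
  · have h3 : ¬ Even (n.1 + n.2) := by
      rw [Int.not_even_iff_odd]; exact h1.add_odd h2
    simp [h1, Int.not_even_iff_odd.2 h2, h3]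
  · have h3 : ¬ Even (n.1 + n.2) := by
      rw [Int.not_even_iff_odd]; exact h1.add_even h2
    simp [Int.not_even_iff_odd.2 h1, h2, h3]
  · have h3 : Even (n.1 + n.2) := h1.add_odd h2
    simp [Int.not_even_iff_odd.2 h1, Int.not_even_iff_odd.2 h2, h3]

lemma LU_ind_a : LU_Ind om LU_a (fun n => (-2 * n.2, n.1 + n.2)) where
  inj n m h := by
    rw [Prod.mk.injEq] at h
    exact Prod.ext (by omega) (by omega)
  mul n := (om_mul_xx n).symm
  one n := by
    unfold LU_a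
    rw [if_pos]
    exact ⟨-n.2, by ring⟩
  zero n hn := by
    unfold LU_a
    rw [if_neg]
    rintro ⟨k, hk⟩
    exact hn ⟨(n.2 + k, -k), Prod.ext (by simp only; omega) (by simp only; omega)⟩

lemma LU_ind_b : LU_Ind ob LU_b (fun n => (n.1 + 2 * n.2, -n.1)) where
  inj n m h := by
    rw [Prod.mk.injEq] at h
    exact Prod.ext (by omega) (by omega)
  mul n := (ob_mul_xx n).symm
  one n := by
    unfold LU_b
    rw [if_pos]
    exact ⟨n.2, by ring⟩
  zero n hn := by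
    unfold LU_b
    rw [if_neg]
    rintro ⟨k, hk⟩
    exact hn ⟨(-n.2, k), Prod.ext (by simp only; omega) (by simp only; omega)⟩

lemma LU_ind_c : LU_Ind 2 LU_c (fun n => (2 * n.1, 2 * n.2)) where
  inj n m h := by
    rw [Prod.mk.injEq] at h
    exact Prod.ext (by omega) (by omega)
  mul n := (two_mul_xx n).symm
  one n := by
    unfold LU_c
    rw [if_pos]
    exact ⟨⟨n.1, by ring⟩, ⟨n.2, by ring⟩⟩
  zero n hn := by
    unfold LU_c
    rw [if_neg]
    rintro ⟨⟨k, hk⟩, ⟨l, hl⟩⟩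
    exact hn ⟨(k, l), Prod.ext (by simp only; omega) (by simp only; omega)⟩

lemma LU_ind_1 : LU_Ind 1 (fun _ => 1) (fun n => n) where
  inj := Function.injective_id
  mul _ := (one_mul _).symm
  one _ := rfl
  zero n hn := absurd ⟨n, rfl⟩ hn

lemma LU_hasSum {c d : ℂ} {I J : ℤ × ℤ → ℂ} {f g : ℤ × ℤ → ℤ × ℤ} (hf : LU_Ind c I f)
    (hg : LU_Ind d J g) (K : ℂ → ℂ → ℂ)
    (hs : Summable fun q : (ℤ × ℤ) × (ℤ × ℤ) => K (c * xx q.1) (d * xx q.2)) :
    HasSum (fun q : (ℤ × ℤ) × (ℤ × ℤ) => I q.1 * J q.2 * K (xx q.1) (xx q.2))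
      (∑' q : (ℤ × ℤ) × (ℤ × ℤ), K (c * xx q.1) (d * xx q.2)) := by
  have hinj : Function.Injective (Prod.map f g) := hf.inj.prodMap hg.inj
  rw [← hinj.hasSum_iff]
  · refine hs.hasSum.congr_fun ?_
    intro q
    simp only [Function.comp_apply, Prod.map_fst, Prod.map_snd, hf.one, hg.one, hf.mul, hg.mul,
      one_mul]
  · intro q hq
    by_cases h1 : q.1 ∈ Set.range f
    · by_cases h2 : q.2 ∈ Set.range g
      · exfalso
        obtain ⟨a, ha⟩ := h1
        obtain ⟨b, hb⟩ := h2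
        exact hq ⟨(a, b), Prod.ext ha hb⟩
      · rw [hg.zero _ h2, mul_zero, zero_mul]
    · rw [hf.zero _ h1, zero_mul, zero_mul]

lemma LU_om : xx (0, 1) = om := by
  simp [xx_def]

lemma LU_ob : xx (1, -1) = ob := by
  rw [xx_def, ob]
  push_cast
  ring

lemma LU_x1 : xx (1, 0) = 1 := by
  simp [xx_def]

lemma LU_x2 : xx (2, 0) = 2 := by
  simp [xx_def]

lemma LU_su {c d : ℂ} {a b : ℤ × ℤ} (ha : a ≠ 0) (hb : b ≠ 0) (hc : xx a = c) (hd : xx b = d) :
    Summable (fun q : (ℤ × ℤ) × (ℤ × ℤ) => KK (c * xx q.1) (d * xx q.2)) := by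
  rw [← hc, ← hd]
  exact summ_KK ha hb

theorem UU_split : UU = SS om om - SS ob ob + SS om ob - SS ob om - 4 * SS om 2 + 4 * SS ob 2 := by
  have haa := LU_hasSum LU_ind_a LU_ind_a KK
    (LU_su (a := (0, 1)) (b := (0, 1)) (by decide) (by decide) LU_om LU_om)
  have hab := LU_hasSum LU_ind_a LU_ind_b KK
    (LU_su (a := (0, 1)) (b := (1, -1)) (by decide) (by decide) LU_om LU_ob)
  have hac := LU_hasSum LU_ind_a LU_ind_c KK
    (LU_su (a := (0, 1)) (b := (2, 0)) (by decide) (by decide) LU_om LU_x2)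
  have hba := LU_hasSum LU_ind_b LU_ind_a KK
    (LU_su (a := (1, -1)) (b := (0, 1)) (by decide) (by decide) LU_ob LU_om)
  have hbb := LU_hasSum LU_ind_b LU_ind_b KK
    (LU_su (a := (1, -1)) (b := (1, -1)) (by decide) (by decide) LU_ob LU_ob)
  have hbc := LU_hasSum LU_ind_b LU_ind_c KK
    (LU_su (a := (1, -1)) (b := (2, 0)) (by decide) (by decide) LU_ob LU_x2)
  have sa2 : Summable (fun q : (ℤ × ℤ) × (ℤ × ℤ) => KK (om * xx q.1) (2 * (1 * xx q.2))) := by
    refine (LU_su (a := (0, 1)) (b := (2, 0)) (by decide) (by decide) LU_om LU_x2).congr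
      fun q => ?_
    rw [one_mul]
  have sb2 : Summable (fun q : (ℤ × ℤ) × (ℤ × ℤ) => KK (ob * xx q.1) (2 * (1 * xx q.2))) := by
    refine (LU_su (a := (1, -1)) (b := (2, 0)) (by decide) (by decide) LU_ob LU_x2).congr
      fun q => ?_
    rw [one_mul]
  have ha1 := LU_hasSum LU_ind_a LU_ind_1 (fun s l => KK s (2 * l)) sa2
  have hb1 := LU_hasSum LU_ind_b LU_ind_1 (fun s l => KK s (2 * l)) sb2
  have e1 : ∑' q : (ℤ × ℤ) × (ℤ × ℤ), (fun s l => KK s (2 * l)) (om * xx q.1) (1 * xx q.2)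
      = SS om 2 := by
    rw [SS]
    refine tsum_congr fun q => ?_
    simp only [one_mul]
  have e2 : ∑' q : (ℤ × ℤ) × (ℤ × ℤ), (fun s l => KK s (2 * l)) (ob * xx q.1) (1 * xx q.2)
      = SS ob 2 := by
    rw [SS]
    refine tsum_congr fun q => ?_
    simp only [one_mul]
  rw [e1] at ha1
  rw [e2] at hb1
  have htot := ((((((haa.add hab).sub (hac.mul_left 2)).sub hba).sub hbb).add
    (hbc.mul_left 2)).sub (ha1.mul_left 2)).add (hb1.mul_left 2)
  have hU : UU = ∑' q : (ℤ × ℤ) × (ℤ × ℤ),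
      (LU_a q.1 * LU_a q.2 * KK (xx q.1) (xx q.2) + LU_a q.1 * LU_b q.2 * KK (xx q.1) (xx q.2)
        - 2 * (LU_a q.1 * LU_c q.2 * KK (xx q.1) (xx q.2))
        - LU_b q.1 * LU_a q.2 * KK (xx q.1) (xx q.2) - LU_b q.1 * LU_b q.2 * KK (xx q.1) (xx q.2)
        + 2 * (LU_b q.1 * LU_c q.2 * KK (xx q.1) (xx q.2))
        - 2 * (LU_a q.1 * 1 * KK (xx q.1) (2 * xx q.2))
        + 2 * (LU_b q.1 * 1 * KK (xx q.1) (2 * xx q.2))) := by
    rw [UU]
    refine tsum_congr fun q => ?_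
    rw [LU_sgod, LU_od]
    ring
  rw [hU, htot.tsum_eq]
  change SS om om + SS om ob - 2 * SS om 2 - SS ob om - SS ob ob + 2 * SS ob 2 - 2 * SS om 2
    + 2 * SS ob 2 = _
  ring

theorem UU_eq : UU = -(7 * MM7.rt / 64 * EE) := by
  have hq : om ^ 2 - om + 2 = 0 := by
    rw [om_sq]
    ring
  have hob : ob = 1 - om := rfl
  have n1 : om ^ 2 * cj om ^ 4 ≠ 0 := by
    rw [cj_om]
    exact mul_ne_zero (pow_ne_zero _ om_ne_zero) (pow_ne_zero _ ob_ne_zero)
  have n2 : ob ^ 2 * cj ob ^ 4 ≠ 0 := by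
    rw [cj_ob]
    exact mul_ne_zero (pow_ne_zero _ ob_ne_zero) (pow_ne_zero _ om_ne_zero)
  have inv1 : ∀ z : ℂ, z / (om ^ 2 * cj om ^ 4) = (om - 2) / 16 * z := by
    intro z
    rw [div_eq_iff n1, cj_om, hob]
    have h : (om - 2) / 16 * (om ^ 2 * (1 - om) ^ 4) = 1 := by
      have h1 : om ^ 2 * (1 - om) ^ 2 = 4 := by
        have h2 : om * (1 - om) = 2 := by linear_combination -hq
        calc om ^ 2 * (1 - om) ^ 2 = (om * (1 - om)) ^ 2 := by ring
          _ = 4 := by rw [h2]; norm_num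
      calc (om - 2) / 16 * (om ^ 2 * (1 - om) ^ 4)
          = (om ^ 2 * (1 - om) ^ 2) * ((om - 2) * (1 - om) ^ 2) / 16 := by ring
        _ = 4 * ((om - 2) * (1 - om) ^ 2) / 16 := by rw [h1]
        _ = 1 := by linear_combination (om / 4 - 3 / 4) * hq
    linear_combination -z * h
  have inv2 : ∀ z : ℂ, z / (ob ^ 2 * cj ob ^ 4) = (-1 - om) / 16 * z := by
    intro z
    rw [div_eq_iff n2, cj_ob, hob]
    have h : (-1 - om) / 16 * ((1 - om) ^ 2 * om ^ 4) = 1 := by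
      have h1 : om ^ 2 * (1 - om) ^ 2 = 4 := by
        have h2 : om * (1 - om) = 2 := by linear_combination -hq
        calc om ^ 2 * (1 - om) ^ 2 = (om * (1 - om)) ^ 2 := by ring
          _ = 4 := by rw [h2]; norm_num
      calc (-1 - om) / 16 * ((1 - om) ^ 2 * om ^ 4)
          = (om ^ 2 * (1 - om) ^ 2) * ((-1 - om) * om ^ 2) / 16 := by ring
        _ = 4 * ((-1 - om) * om ^ 2) / 16 := by rw [h1]
        _ = 1 := by linear_combination (-om / 4 - 1 / 2) * hq
    linear_combination -z * h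
  have e1 : SS om om = (om - 2) / 16 * SS 1 1 := by
    have h := SS_scale om_ne_zero 1 1
    rw [mul_one, inv1] at h
    exact h
  have e2 : SS om 2 = (om - 2) / 16 * SS 1 ob := by
    have h := SS_scale om_ne_zero 1 ob
    rw [mul_one, om_mul_ob, inv1] at h
    exact h
  have e3 : SS ob ob = (-1 - om) / 16 * SS 1 1 := by
    have h := SS_scale ob_ne_zero 1 1
    rw [mul_one, inv2] at h
    exact h
  have e4 : SS ob 2 = (-1 - om) / 16 * SS 1 om := by
    have h := SS_scale ob_ne_zero 1 om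
    rw [mul_one, mul_comm ob om, om_mul_ob, inv2] at h
    exact h
  have h11 := swap_11
  have hab := swap_ab
  have ha1 := swap_a1
  have hrel := rel
  have hrt : MM7.rt = 2 * om - 1 := by
    rw [← om_sub_ob, ob]
    ring
  rw [UU_split, e1, e2, e3, e4, hrt]
  have hb2 : ob ^ 2 = -1 - om := by
    rw [hob]
    linear_combination hq
  have hb4 : ob ^ 4 = 3 * om - 1 := by
    have : ob ^ 4 = (ob ^ 2) ^ 2 := by ring
    rw [this, hb2]
    linear_combination hq
  rw [hb2, hb4, hob] at hrel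
  rw [om_sq] at ha1
  rw [← hob] at hrel
  have hob2 : (ob : ℂ) = 1 - om := rfl
  generalize SS om ob = p at *
  generalize SS ob om = pb at *
  generalize SS 1 ob = qq at *
  generalize SS 1 om = r at *
  generalize SS om 1 = s at *
  generalize SS 1 1 = s11 at *
  rw [hob2] at hrel
  linear_combination (2 * om - 1) / 16 * h11 - hab + (om - 2) / 8 * hrel - (om + 1) / 4 * ha1
    + (p / 2 + 3 / 16 * s + EE / 16) * hq

end EE7
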