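import Mathlib
import Pool.Agent.EE7.Fej
import Pool.Agent.EE7.TorAe

/-!
# EE7/Pars: Parseval's formula for a bounded and an integrable function on `E × E`

PROOF. Let `K_N` be the kernel of `exists_kernel` and `J_N(a) = K_N(a.1) K_N(a.2)` on `E × E`
(`ai_prod`). `F_N(q) := ∫_a J_N(a) F(q + a)`, `|F_N| ≤ C`, and `F_N(q) → F(q)` at every point of
continuity of `F` (`ai_tendsto`, `E × E` has no atoms), so `∫ F_N g → ∫ F g` by dominated convergence.
On the other hand, with `e_k(q) = ch k.1 (cu q.1) ch k.2 (cu q.2)` (multiplicative: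
`e_k(q + a) = e_k(q) e_k(a)` by `per_cu_add`, `ch_per`, `ch_add`),
`J_N(a) = Σ_k κ_N(k.1) κ_N(k.2) e_k(a)` (finite sum) and `∫_a e_k(a) F(q + a) = e_{-k}(q) ∫ e_k F
= e_{-k}(q) fcc F (-k)` (translation invariance), so
`∫ F_N g = Σ_k κ_N(k.1) κ_N(k.2) fcc F (-k) fcc g k` (`fcc g k = ∫ g e_{-k}`). After `k ↦ -k` in the
limit, dominated convergence for series (`tendsto_tsum_of_dominated_convergence`, bound
`|fcc F (-k) fcc g k|`) gives the theorem.
-/

open MeasureTheory Set Filter Topology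

namespace EE7

/-- the characters of `E × E` -/
noncomputable def Pars_e (k : (ℤ × ℤ) × (ℤ × ℤ)) (q : E × E) : ℂ :=
  ch k.1 (cu q.1) * ch k.2 (cu q.2)

theorem Pars_e_add (k : (ℤ × ℤ) × (ℤ × ℤ)) (q a : E × E) :
    Pars_e k (q + a) = Pars_e k q * Pars_e k a := by
  unfold Pars_e
  rw [Prod.fst_add, Prod.snd_add, per_cu_add (ch_per k.1), per_cu_add (ch_per k.2), ch_add, ch_add]
  ring

theorem Pars_e_mul (k : (ℤ × ℤ) × (ℤ × ℤ)) (q : E × E) : Pars_e (-k) q * Pars_e k q = 1 := by
  unfold Pars_e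
  rw [Prod.fst_neg, Prod.snd_neg]
  linear_combination (ch k.2 (cu q.2) * ch (-k.2) (cu q.2)) * ch_mul_neg k.1 (cu q.1) +
    ch_mul_neg k.2 (cu q.2)

theorem Pars_e_norm (k : (ℤ × ℤ) × (ℤ × ℤ)) (q : E × E) : ‖Pars_e k q‖ = 1 := by
  unfold Pars_e
  rw [norm_mul, norm_ch, norm_ch, one_mul]

theorem Pars_e_cont (k : (ℤ × ℤ) × (ℤ × ℤ)) : Continuous (Pars_e k) :=
  ((continuous_ch_cu k.1).comp continuous_fst).mul ((continuous_ch_cu k.2).comp continuous_snd)

theorem Pars_fcc (F : E × E → ℂ) (k : (ℤ × ℤ) × (ℤ × ℤ)) :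
    fcc F k = ∫ q : E × E, F q * Pars_e (-k) q := rfl

theorem Pars_inv : (volume : Measure (E × E)).IsAddLeftInvariant := by
  have h1 : (volume : Measure E).IsAddLeftInvariant := by
    rw [Measure.volume_eq_prod]
    infer_instance
  have h2 : SFinite (volume : Measure E) := by
    rw [Measure.volume_eq_prod]
    infer_instance
  rw [Measure.volume_eq_prod]
  exact Measure.prod.instIsAddLeftInvariant

theorem Pars_ma : MeasurableAdd (E × E) :=
  (ContinuousAdd.measurableAdd : @MeasurableAdd (E × E) Prod.instMeasurableSpace _)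

theorem Pars_zero : (volume : Measure (E × E)) {0} = 0 := by
  have h1 : (volume : Measure E) {0} = 0 := by
    have h2 := ae_cu (S := {cu 0}) (countable_singleton _)
    rw [ae_iff] at h2
    refine measure_mono_null ?_ h2
    intro x hx
    simp only [mem_ofPred_eq, not_not]
    rw [mem_singleton_iff.1 hx]
    rfl
  have h2 : SFinite (volume : Measure E) := by
    rw [Measure.volume_eq_prod]
    infer_instance
  have h3 : ({0} : Set (E × E)) = {0} ×ˢ {0} := by
    rw [singleton_prod_singleton]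
    rfl
  rw [h3, Measure.volume_eq_prod, Measure.prod_prod, h1, zero_mul]

theorem Pars_trans (F : E × E → ℂ) (k : (ℤ × ℤ) × (ℤ × ℤ)) (q : E × E) :
    ∫ a : E × E, Pars_e k a * F (q + a) = Pars_e (-k) q * fcc F (-k) := by
  have h0 := Pars_inv
  have h9 := Pars_ma
  have h1 : ∀ a : E × E, Pars_e k a * F (q + a) =
      Pars_e (-k) q * (F (q + a) * Pars_e k (q + a)) := by
    intro a
    rw [Pars_e_add]
    linear_combination -(Pars_e k a * F (q + a)) * Pars_e_mul k q
  simp only [h1]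
  rw [integral_const_mul, Pars_fcc, neg_neg]
  congr 1
  exact integral_add_left_eq_self (μ := (volume : Measure (E × E)))
    (fun a => F a * Pars_e k a) q

theorem Pars_add_meas {F : E × E → ℂ} (hF : Measurable F) (q : E × E) :
    Measurable (fun a => F (q + a)) :=
  hF.comp (continuous_const.add continuous_id).measurable

theorem Pars_int {F : E × E → ℂ} (hFm : Measurable F) {C : ℝ} (hC : ∀ q, ‖F q‖ ≤ C)
    (q : E × E) {h : E × E → ℂ} (hh : Integrable h) : Integrable (fun a => h a * F (q + a)) :=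
  hh.mul_bdd (Pars_add_meas hFm q).aestronglyMeasurable
    (Eventually.of_forall fun a => hC (q + a))

theorem Pars_fin : IsFiniteMeasure (volume : Measure (E × E)) := by
  have h1 : IsFiniteMeasure (volume : Measure E) := by
    rw [Measure.volume_eq_prod]
    infer_instance
  rw [Measure.volume_eq_prod]
  exact Measure.prod.instIsFiniteMeasure _ _

theorem Pars_e_int (k : (ℤ × ℤ) × (ℤ × ℤ)) : Integrable (Pars_e k) := by
  have h0 := Pars_fin
  exact Integrable.of_bound (Pars_e_cont k).aestronglyMeasurable 1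
    (Eventually.of_forall fun q => (Pars_e_norm k q).le)

theorem Pars_sum {F : E × E → ℂ} (hFm : Measurable F) {C : ℝ} (hC : ∀ q, ‖F q‖ ≤ C)
    (T : Finset ((ℤ × ℤ) × (ℤ × ℤ))) (w : (ℤ × ℤ) × (ℤ × ℤ) → ℂ) (q : E × E) :
    ∫ a : E × E, (∑ k ∈ T, w k * Pars_e k a) * F (q + a) =
      ∑ k ∈ T, w k * (Pars_e (-k) q * fcc F (-k)) := by
  simp only [Finset.sum_mul]
  rw [integral_finsetSum T fun k _ => Pars_int hFm hC q ((Pars_e_int k).const_mul (w k))]
  refine Finset.sum_congr rfl fun k _ => ?_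
  rw [← Pars_trans F k q, ← integral_const_mul]
  congr 1
  funext a
  ring

theorem Pars_sum2 {F g : E × E → ℂ} (hg : Integrable g)
    (T : Finset ((ℤ × ℤ) × (ℤ × ℤ))) (w : (ℤ × ℤ) × (ℤ × ℤ) → ℂ) :
    ∫ q : E × E, (∑ k ∈ T, w k * (Pars_e (-k) q * fcc F (-k))) * g q =
      ∑ k ∈ T, w k * (fcc F (-k) * fcc g k) := by
  have hi : ∀ k, Integrable (fun q => Pars_e (-k) q * g q) := fun k =>
    hg.bdd_mul (c := 1) (Pars_e_cont (-k)).aestronglyMeasurable
      (Eventually.of_forall fun q => (Pars_e_norm (-k) q).le)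
  have h1 : ∀ q : E × E, (∑ k ∈ T, w k * (Pars_e (-k) q * fcc F (-k))) * g q =
      ∑ k ∈ T, (w k * fcc F (-k)) * (Pars_e (-k) q * g q) := by
    intro q
    rw [Finset.sum_mul]
    refine Finset.sum_congr rfl fun k _ => ?_
    ring
  simp only [h1]
  rw [integral_finsetSum T fun k _ => (hi k).const_mul (w k * fcc F (-k))]
  refine Finset.sum_congr rfl fun k _ => ?_
  rw [integral_const_mul, mul_assoc, Pars_fcc g k]
  congr 3
  funext q
  ring

theorem pars {F g : E × E → ℂ} (hFm : Measurable F) (hFb : ∃ C, ∀ q, ‖F q‖ ≤ C)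
    (hFc : ∀ᵐ q, ContinuousAt F q) (hg : Integrable g)
    (hs : Summable (fun k : (ℤ × ℤ) × (ℤ × ℤ) => fcc F k * fcc g (-k))) :
    ∫ q, F q * g q = ∑' k : (ℤ × ℤ) × (ℤ × ℤ), fcc F k * fcc g (-k) := by
  obtain ⟨C, hC⟩ := hFb
  obtain ⟨K, s, κ, hK, hκ01, hκ1, hκs, hKe⟩ := exists_kernel
  have hsf : SFinite (volume : Measure E) := by
    rw [Measure.volume_eq_prod]
    infer_instance
  have hJ := ai_prod hK hK
  set J : ℕ → E × E → ℝ := fun N x => K N x.1 * K N x.2 with hJdef
  let w : ℕ → (ℤ × ℤ) × (ℤ × ℤ) → ℂ := fun N k => ((κ N k.1 * κ N k.2 : ℝ) : ℂ)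
  have hJe : ∀ N a, ((J N a : ℝ) : ℂ) = ∑ k ∈ s N ×ˢ s N, w N k * Pars_e k a := by
    intro N a
    simp only [hJdef]
    rw [Complex.ofReal_mul, hKe, hKe, Finset.sum_mul_sum, Finset.sum_product]
    refine Finset.sum_congr rfl fun i _ => Finset.sum_congr rfl fun j _ => ?_
    simp only [w, Pars_e]
    push_cast
    ring
  let FN : ℕ → E × E → ℂ := fun N q => ∑ k ∈ s N ×ˢ s N, w N k * (Pars_e (-k) q * fcc F (-k))
  have hFN : ∀ N q, ∫ a : E × E, ((J N a : ℝ) : ℂ) * F (q + a) = FN N q := by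
    intro N q
    simp only [hJe]
    exact Pars_sum hFm hC (s N ×ˢ s N) (w N) q
  have hJi : ∀ N, Integrable (J N) := fun N => ai_int hJ N
  have hFNb : ∀ N q, ‖FN N q‖ ≤ C := by
    intro N q
    rw [← hFN]
    have h1 : ∀ a, ‖((J N a : ℝ) : ℂ) * F (q + a)‖ ≤ J N a * C := by
      intro a
      rw [norm_mul, Complex.norm_real, Real.norm_of_nonneg (hJ.nonneg N a)]
      exact mul_le_mul_of_nonneg_left (hC _) (hJ.nonneg N a)
    have h2 := norm_integral_le_of_norm_le ((hJi N).mul_const C) (Eventually.of_forall h1)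
    rw [integral_mul_const, hJ.int_one N, one_mul] at h2
    exact h2
  have hFNc : ∀ N, Continuous (FN N) := by
    intro N
    exact continuous_finsetSum _ fun k _ =>
      continuous_const.mul ((Pars_e_cont (-k)).mul continuous_const)
  have hlim : ∀ q, ContinuousAt F q → Tendsto (fun N => FN N q) atTop (𝓝 (F q)) := by
    intro q hq
    simp only [← hFN]
    refine ai_tendsto hJ (F := fun a => F (q + a)) (Pars_add_meas hFm q) ⟨C, fun a => hC _⟩ ?_
      Pars_zero
    have h1 : Tendsto (fun a : E × E => q + a) (𝓝 0) (𝓝 q) := by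
      have h2 : Tendsto (fun a : E × E => q + a) (𝓝 0) (𝓝 (q + 0)) :=
        (continuous_const.add continuous_id).tendsto 0
      rwa [add_zero] at h2
    exact (hq.tendsto.comp h1).mono_left nhdsWithin_le_nhds
  have hD : Tendsto (fun N => ∫ q, FN N q * g q) atTop (𝓝 (∫ q, F q * g q)) := by
    refine tendsto_integral_of_dominated_convergence (fun q => C * ‖g q‖) ?_ ?_ ?_ ?_
    · intro N
      exact (hFNc N).aestronglyMeasurable.mul hg.aestronglyMeasurable
    · exact hg.norm.const_mul C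
    · intro N
      refine Eventually.of_forall fun q => ?_
      rw [norm_mul]
      exact mul_le_mul_of_nonneg_right (hFNb N q) (norm_nonneg _)
    · filter_upwards [hFc] with q hq
      exact (hlim q hq).mul_const (g q)
  have hT : ∀ N, ∫ q, FN N q * g q = ∑' k, w N k * (fcc F (-k) * fcc g k) := by
    intro N
    simp only [FN]
    rw [Pars_sum2 hg (s N ×ˢ s N) (w N), tsum_eq_sum]
    intro k hk
    have h1 : w N k = 0 := by
      simp only [w]
      rw [Finset.mem_product, not_and_or] at hk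
      rcases hk with hk | hk
      · rw [hκs N k.1 hk, zero_mul, Complex.ofReal_zero]
      · rw [hκs N k.2 hk, mul_zero, Complex.ofReal_zero]
    rw [h1, zero_mul]
  have hb : Summable (fun k => ‖fcc F (-k) * fcc g k‖) := by
    have h1 := ((Equiv.neg ((ℤ × ℤ) × (ℤ × ℤ))).summable_iff).2 hs.norm
    refine h1.congr fun k => ?_
    simp only [Function.comp_apply, Equiv.neg_apply, neg_neg]
  have hS : Tendsto (fun N => ∑' k, w N k * (fcc F (-k) * fcc g k)) atTop
      (𝓝 (∑' k, fcc F (-k) * fcc g k)) := by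
    refine tendsto_tsum_of_dominated_convergence hb ?_ ?_
    · intro k
      have h1 : Tendsto (fun N => w N k) atTop (𝓝 1) := by
        have h2 := ((hκ1 k.1).mul (hκ1 k.2)).ofReal
        simp only [mul_one, Complex.ofReal_one] at h2
        exact h2
      have h3 := h1.mul_const (fcc F (-k) * fcc g k)
      rw [one_mul] at h3
      exact h3
    · refine Eventually.of_forall fun N k => ?_
      rw [norm_mul]
      refine mul_le_of_le_one_left (norm_nonneg _) ?_
      simp only [w]
      rw [Complex.norm_real, Real.norm_of_nonneg (mul_nonneg (hκ01 N k.1).1 (hκ01 N k.2).1)]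
      exact mul_le_one₀ (hκ01 N k.1).2 (hκ01 N k.2).1 (hκ01 N k.2).2
  simp only [hT] at hD
  rw [tendsto_nhds_unique hD hS, ← (Equiv.neg ((ℤ × ℤ) × (ℤ × ℤ))).tsum_eq]
  refine tsum_congr fun k => ?_
  simp only [Equiv.neg_apply, neg_neg]

end EE7
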