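import Mathlib
import Pool.Agent.EE7.XDer
import Pool.Agent.EE7.DHat

/-!
# EE7/Sym: symmetries of the integral

PROOF. `g1(q) = ph (u + hp) ph (u + v)` (`u = cu q.1`, `v = cu q.2`) is integrable on `E × E`:
composition of `ph (u + hp) ph (v)` with the shear `mp_shear`; so are the other three products in
`JJ` (compose with `mp_neg2`, `mp_swap`). `BW (X u v)` is bounded, measurable (`BWX_meas`), and for
generic `q`: `X v u = X u v` (`X_symm`), `X u (-v) = X u v` (`P_neg`). Under `mp_swap`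
`∫ BW ph(v+hp) ph(u+v) = ∫ BW ph(u+hp) ph(u+v)`, `∫ BW (-ph(v+hp) ph(u-v)) = ∫ BW ph(u+hp) ph(u-v)`
(`ph_neg`), and under `mp_neg2` `∫ BW ph(u+hp) ph(u-v) = ∫ BW ph(u+hp) ph(u+v)`. Sum: `4 ∫ BW g1`.
`Dh_symm`: `mp_swap` and `X_symm`.
-/

open MeasureTheory Set

namespace EE7

lemma Sym_comp {T : E × E → E × E} (hT : MeasurePreserving T volume volume) {F : E × E → ℂ}
    (hF : Integrable F) : Integrable (fun q => F (T q)) ∧ ∫ q, F (T q) = ∫ q, F q := by
  constructor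
  · exact hT.integrable_comp_of_integrable hF
  · have h : AEStronglyMeasurable F (Measure.map T volume) := by
      rw [hT.map_eq]
      exact hF.aestronglyMeasurable
    rw [← integral_map hT.measurable.aemeasurable h, hT.map_eq]

theorem g1_int : Integrable (fun q : E × E => ph (cu q.1 + hp) * ph (cu q.1 + cu q.2)) := by
  have h1 : Integrable (fun q : E × E => ph (cu q.1 + hp) * ph (cu q.2 + 0)) :=
    (ph_shift_int hp).mul_prod (ph_shift_int 0)
  have h2 := (Sym_comp mp_shear h1).1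
  refine h2.congr (Filter.Eventually.of_forall fun q => ?_)
  simp only [add_zero]
  rw [per_cu_add ph_per]

lemma Sym_ph_neg (q : E × E) : ph (cu q.1 + cu (-q.2)) = ph (cu q.1 - cu q.2) := by
  have hP : Per (fun w => ph (cu q.1 + w)) := fun w n => by
    show ph (cu q.1 + (w + xx n)) = ph (cu q.1 + w)
    rw [← add_assoc, ph_per]
  have := per_cu_neg hP q.2
  rw [this, sub_eq_add_neg]

lemma Sym_X_neg (q : E × E) : X (cu q.1) (cu (-q.2)) = X (cu q.1) (cu q.2) := by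
  simp only [X]
  rw [per_cu_neg P_per, P_neg]

/-- the second product -/
lemma Sym_g2 : Integrable (fun q : E × E => ph (cu q.1 + hp) * ph (cu q.1 - cu q.2)) := by
  refine (Sym_comp mp_neg2 g1_int).1.congr (Filter.Eventually.of_forall fun q => ?_)
  show ph (cu q.1 + hp) * ph (cu q.1 + cu (-q.2)) = _
  rw [Sym_ph_neg]

lemma Sym_g3 : Integrable (fun q : E × E => ph (cu q.2 + hp) * ph (cu q.1 + cu q.2)) := by
  refine (Sym_comp mp_swap g1_int).1.congr (Filter.Eventually.of_forall fun q => ?_)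
  show ph (cu q.2 + hp) * ph (cu q.2 + cu q.1) = _
  rw [add_comm (cu q.2) (cu q.1)]

lemma Sym_g4 : Integrable (fun q : E × E => ph (cu q.2 + hp) * ph (cu q.1 - cu q.2)) := by
  refine ((Sym_comp mp_swap Sym_g2).1.neg).congr (Filter.Eventually.of_forall fun q => ?_)
  show -(ph (cu q.2 + hp) * ph (cu q.2 - cu q.1)) = _
  rw [← neg_sub (cu q.1) (cu q.2), ph_neg]
  ring

theorem JJ_int : Integrable (fun q : E × E => JJ (cu q.1) (cu q.2)) := by
  refine (((g1_int.add Sym_g2).add Sym_g3).sub Sym_g4).congr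
    (Filter.Eventually.of_forall fun q => ?_)
  simp only [Pi.add_apply, Pi.sub_apply, JJ]
  ring

lemma Sym_bw {g : E × E → ℂ} (hg : Integrable g) :
    Integrable (fun q : E × E => (BW (X (cu q.1) (cu q.2)) : ℂ) * g q) := by
  obtain ⟨C, _, hC⟩ := BW_bdd
  refine hg.bdd_mul (c := C) ?_ (Filter.Eventually.of_forall fun q => ?_)
  · exact (Complex.measurable_ofReal.comp BWX_meas).aestronglyMeasurable
  · rw [Complex.norm_real, Real.norm_eq_abs]
    exact hC _

theorem BWJJ_int :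
    Integrable (fun q : E × E => (BW (X (cu q.1) (cu q.2)) : ℂ) * JJ (cu q.1) (cu q.2)) :=
  Sym_bw JJ_int

lemma Sym_swap (g : E × E → ℂ) (hg : Integrable g) :
    ∫ q : E × E, (BW (X (cu q.1) (cu q.2)) : ℂ) * g (q.2, q.1) =
      ∫ q : E × E, (BW (X (cu q.1) (cu q.2)) : ℂ) * g q := by
  rw [← (Sym_comp mp_swap (Sym_bw hg)).2]
  refine integral_congr_ae ?_
  filter_upwards [ae_gen] with q hq
  show (BW (X (cu q.1) (cu q.2)) : ℂ) * g (q.2, q.1) =
    (BW (X (cu q.2) (cu q.1)) : ℂ) * g (q.2, q.1)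
  rw [X_symm hq]

lemma Sym_neg2 (g : E × E → ℂ) (hg : Integrable g) :
    ∫ q : E × E, (BW (X (cu q.1) (cu q.2)) : ℂ) * g (q.1, -q.2) =
      ∫ q : E × E, (BW (X (cu q.1) (cu q.2)) : ℂ) * g q := by
  rw [← (Sym_comp mp_neg2 (Sym_bw hg)).2]
  refine integral_congr_ae (Filter.Eventually.of_forall fun q => ?_)
  show (BW (X (cu q.1) (cu q.2)) : ℂ) * g (q.1, -q.2) =
    (BW (X (cu q.1) (cu (-q.2))) : ℂ) * g (q.1, -q.2)
  rw [Sym_X_neg]

theorem MJ_four : MJ = 4 * ∫ q : E × E, (BW (X (cu q.1) (cu q.2)) : ℂ) *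
    (ph (cu q.1 + hp) * ph (cu q.1 + cu q.2)) := by
  set I := ∫ q : E × E, (BW (X (cu q.1) (cu q.2)) : ℂ) *
    (ph (cu q.1 + hp) * ph (cu q.1 + cu q.2)) with hI
  have i2 : ∫ q : E × E, (BW (X (cu q.1) (cu q.2)) : ℂ) *
      (ph (cu q.1 + hp) * ph (cu q.1 - cu q.2)) = I := by
    rw [hI, ← Sym_neg2 _ g1_int]
    refine integral_congr_ae (Filter.Eventually.of_forall fun q => ?_)
    show (BW (X (cu q.1) (cu q.2)) : ℂ) * (ph (cu q.1 + hp) * ph (cu q.1 - cu q.2)) =
      (BW (X (cu q.1) (cu q.2)) : ℂ) * (ph (cu q.1 + hp) * ph (cu q.1 + cu (-q.2)))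
    rw [Sym_ph_neg]
  have i3 : ∫ q : E × E, (BW (X (cu q.1) (cu q.2)) : ℂ) *
      (ph (cu q.2 + hp) * ph (cu q.1 + cu q.2)) = I := by
    rw [hI, ← Sym_swap _ g1_int]
    refine integral_congr_ae (Filter.Eventually.of_forall fun q => ?_)
    show (BW (X (cu q.1) (cu q.2)) : ℂ) * (ph (cu q.2 + hp) * ph (cu q.1 + cu q.2)) =
      (BW (X (cu q.1) (cu q.2)) : ℂ) * (ph (cu q.2 + hp) * ph (cu q.2 + cu q.1))
    rw [add_comm (cu q.2) (cu q.1)]
  have i4 : ∫ q : E × E, (BW (X (cu q.1) (cu q.2)) : ℂ) *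
      (ph (cu q.2 + hp) * ph (cu q.1 - cu q.2)) = -I := by
    rw [← i2, ← Sym_swap _ Sym_g2, ← integral_neg]
    refine integral_congr_ae (Filter.Eventually.of_forall fun q => ?_)
    show (BW (X (cu q.1) (cu q.2)) : ℂ) * (ph (cu q.2 + hp) * ph (cu q.1 - cu q.2)) =
      -((BW (X (cu q.1) (cu q.2)) : ℂ) * (ph (cu q.2 + hp) * ph (cu q.2 - cu q.1)))
    rw [← neg_sub (cu q.2) (cu q.1), ph_neg]
    ring
  have hsum : MJ = (((∫ q : E × E, (BW (X (cu q.1) (cu q.2)) : ℂ) *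
      (ph (cu q.1 + hp) * ph (cu q.1 + cu q.2))) +
      ∫ q : E × E, (BW (X (cu q.1) (cu q.2)) : ℂ) *
      (ph (cu q.1 + hp) * ph (cu q.1 - cu q.2))) +
      ∫ q : E × E, (BW (X (cu q.1) (cu q.2)) : ℂ) *
      (ph (cu q.2 + hp) * ph (cu q.1 + cu q.2))) -
      ∫ q : E × E, (BW (X (cu q.1) (cu q.2)) : ℂ) *
      (ph (cu q.2 + hp) * ph (cu q.1 - cu q.2)) := by
    have a1 := Sym_bw g1_int
    have a2 := Sym_bw Sym_g2
    have a3 := Sym_bw Sym_g3
    have a4 := Sym_bw Sym_g4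
    have b1 := integral_add a1 a2
    have b2 := integral_add (a1.add a2) a3
    have b3 := integral_sub ((a1.add a2).add a3) a4
    simp only [Pi.add_apply] at b1 b2 b3
    rw [← b1, ← b2, ← b3]
    unfold MJ
    refine integral_congr_ae (Filter.Eventually.of_forall fun q => ?_)
    simp only [JJ]
    ring
  rw [hsum, i2, i3, i4]
  ring

theorem Dh_symm (n m : ℤ × ℤ) : Dh n m = Dh m n := by
  have hg : Integrable (fun q : E × E => ch (-m) (cu q.1) * ch (-n) (cu q.2)) := by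
    refine Continuous.integrable_of_hasCompactSupport ?_ (HasCompactSupport.of_compactSpace _)
    exact ((continuous_ch_cu _).comp continuous_fst).mul ((continuous_ch_cu _).comp continuous_snd)
  have h := Sym_swap _ hg
  unfold Dh
  simp only [mul_assoc]
  rw [← h]
  refine integral_congr_ae (Filter.Eventually.of_forall fun q => ?_)
  show (BW (X (cu q.1) (cu q.2)) : ℂ) * (ch (-n) (cu q.1) * ch (-m) (cu q.2)) =
    (BW (X (cu q.1) (cu q.2)) : ℂ) * (ch (-m) (cu q.2) * ch (-n) (cu q.1))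
  rw [mul_comm (ch (-n) (cu q.1))]

end EE7
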