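import Mathlib
import Pool.Agent.EE7.Pars
import Pool.Agent.EE7.Sym
import Pool.Agent.EE7.DHat0
import Pool.Agent.EE7.LT1

/-!
# EE7/PVal: the integral as a lattice sum

PROOF. `MJ_four` and `pars` with `F(q) = BW (X u v)`, `g(q) = ph (u + hp) ph (u + v)`,
`k = (n, m)`.
* `F`: measurable (`BWX_meas`), bounded (`BW_bdd`), continuous at generic points (`ae_gen`; `BW_cont`,
  and `X` is continuous at generic `(u, v)`; on the torus by `continuousAt_cu`-type argument in two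
  variables: locally `cu` can be replaced by a continuous lift, `P` is periodic).
* `fcc F (n, m) = Dh n m`.
* `fcc g (-(n, m)) = ∫∫ ph (u + hp) ph (u + v) ch n u ch m v`; `v ↦ v - u`:
  `= fc ph (-m) · ∫ ph (u + hp) ch (n - m) u = fc ph (-m) · sg (m - n) · fc ph (m - n)`
  (`fc_shift`, `ch_hp`), and by `fc_ph` this is
  `-16 od m · od (m - n) · sg (m - n)/(cj (xx m) (cj (xx m) - cj (xx n)))`.
  It vanishes unless `m.2` is odd and `n.2` is even.
* For `m.2` odd: `Dh n m = Dh m n` (`Dh_symm`) `= DF m n` if `n ≠ 0`, and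
  `Dh 0 m = -Σ_n DF m n` (`Dh_zero`).
* Summability of `Dh n m · fcc g (-(n,m))`: for `n ≠ 0` the terms are bounded by
  `C/(|m - n|³ |m + n|² |m|)` (as `|DF m n| ≤ C/(|m-n|²|m+n|²)`), `summ321`; for `n = 0` by
  `C |m|⁻² Σ_n |DF m n|`, summable because `Σ_{m,n} |m|⁻²|m-n|⁻²|m+n|⁻²` is (`summ222`).
So `MJ = 4 Σ = -64 Σ_{m odd} [Σ_{n ≠ 0} DF m n sg (m-n)/(m̄ (m̄ - n̄)) - (Σ_n DF m n) sg m/m̄²]
= -64 Σ_{m,n} od m DF m n [sg (m-n)/(m̄(m̄-n̄)) - sg m/m̄²] = -(256/cc²) TT`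
(`q.1 = m`, `q.2 = n` in `TT`; `DF = 4/cc² · ev · ..`; `tsum_prod`, `TT_summable`).
-/

open MeasureTheory Set

namespace EE7

noncomputable def PVal_F (q : E × E) : ℂ := (BW (X (cu q.1) (cu q.2)) : ℂ)

noncomputable def PVal_g (q : E × E) : ℂ := ph (cu q.1 + hp) * ph (cu q.1 + cu q.2)

theorem PVal_fcc_F (n m : ℤ × ℤ) : fcc PVal_F (n, m) = Dh n m := by
  unfold fcc Dh PVal_F
  congr 1
  funext q
  rw [mul_assoc]

theorem PVal_ph_meas : Measurable ph := by
  have h1 : Measurable (fun u : ℂ => Z (u + 1 / 2)) := Z_meas.comp (measurable_id.add_const _)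
  exact (Z_meas.const_mul 2).sub (h1.const_mul 2)

theorem PVal_F_meas : Measurable PVal_F := Complex.measurable_ofReal.comp BWX_meas

theorem PVal_F_bdd : ∃ C, ∀ q, ‖PVal_F q‖ ≤ C := by
  obtain ⟨C, _, hC⟩ := BW_bdd
  refine ⟨C, fun q => ?_⟩
  unfold PVal_F
  rw [Complex.norm_real, Real.norm_eq_abs]
  exact hC _

theorem PVal_cont {q : E × E} (h : Gen (cu q.1) (cu q.2)) : ContinuousAt PVal_F q := by
  have h1 : ContinuousAt (fun x : E => P (cu x + 1 / 2)) q.1 := by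
    have hper : Per (fun u => P (u + 1 / 2)) := by
      intro u n
      show P (u + xx n + 1 / 2) = P (u + 1 / 2)
      rw [show u + xx n + 1 / 2 = (u + 1 / 2) + xx n by ring]
      exact P_per _ n
    refine continuousAt_cu (F := fun u => P (u + 1 / 2)) hper ?_
    have h2 : Ofl (cu q.1 + 1 / 2) := (ofl_of_two h.1).2.1
    exact ContinuousAt.comp (g := P) (f := fun u : ℂ => u + 1 / 2) (P_deriv h2).continuousAt
      (by fun_prop)
  have h2 : ContinuousAt (fun x : E => P (cu x)) q.2 :=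
    continuousAt_cu P_per (P_deriv (ofl_of_two h.2.1).1).continuousAt
  have h3 : P (cu q.2) - e0 ≠ 0 := by
    intro h0
    exact (P_eq_e0 (ofl_of_two h.2.1).1).1 (sub_eq_zero.1 h0) (ofl_of_two h.2.1).2.1
  have h4 : ContinuousAt (fun q : E × E => X (cu q.1) (cu q.2)) q := by
    have h5 : ContinuousAt (fun q : E × E => P (cu q.1 + 1 / 2)) q :=
      ContinuousAt.comp (g := fun x : E => P (cu x + 1 / 2)) (f := Prod.fst) h1 continuousAt_fst
    have h6 : ContinuousAt (fun q : E × E => P (cu q.2)) q :=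
      ContinuousAt.comp (g := fun x : E => P (cu x)) (f := Prod.snd) h2 continuousAt_snd
    exact (h5.sub continuousAt_const).div (h6.sub continuousAt_const) h3
  exact ContinuousAt.comp (g := fun z : ℂ => (BW z : ℂ)) (f := fun q : E × E => X (cu q.1) (cu q.2))
    (Complex.continuous_ofReal.comp BW_cont).continuousAt h4

noncomputable def PVal_G (n m : ℤ × ℤ) (q : E × E) : ℂ :=
  (ph (cu q.1 + hp) * ch (n - m) (cu q.1)) * (ph (cu q.2) * ch m (cu q.2))

theorem PVal_G_meas (n m : ℤ × ℤ) : Measurable (PVal_G n m) := by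
  have h1 : Measurable (fun q : E × E => ph (cu q.1 + hp)) :=
    PVal_ph_meas.comp ((measurable_cu.comp measurable_fst).add_const _)
  have h2 : Measurable (fun q : E × E => ph (cu q.2)) :=
    PVal_ph_meas.comp (measurable_cu.comp measurable_snd)
  have h3 : Measurable (fun q : E × E => ch (n - m) (cu q.1)) :=
    (continuous_ch_cu (n - m)).measurable.comp measurable_fst
  have h4 : Measurable (fun q : E × E => ch m (cu q.2)) :=
    (continuous_ch_cu m).measurable.comp measurable_snd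
  exact (h1.mul h3).mul (h2.mul h4)

theorem PVal_G_shear (n m : ℤ × ℤ) (q : E × E) : PVal_G n m (q.1, q.1 + q.2) =
    PVal_g q * (ch (-(-(n, m)).1) (cu q.1) * ch (-(-(n, m)).2) (cu q.2)) := by
  unfold PVal_G PVal_g
  simp only [Prod.fst_neg, Prod.snd_neg, neg_neg]
  rw [per_cu_add ph_per, per_cu_add (ch_per m), ch_add]
  have h1 : ch n (cu q.1) = ch (n - m) (cu q.1) * ch m (cu q.1) := by
    rw [← ch_idx_add, sub_add_cancel]
  rw [h1]
  ring

theorem PVal_od_neg (m : ℤ × ℤ) : od (-m) = od m := by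
  unfold od
  simp only [Prod.snd_neg, even_neg]

theorem PVal_fcc_g (n m : ℤ × ℤ) : fcc PVal_g (-(n, m)) =
    -(16 * od m * od (m - n) * sg (m - n) / (cj (xx m) * (cj (xx m) - cj (xx n)))) := by
  have h1 : fcc PVal_g (-(n, m)) = ∫ q : E × E, PVal_G n m (q.1, q.1 + q.2) := by
    unfold fcc
    congr 1
    funext q
    exact (PVal_G_shear n m q).symm
  have h2 : ∫ q : E × E, PVal_G n m (q.1, q.1 + q.2) = ∫ q : E × E, PVal_G n m q := by
    have h3 := mp_shear.map_eq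
    have h4 : AEStronglyMeasurable (PVal_G n m)
        (Measure.map (fun q : E × E => (q.1, q.1 + q.2)) volume) :=
      (PVal_G_meas n m).aestronglyMeasurable
    have h5 := integral_map mp_shear.aemeasurable h4
    rw [h3] at h5
    exact h5.symm
  have h3 : ∫ q : E × E, PVal_G n m q =
      (∫ x : E, ph (cu x + hp) * ch (n - m) (cu x)) * ∫ y : E, ph (cu y) * ch m (cu y) := by
    unfold PVal_G
    have hsf : SFinite (volume : Measure E) := by
      rw [Measure.volume_eq_prod]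
      infer_instance
    rw [Measure.volume_eq_prod]
    exact integral_prod_mul (fun x : E => ph (cu x + hp) * ch (n - m) (cu x))
      (fun y : E => ph (cu y) * ch m (cu y))
  have h4 : ∫ x : E, ph (cu x + hp) * ch (n - m) (cu x) = sg (m - n) * fc ph (m - n) := by
    rw [← ch_hp, ← fc_shift ph_per hp (m - n)]
    unfold fc
    rw [neg_sub]
  have h5 : ∫ y : E, ph (cu y) * ch m (cu y) = fc ph (-m) := by
    unfold fc
    rw [neg_neg]
  rw [h1, h2, h3, h4, h5, fc_ph, fc_ph, PVal_od_neg, xx_neg, cj_neg, xx_sub, cj_sub]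
  rw [div_neg, neg_neg, mul_comm (cj (xx m)), ← div_div]
  ring

/-- the term with the factor `sg m / m̄²` -/
noncomputable def PVal_B (q : (ℤ × ℤ) × (ℤ × ℤ)) : ℂ :=
  od q.1 * DF q.1 q.2 * (sg q.1 / cj (xx q.1) ^ 2)

/-- the other term -/
noncomputable def PVal_A (q : (ℤ × ℤ) × (ℤ × ℤ)) : ℂ :=
  od q.1 * DF q.1 q.2 * (sg (q.1 - q.2) / (cj (xx q.1) * (cj (xx q.1) - cj (xx q.2))))

/-- the term of `TT` -/
noncomputable def PVal_T (q : (ℤ × ℤ) × (ℤ × ℤ)) : ℂ := od q.1 * ev q.2 *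
    (((xx q.2 ^ 2 * cj (xx q.1) ^ 2).im : ℝ) : ℂ) /
      (xx q.1 * cj (xx q.1) * (xx q.2 * cj (xx q.2)) *
        ((xx q.1 ^ 2 - xx q.2 ^ 2) * (cj (xx q.1) ^ 2 - cj (xx q.2) ^ 2))) *
    (sg (q.1 - q.2) / (cj (xx q.1) * (cj (xx q.1) - cj (xx q.2))) - sg q.1 / cj (xx q.1) ^ 2)

theorem PVal_AB (q : (ℤ × ℤ) × (ℤ × ℤ)) :
    PVal_A q - PVal_B q = 4 / (cc : ℂ) ^ 2 * PVal_T q := by
  unfold PVal_A PVal_B PVal_T DF
  ring

theorem PVal_od_norm (n : ℤ × ℤ) : ‖od n‖ ≤ 1 := by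
  unfold od
  split_ifs <;> simp

theorem PVal_ev_norm (n : ℤ × ℤ) : ‖ev n‖ ≤ 1 := by
  unfold ev
  split_ifs <;> simp

theorem PVal_sg_norm (n : ℤ × ℤ) : ‖sg n‖ = 1 := by
  unfold sg
  split_ifs <;> simp

theorem PVal_DF_bound (n m : ℤ × ℤ) :
    ‖DF n m‖ ≤ 4 / cc ^ 2 * (1 / (‖xx n - xx m‖ ^ 2 * ‖xx n + xx m‖ ^ 2)) := by
  have hc := cc_pos
  have hR : 0 ≤ 4 / cc ^ 2 * (1 / (‖xx n - xx m‖ ^ 2 * ‖xx n + xx m‖ ^ 2)) := by positivity
  by_cases hn : n = 0
  · have : DF n m = 0 := by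
      unfold DF
      rw [hn, xx_zero, cj_zero]
      simp
    rw [this, norm_zero]
    exact hR
  by_cases hm : m = 0
  · have : DF n m = 0 := by
      unfold DF
      rw [hm, xx_zero, cj_zero]
      simp
    rw [this, norm_zero]
    exact hR
  have hn0 : 0 < ‖xx n‖ := norm_pos_iff.2 fun h => hn (xx_eq_zero.1 h)
  have hm0 : 0 < ‖xx m‖ := norm_pos_iff.2 fun h => hm (xx_eq_zero.1 h)
  unfold DF
  rw [norm_div, norm_mul, norm_mul, norm_div, norm_pow, norm_mul, norm_mul, norm_mul, norm_mul,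
    norm_mul, norm_cj, norm_cj, Complex.norm_real, Complex.norm_real]
  have h4 : ‖(4 : ℂ)‖ = 4 := by norm_num
  have h5 : ‖(cc : ℝ)‖ = cc := by rw [Real.norm_eq_abs, abs_of_pos hc]
  have h6 : xx n ^ 2 - xx m ^ 2 = (xx n - xx m) * (xx n + xx m) := by ring
  have h7 : cj (xx n) ^ 2 - cj (xx m) ^ 2 = cj ((xx n - xx m) * (xx n + xx m)) := by
    rw [cj_mul, cj_sub, cj_add]
    ring
  rw [h4, h5, h6, h7, norm_cj, norm_mul]
  have h8 : ‖((xx m ^ 2 * cj (xx n) ^ 2).im : ℝ)‖ ≤ ‖xx m‖ ^ 2 * ‖xx n‖ ^ 2 := by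
    rw [Real.norm_eq_abs]
    refine (Complex.abs_im_le_norm _).trans (le_of_eq ?_)
    rw [norm_mul, norm_pow, norm_pow, norm_cj]
  have h9 := PVal_ev_norm m
  set a := ‖xx n - xx m‖
  set b := ‖xx n + xx m‖
  set x := ‖xx n‖
  set y := ‖xx m‖
  have ha : 0 ≤ a := norm_nonneg _
  have hb : 0 ≤ b := norm_nonneg _
  calc ‖ev m‖ * (4 / cc ^ 2) * ‖((xx m ^ 2 * cj (xx n) ^ 2).im : ℝ)‖ /
        (x * x * (y * y) * (a * b * (a * b)))
      ≤ 1 * (4 / cc ^ 2) * (y ^ 2 * x ^ 2) / (x * x * (y * y) * (a * b * (a * b))) := by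
        gcongr
    _ = 4 / cc ^ 2 * (1 / (a ^ 2 * b ^ 2)) := by
        have e1 : x * x * (y * y) * (a * b * (a * b)) = (y ^ 2 * x ^ 2) * (a ^ 2 * b ^ 2) := by ring
        rw [e1, one_mul, mul_div_assoc, ← div_div, div_self (by positivity)]

theorem PVal_B_summable : Summable PVal_B := by
  have h1 := summ222 (a := (1, 0)) (b := (0, 0)) (c := (1, 0)) (d := (-1, 0)) (e := (1, 0))
    (f := (1, 0)) (by simp [xx_def]) (by simp [xx_def]) (by
      simp only [xx_def]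
      push_cast
      norm_num)
  refine Summable.of_norm_bounded (h1.mul_left (4 / cc ^ 2)) fun q => ?_
  have e1 : LF (1, 0) (0, 0) q = xx q.1 := by
    unfold LF
    simp [xx_def]
  have e2 : LF (1, 0) (-1, 0) q = xx q.1 - xx q.2 := by
    unfold LF
    rw [xx_def (1, 0), xx_def (-1, 0)]
    push_cast
    ring
  have e3 : LF (1, 0) (1, 0) q = xx q.1 + xx q.2 := by
    unfold LF
    rw [xx_def (1, 0)]
    push_cast
    ring
  rw [e1, e2, e3]
  unfold PVal_B
  rw [norm_mul, norm_mul, norm_div, norm_pow, norm_cj, PVal_sg_norm]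
  have h2 := PVal_DF_bound q.1 q.2
  have h3 := PVal_od_norm q.1
  have hc := cc_pos
  calc ‖od q.1‖ * ‖DF q.1 q.2‖ * (1 / ‖xx q.1‖ ^ 2)
      ≤ 1 * (4 / cc ^ 2 * (1 / (‖xx q.1 - xx q.2‖ ^ 2 * ‖xx q.1 + xx q.2‖ ^ 2))) *
        (1 / ‖xx q.1‖ ^ 2) := by gcongr
    _ = 4 / cc ^ 2 * (1 / (‖xx q.1‖ ^ 2 * ‖xx q.1 - xx q.2‖ ^ 2 * ‖xx q.1 + xx q.2‖ ^ 2)) := by
        have e4 : ‖xx q.1‖ ^ 2 * ‖xx q.1 - xx q.2‖ ^ 2 * ‖xx q.1 + xx q.2‖ ^ 2 =
            ‖xx q.1 - xx q.2‖ ^ 2 * ‖xx q.1 + xx q.2‖ ^ 2 * ‖xx q.1‖ ^ 2 := by ring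
        rw [one_mul, mul_assoc, div_mul_div_comm, one_mul, e4]

theorem PVal_A_summable : Summable PVal_A := by
  have h1 : Summable (fun q => 4 / (cc : ℂ) ^ 2 * PVal_T q) := TT_summable.mul_left _
  have h2 : PVal_A = fun q => 4 / (cc : ℂ) ^ 2 * PVal_T q + PVal_B q := by
    funext q
    rw [← PVal_AB]
    ring
  rw [h2]
  exact h1.add PVal_B_summable

/-- the part supported on `n = 0`; `k = (n, m)` -/
noncomputable def PVal_C (k : (ℤ × ℤ) × (ℤ × ℤ)) : ℂ :=
  if k.1 = 0 then 16 * ∑' j : ℤ × ℤ, PVal_B (k.2, j) else 0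

theorem PVal_inj : Function.Injective (fun m : ℤ × ℤ => ((0 : ℤ × ℤ), m)) :=
  fun _ _ h => congrArg Prod.snd h

theorem PVal_C_out (k : (ℤ × ℤ) × (ℤ × ℤ))
    (h : k ∉ Set.range (fun m : ℤ × ℤ => ((0 : ℤ × ℤ), m))) : PVal_C k = 0 := by
  unfold PVal_C
  rw [if_neg]
  intro h0
  exact h ⟨k.2, Prod.ext h0.symm rfl⟩

theorem PVal_C_comp : (PVal_C ∘ fun m : ℤ × ℤ => ((0 : ℤ × ℤ), m)) =
    fun m => 16 * ∑' j : ℤ × ℤ, PVal_B (m, j) := by
  funext m
  show PVal_C (0, m) = _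
  unfold PVal_C
  rw [if_pos rfl]

theorem PVal_C_summable : Summable PVal_C := by
  rw [← PVal_inj.summable_iff PVal_C_out, PVal_C_comp]
  exact (PVal_B_summable.prod).mul_left 16

theorem PVal_C_tsum : ∑' k, PVal_C k = 16 * ∑' q, PVal_B q := by
  rw [← PVal_inj.tsum_eq (f := PVal_C) (by
    intro k hk
    by_contra h
    exact hk (PVal_C_out k h))]
  have h1 := congrFun PVal_C_comp
  simp only [Function.comp] at h1
  simp only [h1]
  rw [tsum_mul_left, PVal_B_summable.tsum_prod]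

theorem PVal_term (k : (ℤ × ℤ) × (ℤ × ℤ)) : fcc PVal_F k * fcc PVal_g (-k) =
    -16 * PVal_A k.swap + PVal_C k := by
  obtain ⟨n, m⟩ := k
  rw [PVal_fcc_F, PVal_fcc_g]
  by_cases hm : Even m.2
  · have h0 : od m = 0 := by
      unfold od
      rw [if_pos hm]
    have h1 : PVal_C (n, m) = 0 := by
      unfold PVal_C PVal_B
      simp [h0]
    rw [h1]
    unfold PVal_A
    simp [h0]
  · have h0 : od m = 1 := by
      unfold od
      rw [if_neg hm]
    rw [Dh_symm]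
    by_cases hn : n = 0
    · subst hn
      rw [Dh_zero hm, sub_zero, h0, xx_zero, cj_zero, sub_zero]
      have h1 : PVal_A (Prod.swap ((0 : ℤ × ℤ), m)) = 0 := by
        unfold PVal_A DF
        simp [xx_zero, cj_zero]
      have h2 : PVal_C ((0 : ℤ × ℤ), m) =
          16 * ((∑' j : ℤ × ℤ, DF m j) * (sg m / cj (xx m) ^ 2)) := by
        unfold PVal_C PVal_B
        rw [if_pos rfl, ← tsum_mul_right]
        simp only [h0, one_mul]
      rw [h1, h2]
      ring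
    · rw [Dh_eq hm hn]
      have h1 : PVal_C (n, m) = 0 := by
        unfold PVal_C
        rw [if_neg hn]
      rw [h1, add_zero]
      unfold PVal_A
      show DF m n * _ = -16 * (od m * DF m n * (sg (m - n) / (cj (xx m) * (cj (xx m) - cj (xx n)))))
      by_cases he : Even n.2
      · have h2 : od (m - n) = 1 := by
          unfold od
          rw [if_neg]
          rw [Prod.snd_sub, Int.even_sub]
          tauto
        rw [h2, h0]
        ring
      · have h2 : DF m n = 0 := by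
          unfold DF ev
          rw [if_neg he]
          simp
        rw [h2]
        ring

theorem MJ_eq_TT : MJ = -(256 / (cc : ℂ) ^ 2 * TT) := by
  have hA : Summable (fun k : (ℤ × ℤ) × (ℤ × ℤ) => -16 * PVal_A k.swap) :=
    (((Equiv.prodComm _ _).summable_iff (f := PVal_A)).2 PVal_A_summable).mul_left (-16)
  have hs : Summable (fun k : (ℤ × ℤ) × (ℤ × ℤ) => fcc PVal_F k * fcc PVal_g (-k)) := by
    simp only [PVal_term]
    exact hA.add PVal_C_summable
  have hpar := pars PVal_F_meas PVal_F_bdd (ae_gen.mono fun q hq => PVal_cont hq) g1_int hs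
  rw [MJ_four]
  have h1 : ∫ q : E × E, (BW (X (cu q.1) (cu q.2)) : ℂ) *
      (ph (cu q.1 + hp) * ph (cu q.1 + cu q.2)) = ∑' k, fcc PVal_F k * fcc PVal_g (-k) := hpar
  rw [h1]
  simp only [PVal_term]
  rw [hA.tsum_add PVal_C_summable, PVal_C_tsum, tsum_mul_left]
  have h2 : ∑' k : (ℤ × ℤ) × (ℤ × ℤ), PVal_A k.swap = ∑' q, PVal_A q :=
    (Equiv.prodComm _ _).tsum_eq PVal_A
  have h3 : ∑' q, PVal_A q - ∑' q, PVal_B q = 4 / (cc : ℂ) ^ 2 * TT := by
    rw [← PVal_A_summable.tsum_sub PVal_B_summable]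
    simp only [PVal_AB]
    rw [tsum_mul_left]
    rfl
  rw [h2]
  linear_combination -64 * h3

end EE7
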