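import Mathlib
import Pool.Agent.EE7.HalfP

/-!
# EE7/RegPer: periodicity of the regulator integrand
-/

namespace EE7

lemma xf_per1 (v : ℂ) : Per (fun u => xf u v) := by
  intro u n
  simp only [xf]
  rw [show u + xx n + 1 / 2 = u + 1 / 2 + xx n by ring, P_per]

lemma xf_per2 (u : ℂ) : Per (fun v => xf u v) := by
  intro v n
  simp only [xf]
  rw [P_per]

lemma yf_per1 (v : ℂ) : Per (fun u => yf u v) := by
  intro u n
  simp only [yf]
  rw [show u + xx n + hp = u + hp + xx n by ring, P_per]

lemma yf_per2 (u : ℂ) : Per (fun v => yf u v) := by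
  intro v n
  simp only [yf]
  rw [show v + xx n + hp = v + hp + xx n by ring, P_per]

lemma zf_per1 (v : ℂ) : Per (fun u => zf u v) := by
  intro u n
  simp only [zf]
  rw [show u + xx n - v = u - v + xx n by ring, show u + xx n + v = u + v + xx n by ring,
    P_per, P_per]

lemma zf_per2 (u : ℂ) : Per (fun v => zf u v) := by
  intro v n
  simp only [zf]
  rw [show u - (v + xx n) = u - v + xx (-n) by rw [xx_neg]; ring,
    show u + (v + xx n) = u + v + xx n by ring, P_per, P_per]

lemma deriv_per {F : ℂ → ℂ} (hF : Per F) : Per (deriv F) := by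
  intro u n
  have h : (fun w => F (w + xx n)) = F := funext fun w => hF w n
  have h2 := deriv_comp_add_const F (xx n) u
  rw [h] at h2
  exact h2.symm

lemma wedge_per1 {f g : ℂ → ℂ → ℂ} (hf1 : ∀ v, Per (fun u => f u v)) (hg1 : ∀ v, Per (fun u => g u v))
    (v : ℂ) : Per (fun u => wedge f g u v) := by
  intro u n
  have e1 := deriv_per (hf1 v) u n
  have e2 := deriv_per (hg1 v) u n
  have e3 : (fun w => f (u + xx n) w) = fun w => f u w := funext fun w => hf1 w u n
  have e4 : (fun w => g (u + xx n) w) = fun w => g u w := funext fun w => hg1 w u n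
  have e5 : f (u + xx n) v = f u v := hf1 v u n
  have e6 : g (u + xx n) v = g u v := hg1 v u n
  simp only [wedge]
  rw [e1, e2, e3, e4, e5, e6]

lemma wedge_per2 {f g : ℂ → ℂ → ℂ} (hf2 : ∀ u, Per (fun v => f u v)) (hg2 : ∀ u, Per (fun v => g u v))
    (u : ℂ) : Per (fun v => wedge f g u v) := by
  intro v n
  have e1 := deriv_per (hf2 u) v n
  have e2 := deriv_per (hg2 u) v n
  have e3 : (fun w => f w (v + xx n)) = fun w => f w v := funext fun w => hf2 w v n
  have e4 : (fun w => g w (v + xx n)) = fun w => g w v := funext fun w => hg2 w v n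
  have e5 : f u (v + xx n) = f u v := hf2 u v n
  have e6 : g u (v + xx n) = g u v := hg2 u v n
  simp only [wedge]
  rw [e1, e2, e3, e4, e5, e6]

theorem Reg_per1 (v : ℂ) : Per (fun u => Reg u v) := by
  intro u n
  have h1 : xf (u + xx n) v = xf u v := xf_per1 v u n
  have h2 : yf (u + xx n) v = yf u v := yf_per1 v u n
  have h3 : zf (u + xx n) v = zf u v := zf_per1 v u n
  have h4 : wedge yf zf (u + xx n) v = wedge yf zf u v := wedge_per1 yf_per1 zf_per1 v u n
  have h5 : wedge zf xf (u + xx n) v = wedge zf xf u v := wedge_per1 zf_per1 xf_per1 v u n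
  have h6 : wedge xf yf (u + xx n) v = wedge xf yf u v := wedge_per1 xf_per1 yf_per1 v u n
  simp only [Reg]
  rw [h1, h2, h3, h4, h5, h6]

theorem Reg_per2 (u : ℂ) : Per (Reg u) := by
  intro v n
  have h1 : xf u (v + xx n) = xf u v := xf_per2 u v n
  have h2 : yf u (v + xx n) = yf u v := yf_per2 u v n
  have h3 : zf u (v + xx n) = zf u v := zf_per2 u v n
  have h4 : wedge yf zf u (v + xx n) = wedge yf zf u v := wedge_per2 yf_per2 zf_per2 u v n
  have h5 : wedge zf xf u (v + xx n) = wedge zf xf u v := wedge_per2 zf_per2 xf_per2 u v n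
  have h6 : wedge xf yf u (v + xx n) = wedge xf yf u v := wedge_per2 xf_per2 yf_per2 u v n
  simp only [Reg]
  rw [h1, h2, h3, h4, h5, h6]

end EE7
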