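import Mathlib
import Pool.Agent.EE7.Forms
import Pool.Agent.EE7.Sym

/-!
# EE7/Three: the three terms of the regulator have the same integral

PROOF. `G(q) = BW (X u v) · JJ u v` (`u = cu q.1`, `v = cu q.2`), integrable (`BWJJ_int`), and a.e.
(`ae_gen`; `wedge_yz_JJ`, `wedge_yz`, `BW (-xf u v) = BW (X u v)`)
`G(q) = H (xf u v)`, `H(x) = BW (-x) · 8 (e1-e2) (x-1)/(x+1)`.
The second term of `Reg` is `H (yf u v)` and the third one `H (zf u v)` (`wedge_zx`, `wedge_xy`).
* `yf u v = xf (u + hp) (v + hp + 1/2)` (`2 hp = ob ∈ O`, periodicity; `P (v + hp + 1) = P (v + hp)`;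
  `xf (u+hp) (v+hp+1/2) = -(P (u+hp+1/2) - e0)/(P (v+hp+1/2) - e0)` and
  `(P (w+1/2) - e0)(P w - e0) = CC` by `P_half`). So the second term is `G ∘ t1`, with the
  translation `t1(q) = (q.1 + pr hp, q.2 + pr (hp + 1/2))`, measure preserving (`mp_shift`).
* `zf u v = xf (u + v) (u - v + 1/2)` (again `P_half`), so the third term is `G ∘ t2`,
  `t2(q) = (q.1 + q.2, q.1 - q.2 + pr (1/2))`, measure preserving (`mp_t2`).
The three integrals are equal.
-/

open MeasureTheory Set

namespace EE7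

/-- the integrand in terms of the coordinate function -/
noncomputable def Three_H (x : ℂ) : ℂ := (BW (-x) : ℂ) * (8 * (e1 - e2) * ((x - 1) / (x + 1)))

/-- the integrand -/
noncomputable def Three_G (q : E × E) : ℂ :=
  (BW (X (cu q.1) (cu q.2)) : ℂ) * JJ (cu q.1) (cu q.2)

theorem Three_xf (u v : ℂ) : -xf u v = X u v := by
  rw [xf, X, neg_div, neg_neg]

theorem Three_G_eq {q : E × E} (h : Gen (cu q.1) (cu q.2)) :
    Three_G q = Three_H (xf (cu q.1) (cu q.2)) := by
  rw [Three_G, Three_H, Three_xf, ← wedge_yz_JJ h, wedge_yz h]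

theorem Three_xf_per1 (v : ℂ) : Per (fun u => xf u v) := by
  intro u n
  simp only [xf]
  rw [show u + xx n + 1 / 2 = (u + 1 / 2) + xx n by ring, P_per]

theorem Three_xf_per2 (u : ℂ) : Per (fun v => xf u v) := by
  intro v n
  simp only [xf]
  rw [P_per]

theorem Three_half {w : ℂ} (h : Ofl (2 * w)) : P (w + 1 / 2) - e0 = CC / (P w - e0) := by
  obtain ⟨h0, h1, -, -⟩ := ofl_of_two h
  rw [P_half h0 h1]
  ring

theorem Three_ne {w : ℂ} (h : Ofl (2 * w)) : P w - e0 ≠ 0 := by
  obtain ⟨h0, h1, -, -⟩ := ofl_of_two h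
  intro h'
  exact (P_eq_e0 h0).mp (sub_eq_zero.mp h') h1

theorem Three_yx {u v : ℂ} (h : Gen (u + hp) (v + (hp + 1 / 2))) :
    yf u v = xf (u + hp) (v + (hp + 1 / 2)) := by
  obtain ⟨h1, h2, -, -⟩ := h
  have h3 : Ofl (2 * (v + hp)) := by
    have h4 : (2 : ℂ) * (v + (hp + 1 / 2)) = 2 * (v + hp) + xx (1, 0) := by
      rw [xx_def]; push_cast; ring
    rw [h4, ofl_add] at h2
    exact h2
  have h5 := Three_half h1
  have h6 := Three_half h3
  rw [yf, xf, h5, show v + (hp + 1 / 2) = v + hp + 1 / 2 by ring, h6]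
  have n1 := Three_ne h1
  have n2 := Three_ne h3
  have n3 := CC_ne
  field_simp

theorem Three_zx {u v : ℂ} (h : Gen u v) :
    zf u v = xf (u + v) (u - v + 1 / 2) := by
  obtain ⟨-, -, h1, h2⟩ := h
  have h5 := Three_half h1
  have h6 := Three_half h2
  rw [zf, xf, h5, h6]
  have n1 := Three_ne h1
  have n2 := Three_ne h2
  have n3 := CC_ne
  field_simp

theorem Three_G_int : Integrable Three_G := BWJJ_int

/-- the translation -/
noncomputable def Three_t1 (q : E × E) : E × E := (q.1 + pr hp, q.2 + pr (hp + 1 / 2))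

/-- the second map -/
noncomputable def Three_t2 (q : E × E) : E × E := (q.1 + q.2, q.1 - q.2 + pr (1 / 2))

theorem Three_mp1 : MeasurePreserving Three_t1 volume volume := mp_shift _ _

theorem Three_mp2 : MeasurePreserving Three_t2 volume volume := mp_t2 _

theorem Three_term1 : ∀ᵐ q : E × E,
    (BW (-xf (cu q.1) (cu q.2)) : ℂ) * wedge yf zf (cu q.1) (cu q.2) = Three_G q := by
  filter_upwards [ae_gen] with q h
  rw [Three_G_eq h, Three_H, wedge_yz h]

theorem Three_term2 : ∀ᵐ q : E × E,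
    (BW (-yf (cu q.1) (cu q.2)) : ℂ) * wedge zf xf (cu q.1) (cu q.2) = Three_G (Three_t1 q) := by
  have h2 := Three_mp1.quasiMeasurePreserving.ae ae_gen
  filter_upwards [ae_gen, h2] with q h h'
  rw [Three_G_eq h', wedge_zx h, ← Three_H]
  congr 1
  have e1 : xf (cu (Three_t1 q).1) (cu (Three_t1 q).2) =
      xf (cu q.1 + hp) (cu q.2 + (hp + 1 / 2)) := by
    have a1 := per_cu_add_pr (Three_xf_per1 (cu (Three_t1 q).2)) q.1 hp
    have a2 := per_cu_add_pr (Three_xf_per2 (cu q.1 + hp)) q.2 (hp + 1 / 2)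
    exact a1.trans a2
  rw [e1]
  apply Three_yx
  obtain ⟨g1, g2, g3, g4⟩ := h'
  have key : ∀ a b : ℂ, pr a = pr b → Ofl a → Ofl b := by
    intro a b hab ha
    obtain ⟨n, hn⟩ := pr_eq_iff.mp hab
    rw [hn, ofl_add] at ha
    exact ha
  have c1 : pr (cu (Three_t1 q).1) = pr (cu q.1 + hp) := by
    rw [pr_cu, pr_add, pr_cu]; rfl
  have c2 : pr (cu (Three_t1 q).2) = pr (cu q.2 + (hp + 1 / 2)) := by
    rw [pr_cu, pr_add, pr_cu]; rfl
  refine ⟨key _ _ ?_ g1, key _ _ ?_ g2, key _ _ ?_ g3, key _ _ ?_ g4⟩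
  · rw [two_mul, two_mul, pr_add, pr_add (cu q.1 + hp), c1]
  · rw [two_mul, two_mul, pr_add, pr_add (cu q.2 + (hp + 1 / 2)), c2]
  · rw [two_mul, two_mul, pr_add, pr_add (cu q.1 + hp + (cu q.2 + (hp + 1 / 2))), pr_add,
      pr_add (cu q.1 + hp), c1, c2]
  · rw [two_mul, two_mul, pr_add, pr_add (cu q.1 + hp - (cu q.2 + (hp + 1 / 2))), pr_sub,
      pr_sub (cu q.1 + hp), c1, c2]

theorem Three_term3 : ∀ᵐ q : E × E,
    (BW (-zf (cu q.1) (cu q.2)) : ℂ) * wedge xf yf (cu q.1) (cu q.2) = Three_G (Three_t2 q) := by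
  have h2 := Three_mp2.quasiMeasurePreserving.ae ae_gen
  filter_upwards [ae_gen, h2] with q h h'
  rw [Three_G_eq h', wedge_xy h, ← Three_H]
  congr 1
  have e1 : xf (cu (Three_t2 q).1) (cu (Three_t2 q).2) =
      xf (cu q.1 + cu q.2) (cu q.1 - cu q.2 + 1 / 2) := by
    have a1 := per_cu_add (Three_xf_per1 (cu (Three_t2 q).2)) q.1 q.2
    have a2 := per_cu_add_pr (Three_xf_per2 (cu q.1 + cu q.2)) (q.1 - q.2) (1 / 2)
    have hP : Per (fun w => xf (cu q.1 + cu q.2) (w + 1 / 2)) := by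
      intro w n
      have := Three_xf_per2 (cu q.1 + cu q.2) (w + 1 / 2) n
      simp only at this ⊢
      rw [show w + xx n + 1 / 2 = w + 1 / 2 + xx n by ring, this]
    have a3 := per_cu_sub hP q.1 q.2
    exact (a1.trans a2).trans a3
  rw [e1]
  exact Three_zx h

theorem Reg_int : Integrable (fun q : E × E => Reg (cu q.1) (cu q.2)) := by
  have i1 := Three_G_int
  have i2 : Integrable (fun q => Three_G (Three_t1 q)) :=
    Three_mp1.integrable_comp_of_integrable Three_G_int
  have i3 : Integrable (fun q => Three_G (Three_t2 q)) :=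
    Three_mp2.integrable_comp_of_integrable Three_G_int
  refine ((i1.add i2).add i3).congr ?_
  filter_upwards [Three_term1, Three_term2, Three_term3] with q h1 h2 h3
  simp only [Pi.add_apply]
  rw [Reg, h1, h2, h3]

theorem Reg_eq : ∫ q : E × E, Reg (cu q.1) (cu q.2) = 3 * MJ := by
  have i1 := Three_G_int
  have i2 : Integrable (fun q => Three_G (Three_t1 q)) :=
    Three_mp1.integrable_comp_of_integrable Three_G_int
  have i3 : Integrable (fun q => Three_G (Three_t2 q)) :=
    Three_mp2.integrable_comp_of_integrable Three_G_int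
  have key : ∀ t : E × E → E × E, MeasurePreserving t volume volume →
      ∫ q, Three_G (t q) = ∫ q, Three_G q := by
    intro t ht
    have h1 : AEStronglyMeasurable Three_G (Measure.map t volume) := by
      rw [ht.map_eq]; exact Three_G_int.aestronglyMeasurable
    rw [← integral_map ht.measurable.aemeasurable h1, ht.map_eq]
  have h : ∫ q : E × E, Reg (cu q.1) (cu q.2) =
      ∫ q : E × E, ((Three_G q + Three_G (Three_t1 q)) + Three_G (Three_t2 q)) := by
    apply integral_congr_ae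
    filter_upwards [Three_term1, Three_term2, Three_term3] with q h1 h2 h3
    rw [Reg, h1, h2, h3]
  have i12 : Integrable (fun q => Three_G q + Three_G (Three_t1 q)) := i1.add i2
  rw [h, integral_add i12 i3, integral_add i1 i2, key _ Three_mp1, key _ Three_mp2]
  have : MJ = ∫ q, Three_G q := rfl
  rw [this]
  ring

end EE7
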