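import Mathlib
import Pool.Agent.EE7.Three
import Pool.Agent.EE7.PVal
import Pool.Agent.EE7.LT1
import Pool.Agent.EE7.LT2
import Pool.Agent.EE7.LU
import Pool.Agent.EE7.Box
import Pool.Agent.EE7.RegPer
import Pool.Agent.MM7L.Main

/-!
# EE7/Main: the value of the regulator integral
-/

open MeasureTheory Set

namespace EE7

lemma Main_conj_tsum (F : ℤ × ℤ → ℂ) : cj (∑' n, F n) = ∑' n, cj (F n) := Complex.conj_tsum F

theorem EE_eq : EE = MM7.E42 := by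
  have hr : cj MM7.E42 = MM7.E42 := Complex.conj_eq_iff_im.mpr MM7.E42_real
  rw [← hr]
  unfold EE MM7.E42
  rw [Main_conj_tsum]
  refine tsum_congr fun n => ?_
  simp only [cj, map_div₀, map_mul, map_pow, map_one, Complex.conj_conj]
  rw [mul_comm]

theorem cc_sq_c : (cc : ℂ) ^ 2 = 4 * (Real.pi : ℂ) ^ 2 / 7 := by
  have h := cc_sq
  have h2 : ((cc ^ 2 : ℝ) : ℂ) = ((4 * Real.pi ^ 2 / 7 : ℝ) : ℂ) := by rw [h]
  push_cast at h2
  exact h2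

theorem MJ_val : MJ = 49 * (√7 : ℝ) / (Real.pi : ℂ) ^ 2 * MM7.E42 := by
  rw [MJ_eq_TT, TT_eq_TS, TS_eq, UU_eq, EE_eq, cc_sq_c, MM7.rt]
  have hp : (Real.pi : ℂ) ≠ 0 := Complex.ofReal_ne_zero.mpr Real.pi_pos.ne'
  have hI : Complex.I ^ 2 = -1 := Complex.I_sq
  field_simp
  linear_combination (-12544 * MM7.E42) * hI

theorem Reg_val (L : ℂ → ℂ) (hL : Differentiable ℂ L)
    (h : ∀ s : ℂ, 2 < s.re → L s = MM7.Lser s) :
    ∫ q : E × E, Reg (cu q.1) (cu q.2) = -(32 * (Real.pi : ℂ) ^ 3 * deriv L (-1)) := by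
  rw [Reg_eq, MJ_val, MM7.L_deriv L hL h]
  have h7 : (7 : ℝ) ^ (5 / 2 : ℝ) = √7 ^ 5 := by
    rw [Real.sqrt_eq_rpow, ← Real.rpow_natCast, ← Real.rpow_mul (by norm_num)]
    norm_num
  have h5 : (√7 : ℝ) ^ 5 = 49 * √7 := by
    have := sqrt7_sq
    calc (√7 : ℝ) ^ 5 = (√7 ^ 2) ^ 2 * √7 := by ring
      _ = 49 * √7 := by rw [this]; norm_num
  rw [h7, h5]
  have hp : (Real.pi : ℂ) ≠ 0 := Complex.ofReal_ne_zero.mpr Real.pi_pos.ne'
  push_cast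
  rw [zpow_neg]
  norm_cast
  push_cast
  field_simp
  ring

end EE7
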