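import Mathlib
import Pool.Agent.EE7.LSumm

/-!
# EE7/NV: `E42 ≠ 0`

PROOF. `E42 = Σ_n 1/(x⁴ x̄²)`, `x = xx n`; the terms `n = ±(1,0)` are `1` each, `n = 0` gives `0`, and
the others have absolute value `1/N³`, `N = a² + a b + 2 b²` (`n = (a,b)`, `norm_sq_xx`). It is enough
that their sum `S` is `< 2` (then `Re E42 > 0`). Bounds used here:
* `b = 0`, `|a| ≥ 2`: `1/a⁶ ≤ (1/4) (1/a⁴)`, the sum is `≤ (1/4) (2 ζ(4) - 2) ≤ 0.05`.
* `a = 0`, `b ≠ 0`: `N = 2 b²`, `1/N³ ≤ (1/8) (1/b⁴)`, the sum is `≤ ζ(4)/4 ≤ 0.28`.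
* `a b ≠ 0`: `N ≥ (7/4) b²` and `N ≥ (7/4) |a| |b|`, so `N³ ≥ (343/64) a² b⁴` and the sum is
  `≤ (64/343) (2 ζ(2)) (2 ζ(4)) ≤ 1.34`.
Total `< 1.7 < 2`.
-/

namespace EE7

private noncomputable def NV_A (k : ℕ) (a : ℤ) : ℝ := 1 / (a : ℝ) ^ k

private noncomputable def NV_d (c a : ℤ) : ℝ := if a = c then 1 else 0

private lemma NV_A_sum {k : ℕ} (hk : Even k) (hk0 : k ≠ 0) {s : ℝ}
    (h : HasSum (fun n : ℕ => 1 / (n : ℝ) ^ k) s) : HasSum (NV_A k) (s + s) := by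
  have h1 : HasSum (fun n : ℕ => NV_A k (n : ℤ)) s := by
    refine h.congr_fun ?_
    intro n
    simp [NV_A]
  have h2 : HasSum (fun n : ℕ => NV_A k (-((n : ℤ) + 1))) s := by
    have h3 : HasSum (fun n : ℕ => 1 / ((n + 1 : ℕ) : ℝ) ^ k) s := by
      have h4 := (hasSum_nat_add_iff' (f := fun n : ℕ => 1 / (n : ℝ) ^ k) 1).2 h
      simpa [hk0] using h4
    refine h3.congr_fun ?_
    intro n
    simp only [NV_A]
    push_cast
    rw [Even.neg_pow hk]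
  exact h1.of_nat_of_neg_add_one h2

private lemma NV_A2 : HasSum (NV_A 2) (Real.pi ^ 2 / 6 + Real.pi ^ 2 / 6) :=
  NV_A_sum (by decide) (by norm_num) hasSum_zeta_two

private lemma NV_A4 : HasSum (NV_A 4) (Real.pi ^ 4 / 90 + Real.pi ^ 4 / 90) :=
  NV_A_sum (by decide) (by norm_num) hasSum_zeta_four

private lemma NV_dsum (c : ℤ) : HasSum (NV_d c) 1 := by
  unfold NV_d
  exact hasSum_ite_eq c 1

private lemma NV_A_nonneg {k : ℕ} (hk : Even k) (a : ℤ) : 0 ≤ NV_A k a := by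
  unfold NV_A
  have := hk.pow_nonneg (a : ℝ)
  positivity

private lemma NV_d_nonneg (c a : ℤ) : 0 ≤ NV_d c a := by
  unfold NV_d
  split_ifs <;> norm_num

/-- the bound for the sum without the two unit terms -/
private noncomputable def NV_g (p : ℤ × ℤ) : ℝ :=
  64 / 343 * (NV_A 2 p.1 * NV_A 4 p.2) + 1 / 8 * (NV_d 0 p.1 * NV_A 4 p.2) +
    (1 / 4 * (NV_A 4 p.1 * NV_d 0 p.2) - 1 / 4 * (NV_d 1 p.1 * NV_d 0 p.2)
      - 1 / 4 * (NV_d (-1) p.1 * NV_d 0 p.2))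

private lemma NV_mul {f g : ℤ → ℝ} {s t : ℝ} (hf : HasSum f s) (hg : HasSum g t)
    (h1 : ∀ a, 0 ≤ f a) (h2 : ∀ a, 0 ≤ g a) :
    HasSum (fun p : ℤ × ℤ => f p.1 * g p.2) (s * t) :=
  hf.mul hg (hf.summable.mul_of_nonneg hg.summable h1 h2)

private lemma NV_gsum : HasSum NV_g (64 / 343 * ((Real.pi ^ 2 / 6 + Real.pi ^ 2 / 6) *
    (Real.pi ^ 4 / 90 + Real.pi ^ 4 / 90)) + 1 / 8 * (1 * (Real.pi ^ 4 / 90 + Real.pi ^ 4 / 90)) +
    (1 / 4 * ((Real.pi ^ 4 / 90 + Real.pi ^ 4 / 90) * 1) - 1 / 4 * (1 * 1) - 1 / 4 * (1 * 1))) := by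
  have e2 : Even 2 := by decide
  have e4 : Even 4 := by decide
  exact (((NV_mul NV_A2 NV_A4 (NV_A_nonneg e2) (NV_A_nonneg e4)).mul_left (64 / 343)).add
    ((NV_mul (NV_dsum 0) NV_A4 (NV_d_nonneg 0) (NV_A_nonneg e4)).mul_left (1 / 8))).add
    ((((NV_mul NV_A4 (NV_dsum 0) (NV_A_nonneg e4) (NV_d_nonneg 0)).mul_left (1 / 4)).sub
      ((NV_mul (NV_dsum 1) (NV_dsum 0) (NV_d_nonneg 1) (NV_d_nonneg 0)).mul_left (1 / 4))).sub
      ((NV_mul (NV_dsum (-1)) (NV_dsum 0) (NV_d_nonneg (-1)) (NV_d_nonneg 0)).mul_left (1 / 4)))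

/-- indicator of the two units -/
private noncomputable def NV_u (p : ℤ × ℤ) : ℝ :=
  NV_d 1 p.1 * NV_d 0 p.2 + NV_d (-1) p.1 * NV_d 0 p.2

private lemma NV_usum : HasSum NV_u (1 * 1 + 1 * 1) :=
  (NV_mul (NV_dsum 1) (NV_dsum 0) (NV_d_nonneg 1) (NV_d_nonneg 0)).add
    (NV_mul (NV_dsum (-1)) (NV_dsum 0) (NV_d_nonneg (-1)) (NV_d_nonneg 0))

private lemma NV_bound (p : ℤ × ℤ) :
    1 / ((p.1 : ℝ) ^ 2 + p.1 * p.2 + 2 * (p.2 : ℝ) ^ 2) ^ 3 ≤ NV_u p + NV_g p := by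
  obtain ⟨a, b⟩ := p
  simp only
  by_cases hb : b = 0
  · subst hb
    by_cases h0 : a = 0
    · subst h0
      norm_num [NV_u, NV_g, NV_A, NV_d]
    · by_cases h1 : a = 1
      · subst h1
        norm_num [NV_u, NV_g, NV_A, NV_d]
      · by_cases h2 : a = -1
        · subst h2
          norm_num [NV_u, NV_g, NV_A, NV_d]
        · have h3 : 4 ≤ a ^ 2 := by
            have : 2 ≤ |a| := by
              rcases le_or_gt 0 a with h | h
              · rw [abs_of_nonneg h]; omega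
              · rw [abs_of_neg h]; omega
            nlinarith [sq_abs a]
          have h4 : (4 : ℝ) ≤ (a : ℝ) ^ 2 := by exact_mod_cast h3
          have e1 : NV_u (a, 0) + NV_g (a, 0) = 1 / 4 * (1 / (a : ℝ) ^ 4) := by
            simp [NV_u, NV_g, NV_A, NV_d, h0, h1, h2]
          rw [e1]
          have h5 : ((a : ℝ) ^ 2 + a * ((0 : ℤ) : ℝ) + 2 * (((0 : ℤ) : ℝ)) ^ 2) ^ 3 =
              (a : ℝ) ^ 4 * (a : ℝ) ^ 2 := by
            push_cast
            ring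
          rw [h5]
          have h6 : 0 < (a : ℝ) ^ 4 := by
            have : (a : ℝ) ≠ 0 := by exact_mod_cast h0
            positivity
          rw [← one_div_mul_one_div, mul_comm]
          apply mul_le_mul_of_nonneg_right _ (by positivity)
          exact one_div_le_one_div_of_le (by norm_num) h4
  · have hb1 : (1 : ℝ) ≤ (b : ℝ) ^ 2 := by
      have : 1 ≤ b ^ 2 := by
        have : 0 < b ^ 2 := by positivity
        omega
      exact_mod_cast this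
    have hbr : (b : ℝ) ≠ 0 := by exact_mod_cast hb
    by_cases h0 : a = 0
    · subst h0
      have e1 : NV_u (0, b) + NV_g (0, b) = 1 / 8 * (1 / (b : ℝ) ^ 4) := by
        simp [NV_u, NV_g, NV_A, NV_d, hb]
      rw [e1]
      have h5 : ((((0 : ℤ) : ℝ)) ^ 2 + ((0 : ℤ) : ℝ) * b + 2 * (b : ℝ) ^ 2) ^ 3 =
          8 * ((b : ℝ) ^ 4 * (b : ℝ) ^ 2) := by
        push_cast
        ring
      rw [h5, ← one_div_mul_one_div]
      apply mul_le_mul_of_nonneg_left _ (by norm_num)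
      apply one_div_le_one_div_of_le (by positivity)
      nlinarith [pow_pos (lt_of_lt_of_le one_pos hb1) 2, sq_nonneg ((b : ℝ) ^ 2)]
    · have har : (a : ℝ) ≠ 0 := by exact_mod_cast h0
      have e1 : NV_u (a, b) + NV_g (a, b) = 64 / 343 * (1 / (a : ℝ) ^ 2 * (1 / (b : ℝ) ^ 4)) := by
        simp [NV_u, NV_g, NV_A, NV_d, hb, h0]
      rw [e1]
      set x : ℝ := (a : ℝ) with hx
      set z : ℝ := (b : ℝ) with hz
      have hN1 : 7 / 4 * z ^ 2 ≤ x ^ 2 + x * z + 2 * z ^ 2 := by nlinarith [sq_nonneg (x + z / 2)]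
      have hN2 : 7 / 4 * |x * z| ≤ x ^ 2 + x * z + 2 * z ^ 2 := by
        rcases le_or_gt 0 (x * z) with h | h
        · rw [abs_of_nonneg h]
          nlinarith [sq_nonneg (x - z), sq_nonneg z]
        · rw [abs_of_neg h]
          nlinarith [sq_nonneg (x + 11 / 8 * z), sq_nonneg z]
      have hz2 : 0 < z ^ 2 := by positivity
      have hxz : 0 < |x * z| := abs_pos.2 (mul_ne_zero har hbr)
      have h7 : 343 / 64 * (x ^ 2 * z ^ 4) ≤ (x ^ 2 + x * z + 2 * z ^ 2) ^ 3 := by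
        have e : 343 / 64 * (x ^ 2 * z ^ 4) = (7 / 4 * |x * z|) ^ 2 * (7 / 4 * z ^ 2) := by
          rw [mul_pow, sq_abs]
          ring
        rw [e, pow_succ (x ^ 2 + x * z + 2 * z ^ 2) 2]
        exact mul_le_mul (pow_le_pow_left₀ (by positivity) hN2 2) hN1 (by positivity)
          (by positivity)
      calc 1 / (x ^ 2 + x * z + 2 * z ^ 2) ^ 3 ≤ 1 / (343 / 64 * (x ^ 2 * z ^ 4)) :=
            one_div_le_one_div_of_le (by positivity) h7
        _ = 64 / 343 * (1 / x ^ 2 * (1 / z ^ 4)) := by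
            field_simp

private lemma NV_norm (p : ℤ × ℤ) : ‖1 / (MM7.xx p ^ 4 * (starRingEnd ℂ (MM7.xx p)) ^ 2)‖ =
    1 / ((p.1 : ℝ) ^ 2 + p.1 * p.2 + 2 * (p.2 : ℝ) ^ 2) ^ 3 := by
  rw [← norm_sq_xx p, norm_div, norm_mul, norm_pow, norm_pow, RCLike.norm_conj, norm_one]
  ring

theorem E42_ne : MM7.E42 ≠ 0 := by
  have hs : Summable fun p : ℤ × ℤ => 1 / (MM7.xx p ^ 4 * (starRingEnd ℂ (MM7.xx p)) ^ 2) := by
    refine Summable.of_norm_bounded (NV_usum.add NV_gsum).summable fun p => ?_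
    rw [NV_norm]
    exact NV_bound p
  have h1 : HasSum (fun p : ℤ × ℤ => (1 / (MM7.xx p ^ 4 * (starRingEnd ℂ (MM7.xx p)) ^ 2)).re)
      MM7.E42.re := Complex.hasSum_re hs.hasSum
  have h2 : ∀ p : ℤ × ℤ, NV_u p - NV_g p ≤
      (1 / (MM7.xx p ^ 4 * (starRingEnd ℂ (MM7.xx p)) ^ 2)).re := by
    intro p
    by_cases hp : p = (1, 0) ∨ p = (-1, 0)
    · rcases hp with rfl | rfl
      · norm_num [NV_u, NV_g, NV_A, NV_d, MM7.xx]
      · norm_num [NV_u, NV_g, NV_A, NV_d, MM7.xx]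
    · push Not at hp
      have h3 := NV_bound p
      rw [← NV_norm] at h3
      have h4 : NV_u p = 0 := by
        obtain ⟨a, b⟩ := p
        simp only [NV_u, NV_d]
        by_cases hb : b = 0
        · subst hb
          have ha : a ≠ 1 := fun h => hp.1 (by rw [h])
          have ha' : a ≠ -1 := fun h => hp.2 (by rw [h])
          simp [ha, ha']
        · simp [hb]
      rw [h4] at h3 ⊢
      have h5 := (abs_le.1 (Complex.abs_re_le_norm
        (1 / (MM7.xx p ^ 4 * (starRingEnd ℂ (MM7.xx p)) ^ 2)))).1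
      linarith
  have h3 := hasSum_le h2 (NV_usum.sub NV_gsum) h1
  have hpi : Real.pi ^ 2 ≤ 9.87 := by
    have := Real.pi_lt_d4
    have := Real.pi_pos
    nlinarith
  have hpi0 : 0 < Real.pi ^ 2 := by positivity
  have hpi4 : Real.pi ^ 4 ≤ 97.42 := by
    have : Real.pi ^ 4 = Real.pi ^ 2 * Real.pi ^ 2 := by ring
    rw [this]
    nlinarith
  have hpi40 : 0 < Real.pi ^ 4 := by positivity
  have hprod : Real.pi ^ 2 * Real.pi ^ 4 ≤ 9.87 * 97.42 :=
    mul_le_mul hpi hpi4 hpi40.le (by norm_num)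
  intro h0
  rw [h0, Complex.zero_re] at h3
  nlinarith

end EE7
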